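import Mathlib
import Pool.Agent.Helper49.FTestDefs
import Pool.Agent.Helper49.FComb

/-! The divergence lemma. -/

set_option autoImplicit false
set_option linter.unusedSectionVars false

namespace Pool.Agent.Helper49.FA

open MeasureTheory Set Filter Topology Complex
open scoped ContDiff ComplexConjugate

namespace Div

variable {A B : Type} [Fintype A] [Fintype B] [DecidableEq A] [DecidableEq B]

theorem summable_int_weight : Summable fun n : ℤ => ((1 + |(n : ℝ)|) ^ 2)⁻¹ := by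
  have h : Summable fun n : ℕ => ((1 + (n : ℝ)) ^ 2)⁻¹ := by
    have h1 := (Real.summable_nat_pow_inv (p := 2)).2 (by norm_num)
    have h2 := (summable_nat_add_iff 1).2 h1
    refine h2.congr fun n => ?_
    push_cast
    rw [add_comm]
  apply Summable.of_nat_of_neg
  · refine h.congr fun n => ?_
    simp
  · refine h.congr fun n => ?_
    simp

/-- summable weight on `ℤ^A` -/
theorem summable_weight (A : Type) [Fintype A] [DecidableEq A] :
    Summable fun l : A → ℤ => ∏ a, ((1 + |(l a : ℝ)|) ^ 2)⁻¹ :=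
  summable_pi_prod (fun (_ : A) (n : ℤ) => ((1 + |(n : ℝ)|) ^ 2)⁻¹) (fun _ _ => by positivity)
    (fun _ => summable_int_weight)

/-- the phase function -/
def ph (β : B → (A → ℝ) → ℝ) (q : ((A → ℝ) × (B → ℝ)) × (A → ℝ)) : ℝ :=
  -(∑ a, q.1.1 a * q.2 a + ∑ b, q.1.2 b * β b q.2)

theorem contDiff_ph {β : B → (A → ℝ) → ℝ} (hβ : ∀ b, ContDiff ℝ ∞ (β b)) : ContDiff ℝ ∞ (ph β) := by
  unfold ph
  apply ContDiff.neg
  apply ContDiff.add
  · apply ContDiff.sum
    intro a _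
    exact ((contDiff_apply ℝ ℝ a).comp (contDiff_fst.comp contDiff_fst)).mul
      ((contDiff_apply ℝ ℝ a).comp contDiff_snd)
  · apply ContDiff.sum
    intro b _
    exact ((contDiff_apply ℝ ℝ b).comp (contDiff_snd.comp contDiff_fst)).mul
      ((hβ b).comp contDiff_snd)

theorem fderiv_ph {β : B → (A → ℝ) → ℝ} (hβ : ∀ b, ContDiff ℝ ∞ (β b)) (κ : (A → ℝ) × (B → ℝ))
    (y : A → ℝ) (a : A) :
    fderiv ℝ (ph β) (κ, y) (0, Pi.single a 1)
      = -(κ.1 a + ∑ b, κ.2 b * fderiv ℝ (β b) y (Pi.single a 1)) := by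
  have h1 : HasFDerivAt (ph β) (fderiv ℝ (ph β) (κ, y)) (κ, y) :=
    ((contDiff_ph hβ).differentiable (by simp)).differentiableAt.hasFDerivAt
  have hincl : HasFDerivAt (fun z : A → ℝ => (κ, z))
      ((0 : (A → ℝ) →L[ℝ] ((A → ℝ) × (B → ℝ))).prod (ContinuousLinearMap.id ℝ (A → ℝ))) y :=
    (hasFDerivAt_const κ y).prodMk (hasFDerivAt_id y)
  have h2 := h1.comp y hincl
  have h3 : HasFDerivAt (fun z : A → ℝ => -(∑ a, κ.1 a * z a + ∑ b, κ.2 b * β b z))
      (-(∑ a, κ.1 a • (ContinuousLinearMap.proj a : (A → ℝ) →L[ℝ] ℝ)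
        + ∑ b, κ.2 b • fderiv ℝ (β b) y)) y := by
    apply HasFDerivAt.neg
    apply HasFDerivAt.add
    · apply HasFDerivAt.fun_sum
      intro a _
      exact (hasFDerivAt_apply a y).const_mul (κ.1 a)
    · apply HasFDerivAt.fun_sum
      intro b _
      exact (((hβ b).differentiable (by simp)).differentiableAt.hasFDerivAt).const_mul (κ.2 b)
  have h4 := h2.unique h3
  have h5 := congrArg (fun L : (A → ℝ) →L[ℝ] ℝ => L (Pi.single a 1)) h4
  simp only [ContinuousLinearMap.comp_apply, ContinuousLinearMap.prod_apply,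
    zero_apply, ContinuousLinearMap.id_apply] at h5
  rw [h5]
  simp [Pi.single_apply]

theorem far_decay {β : B → (A → ℝ) → ℝ} (hβ : ∀ b, ContDiff ℝ ∞ (β b)) {K : Set (A → ℝ)}
    (hK : IsCompact K) {χ : (A → ℝ) → ℂ} (hχ : ContDiff ℝ ∞ χ) (hχK : ∀ y, y ∉ K → χ y = 0)
    {c : ℝ} (hc : 0 < c) (M : ℕ) :
    ∃ C : ℝ, 0 ≤ C ∧ ∀ (l : A → ℤ) (k : B → ℤ) (lam : ℝ), 0 < lam → (∀ a, |(l a : ℝ)| ≤ lam) →
      (∀ b, |(k b : ℝ)| ≤ lam) →
      (∃ a, ∀ y ∈ K, c * lam ≤ |(l a : ℝ) + ∑ b, (k b : ℝ) * fderiv ℝ (β b) y (Pi.single a 1)|) →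
      ‖∫ y, χ y * exp (-(I * ∑ b, (k b : ℂ) * (β b y : ℂ))) * chr (-l) y‖ ≤ C / lam ^ M := by
  have hχc : HasCompactSupport χ := HasCompactSupport.intro hK hχK
  have hts : tsupport χ ⊆ K := by
    apply closure_minimal _ hK.isClosed
    intro y hy
    by_contra hcon
    exact hy (hχK y hcon)
  set KK : A → Set ((A → ℝ) × (B → ℝ)) := fun a => Metric.closedBall 0 1 ∩
    {κ | ∀ y ∈ K, c ≤ |κ.1 a + ∑ b, κ.2 b * fderiv ℝ (β b) y (Pi.single a 1)|} with hKK
  have hKKc : ∀ a, IsCompact (KK a) := by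
    intro a
    apply (isCompact_closedBall _ _).inter_right
    simp only [Set.ofPred_forall]
    refine isClosed_iInter fun y => isClosed_iInter fun _ => ?_
    apply isClosed_le continuous_const
    fun_prop
  have hnsp : ∀ a, ∃ C : ℝ, 0 ≤ C ∧ ∀ κ ∈ KK a, ∀ lam : ℝ, 0 < lam → ∀ g : (A → ℝ) → ℂ,
      ContDiffOn ℝ 1 g univ → (∀ y ∈ univ, ‖g y‖ ≤ 1) →
      (∀ y ∈ univ, fderiv ℝ g y ((fun _ => Pi.single a 1 : (A → ℝ) → (A → ℝ)) y) = 0) →
      ‖∫ y, χ y * (g y * exp (I * lam * ph β (κ, y)))‖ ≤ C / lam ^ M := by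
    intro a
    refine nsp (p := ph β) (e := fun _ => Pi.single a 1) isOpen_univ (contDiff_ph hβ).contDiffOn
      contDiffOn_const hχ hχc (subset_univ _) (hKKc a) ?_ M
    intro κ hκ y hy
    rw [fderiv_ph hβ]
    have h1 := hκ.2 y (hts hy)
    intro h2
    rw [neg_eq_zero] at h2
    rw [h2, abs_zero] at h1
    linarith
  choose C hC0 hC using hnsp
  refine ⟨∑ a, C a, Finset.sum_nonneg fun a _ => hC0 a, fun l k lam hlam hl hk ⟨a, ha⟩ => ?_⟩
  set κ : (A → ℝ) × (B → ℝ) := (fun a => (l a : ℝ) / lam, fun b => (k b : ℝ) / lam) with hκ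
  have hκK : κ ∈ KK a := by
    refine ⟨?_, ?_⟩
    · rw [mem_closedBall_zero_iff, Prod.norm_def, max_le_iff]
      constructor
      · rw [pi_norm_le_iff_of_nonneg zero_le_one]
        intro i
        rw [Real.norm_eq_abs, abs_div, abs_of_pos hlam, div_le_one hlam]
        exact hl i
      · rw [pi_norm_le_iff_of_nonneg zero_le_one]
        intro i
        rw [Real.norm_eq_abs, abs_div, abs_of_pos hlam, div_le_one hlam]
        exact hk i
    · intro y hy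
      have h1 := ha y hy
      have h2 : κ.1 a + ∑ b, κ.2 b * fderiv ℝ (β b) y (Pi.single a 1)
          = ((l a : ℝ) + ∑ b, (k b : ℝ) * fderiv ℝ (β b) y (Pi.single a 1)) / lam := by
        simp only [hκ]
        rw [add_div, Finset.sum_div]
        congr 1
        apply Finset.sum_congr rfl
        intro b _
        ring
      rw [h2, abs_div, abs_of_pos hlam, le_div_iff₀ hlam]
      exact h1
  have h1 := hC a κ hκK lam hlam (fun _ => 1) contDiffOn_const (by simp) (by simp)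
  have h2 : ∀ y, χ y * exp (-(I * ∑ b, (k b : ℂ) * (β b y : ℂ))) * chr (-l) y
      = χ y * ((fun _ => (1 : ℂ)) y * exp (I * lam * ph β (κ, y))) := by
    intro y
    rw [mul_assoc, one_mul, chr, ← exp_add]
    congr 2
    have hlam' : (lam : ℂ) ≠ 0 := by exact_mod_cast hlam.ne'
    have e1 : (lam : ℂ) * ∑ a, ((l a : ℂ) / lam) * (y a : ℂ) = ∑ a, (l a : ℂ) * (y a : ℂ) := by
      rw [Finset.mul_sum]
      apply Finset.sum_congr rfl
      intro a _
      field_simp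
    have e2 : (lam : ℂ) * ∑ b, ((k b : ℂ) / lam) * (β b y : ℂ) = ∑ b, (k b : ℂ) * (β b y : ℂ) := by
      rw [Finset.mul_sum]
      apply Finset.sum_congr rfl
      intro b _
      field_simp
    have e3 : ∑ i, (((-l) i : ℤ) : ℂ) * (y i : ℂ) = -∑ a, (l a : ℂ) * (y a : ℂ) := by
      rw [← Finset.sum_neg_distrib]
      apply Finset.sum_congr rfl
      intro a _
      simp
    simp only [ph, hκ]
    push_cast
    rw [e3, ← e1, ← e2]
    ring
  simp only [h2]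
  refine h1.trans ?_
  apply div_le_div_of_nonneg_right _ (by positivity)
  exact Finset.single_le_sum (f := C) (fun a _ => hC0 a) (Finset.mem_univ a)

theorem geometry {β : B → (A → ℝ) → ℝ} (hβ : ∀ b, ContDiff ℝ ∞ (β b)) (x : A → ℝ)
    (p : A → ℝ) (q : B → ℝ) (hp : ∀ a, 0 < p a) (hq : ∀ b, 0 < q b)
    (hgrad : ∀ a, p a + ∑ b, q b * fderiv ℝ (β b) x (Pi.single a 1) = 0) {η : ℝ} (hη : 0 < η) :
    ∃ δ ρ c : ℝ, 0 < δ ∧ δ ≤ η ∧ 0 < ρ ∧ 0 < c ∧ ∀ (R : ℝ), 0 < R → ∀ (l : A → ℝ) (k : B → ℝ),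
      (∀ b, |k b - R * q b| ≤ δ * R) → (∃ a, η * R ≤ |l a - R * p a|) →
      ∃ lam : ℝ, η * R ≤ lam ∧ (∀ a, |l a| ≤ lam) ∧ (∀ b, |k b| ≤ lam) ∧
        ∃ a, ∀ y ∈ Metric.closedBall x ρ,
          c * lam ≤ |l a + ∑ b, k b * fderiv ℝ (β b) y (Pi.single a 1)| := by
  set D : B → A → (A → ℝ) → ℝ := fun b a y => fderiv ℝ (β b) y (Pi.single a 1) with hD
  have hDc : ∀ b a, Continuous (D b a) := by
    intro b a
    exact ((hβ b).continuous_fderiv (by simp)).clm_apply continuous_const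
  set P := ∑ a, p a with hP
  set Q := ∑ b, q b with hQ
  have hP0 : 0 ≤ P := Finset.sum_nonneg fun a _ => (hp a).le
  have hQ0 : 0 ≤ Q := Finset.sum_nonneg fun b _ => (hq b).le
  have hpP : ∀ a, p a ≤ P := fun a => Finset.single_le_sum (fun a _ => (hp a).le) (Finset.mem_univ a)
  have hqQ : ∀ b, q b ≤ Q := fun b => Finset.single_le_sum (fun b _ => (hq b).le) (Finset.mem_univ b)
  set ε : ℝ := min 1 (η / (4 * (Q + 1))) with hε
  have hε0 : 0 < ε := by
    rw [hε]; apply lt_min one_pos; positivity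
  have hε1 : ε ≤ 1 := min_le_left _ _
  have hεQ : ε * Q ≤ η / 4 := by
    have h1 : ε ≤ η / (4 * (Q + 1)) := min_le_right _ _
    calc ε * Q ≤ η / (4 * (Q + 1)) * Q := mul_le_mul_of_nonneg_right h1 hQ0
      _ ≤ η / (4 * (Q + 1)) * (Q + 1) := by
          apply mul_le_mul_of_nonneg_left (by linarith); positivity
      _ = η / 4 := by field_simp
  set S : ℝ := ∑ a, ∑ b, |D b a x| with hS
  have hS0 : 0 ≤ S := Finset.sum_nonneg fun a _ => Finset.sum_nonneg fun b _ => abs_nonneg _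
  set S' : ℝ := S + Fintype.card B with hS'
  have hS'0 : 0 ≤ S' := by positivity
  set δ : ℝ := min η (η / (4 * (S' + 1))) with hδ
  have hδ0 : 0 < δ := by
    rw [hδ]; apply lt_min hη; positivity
  have hδS : δ * S' ≤ η / 4 := by
    have h1 : δ ≤ η / (4 * (S' + 1)) := min_le_right _ _
    calc δ * S' ≤ η / (4 * (S' + 1)) * S' := mul_le_mul_of_nonneg_right h1 hS'0
      _ ≤ η / (4 * (S' + 1)) * (S' + 1) := by
          apply mul_le_mul_of_nonneg_left (by linarith); positivity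
      _ = η / 4 := by field_simp
  obtain ⟨ρ, hρ, hball⟩ : ∃ ρ : ℝ, 0 < ρ ∧ ∀ y ∈ Metric.closedBall x ρ, ∀ b a,
      |D b a y - D b a x| ≤ ε := by
    have h1 : ∀ᶠ y in 𝓝 x, ∀ b a, |D b a y - D b a x| ≤ ε := by
      rw [eventually_all]
      intro b
      rw [eventually_all]
      intro a
      have h2 := Metric.continuous_iff'.1 (hDc b a) x ε hε0
      filter_upwards [h2] with y hy
      rw [Real.dist_eq] at hy
      exact hy.le
    obtain ⟨ρ, hρ, h3⟩ := Metric.nhds_basis_closedBall.mem_iff.1 h1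
    exact ⟨ρ, hρ, fun y hy => h3 hy⟩
  set L : ℝ := 1 + (P + Q + δ) / η with hL
  have hL1 : 1 ≤ L := by
    rw [hL]
    have : 0 ≤ (P + Q + δ) / η := by positivity
    linarith
  refine ⟨δ, ρ, 1 / (2 * L), hδ0, min_le_left _ _, hρ, by positivity, fun R hR l k hk ⟨a₀, ha₀⟩ => ?_⟩
  obtain ⟨a, -, hmax⟩ := Finset.exists_max_image (Finset.univ : Finset A) (fun a => |l a - R * p a|)
    ⟨a₀, Finset.mem_univ _⟩
  have hηa : η * R ≤ |l a - R * p a| := ha₀.trans (hmax a₀ (Finset.mem_univ _))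
  have hT : (P + Q + δ) * R ≤ (P + Q + δ) / η * |l a - R * p a| := by
    calc (P + Q + δ) * R = (P + Q + δ) / η * (η * R) := by field_simp
      _ ≤ _ := mul_le_mul_of_nonneg_left hηa (by positivity)
  refine ⟨L * |l a - R * p a|, ?_, ?_, ?_, a, ?_⟩
  · calc η * R ≤ 1 * |l a - R * p a| := by rw [one_mul]; exact hηa
      _ ≤ _ := mul_le_mul_of_nonneg_right hL1 (abs_nonneg _)
  · intro a'
    have h1 := hmax a' (Finset.mem_univ _)
    have h2 : |l a'| ≤ |l a' - R * p a'| + R * p a' := by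
      calc |l a'| = |(l a' - R * p a') + R * p a'| := by rw [sub_add_cancel]
        _ ≤ |l a' - R * p a'| + |R * p a'| := abs_add_le _ _
        _ = _ := by rw [abs_of_pos (mul_pos hR (hp a'))]
    have h3 : R * p a' ≤ (P + Q + δ) * R := by
      rw [mul_comm]
      apply mul_le_mul_of_nonneg_right _ hR.le
      linarith [hpP a']
    rw [hL, add_mul, one_mul]
    linarith
  · intro b
    have h2 : |k b| ≤ δ * R + R * q b := by
      calc |k b| = |(k b - R * q b) + R * q b| := by rw [sub_add_cancel]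
        _ ≤ |k b - R * q b| + |R * q b| := abs_add_le _ _
        _ ≤ _ := by rw [abs_of_pos (mul_pos hR (hq b))]; linarith [hk b]
    have h3 : δ * R + R * q b ≤ (P + Q + δ) * R := by
      have : δ * R + R * q b = (q b + δ) * R := by ring
      rw [this]
      apply mul_le_mul_of_nonneg_right _ hR.le
      linarith [hqQ b]
    rw [hL, add_mul, one_mul]
    have := abs_nonneg (l a - R * p a)
    linarith
  · intro y hy
    have h1 : 1 / (2 * L) * (L * |l a - R * p a|) = |l a - R * p a| / 2 := by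
      have : L ≠ 0 := by positivity
      field_simp
    rw [h1]
    have h2 : l a + ∑ b, k b * D b a y = (l a - R * p a) + (∑ b, (k b - R * q b) * D b a y
        + R * ∑ b, q b * (D b a y - D b a x)) := by
      have h3 : R * (p a + ∑ b, q b * D b a x) = 0 := by rw [hgrad a, mul_zero]
      simp only [sub_mul, mul_sub, Finset.sum_sub_distrib]
      rw [mul_add] at h3
      have h4 : ∑ b, R * q b * D b a y = R * ∑ b, q b * D b a y := by
        rw [Finset.mul_sum]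
        exact Finset.sum_congr rfl fun b _ => by ring
      rw [h4]
      linarith
    have h3 : |∑ b, (k b - R * q b) * D b a y| ≤ δ * R * S' := by
      calc |∑ b, (k b - R * q b) * D b a y| ≤ ∑ b, |(k b - R * q b) * D b a y| :=
            Finset.abs_sum_le_sum_abs _ _
        _ ≤ ∑ b, δ * R * (|D b a x| + 1) := by
            apply Finset.sum_le_sum
            intro b _
            rw [abs_mul]
            apply mul_le_mul (hk b) _ (abs_nonneg _) (by positivity)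
            calc |D b a y| = |D b a x + (D b a y - D b a x)| := by rw [add_sub_cancel]
              _ ≤ |D b a x| + |D b a y - D b a x| := abs_add_le _ _
              _ ≤ _ := by linarith [hball y hy b a]
        _ = δ * R * (∑ b, |D b a x| + Fintype.card B) := by
            rw [← Finset.mul_sum, Finset.sum_add_distrib]
            simp
        _ ≤ δ * R * S' := by
            apply mul_le_mul_of_nonneg_left _ (by positivity)
            rw [hS', hS]
            have := Finset.single_le_sum (f := fun a => ∑ b, |D b a x|)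
              (fun a _ => Finset.sum_nonneg fun b _ => abs_nonneg _) (Finset.mem_univ a)
            linarith
    have h4 : |R * ∑ b, q b * (D b a y - D b a x)| ≤ R * (ε * Q) := by
      rw [abs_mul, abs_of_pos hR]
      apply mul_le_mul_of_nonneg_left _ hR.le
      calc |∑ b, q b * (D b a y - D b a x)| ≤ ∑ b, |q b * (D b a y - D b a x)| :=
            Finset.abs_sum_le_sum_abs _ _
        _ ≤ ∑ b, ε * q b := by
            apply Finset.sum_le_sum
            intro b _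
            rw [abs_mul, abs_of_pos (hq b), mul_comm]
            exact mul_le_mul_of_nonneg_right (hball y hy b a) (hq b).le
        _ = ε * Q := by rw [← Finset.mul_sum]
    have h5 : δ * R * S' ≤ η * R / 4 := by
      calc δ * R * S' = δ * S' * R := by ring
        _ ≤ η / 4 * R := mul_le_mul_of_nonneg_right hδS hR.le
        _ = _ := by ring
    have h6 : R * (ε * Q) ≤ η * R / 4 := by
      calc R * (ε * Q) ≤ R * (η / 4) := mul_le_mul_of_nonneg_left hεQ hR.le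
        _ = _ := by ring
    have h7 : |∑ b, (k b - R * q b) * D b a y + R * ∑ b, q b * (D b a y - D b a x)| ≤ η * R / 2 := by
      refine (abs_add_le _ _).trans ?_
      linarith
    show _ ≤ |l a + ∑ b, k b * D b a y|
    rw [h2]
    have h8 : |l a - R * p a| ≤ |(l a - R * p a) + (∑ b, (k b - R * q b) * D b a y
        + R * ∑ b, q b * (D b a y - D b a x))| + |∑ b, (k b - R * q b) * D b a y
        + R * ∑ b, q b * (D b a y - D b a x)| := by
      calc |l a - R * p a| = |((l a - R * p a) + (∑ b, (k b - R * q b) * D b a y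
        + R * ∑ b, q b * (D b a y - D b a x))) - (∑ b, (k b - R * q b) * D b a y
        + R * ∑ b, q b * (D b a y - D b a x))| := by rw [add_sub_cancel_right]
        _ ≤ _ := abs_sub _ _
    linarith

/-- the oscillatory integral -/
noncomputable def bb (χ : (A → ℝ) → ℂ) (β : B → (A → ℝ) → ℝ) (l : A → ℤ) (k : B → ℤ) : ℂ :=
  ∫ y, χ y * exp (-(I * ∑ b, (k b : ℂ) * (β b y : ℂ))) * chr (-l) y

theorem far_small {β : B → (A → ℝ) → ℝ} (hβ : ∀ b, ContDiff ℝ ∞ (β b)) {x : A → ℝ}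
    {p : A → ℝ} {q : B → ℝ} {η δ ρ c : ℝ} (hη : 0 < η) (hc : 0 < c)
    (hgeo : ∀ (R : ℝ), 0 < R → ∀ (l : A → ℝ) (k : B → ℝ),
      (∀ b, |k b - R * q b| ≤ δ * R) → (∃ a, η * R ≤ |l a - R * p a|) →
      ∃ lam : ℝ, η * R ≤ lam ∧ (∀ a, |l a| ≤ lam) ∧ (∀ b, |k b| ≤ lam) ∧
        ∃ a, ∀ y ∈ Metric.closedBall x ρ,
          c * lam ≤ |l a + ∑ b, k b * fderiv ℝ (β b) y (Pi.single a 1)|)
    {χ : (A → ℝ) → ℂ} (hχ : ContDiff ℝ ∞ χ) (hχK : ∀ y, y ∉ Metric.closedBall x ρ → χ y = 0)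
    {v : (A → ℤ) → (B → ℤ) → ℂ} {C₀ : ℝ} {κ : ℕ}
    (hv : ∀ l k, ‖v l k‖ ≤ C₀ * (1 + ‖l‖ + ‖k‖) ^ κ) :
    ∃ C₁ : ℝ, 0 ≤ C₁ ∧ ∀ (R : ℝ), 1 ≤ η * R → ∀ (l : A → ℤ) (k : B → ℤ),
      (∀ b, |(k b : ℝ) - R * q b| ≤ δ * R) → (∃ a, η * R ≤ |(l a : ℝ) - R * p a|) →
      ‖bb χ β l k * v l k‖ ≤ C₁ / R * ∏ a, ((1 + |(l a : ℝ)|) ^ 2)⁻¹ := by
  obtain ⟨C, hC0, hC⟩ := far_decay hβ (isCompact_closedBall x ρ) hχ hχK hc
    (κ + 2 * Fintype.card A + 1)
  have hC₀ : 0 ≤ C₀ := by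
    have h1 := hv 0 0
    simp only [norm_zero, add_zero, one_pow, mul_one] at h1
    exact (norm_nonneg _).trans h1
  refine ⟨C * C₀ * 3 ^ κ * 4 ^ Fintype.card A / η, by positivity, fun R hR l k hk hl => ?_⟩
  have hR0 : 0 < R := by
    by_contra hcon
    push Not at hcon
    have := mul_nonpos_of_nonneg_of_nonpos hη.le hcon
    linarith
  obtain ⟨lam, h1, h2, h3, h4⟩ := hgeo R hR0 (fun a => (l a : ℝ)) (fun b => (k b : ℝ)) hk hl
  have hlam1 : 1 ≤ lam := hR.trans h1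
  have hlam0 : 0 < lam := by linarith
  have hb := hC l k lam hlam0 h2 h3 h4
  have hl' : ‖l‖ ≤ lam := by
    rw [pi_norm_le_iff_of_nonneg hlam0.le]
    intro a
    rw [Int.norm_eq_abs]
    exact h2 a
  have hk' : ‖k‖ ≤ lam := by
    rw [pi_norm_le_iff_of_nonneg hlam0.le]
    intro b
    rw [Int.norm_eq_abs]
    exact h3 b
  have hvb : ‖v l k‖ ≤ C₀ * (3 * lam) ^ κ := by
    refine (hv l k).trans ?_
    apply mul_le_mul_of_nonneg_left _ hC₀
    apply pow_le_pow_left₀ (by positivity)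
    linarith
  have hw : ((lam ^ 2) ^ Fintype.card A)⁻¹ ≤ 4 ^ Fintype.card A * ∏ a, ((1 + |(l a : ℝ)|) ^ 2)⁻¹ := by
    have h5 : ∏ a, ((1 + |(l a : ℝ)|) ^ 2) ≤ ∏ _a : A, (4 * lam ^ 2) := by
      apply Finset.prod_le_prod
      · intro a _; positivity
      · intro a _
        have h6 : 1 + |(l a : ℝ)| ≤ 2 * lam := by linarith [h2 a]
        calc (1 + |(l a : ℝ)|) ^ 2 ≤ (2 * lam) ^ 2 := pow_le_pow_left₀ (by positivity) h6 2
          _ = _ := by ring
    rw [Finset.prod_const, Finset.card_univ, mul_pow] at h5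
    rw [Finset.prod_inv_distrib]
    have h7 : 0 < ∏ a, ((1 + |(l a : ℝ)|) ^ 2) := Finset.prod_pos fun a _ => by positivity
    rw [← div_eq_mul_inv, le_div_iff₀ h7, inv_mul_le_iff₀ (by positivity)]
    linarith
  rw [norm_mul]
  calc ‖bb χ β l k‖ * ‖v l k‖
      ≤ (C / lam ^ (κ + 2 * Fintype.card A + 1)) * (C₀ * (3 * lam) ^ κ) :=
        mul_le_mul hb hvb (norm_nonneg _) (by positivity)
    _ = C * C₀ * 3 ^ κ * (1 / lam) * ((lam ^ 2) ^ Fintype.card A)⁻¹ := by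
        rw [pow_succ, pow_add, mul_pow, pow_mul]
        field_simp
    _ ≤ C * C₀ * 3 ^ κ * (1 / (η * R)) *
        (4 ^ Fintype.card A * ∏ a, ((1 + |(l a : ℝ)|) ^ 2)⁻¹) := by
        apply mul_le_mul _ hw (by positivity) (by positivity)
        apply mul_le_mul_of_nonneg_left _ (by positivity)
        exact one_div_le_one_div_of_le (by positivity) h1
    _ = _ := by
        field_simp

/-- naturals in an interval -/
noncomputable def NN {σ : Type} [Fintype σ] [DecidableEq σ] (p : σ → ℝ) (η R : ℝ) : Finset (σ → ℕ) :=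
  Fintype.piFinset fun a => Finset.Icc ⌈R * p a - η * R⌉₊ ⌊R * p a + η * R⌋₊

theorem mem_NN {σ : Type} [Fintype σ] [DecidableEq σ] {p : σ → ℝ} {η R : ℝ}
    (h : ∀ a, 0 ≤ R * p a + η * R) (m : σ → ℕ) :
    m ∈ NN p η R ↔ ∀ a, |(m a : ℝ) - R * p a| ≤ η * R := by
  rw [NN, Fintype.mem_piFinset]
  apply forall_congr'
  intro a
  rw [Finset.mem_Icc, Nat.ceil_le, Nat.le_floor_iff (h a), abs_le]
  constructor
  · rintro ⟨h1, h2⟩
    constructor <;> linarith
  · rintro ⟨h1, h2⟩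
    constructor <;> linarith

theorem card_NN {σ : Type} [Fintype σ] [DecidableEq σ] {p : σ → ℝ} {η R : ℝ} (hη : 1 ≤ η * R)
    (h : ∀ a, 0 ≤ R * p a - η * R) : (η * R) ^ Fintype.card σ ≤ ((NN p η R).card : ℝ) := by
  rw [NN, Fintype.card_piFinset]
  push_cast
  rw [← Finset.card_univ, ← Finset.prod_const]
  apply Finset.prod_le_prod
  · intro a _; linarith
  · intro a _
    rw [Nat.card_Icc]
    have h1 : R * p a + η * R < ⌊R * p a + η * R⌋₊ + 1 := Nat.lt_floor_add_one _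
    have h2 : (⌈R * p a - η * R⌉₊ : ℝ) < R * p a - η * R + 1 := Nat.ceil_lt_add_one (h a)
    have h3 : ((⌊R * p a + η * R⌋₊ + 1 : ℕ) : ℝ) - (⌈R * p a - η * R⌉₊ : ℝ)
        ≤ ((⌊R * p a + η * R⌋₊ + 1 - ⌈R * p a - η * R⌉₊ : ℕ) : ℝ) := by
      rw [sub_le_iff_le_add]
      exact_mod_cast le_tsub_add
    push_cast at h3
    linarith

theorem mem_image_NN {p : A → ℝ} {η R : ℝ} (hR : 0 ≤ R) (hη : 0 ≤ η) (hp : ∀ a, η ≤ p a) (l : A → ℤ)
    (hl : ∀ a, |(l a : ℝ) - R * p a| ≤ η * R) :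
    l ∈ (NN p η R).image (fun (m : A → ℕ) a => (m a : ℤ)) := by
  have h0 : ∀ a, 0 ≤ R * p a + η * R := fun a => by
    have := mul_nonneg hR (hη.trans (hp a))
    have := mul_nonneg hη hR
    linarith
  have hl0 : ∀ a, 0 ≤ l a := by
    intro a
    have h1 := (abs_le.1 (hl a)).1
    have h2 : 0 ≤ (p a - η) * R := mul_nonneg (by linarith [hp a]) hR
    have h3 : (0 : ℝ) ≤ l a := by nlinarith
    exact_mod_cast h3
  rw [Finset.mem_image]
  refine ⟨fun a => (l a).toNat, ?_, ?_⟩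
  · rw [mem_NN h0]
    intro a
    have h1 : (((l a).toNat : ℕ) : ℝ) = (l a : ℝ) := by
      have : (((l a).toNat : ℤ) : ℝ) = (l a : ℝ) := by rw [Int.toNat_of_nonneg (hl0 a)]
      exact_mod_cast this
    rw [h1]
    exact hl a
  · funext a
    exact Int.toNat_of_nonneg (hl0 a)

theorem cast_inj : Function.Injective (fun (m : A → ℕ) (a : A) => (m a : ℤ)) := by
  intro m n h
  funext a
  have h1 := congrFun h a
  simp only at h1
  exact_mod_cast h1

/-- one frequency vector `k` -/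
theorem one_k {f w : (A → ℤ) → ℂ} {z₀ : ℂ} {b : (A → ℤ) → ℂ} {S : Finset (A → ℤ)}
    (hf : HasSum f z₀) (hfb : ∀ l, f l = b l * w l) {C₂ : ℝ} (hb : ∑ l ∈ S, ‖b l‖ ^ 2 ≤ C₂)
    {E : ℝ} (hE : 0 ≤ E) (hfar : ∀ l, l ∉ S → ‖f l‖ ≤ E * ∏ a, ((1 + |(l a : ℝ)|) ^ 2)⁻¹)
    (hsmall : E * (∑' l : A → ℤ, ∏ a, ((1 + |(l a : ℝ)|) ^ 2)⁻¹) ≤ ‖z₀‖ / 2) :
    ‖z₀‖ ^ 2 / 4 ≤ C₂ * ∑ l ∈ S, ‖w l‖ ^ 2 := by
  classical
  have h2 : HasSum (fun l => if l ∈ S then f l else 0) (∑ l ∈ S, f l) := by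
    have h3 : HasSum (fun l => if l ∈ S then f l else 0) (∑ l ∈ S, (if l ∈ S then f l else 0)) :=
      hasSum_sum_of_ne_finset_zero (by intro l hl; simp [hl])
    have h4 : ∑ l ∈ S, (if l ∈ S then f l else 0) = ∑ l ∈ S, f l :=
      Finset.sum_congr rfl fun l hl => by simp [hl]
    rwa [h4] at h3
  have h1 : HasSum (fun l => f l - if l ∈ S then f l else 0) (z₀ - ∑ l ∈ S, f l) := hf.sub h2
  have h5 : ‖z₀ - ∑ l ∈ S, f l‖ ≤ E * (∑' l : A → ℤ, ∏ a, ((1 + |(l a : ℝ)|) ^ 2)⁻¹) := by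
    rw [← h1.tsum_eq]
    refine tsum_of_norm_bounded ((summable_weight A).hasSum.mul_left E) ?_
    intro l
    by_cases hl : l ∈ S
    · simp only [hl, if_true, sub_self, norm_zero]
      have : 0 ≤ ∏ a, ((1 + |(l a : ℝ)|) ^ 2)⁻¹ := Finset.prod_nonneg fun a _ => by positivity
      positivity
    · simp only [hl, if_false, sub_zero]
      exact hfar l hl
  have h6 : ‖z₀‖ / 2 ≤ ‖∑ l ∈ S, f l‖ := by
    have h7 : ‖z₀‖ ≤ ‖z₀ - ∑ l ∈ S, f l‖ + ‖∑ l ∈ S, f l‖ := by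
      calc ‖z₀‖ = ‖(z₀ - ∑ l ∈ S, f l) + ∑ l ∈ S, f l‖ := by rw [sub_add_cancel]
        _ ≤ _ := norm_add_le _ _
    linarith
  have h8 : ‖∑ l ∈ S, f l‖ ≤ ∑ l ∈ S, ‖b l‖ * ‖w l‖ := by
    refine (norm_sum_le _ _).trans (le_of_eq ?_)
    apply Finset.sum_congr rfl
    intro l _
    rw [hfb, norm_mul]
  have h9 : (∑ l ∈ S, ‖b l‖ * ‖w l‖) ^ 2 ≤ (∑ l ∈ S, ‖b l‖ ^ 2) * ∑ l ∈ S, ‖w l‖ ^ 2 :=
    Finset.sum_mul_sq_le_sq_mul_sq _ _ _
  calc ‖z₀‖ ^ 2 / 4 = (‖z₀‖ / 2) ^ 2 := by ring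
    _ ≤ (∑ l ∈ S, ‖b l‖ * ‖w l‖) ^ 2 := pow_le_pow_left₀ (by positivity) (h6.trans h8) 2
    _ ≤ _ := h9
    _ ≤ _ := by
      apply mul_le_mul_of_nonneg_right hb
      exact Finset.sum_nonneg fun l _ => by positivity

end Div

open Pool.Agent.Helper49.FA.Div in
/-- the divergence lemma; `A` may be empty -/
theorem divergence' {A B : Type} [Fintype A] [Fintype B] [DecidableEq A] [DecidableEq B] [Nonempty B]
    {t : ℝ} (ht : 0 ≤ t) (β : B → (A → ℝ) → ℝ) (hβ : ∀ b, ContDiff ℝ ∞ (β b)) (x : A → ℝ)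
    (p : A → ℝ) (q : B → ℝ) (hp : ∀ a, 0 < p a) (hq : ∀ b, 0 < q b)
    (hgrad : ∀ a, p a + ∑ b, q b * fderiv ℝ (β b) x (Pi.single a 1) = 0) :
    ∃ ρ : ℝ, 0 < ρ ∧ ∀ χ : (A → ℝ) → ℂ, ContDiff ℝ ∞ χ → (∀ y, ρ < ‖y - x‖ → χ y = 0) →
      ∀ v : (A → ℤ) → (B → ℤ) → ℂ, (∃ (C : ℝ) (κ : ℕ), ∀ l k, ‖v l k‖ ≤ C * (1 + ‖l‖ + ‖k‖) ^ κ) →
      (Summable fun m : (A → ℕ) × (B → ℕ) =>
        ‖v (fun a => (m.1 a : ℤ)) (fun b => (m.2 b : ℤ))‖ ^ 2 /
          ((∏ a, (1 + (m.1 a : ℝ)) ^ t) * ∏ b, (1 + (m.2 b : ℝ)) ^ t)) →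
      ∀ z₀ : ℂ, (∀ k : B → ℤ, (∀ b, 0 ≤ k b) →
        HasSum (fun l : A → ℤ =>
          (∫ y, χ y * exp (-(I * ∑ b, (k b : ℂ) * (β b y : ℂ))) * chr (-l) y) * v l k) z₀) →
      z₀ ≠ 0 → (Fintype.card B : ℝ) < t * ((Fintype.card A : ℝ) + Fintype.card B) := by
  classical
  obtain ⟨b₀, hb₀⟩ := Finite.exists_min q
  obtain ⟨η, hη, hηp, hηq⟩ : ∃ η : ℝ, 0 < η ∧ (∀ a, η < p a) ∧ ∀ b, η < q b := by
    rcases isEmpty_or_nonempty A with hA | hA
    · refine ⟨q b₀ / 2, by linarith [hq b₀], fun a => hA.elim a, fun b => ?_⟩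
      linarith [hb₀ b, hq b₀]
    · obtain ⟨a₀, ha₀⟩ := Finite.exists_min p
      have h3 := lt_min (hp a₀) (hq b₀)
      refine ⟨min (p a₀) (q b₀) / 2, by linarith, fun a => ?_, fun b => ?_⟩
      · have h1 := min_le_left (p a₀) (q b₀)
        have h2 := ha₀ a
        linarith
      · have h1 := min_le_right (p a₀) (q b₀)
        have h2 := hb₀ b
        linarith
  obtain ⟨δ, ρ₁, c, hδ, hδη, hρ₁, hc, hgeo⟩ := geometry hβ x p q hp hq hgrad hη
  have hδq : ∀ b, δ < q b := fun b => hδη.trans_lt (hηq b)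
  have hneg : fderiv ℝ (fun y : A → ℝ => -y) x = -ContinuousLinearMap.id ℝ (A → ℝ) := by
    rw [fderiv_fun_neg]
    simp
  obtain ⟨ρ₂, hρ₂, CB, hCB0, hCB⟩ := bessel (χ := fun y : A → ℝ => -y) (x₀ := x)
    contDiff_neg.contDiffAt (by
      rw [hneg, ContinuousLinearMap.det]
      have h1 : ((-ContinuousLinearMap.id ℝ (A → ℝ) : (A → ℝ) →L[ℝ] (A → ℝ)) : (A → ℝ) →ₗ[ℝ] (A → ℝ))
          = (-1 : ℝ) • (LinearMap.id : (A → ℝ) →ₗ[ℝ] (A → ℝ)) := by
        ext; simp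
      rw [h1, LinearMap.det_smul, LinearMap.det_id, mul_one]
      exact pow_ne_zero _ (by norm_num))
  refine ⟨min ρ₁ ρ₂, lt_min hρ₁ hρ₂, fun χ hχ hχ0 v ⟨C₀, κ, hv⟩ hsum z₀ hz hz0 => ?_⟩
  by_contra hcon
  push Not at hcon
  have hχ1 : ∀ y, y ∉ Metric.closedBall x ρ₁ → χ y = 0 := by
    intro y hy
    rw [Metric.mem_closedBall, dist_eq_norm, not_le] at hy
    exact hχ0 y ((min_le_left _ _).trans_lt hy)
  have hχ2 : ∀ y, y ∉ Metric.closedBall x ρ₂ → χ y = 0 := by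
    intro y hy
    rw [Metric.mem_closedBall, dist_eq_norm, not_le] at hy
    exact hχ0 y ((min_le_right _ _).trans_lt hy)
  obtain ⟨Bχ, hBχ⟩ := hχ.continuous.bounded_above_of_compact_support
    (HasCompactSupport.intro (isCompact_closedBall x ρ₁) hχ1)
  obtain ⟨C₁, hC₁0, hC₁⟩ := far_small hβ hη hc hgeo hχ hχ1 hv
  have hbes : ∀ (k : B → ℤ) (S : Finset (A → ℤ)), ∑ l ∈ S, ‖bb χ β l k‖ ^ 2 ≤ CB * Bχ ^ 2 := by
    intro k S
    have hcont : Continuous fun y => χ y * exp (-(I * ∑ b, (k b : ℂ) * (β b y : ℂ))) := by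
      apply hχ.continuous.mul
      apply Continuous.cexp
      apply Continuous.neg
      apply continuous_const.mul
      apply continuous_finsetSum
      intro b _
      exact continuous_const.mul (continuous_ofReal.comp (hβ b).continuous)
    have h1 := hCB (fun y => χ y * exp (-(I * ∑ b, (k b : ℂ) * (β b y : ℂ)))) Bχ
      hcont.aestronglyMeasurable (by
        intro y
        have h2 : -(I * ∑ b, (k b : ℂ) * (β b y : ℂ)) = ((-∑ b, (k b : ℝ) * β b y : ℝ) : ℂ) * I := by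
          push_cast
          ring
        rw [norm_mul, h2, norm_exp_ofReal_mul_I, mul_one]
        exact hBχ y) (by
        intro y hy
        rw [hχ2 y hy, zero_mul]) S
    refine le_trans (le_of_eq ?_) h1
    apply Finset.sum_congr rfl
    intro l _
    have h3 : ∀ y : A → ℝ, chr l (-y) = chr (-l) y := by
      intro y
      simp [chr]
    simp only [h3]
    rfl
  -- the constants
  set W : ℝ := ∑' l : A → ℤ, ∏ a, ((1 + |(l a : ℝ)|) ^ 2)⁻¹ with hW
  set N : ℕ := Fintype.card A + Fintype.card B with hN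
  set P := ∑ a, p a with hP
  set Q := ∑ b, q b with hQ
  have hP0 : 0 ≤ P := Finset.sum_nonneg fun a _ => (hp a).le
  have hQ0 : 0 ≤ Q := Finset.sum_nonneg fun b _ => (hq b).le
  have hpP : ∀ a, p a ≤ P := fun a => Finset.single_le_sum (fun a _ => (hp a).le) (Finset.mem_univ a)
  have hqQ : ∀ b, q b ≤ Q := fun b => Finset.single_le_sum (fun b _ => (hq b).le) (Finset.mem_univ b)
  set c₃ : ℝ := 1 + P + Q + η with hc₃
  have hc₃0 : 0 < c₃ := by positivity
  set G : ℝ := CB * Bχ ^ 2 * c₃ ^ (t * N) with hG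
  have hG0 : 0 ≤ G := by positivity
  have hz0' : 0 < ‖z₀‖ := norm_pos_iff.2 hz0
  set ε : ℝ := δ ^ Fintype.card B * ‖z₀‖ ^ 2 / (8 * (G + 1)) with hε
  have hε0 : 0 < ε := by positivity
  set F : (A → ℕ) × (B → ℕ) → ℝ := fun m =>
    ‖v (fun a => (m.1 a : ℤ)) (fun b => (m.2 b : ℤ))‖ ^ 2 /
          ((∏ a, (1 + (m.1 a : ℝ)) ^ t) * ∏ b, (1 + (m.2 b : ℝ)) ^ t) with hF
  obtain ⟨s₀, hs₀⟩ := (summable_iff_vanishing_norm.1 hsum) ε hε0
  set n₀ : ℕ := s₀.sup fun m => m.2 b₀ with hn₀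
  obtain ⟨R, hR1, hRη, hRδ, hRW, hRn⟩ : ∃ R : ℝ, 1 ≤ R ∧ 1 ≤ η * R ∧ 1 ≤ δ * R ∧
      C₁ * W / (‖z₀‖ / 2) ≤ R ∧ (n₀ : ℝ) < (q b₀ - δ) * R := by
    have e1 := (eventually_ge_atTop (1 : ℝ))
    have e2 : ∀ᶠ R : ℝ in atTop, 1 ≤ η * R := (tendsto_id.const_mul_atTop hη).eventually_ge_atTop 1
    have e3 : ∀ᶠ R : ℝ in atTop, 1 ≤ δ * R := (tendsto_id.const_mul_atTop hδ).eventually_ge_atTop 1
    have e4 := eventually_ge_atTop (C₁ * W / (‖z₀‖ / 2))
    have e5 : ∀ᶠ R : ℝ in atTop, (n₀ : ℝ) < (q b₀ - δ) * R :=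
      (tendsto_id.const_mul_atTop (by linarith [hδq b₀])).eventually_gt_atTop _
    exact (e1.and (e2.and (e3.and (e4.and e5)))).exists
  have hR0 : 0 < R := by linarith
  have hW1 : C₁ / R * W ≤ ‖z₀‖ / 2 := by
    rw [div_le_iff₀ (by positivity)] at hRW
    rw [div_mul_eq_mul_div, div_le_iff₀ hR0]
    linarith
  set S : Finset (A → ℤ) := (NN p η R).image (fun (m : A → ℕ) a => (m a : ℤ)) with hS
  have hpη : ∀ a, 0 ≤ R * p a + η * R := fun a => by
    have := (mul_pos hR0 (hp a)).le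
    linarith
  have hqδ : ∀ b, 0 ≤ R * q b + δ * R := fun b => by
    have := (mul_pos hR0 (hq b)).le
    linarith
  have hk : ∀ m₂ ∈ NN q δ R, ‖z₀‖ ^ 2 / 4 ≤ CB * Bχ ^ 2 * ∑ m₁ ∈ NN p η R,
      ‖v (fun a => (m₁ a : ℤ)) (fun b => (m₂ b : ℤ))‖ ^ 2 := by
    intro m₂ hm₂
    have h1 := hz (fun b => (m₂ b : ℤ)) (fun b => Int.natCast_nonneg _)
    have hm₂' := (mem_NN hqδ m₂).1 hm₂
    have h2 := one_k (S := S) (b := fun l => bb χ β l (fun b => (m₂ b : ℤ)))
      (w := fun l => v l (fun b => (m₂ b : ℤ))) (E := C₁ / R) h1 (fun l => rfl) (hbes _ S)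
      (by positivity) (by
        intro l hl
        apply hC₁ R hRη l _
        · intro b
          have := hm₂' b
          push_cast
          exact this
        · by_contra hcon2
          push Not at hcon2
          exact hl (mem_image_NN hR0.le hη.le (fun a => (hηp a).le) l fun a => (hcon2 a).le)) hW1
    rw [hS, Finset.sum_image (fun m _ n _ h => cast_inj h)] at h2
    exact h2
  have hsumk := Finset.card_nsmul_le_sum (NN q δ R) _ _ hk
  rw [nsmul_eq_mul, ← Finset.mul_sum] at hsumk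
  have hcard : (δ * R) ^ Fintype.card B ≤ ((NN q δ R).card : ℝ) := by
    apply card_NN hRδ
    intro b
    have : 0 ≤ (q b - δ) * R := mul_nonneg (by linarith [hδq b]) hR0.le
    linarith
  have hweight : ∀ m ∈ NN p η R ×ˢ NN q δ R,
      ‖v (fun a => (m.1 a : ℤ)) (fun b => (m.2 b : ℤ))‖ ^ 2 ≤ ((c₃ * R) ^ t) ^ N * F m := by
    intro m hm
    rw [Finset.mem_product] at hm
    have hm1 := (mem_NN hpη m.1).1 hm.1
    have hm2 := (mem_NN hqδ m.2).1 hm.2
    have hcR : 0 ≤ c₃ * R := by positivity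
    have w1 : ∏ a, (1 + (m.1 a : ℝ)) ^ t ≤ ((c₃ * R) ^ t) ^ Fintype.card A := by
      rw [← Finset.card_univ, ← Finset.prod_const]
      apply Finset.prod_le_prod
      · intro a _; positivity
      · intro a _
        apply Real.rpow_le_rpow (by positivity) _ ht
        have h1 := (abs_le.1 (hm1 a)).2
        have h2 : (1 + p a + η) * R ≤ c₃ * R := mul_le_mul_of_nonneg_right (by
          rw [hc₃]; linarith [hpP a]) hR0.le
        nlinarith
    have w2 : ∏ b, (1 + (m.2 b : ℝ)) ^ t ≤ ((c₃ * R) ^ t) ^ Fintype.card B := by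
      rw [← Finset.card_univ, ← Finset.prod_const]
      apply Finset.prod_le_prod
      · intro a _; positivity
      · intro a _
        apply Real.rpow_le_rpow (by positivity) _ ht
        have h1 := (abs_le.1 (hm2 a)).2
        have h2 : (1 + q a + δ) * R ≤ c₃ * R := mul_le_mul_of_nonneg_right (by
          rw [hc₃]; linarith [hqQ a]) hR0.le
        nlinarith
    have w3 : (∏ a, (1 + (m.1 a : ℝ)) ^ t) * ∏ b, (1 + (m.2 b : ℝ)) ^ t ≤ ((c₃ * R) ^ t) ^ N := by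
      rw [hN, pow_add]
      exact mul_le_mul w1 w2 (Finset.prod_nonneg fun b _ => by positivity) (by positivity)
    have w4 : 0 < (∏ a, (1 + (m.1 a : ℝ)) ^ t) * ∏ b, (1 + (m.2 b : ℝ)) ^ t :=
      mul_pos (Finset.prod_pos fun a _ => by positivity) (Finset.prod_pos fun b _ => by positivity)
    rw [hF]
    simp only
    rw [mul_div_assoc', le_div_iff₀ w4, mul_comm]
    exact mul_le_mul_of_nonneg_right w3 (by positivity)
  have hdisj : Disjoint (NN p η R ×ˢ NN q δ R) s₀ := by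
    rw [Finset.disjoint_left]
    intro m hm hms
    rw [Finset.mem_product] at hm
    have hm2 := (abs_le.1 ((mem_NN hqδ m.2).1 hm.2 b₀)).1
    have h1 : m.2 b₀ ≤ n₀ := Finset.le_sup (f := fun m : (A → ℕ) × (B → ℕ) => m.2 b₀) hms
    have h2 : (m.2 b₀ : ℝ) ≤ n₀ := by exact_mod_cast h1
    linarith
  have htail : ∑ m ∈ NN p η R ×ˢ NN q δ R, F m < ε :=
    (le_abs_self _).trans_lt (hs₀ _ hdisj)
  have hdouble : ∑ m₂ ∈ NN q δ R, ∑ m₁ ∈ NN p η R,
      ‖v (fun a => (m₁ a : ℤ)) (fun b => (m₂ b : ℤ))‖ ^ 2 ≤ ((c₃ * R) ^ t) ^ N * ε := by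
    rw [Finset.sum_comm]
    have e0 := Finset.sum_product (NN p η R) (NN q δ R)
      (fun m : (A → ℕ) × (B → ℕ) => ‖v (fun a => (m.1 a : ℤ)) (fun b => (m.2 b : ℤ))‖ ^ 2)
    simp only at e0
    rw [← e0]
    refine (Finset.sum_le_sum hweight).trans ?_
    rw [← Finset.mul_sum]
    exact mul_le_mul_of_nonneg_left htail.le (by positivity)
  have hpow : ((c₃ * R) ^ t) ^ N ≤ c₃ ^ (t * N) * R ^ Fintype.card B := by
    rw [← Real.rpow_natCast, ← Real.rpow_mul (by positivity), Real.mul_rpow hc₃0.le hR0.le]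
    apply mul_le_mul_of_nonneg_left _ (by positivity)
    rw [← Real.rpow_natCast R]
    apply Real.rpow_le_rpow_of_exponent_le hR1
    rw [hN]
    push_cast
    exact hcon
  have hfin : (δ * R) ^ Fintype.card B * (‖z₀‖ ^ 2 / 4)
      ≤ CB * Bχ ^ 2 * (c₃ ^ (t * N) * R ^ Fintype.card B * ε) := by
    calc (δ * R) ^ Fintype.card B * (‖z₀‖ ^ 2 / 4)
        ≤ ((NN q δ R).card : ℝ) * (‖z₀‖ ^ 2 / 4) := mul_le_mul_of_nonneg_right hcard (by positivity)
      _ ≤ _ := hsumk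
      _ ≤ CB * Bχ ^ 2 * (((c₃ * R) ^ t) ^ N * ε) := mul_le_mul_of_nonneg_left hdouble (by positivity)
      _ ≤ _ := by
          apply mul_le_mul_of_nonneg_left _ (by positivity)
          exact mul_le_mul_of_nonneg_right hpow hε0.le
  have hRB : 0 < R ^ Fintype.card B := by positivity
  have hfin2 : δ ^ Fintype.card B * (‖z₀‖ ^ 2 / 4) ≤ G * ε := by
    rw [mul_pow] at hfin
    have h1 : R ^ Fintype.card B * (δ ^ Fintype.card B * (‖z₀‖ ^ 2 / 4))
        ≤ R ^ Fintype.card B * (G * ε) := by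
      calc R ^ Fintype.card B * (δ ^ Fintype.card B * (‖z₀‖ ^ 2 / 4))
          = δ ^ Fintype.card B * R ^ Fintype.card B * (‖z₀‖ ^ 2 / 4) := by ring
        _ ≤ _ := hfin
        _ = _ := by rw [hG]; ring
    exact le_of_mul_le_mul_left h1 hRB
  have hδB : 0 < δ ^ Fintype.card B * ‖z₀‖ ^ 2 := by positivity
  have hGε : G * ε ≤ δ ^ Fintype.card B * ‖z₀‖ ^ 2 / 8 := by
    rw [hε]
    have h1 : G * (δ ^ Fintype.card B * ‖z₀‖ ^ 2 / (8 * (G + 1)))
        = (δ ^ Fintype.card B * ‖z₀‖ ^ 2 / 8) * (G / (G + 1)) := by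
      field_simp
    rw [h1]
    have h2 : G / (G + 1) ≤ 1 := by
      rw [div_le_one (by linarith)]
      linarith
    calc (δ ^ Fintype.card B * ‖z₀‖ ^ 2 / 8) * (G / (G + 1))
        ≤ (δ ^ Fintype.card B * ‖z₀‖ ^ 2 / 8) * 1 := mul_le_mul_of_nonneg_left h2 (by positivity)
      _ = _ := mul_one _
  nlinarith

theorem divergence {A B : Type} [Fintype A] [Fintype B] [DecidableEq A] [DecidableEq B] [Nonempty A]
    {t : ℝ} (ht : 0 ≤ t) (β : B → (A → ℝ) → ℝ) (hβ : ∀ b, ContDiff ℝ ∞ (β b)) (x : A → ℝ)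
    (p : A → ℝ) (q : B → ℝ) (hp : ∀ a, 0 < p a) (hq : ∀ b, 0 < q b)
    (hgrad : ∀ a, p a + ∑ b, q b * fderiv ℝ (β b) x (Pi.single a 1) = 0) :
    ∃ ρ : ℝ, 0 < ρ ∧ ∀ χ : (A → ℝ) → ℂ, ContDiff ℝ ∞ χ → (∀ y, ρ < ‖y - x‖ → χ y = 0) →
      ∀ v : (A → ℤ) → (B → ℤ) → ℂ, (∃ (C : ℝ) (κ : ℕ), ∀ l k, ‖v l k‖ ≤ C * (1 + ‖l‖ + ‖k‖) ^ κ) →
      (Summable fun m : (A → ℕ) × (B → ℕ) =>
        ‖v (fun a => (m.1 a : ℤ)) (fun b => (m.2 b : ℤ))‖ ^ 2 /
          ((∏ a, (1 + (m.1 a : ℝ)) ^ t) * ∏ b, (1 + (m.2 b : ℝ)) ^ t)) →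
      ∀ z₀ : ℂ, (∀ k : B → ℤ, (∀ b, 0 ≤ k b) →
        HasSum (fun l : A → ℤ =>
          (∫ y, χ y * exp (-(I * ∑ b, (k b : ℂ) * (β b y : ℂ))) * chr (-l) y) * v l k) z₀) →
      z₀ ≠ 0 → (Fintype.card B : ℝ) < t * ((Fintype.card A : ℝ) + Fintype.card B) := by
  have hBne : Nonempty B := by
    by_contra hcon
    rw [not_nonempty_iff] at hcon
    obtain ⟨a⟩ := ‹Nonempty A›
    have h1 := hgrad a
    rw [Finset.univ_eq_empty, Finset.sum_empty, add_zero] at h1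
    exact (hp a).ne' h1
  exact divergence' ht β hβ x p q hp hq hgrad

end Pool.Agent.Helper49.FA
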