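import Mathlib
import Pool.Agent.Helper49.FCoreDefs
import Pool.Agent.Helper85.FACell
import Pool.Agent.Helper30.FADiv

/-! The divergence lemma applied to the distribution `Wd V`. -/

set_option autoImplicit false
set_option linter.unusedSectionVars false

namespace Pool.Agent.Helper49.FA

open MeasureTheory Set Filter Topology Complex
open MvPolynomial (monomial pderiv)
open scoped ContDiff ComplexConjugate

variable {n : ℕ}

namespace DivApp

/-- restriction of the variables -/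
def res (J : Finset (Fin n)) (θ : Fin n → ℝ) : J → ℝ := fun a => θ a

/-- extension by `x` -/
def extx (J : Finset (Fin n)) (x : Fin n → ℝ) (y : J → ℝ) : Fin n → ℝ :=
  fun k => if h : k ∈ J then y ⟨k, h⟩ else x k

/-- extension by zero of integer vectors -/
def lz (J : Finset (Fin n)) (l : J → ℤ) : Fin n → ℤ := fun k => if h : k ∈ J then l ⟨k, h⟩ else 0

theorem contDiff_res (J : Finset (Fin n)) : ContDiff ℝ ∞ (res J) := by
  rw [contDiff_pi]
  intro a
  exact contDiff_apply ℝ ℝ (a : Fin n)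

theorem hasFDerivAt_extx (J : Finset (Fin n)) (x : Fin n → ℝ) (y : J → ℝ) :
    HasFDerivAt (extx J x) (ContinuousLinearMap.pi fun k =>
      if h : k ∈ J then (ContinuousLinearMap.proj (⟨k, h⟩ : J) : (J → ℝ) →L[ℝ] ℝ) else 0) y := by
  rw [hasFDerivAt_pi]
  intro k
  by_cases h : k ∈ J
  · simp only [extx, h, dif_pos]
    exact hasFDerivAt_apply (⟨k, h⟩ : J) y
  · simp only [extx, h, dif_neg, not_false_iff]
    exact hasFDerivAt_const _ _

theorem contDiff_extx (J : Finset (Fin n)) (x : Fin n → ℝ) : ContDiff ℝ ∞ (extx J x) := by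
  rw [contDiff_pi]
  intro k
  by_cases h : k ∈ J
  · simp only [extx, h, dif_pos]
    exact contDiff_apply ℝ ℝ (⟨k, h⟩ : J)
  · simp only [extx, h, dif_neg, not_false_iff]
    exact contDiff_const

theorem extx_res (J : Finset (Fin n)) (x : Fin n → ℝ) : extx J x (res J x) = x := by
  funext k
  by_cases h : k ∈ J <;> simp [extx, res, h]

theorem fderiv_comp_extx {J : Finset (Fin n)} {x : Fin n → ℝ} {f : (Fin n → ℝ) → ℝ} (hf : ContDiff ℝ ∞ f)
    (a : J) : fderiv ℝ (fun y => f (extx J x y)) (res J x) (Pi.single a 1)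
      = fderiv ℝ f x (Pi.single (a : Fin n) 1) := by
  classical
  have h1 : HasFDerivAt f (fderiv ℝ f x) (extx J x (res J x)) := by
    rw [extx_res]
    exact ((hf.differentiable (by simp)).differentiableAt).hasFDerivAt
  have h2 : HasFDerivAt (fun y => f (extx J x y)) _ (res J x) := h1.comp _ (hasFDerivAt_extx J x (res J x))
  rw [h2.fderiv, ContinuousLinearMap.comp_apply]
  congr 1
  funext k
  rw [ContinuousLinearMap.pi_apply]
  by_cases h : k ∈ J
  · simp only [h, dif_pos, ContinuousLinearMap.proj_apply]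
    by_cases hk : k = a
    · subst hk
      simp
    · rw [Pi.single_eq_of_ne hk, Pi.single_eq_of_ne]
      intro hcon
      exact hk (congrArg Subtype.val hcon)
  · simp only [h, dif_neg, not_false_iff, zero_apply]
    rw [Pi.single_eq_of_ne]
    rintro rfl
    exact h a.2

theorem chr_lz (J : Finset (Fin n)) (l : J → ℤ) (θ : Fin n → ℝ) : chr (lz J l) θ = chr l (res J θ) := by
  rw [chr, chr]
  congr 2
  have h1 : ∑ k ∈ J, ((lz J l k : ℤ) : ℂ) * (θ k : ℂ) = ∑ k, ((lz J l k : ℤ) : ℂ) * (θ k : ℂ) := by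
    apply Finset.sum_subset (Finset.subset_univ _)
    intro k _ hk
    simp [lz, hk]
  rw [← h1, ← Finset.sum_coe_sort J]
  apply Finset.sum_congr rfl
  intro a _
  simp [lz, res]

theorem norm_lz_le (J : Finset (Fin n)) (l : J → ℤ) : ‖lz J l‖ ≤ ‖l‖ := by
  rw [pi_norm_le_iff_of_nonneg (norm_nonneg _)]
  intro k
  by_cases h : k ∈ J
  · simp only [lz, h, dif_pos]
    exact norm_le_pi_norm l _
  · simp [lz, h]

/-- the Fourier expansion of a function of the variables in `J` -/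
theorem wd_expand {V : (Fin n → ℤ) → ℂ} {C : ℝ} {κ : ℕ} (hV : Gr V C κ) {J : Finset (Fin n)}
    {x : Fin n → ℝ} {G : (J → ℝ) → ℂ} (hG : Tst G) {r : ℝ} (hr : r < Real.pi)
    (hGs : ∀ y, r < ‖y - res J x‖ → G y = 0) {Ψ : (Fin n → ℝ) → ℂ} (hΨ : Tst Ψ)
    (hΨs : ∀ θ, Real.pi ≤ ‖θ - x‖ → Ψ θ = 0) :
    HasSum (fun l : J → ℤ => fc G l * Wd V (fun θ => chr (lz J l) θ * Ψ θ))
      ((2 * Real.pi : ℂ) ^ J.card * Wd V (fun θ => G (res J θ) * Ψ θ)) := by
  classical
  have hres : ∀ θ, ‖res J θ - res J x‖ ≤ ‖θ - x‖ := by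
    intro θ
    rw [pi_norm_le_iff_of_nonneg (norm_nonneg _)]
    intro a
    exact norm_le_pi_norm (θ - x) (a : Fin n)
  -- the double family
  set f : (J → ℤ) × (Fin n → ℤ) → ℂ := fun q => fc G q.1 * (fc Ψ q.2 * V (q.2 + lz J q.1)) with hf
  have hfs : Summable f := by
    have h1 := (hG.summable_fc κ).mul_of_nonneg (hΨ.summable_fc κ) (fun _ => by positivity)
      (fun _ => by positivity)
    refine Summable.of_norm_bounded (h1.mul_left C) fun q => ?_
    rw [hf]
    simp only [norm_mul]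
    have h2 := hV.shift (lz J q.1) q.2
    have h3 : (1 + ‖lz J q.1‖) ^ κ ≤ (1 + ‖q.1‖) ^ κ := by
      apply pow_le_pow_left₀ (by positivity)
      linarith [norm_lz_le J q.1]
    calc ‖fc G q.1‖ * (‖fc Ψ q.2‖ * ‖V (q.2 + lz J q.1)‖)
        ≤ ‖fc G q.1‖ * (‖fc Ψ q.2‖ * (C * (1 + ‖lz J q.1‖) ^ κ * (1 + ‖q.2‖) ^ κ)) := by gcongr
      _ ≤ ‖fc G q.1‖ * (‖fc Ψ q.2‖ * (C * (1 + ‖q.1‖) ^ κ * (1 + ‖q.2‖) ^ κ)) := by
          have := hV.1
          gcongr
      _ = _ := by ring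
  have hfib : ∀ l, HasSum (fun m => f (l, m)) (fc G l * Wd V (fun θ => chr (lz J l) θ * Ψ θ)) := by
    intro l
    rw [Wd_chr]
    exact (hV.summable hΨ (lz J l)).hasSum.mul_left (fc G l)
  have hmain := hfs.hasSum.prod_fiberwise hfib
  convert hmain using 1
  -- compute the double sum in the other order
  set e : (J → ℤ) × (Fin n → ℤ) ≃ (J → ℤ) × (Fin n → ℤ) :=
    { toFun := fun q => (q.1, q.2 + lz J q.1)
      invFun := fun q => (q.1, q.2 - lz J q.1)
      left_inv := fun q => by simp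
      right_inv := fun q => by simp } with he
  set g : (J → ℤ) × (Fin n → ℤ) → ℂ := fun q => fc G q.1 * (fc Ψ (q.2 - lz J q.1) * V q.2) with hg
  have hfg : f = g ∘ e := by
    funext q
    simp [hf, hg, he]
  have hgs : Summable g := by
    rw [← e.summable_iff, ← hfg]
    exact hfs
  have h1 : ∑' q, f q = ∑' q, g q := by
    rw [hfg]
    exact e.tsum_eq g
  rw [h1]
  have h2 : ∑' q, g q = ∑' m, ∑' l, g (l, m) := by
    rw [← (Equiv.prodComm (Fin n → ℤ) (J → ℤ)).tsum_eq g]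
    exact ((Equiv.prodComm (Fin n → ℤ) (J → ℤ)).summable_iff.2 hgs).tsum_prod
  rw [h2, Wd, ← tsum_mul_left]
  apply tsum_congr
  intro m
  -- the Fourier coefficient of the product
  have h3 : HasSum (fun l : J → ℤ => fc G l * fc Ψ (m - lz J l))
      ((2 * Real.pi : ℂ) ^ J.card * fc (fun θ => G (res J θ) * Ψ θ) m) := by
    have hint : ∀ l : J → ℤ, Integrable (fun θ => fc G l * (chr (lz J l) θ * Ψ θ * chr (-m) θ)) := by
      intro l
      apply Integrable.const_mul
      have := (((hΨ.mul_left (contDiff_chr (lz J l)))).mul_left (contDiff_chr (-m))).integrable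
      refine this.congr (Eventually.of_forall fun θ => ?_)
      simp only
      ring
    have hsum : Summable fun l : J → ℤ => ∫ θ, ‖fc G l * (chr (lz J l) θ * Ψ θ * chr (-m) θ)‖ := by
      have h4 : Summable fun l : J → ℤ => ‖fc G l‖ * ∫ θ, ‖Ψ θ‖ := by
        have := (hG.summable_fc 0).mul_right (∫ θ, ‖Ψ θ‖)
        simpa using this
      refine h4.congr fun l => ?_
      rw [← integral_const_mul]
      congr 1
      funext θ
      rw [norm_mul, norm_mul, norm_mul, norm_chr, norm_chr]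
      ring
    have h5 := hasSum_integral_of_summable_integral_norm hint hsum
    have h6 : ∀ l : J → ℤ, ∫ θ, fc G l * (chr (lz J l) θ * Ψ θ * chr (-m) θ)
        = fc G l * fc Ψ (m - lz J l) := by
      intro l
      rw [integral_const_mul, ← fc_chr_mul]
      rfl
    have h7 : ∫ θ, ∑' l : J → ℤ, fc G l * (chr (lz J l) θ * Ψ θ * chr (-m) θ)
        = (2 * Real.pi : ℂ) ^ J.card * fc (fun θ => G (res J θ) * Ψ θ) m := by
      rw [fc, ← integral_const_mul]
      congr 1
      funext θ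
      by_cases hθ : ‖θ - x‖ < Real.pi
      · have hs : Summable (fc G) := by
          have := hG.summable_fc 0
          simp only [pow_zero, mul_one] at this
          exact this.of_norm
        have h8 := fourier_cell (res J x) hG.cont hr hGs hs ((hres θ).trans_lt hθ)
        rw [Fintype.card_coe] at h8
        have h9 := h8.mul_right (Ψ θ * chr (-m) θ)
        rw [show (2 * Real.pi : ℂ) ^ J.card * (G (res J θ) * Ψ θ * chr (-m) θ)
          = (2 * Real.pi : ℂ) ^ J.card * G (res J θ) * (Ψ θ * chr (-m) θ) by ring, ← h9.tsum_eq]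
        apply tsum_congr
        intro l
        rw [chr_lz]
        ring
      · rw [hΨs θ (not_lt.1 hθ)]
        simp
    rw [← h7]
    simp only [← h6]
    exact h5
  rw [← mul_assoc, ← h3.tsum_eq, ← tsum_mul_right]
  apply tsum_congr
  intro l
  rw [hg]
  ring

/-- killing: one variable -/
theorem kill_one {V : (Fin n → ℤ) → ℂ} {C : ℝ} {κ : ℕ} (hV : Gr V C κ) {x : Fin n → ℝ} {ρ : ℝ} {j : Fin n}
    {β : (Fin n → ℝ) → ℝ} (hβ : ContDiff ℝ ∞ β)
    (hkill : ∀ φ, Tst φ → (∀ θ, ρ < ‖θ - x‖ → φ θ = 0) →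
      Wd V (fun θ => (exp (I * (θ j : ℂ)) - exp (I * (β θ : ℂ))) * φ θ) = 0)
    {φ : (Fin n → ℝ) → ℂ} (hφ : Tst φ) (hs : ∀ θ, ρ < ‖θ - x‖ → φ θ = 0) :
    Wd V (fun θ => exp (I * ((θ j : ℂ) - (β θ : ℂ))) * φ θ) = Wd V φ := by
  have hc : ContDiff ℝ ∞ fun θ : Fin n → ℝ => exp (-(I * (β θ : ℂ))) := by
    apply ContDiff.cexp
    exact (contDiff_const.mul (ofRealCLM.contDiff.comp hβ)).neg
  have hψ : Tst fun θ => exp (-(I * (β θ : ℂ))) * φ θ := hφ.mul_left hc
  have h1 := hkill _ hψ (fun θ hθ => by rw [hs θ hθ, mul_zero])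
  have hE : ContDiff ℝ ∞ fun θ : Fin n → ℝ => exp (I * ((θ j : ℂ) - (β θ : ℂ))) := by
    apply ContDiff.cexp
    exact contDiff_const.mul ((ofRealCLM.contDiff.comp (contDiff_apply ℝ ℝ j)).sub
      (ofRealCLM.contDiff.comp hβ))
  have h2 : (fun θ => exp (I * ((θ j : ℂ) - (β θ : ℂ))) * φ θ)
      = fun θ => (exp (I * (θ j : ℂ)) - exp (I * (β θ : ℂ))) * (exp (-(I * (β θ : ℂ))) * φ θ) + φ θ := by
    funext θ
    have e1 : exp (I * (β θ : ℂ)) * exp (-(I * (β θ : ℂ))) = 1 := by rw [← exp_add]; simp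
    have e2 : exp (I * ((θ j : ℂ) - (β θ : ℂ))) = exp (I * (θ j : ℂ)) * exp (-(I * (β θ : ℂ))) := by
      rw [← exp_add]; congr 1; ring
    rw [e2]
    linear_combination (φ θ) * e1
  have hT : Tst fun θ => (exp (I * (θ j : ℂ)) - exp (I * (β θ : ℂ))) * (exp (-(I * (β θ : ℂ))) * φ θ) := by
    apply hψ.mul_left
    apply ContDiff.sub
    · exact (contDiff_const.mul (ofRealCLM.contDiff.comp (contDiff_apply ℝ ℝ j))).cexp
    · exact (contDiff_const.mul (ofRealCLM.contDiff.comp hβ)).cexp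
  rw [h2, (Wd_isDist hV).add _ _ hT hφ, h1, zero_add]

theorem contDiff_E {j : Fin n} {β : (Fin n → ℝ) → ℝ} (hβ : ContDiff ℝ ∞ β) :
    ContDiff ℝ ∞ fun θ : Fin n → ℝ => exp (I * ((θ j : ℂ) - (β θ : ℂ))) := by
  apply ContDiff.cexp
  exact contDiff_const.mul ((ofRealCLM.contDiff.comp (contDiff_apply ℝ ℝ j)).sub
    (ofRealCLM.contDiff.comp hβ))

/-- killing: one variable, powers -/
theorem kill_pow {V : (Fin n → ℤ) → ℂ} {C : ℝ} {κ : ℕ} (hV : Gr V C κ) {x : Fin n → ℝ} {ρ : ℝ} {j : Fin n}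
    {β : (Fin n → ℝ) → ℝ} (hβ : ContDiff ℝ ∞ β)
    (hkill : ∀ φ, Tst φ → (∀ θ, ρ < ‖θ - x‖ → φ θ = 0) →
      Wd V (fun θ => (exp (I * (θ j : ℂ)) - exp (I * (β θ : ℂ))) * φ θ) = 0)
    {φ : (Fin n → ℝ) → ℂ} (hφ : Tst φ) (hs : ∀ θ, ρ < ‖θ - x‖ → φ θ = 0) (N : ℕ) :
    Wd V (fun θ => exp (I * ((θ j : ℂ) - (β θ : ℂ))) ^ N * φ θ) = Wd V φ := by
  induction N with
  | zero => simp
  | succ N ih =>
    rw [← ih]
    rw [← kill_one hV hβ hkill (φ := fun θ => exp (I * ((θ j : ℂ) - (β θ : ℂ))) ^ N * φ θ)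
      (hφ.mul_left ((contDiff_E hβ).pow N)) (fun θ hθ => by rw [hs θ hθ, mul_zero])]
    congr 1
    funext θ
    ring

/-- killing: several variables -/
theorem kill_prod {V : (Fin n → ℤ) → ℂ} {C : ℝ} {κ : ℕ} (hV : Gr V C κ) {x : Fin n → ℝ} {ρ : ℝ}
    (S : Finset (Fin n)) {β : Fin n → (Fin n → ℝ) → ℝ} (hβ : ∀ j ∈ S, ContDiff ℝ ∞ (β j))
    (hkill : ∀ j ∈ S, ∀ φ, Tst φ → (∀ θ, ρ < ‖θ - x‖ → φ θ = 0) →
      Wd V (fun θ => (exp (I * (θ j : ℂ)) - exp (I * (β j θ : ℂ))) * φ θ) = 0)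
    {φ : (Fin n → ℝ) → ℂ} (hφ : Tst φ) (hs : ∀ θ, ρ < ‖θ - x‖ → φ θ = 0) (N : Fin n → ℕ) :
    Wd V (fun θ => (∏ j ∈ S, exp (I * ((θ j : ℂ) - (β j θ : ℂ))) ^ N j) * φ θ) = Wd V φ := by
  classical
  induction S using Finset.induction_on with
  | empty => simp
  | insert a S ha ih =>
    have h1 := ih (fun j hj => hβ j (Finset.mem_insert_of_mem hj))
      (fun j hj => hkill j (Finset.mem_insert_of_mem hj))
    rw [← h1]
    rw [← kill_pow hV (hβ a (Finset.mem_insert_self _ _)) (hkill a (Finset.mem_insert_self _ _))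
      (φ := fun θ => (∏ j ∈ S, exp (I * ((θ j : ℂ) - (β j θ : ℂ))) ^ N j) * φ θ) ?_
      (fun θ hθ => by rw [hs θ hθ, mul_zero]) (N a)]
    · congr 1
      funext θ
      rw [Finset.prod_insert ha]
      ring
    · apply hφ.mul_left
      apply contDiff_prod
      intro j hj
      exact (contDiff_E (hβ j (Finset.mem_insert_of_mem hj))).pow _

/-- the exponent with given coordinates on two disjoint sets -/
noncomputable def al (J K : Finset (Fin n)) (m : (J → ℕ) × (K → ℕ)) : Fin n →₀ ℕ :=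
  Finsupp.equivFunOnFinite.symm fun k =>
    (if h : k ∈ J then m.1 ⟨k, h⟩ else 0) + (if h : k ∈ K then m.2 ⟨k, h⟩ else 0)

theorem zz_al (J K : Finset (Fin n)) (m : (J → ℕ) × (K → ℕ)) :
    zz (al J K m) = lz J (fun a => (m.1 a : ℤ)) + lz K (fun a => (m.2 a : ℤ)) := by
  funext k
  simp only [zz, al, lz, Finsupp.equivFunOnFinite_symm_apply_apply, Pi.add_apply]
  by_cases h1 : k ∈ J <;> by_cases h2 : k ∈ K <;> simp [h1, h2]

theorem al_inj {J K : Finset (Fin n)} (hd : Disjoint J K) : Function.Injective (al J K) := by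
  intro m m' h
  have h1 : ∀ k, al J K m k = al J K m' k := fun k => by rw [h]
  simp only [al, Finsupp.equivFunOnFinite_symm_apply_apply] at h1
  apply Prod.ext
  · funext a
    have := h1 a
    have h2 : (a : Fin n) ∉ K := Finset.disjoint_left.1 hd a.2
    simpa [h2, a.2] using this
  · funext a
    have := h1 a
    have h2 : (a : Fin n) ∉ J := Finset.disjoint_right.1 hd a.2
    simpa [h2, a.2] using this

theorem weight_al {J K : Finset (Fin n)} (hd : Disjoint J K) (t : ℝ) (m : (J → ℕ) × (K → ℕ)) :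
    Cyc.weight t (al J K m) = (∏ a, (1 + (m.1 a : ℝ)) ^ t) * ∏ b, (1 + (m.2 b : ℝ)) ^ t := by
  classical
  have h1 : Cyc.weight t (al J K m) = ∏ j ∈ J ∪ K, (1 + (al J K m j : ℝ)) ^ t := by
    rw [Cyc.weight]
    symm
    apply Finset.prod_subset (Finset.subset_univ _)
    intro k _ hk
    have h2 : k ∉ J := fun h => hk (Finset.mem_union_left _ h)
    have h3 : k ∉ K := fun h => hk (Finset.mem_union_right _ h)
    simp [al, h2, h3]
  rw [h1, Finset.prod_union hd, ← Finset.prod_coe_sort J, ← Finset.prod_coe_sort K]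
  congr 1
  · apply Finset.prod_congr rfl
    intro a _
    have h2 : (a : Fin n) ∉ K := Finset.disjoint_left.1 hd a.2
    simp [al, h2]
  · apply Finset.prod_congr rfl
    intro a _
    have h2 : (a : Fin n) ∉ J := Finset.disjoint_right.1 hd a.2
    simp [al, h2]

end DivApp

open DivApp in
theorem divergence_applied {t : ℝ} (ht : 0 ≤ t) {V : (Fin n → ℤ) → ℂ} {C : ℝ} {κ : ℕ} (hV : Gr V C κ)
    (hsq : ∀ φ, Tst φ → Summable fun α : Fin n →₀ ℕ =>
      ‖Wd V (fun θ => chr (zz α) θ * φ θ)‖ ^ 2 / Cyc.weight t α)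
    {x : Fin n → ℝ} (hx : InSupp (Wd V) x) {B J : Finset (Fin n)} (hJB : J ⊆ B) (hne : (B \ J).Nonempty)
    (β : Fin n → (Fin n → ℝ) → ℝ) (hβ : ∀ j ∈ B \ J, ContDiff ℝ ∞ (β j))
    (hdep : ∀ j ∈ B \ J, ∀ θ θ' : Fin n → ℝ, (∀ k ∈ J, θ k = θ' k) → β j θ = β j θ')
    (hkill : ∀ j ∈ B \ J, ∃ ρ : ℝ, 0 < ρ ∧ ∀ φ, Tst φ → (∀ θ, ρ < ‖θ - x‖ → φ θ = 0) →
      Wd V (fun θ => (exp (I * (θ j : ℂ)) - exp (I * (β j θ : ℂ))) * φ θ) = 0)
    (m : Fin n → ℝ) (hm : ∀ k ∈ B, 0 < m k)
    (hgrad : ∀ a ∈ J, m a + ∑ j ∈ B \ J, m j * fderiv ℝ (β j) x (Pi.single a 1) = 0) :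
    (((B \ J).card : ℕ) : ℝ) < t * B.card := by
  classical
  have : Nonempty ↥(B \ J) := hne.to_subtype
  have hd : Disjoint J (B \ J) := Finset.disjoint_sdiff
  -- the local data
  set β' : ↥(B \ J) → (↥J → ℝ) → ℝ := fun b y => β b (extx J x y) with hβ'def
  have hβ' : ∀ b, ContDiff ℝ ∞ (β' b) := fun b => (hβ b b.2).comp (contDiff_extx J x)
  have hgrad' : ∀ a : J, m a + ∑ b : ↥(B \ J), m b * fderiv ℝ (β' b) (res J x) (Pi.single a 1) = 0 := by
    intro a
    rw [← hgrad a a.2]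
    congr 1
    rw [← Finset.sum_coe_sort (B \ J)]
    apply Finset.sum_congr rfl
    intro b _
    rw [hβ'def]
    simp only
    rw [fderiv_comp_extx (hβ b b.2)]
  obtain ⟨ρ, hρ, hdiv⟩ := divergence' ht β' hβ' (res J x) (fun a => m a) (fun b => m b)
    (fun a => hm a (hJB a.2)) (fun b => hm b (Finset.mem_sdiff.1 b.2).1) hgrad'
  -- the radius
  choose! ρk hρk hk using hkill
  obtain ⟨r, hr, hrk⟩ : ∃ r : ℝ, 0 < r ∧ ∀ j ∈ B \ J, r ≤ ρk j := by
    obtain ⟨b₀, hb₀, hmin⟩ := Finset.exists_min_image (B \ J) ρk hne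
    exact ⟨ρk b₀, hρk b₀ hb₀, hmin⟩
  set ε : ℝ := min (min ρ r) Real.pi / 4 with hε
  have hε0 : 0 < ε := by
    have := lt_min (lt_min hρ hr) Real.pi_pos
    positivity
  have hερ : 2 * ε < ρ := by
    have h1 : min (min ρ r) Real.pi ≤ ρ := (min_le_left _ _).trans (min_le_left _ _)
    rw [hε]
    linarith
  have hεr : ε < r := by
    have h1 : min (min ρ r) Real.pi ≤ r := (min_le_left _ _).trans (min_le_right _ _)
    rw [hε]
    linarith
  have hεπ : 2 * ε < Real.pi := by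
    have h1 : min (min ρ r) Real.pi ≤ Real.pi := min_le_right _ _
    have h2 := Real.pi_pos
    rw [hε]
    linarith
  obtain ⟨H₀, hH₀, hH₀s, hH₀0⟩ := hx ε hε0
  -- the bump function
  let bump : ContDiffBump (res J x) := ⟨ε, 2 * ε, hε0, by linarith⟩
  set χ : (J → ℝ) → ℂ := fun y => ((bump y : ℝ) : ℂ) with hχdef
  have hχ : ContDiff ℝ ∞ χ := ofRealCLM.contDiff.comp bump.contDiff
  have hχ0 : ∀ y, 2 * ε < ‖y - res J x‖ → χ y = 0 := by
    intro y hy
    have : bump y = 0 := bump.zero_of_le_dist (by rw [dist_eq_norm]; exact hy.le)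
    rw [hχdef]
    simp [this]
  have hχ1 : ∀ y, ‖y - res J x‖ ≤ ε → χ y = 1 := by
    intro y hy
    have : bump y = 1 := bump.one_of_mem_closedBall (by rw [mem_closedBall_iff_norm]; exact hy)
    rw [hχdef]
    simp [this]
  -- the sequence
  set v : (J → ℤ) → (↥(B \ J) → ℤ) → ℂ := fun l k =>
    ((2 * Real.pi : ℂ) ^ J.card)⁻¹ * Wd V (fun θ => chr (lz J l + lz (B \ J) k) θ * H₀ θ) with hv
  have h2π : (2 * Real.pi : ℂ) ^ J.card ≠ 0 := pow_ne_zero _ (by simp [Real.pi_ne_zero])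
  have hgrow : ∃ (C : ℝ) (κ : ℕ), ∀ l k, ‖v l k‖ ≤ C * (1 + ‖l‖ + ‖k‖) ^ κ := by
    obtain ⟨C', hC'⟩ := Wd_growth hV hH₀
    refine ⟨‖((2 * Real.pi : ℂ) ^ J.card)⁻¹‖ * C', κ, fun l k => ?_⟩
    have h1 := hC'.2 (lz J l + lz (B \ J) k)
    have h2 : ‖lz J l + lz (B \ J) k‖ ≤ ‖l‖ + ‖k‖ :=
      (norm_add_le _ _).trans (add_le_add (norm_lz_le _ _) (norm_lz_le _ _))
    rw [hv]
    simp only
    rw [norm_mul, mul_assoc]
    apply mul_le_mul_of_nonneg_left _ (norm_nonneg _)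
    refine h1.trans ?_
    apply mul_le_mul_of_nonneg_left _ hC'.1
    apply pow_le_pow_left₀ (by positivity)
    linarith
  have hsum : Summable fun m : (J → ℕ) × (↥(B \ J) → ℕ) =>
      ‖v (fun a => (m.1 a : ℤ)) (fun b => (m.2 b : ℤ))‖ ^ 2 /
        ((∏ a, (1 + (m.1 a : ℝ)) ^ t) * ∏ b, (1 + (m.2 b : ℝ)) ^ t) := by
    have h1 := ((hsq H₀ hH₀).comp_injective (al_inj hd)).mul_left (‖((2 * Real.pi : ℂ) ^ J.card)⁻¹‖ ^ 2)
    refine h1.congr fun m => ?_
    simp only [Function.comp]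
    rw [weight_al hd, zz_al, hv]
    simp only
    rw [norm_mul]
    ring
  have hz : ∀ k : ↥(B \ J) → ℤ, (∀ b, 0 ≤ k b) →
      HasSum (fun l : J → ℤ =>
        (∫ y, χ y * exp (-(I * ∑ b, (k b : ℂ) * (β' b y : ℂ))) * chr (-l) y) * v l k) (Wd V H₀) := by
    intro k hk0
    set G : (J → ℝ) → ℂ := fun y => χ y * exp (-(I * ∑ b, (k b : ℂ) * (β' b y : ℂ))) with hG
    have hEc : ContDiff ℝ ∞ fun y : J → ℝ => exp (-(I * ∑ b, (k b : ℂ) * (β' b y : ℂ))) := by
      apply ContDiff.cexp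
      apply ContDiff.neg
      apply contDiff_const.mul
      apply ContDiff.sum
      intro b _
      exact contDiff_const.mul (ofRealCLM.contDiff.comp (hβ' b))
    have hGT : Tst G := by
      refine ⟨hχ.mul hEc, ?_⟩
      have h1 : HasCompactSupport χ := by
        have h2 : HasCompactSupport (bump : (J → ℝ) → ℝ) := bump.hasCompactSupport
        exact h2.comp_left (g := fun r : ℝ => (r : ℂ)) (by simp)
      exact h1.mul_right
    have hG0 : ∀ y, 2 * ε < ‖y - res J x‖ → G y = 0 := by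
      intro y hy
      rw [hG]
      simp only
      rw [hχ0 y hy, zero_mul]
    have hΨ : Tst fun θ => chr (lz (B \ J) k) θ * H₀ θ := hH₀.mul_left (contDiff_chr _)
    have hexp := wd_expand hV hGT hεπ hG0 hΨ (fun θ hθ => by
      rw [hH₀s θ (by linarith), mul_zero])
    have h3 := hexp.mul_left ((2 * Real.pi : ℂ) ^ J.card)⁻¹
    rw [← mul_assoc, inv_mul_cancel₀ h2π, one_mul] at h3
    have h4 : Wd V (fun θ => G (res J θ) * (chr (lz (B \ J) k) θ * H₀ θ)) = Wd V H₀ := by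
      rw [← kill_prod hV (B \ J) hβ (fun j hj φ hφ hs => hk j hj φ hφ (fun θ hθ => hs θ
        ((hrk j hj).trans_lt hθ))) hH₀ (fun θ hθ => hH₀s θ (hεr.trans hθ))
        (fun j => if h : j ∈ B \ J then (k ⟨j, h⟩).toNat else 0)]
      congr 1
      funext θ
      by_cases hθ : ε < ‖θ - x‖
      · rw [hH₀s θ hθ]
        simp
      · have h5 : ‖res J θ - res J x‖ ≤ ‖θ - x‖ := by
          rw [pi_norm_le_iff_of_nonneg (norm_nonneg _)]
          intro a
          exact norm_le_pi_norm (θ - x) (a : Fin n)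
        rw [hG]
        simp only
        rw [hχ1 _ (h5.trans (not_lt.1 hθ)), one_mul, ← mul_assoc]
        congr 1
        rw [chr_lz, chr, ← exp_add, ← Finset.prod_coe_sort (B \ J)]
        have h6 : ∀ b : ↥(B \ J), exp (I * ((θ b : ℂ) - (β b θ : ℂ))) ^
            (if h : (b : Fin n) ∈ B \ J then (k ⟨b, h⟩).toNat else 0)
            = exp ((k b : ℂ) * (I * ((θ b : ℂ) - (β b θ : ℂ)))) := by
          intro b
          rw [dif_pos b.2, ← exp_nat_mul]
          congr 2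
          have := hk0 b
          have h7 : ((k b).toNat : ℤ) = k b := Int.toNat_of_nonneg this
          calc (((k ⟨(b : Fin n), b.2⟩).toNat : ℕ) : ℂ) = (((k b).toNat : ℤ) : ℂ) := by push_cast; rfl
            _ = (k b : ℂ) := by rw [h7]
        rw [Finset.prod_congr rfl fun b _ => h6 b, ← exp_sum]
        congr 1
        have h8 : ∀ b : ↥(B \ J), β' b (res J θ) = β b θ := by
          intro b
          rw [hβ'def]
          simp only
          apply hdep b b.2
          intro k hk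
          simp [extx, res, hk]
        simp only [h8, Finset.mul_sum]
        rw [← Finset.sum_neg_distrib, ← Finset.sum_add_distrib]
        apply Finset.sum_congr rfl
        intro b _
        simp only [res]
        ring
    rw [h4] at h3
    have hfun : (fun l : J → ℤ =>
        (∫ y, χ y * exp (-(I * ∑ b, (k b : ℂ) * (β' b y : ℂ))) * chr (-l) y) * v l k)
        = fun l => ((2 * Real.pi : ℂ) ^ J.card)⁻¹ *
          (fc G l * Wd V (fun θ => chr (lz J l) θ * (chr (lz (B \ J) k) θ * H₀ θ))) := by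
      funext l
      have h9 : (fun θ => chr (lz J l + lz (B \ J) k) θ * H₀ θ)
          = fun θ => chr (lz J l) θ * (chr (lz (B \ J) k) θ * H₀ θ) := by
        funext θ
        rw [chr_add, mul_assoc]
      rw [hv]
      simp only
      rw [h9, fc]
      ring
    rw [hfun]
    exact h3
  have := hdiv χ hχ (fun y hy => hχ0 y (hερ.trans hy)) v hgrow hsum (Wd V H₀) hz hH₀0
  rw [Fintype.card_coe, Fintype.card_coe] at this
  have hcard : (J.card : ℝ) + ((B \ J).card : ℝ) = B.card := by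
    have h1 := Finset.card_sdiff_add_card_eq_card hJB
    rw [← h1]
    push_cast
    ring
  rw [hcard] at this
  exact this

end Pool.Agent.Helper49.FA

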