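import Mathlib

/-!
Laws of groups, fully invariant closures, relatively free groups and the words used in the
disproof of: finite-index subgroups of groups with finitely based laws have finitely based laws.
-/

namespace Helper30.FB

open scoped commutatorElement

/-- the free group of countable rank. -/
abbrev F := FreeGroup ℕ

/-- the fully invariant closure of a set of words. -/
def FI (S : Set F) : Subgroup F := Subgroup.closure {w : F | ∃ s ∈ S, ∃ φ : F →* F, φ s = w}

/-- `w` is a law of `G`. -/
def IsLaw (w : F) (G : Type) [Group G] : Prop := ∀ f : F →* G, f w = 1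

lemma isLaw_of_mem_FI {S : Set F} {G : Type} [Group G] (h : ∀ s ∈ S, IsLaw s G) {w : F}
    (hw : w ∈ FI S) : IsLaw w G := by
  intro f
  have : FI S ≤ f.ker := by
    rw [FI, Subgroup.closure_le]
    rintro w ⟨s, hs, φ, rfl⟩
    exact h s hs (f.comp φ)
  exact this hw

lemma subset_FI {S : Set F} {s : F} (hs : s ∈ S) : s ∈ FI S :=
  Subgroup.subset_closure ⟨s, hs, MonoidHom.id F, rfl⟩

lemma FI_mono {S T : Set F} (h : S ⊆ T) : FI S ≤ FI T := by
  apply Subgroup.closure_mono
  rintro w ⟨s, hs, φ, rfl⟩
  exact ⟨s, h hs, φ, rfl⟩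

lemma map_mem_FI {S : Set F} (ψ : F →* F) {w : F} (hw : w ∈ FI S) : ψ w ∈ FI S := by
  have : FI S ≤ (FI S).comap ψ := by
    rw [FI, Subgroup.closure_le]
    rintro w ⟨s, hs, φ, rfl⟩
    exact Subgroup.subset_closure ⟨s, hs, ψ.comp φ, rfl⟩
  exact this hw

instance FI_normal (S : Set F) : (FI S).Normal := by
  constructor
  intro n hn g
  exact map_mem_FI (MulAut.conj g).toMonoidHom hn

lemma FI_le_FI {S T : Set F} (h : ∀ s ∈ S, s ∈ FI T) : FI S ≤ FI T := by
  rw [FI, Subgroup.closure_le]
  rintro w ⟨s, hs, φ, rfl⟩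
  exact map_mem_FI φ (h s hs)

/-- homs from the free group lift through quotients. -/
lemma exists_lift {N : Subgroup F} [N.Normal] (f : F →* F ⧸ N) :
    ∃ φ : F →* F, ∀ w, f w = (QuotientGroup.mk (φ w) : F ⧸ N) := by
  refine ⟨FreeGroup.lift (fun n => (f (FreeGroup.of n)).out), ?_⟩
  intro w
  have : f = (QuotientGroup.mk' N).comp
      (FreeGroup.lift (fun n => (f (FreeGroup.of n)).out)) := by
    ext n
    simp
  exact congrArg (fun g : F →* F ⧸ N => g w) this

lemma isLaw_quot {S : Set F} {w : F} : IsLaw w (F ⧸ FI S) ↔ w ∈ FI S := by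
  constructor
  · intro h
    have := h (QuotientGroup.mk' (FI S))
    rwa [QuotientGroup.mk'_apply, QuotientGroup.eq_one_iff] at this
  · intro h f
    obtain ⟨φ, hφ⟩ := exists_lift f
    rw [hφ, QuotientGroup.eq_one_iff]
    exact map_mem_FI φ h

section words

variable {G : Type*} [Group G] {H : Type*} [Group H]

/-- the word whose values generate the elementary abelian subgroup `D`. -/
def β (x y z w : G) : G := (x ^ 3 * y ^ 3) ^ 8 * ⁅z ^ 8, w⁆

lemma map_β (f : G →* H) (x y z w : G) : f (β x y z w) = β (f x) (f y) (f z) (f w) := by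
  simp [β, map_commutatorElement]

/-- the class of groups defined by the law `s0`. -/
def W0 (G : Type*) [Group G] : Prop :=
  ∀ x y z w x' y' z' w' : G, (β x y z w * β x' y' z' w') ^ 2 = 1

/-- iterated commutators. -/
def nest (l : List G) (d : G) : G := l.foldr (fun g d => ⁅g, d⁆) d

@[simp] lemma nest_nil (d : G) : nest [] d = d := rfl
@[simp] lemma nest_cons (g : G) (l : List G) (d : G) : nest (g :: l) d = ⁅g, nest l d⁆ := rfl

lemma map_nest (f : G →* H) (l : List G) (d : G) : f (nest l d) = nest (l.map f) (f d) := by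
  induction l with
  | nil => rfl
  | cons g l ih => simp [map_commutatorElement, ih]

lemma nest_append (l l' : List G) (d : G) : nest (l ++ l') d = nest l (nest l' d) := by
  simp [nest]

lemma nest_one (l : List G) : nest l (1 : G) = 1 := by
  induction l with
  | nil => rfl
  | cons g l ih => simp [ih]

/-- the words `w_k` as functions on a group. -/
def wv (k : ℕ) (a x t1 t2 : G) (u : ℕ → G) : G :=
  nest (⁅t1 ^ 2, t2⁆ :: ((List.range k).map (fun i => (u i) ^ 6) ++ [⁅t1 ^ 2, t2⁆])) ⁅x ^ 16, a⁆

lemma map_wv (f : G →* H) (k : ℕ) (a x t1 t2 : G) (u : ℕ → G) :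
    f (wv k a x t1 t2 u) = wv k (f a) (f x) (f t1) (f t2) (fun i => f (u i)) := by
  simp only [wv, map_nest, List.map_cons, List.map_append, List.map_map, List.map_nil,
    map_commutatorElement, map_pow]
  congr 4
  funext i
  simp

/-- the law defining `W0`. -/
def s0 : F := (β (FreeGroup.of 0) (FreeGroup.of 1) (FreeGroup.of 2) (FreeGroup.of 3) *
  β (FreeGroup.of 4) (FreeGroup.of 5) (FreeGroup.of 6) (FreeGroup.of 7)) ^ 2

/-- the laws `w_k`. -/
def wk (k : ℕ) : F := wv k (FreeGroup.of 0) (FreeGroup.of 1) (FreeGroup.of 2) (FreeGroup.of 3)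
  (fun i => FreeGroup.of (i + 4))

end words

lemma isLaw_s0 {G : Type} [Group G] : IsLaw s0 G ↔ W0 G := by
  constructor
  · intro h x y z w x' y' z' w'
    let a : ℕ → G := fun n => match n with
      | 0 => x | 1 => y | 2 => z | 3 => w | 4 => x' | 5 => y' | 6 => z' | _ => w'
    have := h (FreeGroup.lift a)
    simpa [s0, map_β, a] using this
  · intro h f
    simp only [s0, map_pow, map_mul, map_β]
    exact h _ _ _ _ _ _ _ _

lemma isLaw_wk {G : Type} [Group G] (k : ℕ) :
    IsLaw (wk k) G ↔ ∀ (a x t1 t2 : G) (u : ℕ → G), wv k a x t1 t2 u = 1 := by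
  constructor
  · intro h a x t1 t2 u
    let b : ℕ → G := fun n => match n with
      | 0 => a | 1 => x | 2 => t1 | 3 => t2 | (i + 4) => u i
    have := h (FreeGroup.lift b)
    simpa [wk, map_wv, b] using this
  · intro h f
    simp only [wk, map_wv]
    exact h _ _ _ _ _

end Helper30.FB
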