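import Pool.Agent.Helper30.FB9

/-!
Evaluation of the words `w_k` in the groups `L`.
-/

namespace Helper30.FB

open scoped commutatorElement

attribute [local instance] Classical.propDecidable

section

variable {T X : Type} [Group T] [Fintype T] [Group X] {ξ : T →* X} {γ : T}

lemma C3_comm_one (a b : C3) : ⁅a, b⁆ = 1 :=
  commutatorElement_eq_one_iff_mul_comm.2 (mul_comm _ _)

lemma right_comm (g h : LL ξ γ) : (⁅g, h⁆).right = ⁅g.right, h.right⁆ :=
  map_commutatorElement (SemidirectProduct.rightHom : LL ξ γ →* (YY ξ γ × C3)) g h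

lemma right_pow (g : LL ξ γ) (n : ℕ) : (g ^ n).right = g.right ^ n :=
  map_pow (SemidirectProduct.rightHom : LL ξ γ →* (YY ξ γ × C3)) g n

lemma map_list (l : List (LL ξ γ)) (Z : LL ξ γ) :
    (Z :: (l ++ [Z])).map (fun g => g.right.1.1.2) =
      Z.right.1.1.2 :: ((l.map (fun g => g.right.1)).map (fun u => u.1.2) ++ [Z.right.1.1.2]) := by
  simp [List.map_map, Function.comp_def]

/-- the general shape of the value of an iterated commutator. -/
lemma nest_val (h : Gam ξ γ) {Z : LL ξ γ} (hZ : Z.right.1.1.1 = 1) (hZ2 : Z.right.2 = 1)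
    (l : List (LL ξ γ)) (hl : ∀ g ∈ l, g.right.2 = 1) (a : Dm T X × Dm T X) :
    nest (Z :: (l ++ [Z])) (ila (Ph ξ γ) a) = ila (Ph ξ γ)
      ((0, 0, fun y => B ξ γ (pz Z.right.1.1.2) (ds ((l.map (fun g => g.right.1)).map
          (fun u => u.1.1)) (Z.right.1.1.2 (a.1.1, 0, 0)).2.1) y),
        (0, 0, fun y => B ξ γ (pz Z.right.1.1.2) (ds ((l.map (fun g => g.right.1)).map
          (fun u => u.1.1)) (Z.right.1.1.2 (a.2.1, 0, 0)).2.1) y)) := by
  have hgood : Good ξ γ 1 Z.right.1.1.2 := by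
    have := Z.right.1.2
    rw [← hZ]
    exact this
  rw [nest_ila, foldr_comp, map_list, eval_E h hgood, eval_E h hgood]
  intro g hg
  simp only [List.mem_cons, List.mem_append, List.not_mem_nil, or_false] at hg
  rcases hg with rfl | hg | rfl
  · exact hZ2
  · exact hl g hg
  · exact hZ2

lemma sixth {n : ℕ} (D : TData ξ γ n) (s : T) : s ^ 6 = s ^ 2 := by
  have : s ^ 6 = s ^ 4 * s ^ 2 := by rw [← pow_add]
  rw [this, D.exp4, one_mul]

lemma Z_facts {n : ℕ} (D : TData ξ γ n) (t1 t2 : LL ξ γ) :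
    (⁅t1 ^ 2, t2⁆).right.1.1.1 = 1 ∧ (⁅t1 ^ 2, t2⁆).right.2 = 1 := by
  rw [right_comm, right_pow]
  constructor
  · change ⁅t1.right.1.1.1 ^ 2, t2.right.1.1.1⁆ = 1
    rw [commutatorElement_eq_one_iff_mul_comm]
    exact D.sqc _ _
  · change ⁅t1.right.2 ^ 2, t2.right.2⁆ = 1
    exact C3_comm_one _ _

lemma C3_sixth (c : C3) : c ^ 6 = 1 := by
  have : c ^ 6 = c ^ 3 * c ^ 3 := by rw [← pow_add]
  rw [this, C3_cube, one_mul]

theorem wv_vanish {n : ℕ} (D : TData ξ γ n) {k : ℕ} (hk : k < n) (a x t1 t2 : LL ξ γ)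
    (u : ℕ → LL ξ γ) : wv k a x t1 t2 u = 1 := by
  obtain ⟨hZ, hZ2⟩ := Z_facts D t1 t2
  have h1 : (⁅x ^ 16, a⁆).right = 1 := by
    rw [right_comm, right_pow]
    have h8 := YY_pow8 D.gam D.exp4 x.right.1
    apply Prod.ext
    · change ⁅x.right.1 ^ 16, a.right.1⁆ = 1
      have : x.right.1 ^ 16 = (x.right.1 ^ 8) ^ 2 := by rw [← pow_mul]
      rw [this, h8]; simp
    · change ⁅x.right.2 ^ 16, a.right.2⁆ = 1
      exact C3_comm_one _ _
  obtain ⟨a0, ha0⟩ := right_one (Ph ξ γ) h1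
  have hl : ∀ g ∈ (List.range k).map (fun i => (u i) ^ 6), g.right.2 = 1 := by
    intro g hg
    obtain ⟨i, -, rfl⟩ := List.mem_map.1 hg
    rw [right_pow]
    exact C3_sixth _
  have hgood : Good ξ γ 1 (⁅t1 ^ 2, t2⁆).right.1.1.2 := by
    have := (⁅t1 ^ 2, t2⁆).right.1.2
    rw [← hZ]
    exact this
  have hsq : ∀ ζ ∈ (((List.range k).map (fun i => (u i) ^ 6)).map (fun g => g.right.1)).map
      (fun v : YY ξ γ => v.1.1), ∃ s : T, ζ = s ^ 2 := by
    intro ζ hζ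
    simp only [List.mem_map] at hζ
    obtain ⟨v, ⟨g, ⟨i, -, rfl⟩, rfl⟩, rfl⟩ := hζ
    refine ⟨(u i).right.1.1.1, ?_⟩
    rw [right_pow]
    exact sixth D _
  have hlen : ((((List.range k).map (fun i => (u i) ^ 6)).map (fun g => g.right.1)).map
      (fun v : YY ξ γ => v.1.1)).length + 0 < n := by simpa using hk
  rw [wv, ha0, nest_val D.gam hZ hZ2 _ hl]
  have key : ∀ b : X → ZMod 2, (fun y => B ξ γ (pz (⁅t1 ^ 2, t2⁆).right.1.1.2)
      (ds ((((List.range k).map (fun i => (u i) ^ 6)).map (fun g => g.right.1)).map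
        (fun v : YY ξ γ => v.1.1)) ((⁅t1 ^ 2, t2⁆).right.1.1.2 (b, 0, 0)).2.1) y) = 0 := by
    intro b
    funext y
    have := ds_vanish D hgood b y _ hsq 0 1 rfl hlen
    rwa [tr_one] at this
  rw [key, key]
  exact ila_zero _

theorem wv_nonvanish {n : ℕ} (D : TData ξ γ n) {τ σ : T} (h1 : ξ τ ≠ 1) (h2 : ξ σ ≠ 1)
    (h3 : ξ (σ * τ) ≠ 1) (s : ℕ → T) (hs : ((List.range n).map (fun i => s i ^ 2)).prod = γ) :
    ∃ (a x t1 t2 : LL ξ γ) (u : ℕ → LL ξ γ), wv n a x t1 t2 u ≠ 1 := by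
  let y1 : YY ξ γ := ⟨(τ, np D.gam (dlt T) * Tr ξ τ), by
    have := (Good_np D.gam (dlt T)).mul (Good_Tr D.gam τ)
    rw [one_mul] at this
    exact this⟩
  let tY : T → YY ξ γ := fun τ => ⟨(τ, Tr ξ τ), Good_Tr D.gam τ⟩
  let x : LL ξ γ := SemidirectProduct.inr (1, Multiplicative.ofAdd 1)
  let e0 : Dm T X := (1, 0, 0)
  let a : LL ξ γ := ila (Ph ξ γ) (0, e0)
  let t1 : LL ξ γ := SemidirectProduct.inr (y1, 1)
  let t2 : LL ξ γ := SemidirectProduct.inr (tY σ, 1)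
  let u : ℕ → LL ξ γ := fun i => SemidirectProduct.inr (tY (s i), 1)
  refine ⟨a, x, t1, t2, u, ?_⟩
  obtain ⟨hZ, hZ2⟩ := Z_facts D t1 t2
  have hgood : Good ξ γ 1 (⁅t1 ^ 2, t2⁆).right.1.1.2 := by
    have := (⁅t1 ^ 2, t2⁆).right.1.2
    rw [← hZ]
    exact this
  have hz : (⁅t1 ^ 2, t2⁆).right.1.1.2 = ⁅(np D.gam (dlt T) * Tr ξ τ) ^ 2, Tr ξ σ⁆ := by
    rw [right_comm, right_pow]; rfl
  have hpz : pz (⁅t1 ^ 2, t2⁆).right.1.1.2 = (dlt T + tr τ (dlt T)) + tr σ (dlt T + tr τ (dlt T)) := by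
    rw [hz]
    apply pz_word D.gam
    intro t
    have := D.sqc τ t
    rwa [sq] at this
  have hx : ⁅x ^ 16, a⁆ = ila (Ph ξ γ) (e0, 0) := by
    rw [comm_ila]
    congr 1
    have hr : (x ^ 16).right = (1, Multiplicative.ofAdd 1) := by
      rw [right_pow]
      apply Prod.ext
      · change (1 : YY ξ γ) ^ 16 = 1
        exact one_pow _
      · change (Multiplicative.ofAdd (1 : ZMod 3)) ^ 16 = Multiplicative.ofAdd 1
        rfl
    rw [hr, acta_Ph]
    have hact : act ξ γ (1, Multiplicative.ofAdd 1) = om T X := by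
      change dg T X (1 : YY ξ γ).1.2 * c3h T X (Multiplicative.ofAdd 1) = om T X
      rw [c3h_gen]
      exact one_mul _
    rw [hact, om_apply]
    apply Prod.ext
    · exact sub_zero e0
    · change (0 + e0) - e0 = 0
      rw [zero_add, sub_self]
  have hl : ∀ g ∈ (List.range n).map (fun i => (u i) ^ 6), g.right.2 = 1 := by
    intro g hg
    obtain ⟨i, -, rfl⟩ := List.mem_map.1 hg
    rw [right_pow]
    exact C3_sixth _
  have hlist : (((List.range n).map (fun i => (u i) ^ 6)).map (fun g => g.right.1)).map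
      (fun v : YY ξ γ => v.1.1) = (List.range n).map (fun i => s i ^ 2) := by
    rw [List.map_map, List.map_map]
    apply List.map_congr_left
    intro i _
    simp only [Function.comp_apply]
    rw [right_pow]
    exact sixth D _
  intro hcon
  rw [wv, hx, nest_val D.gam hZ hZ2 _ hl, ← ila_zero (Ph ξ γ)] at hcon
  have h4 := ila_inj _ hcon
  have h5 := congrArg (fun d : Dm T X × Dm T X => d.1.2.2 1) h4
  simp only [hlist] at h5
  have hsq : ∀ ζ ∈ (List.range n).map (fun i => s i ^ 2), ∃ s : T, ζ = s ^ 2 := by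
    intro ζ hζ
    obtain ⟨i, -, rfl⟩ := List.mem_map.1 hζ
    exact ⟨_, rfl⟩
  have h6 := ds_top D hgood (1 : X → ZMod 2) 1 _ hsq 0 1 rfl (by simp)
  rw [tr_one, mul_one, hs] at h6
  have h7 : B ξ γ (pz (⁅t1 ^ 2, t2⁆).right.1.1.2)
      (tr γ ((⁅t1 ^ 2, t2⁆).right.1.1.2 (1, 0, 0)).2.1) 1 = 1 := by
    change B ξ γ (pz (⁅t1 ^ 2, t2⁆).right.1.1.2) (tr γ (pz (⁅t1 ^ 2, t2⁆).right.1.1.2)) 1 = 1
    rw [B_self_gamma D.gam, hpz]
    exact sum_word h1 h2 h3
  rw [h7] at h6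
  have h8 : (1 : ZMod 2) = 0 := h6.symm.trans h5
  exact absurd h8 (by decide)

end

end Helper30.FB
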