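import Pool.Agent.Helper30.FB10

/-!
The concrete groups `T n`: pairs `(x, m)` with product `(x + y, m + m' + x yᵀ)`.
-/

namespace Helper30.FB

open scoped commutatorElement

attribute [local instance] Classical.propDecidable

/-- the group `T n`. -/
@[ext] structure TT (n : ℕ) where
  x : Fin n → ZMod 2
  m : Matrix (Fin n) (Fin n) (ZMod 2)

namespace TT

variable {n : ℕ}

instance : Mul (TT n) := ⟨fun a b => ⟨a.x + b.x, a.m + b.m + Matrix.vecMulVec a.x b.x⟩⟩
instance : One (TT n) := ⟨⟨0, 0⟩⟩
instance : Inv (TT n) := ⟨fun a => ⟨-a.x, -a.m + Matrix.vecMulVec a.x a.x⟩⟩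

lemma mul_x (a b : TT n) : (a * b).x = a.x + b.x := rfl
lemma mul_m (a b : TT n) : (a * b).m = a.m + b.m + Matrix.vecMulVec a.x b.x := rfl
lemma one_x : (1 : TT n).x = 0 := rfl
lemma one_m : (1 : TT n).m = 0 := rfl

instance : Group (TT n) := Group.ofLeftAxioms
  (by
    intro a b c
    ext1
    · simp only [mul_x, add_assoc]
    · simp only [mul_m, mul_x, Matrix.add_vecMulVec, Matrix.vecMulVec_add]
      abel)
  (by
    intro a
    ext1
    · simp [mul_x, one_x]
    · simp [mul_m, one_m, one_x])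
  (by
    intro a
    ext1
    · change -a.x + a.x = 0
      simp
    · change -a.m + Matrix.vecMulVec a.x a.x + a.m + Matrix.vecMulVec (-a.x) a.x = 0
      rw [Matrix.neg_vecMulVec]
      abel)

noncomputable instance : Fintype (TT n) :=
  Fintype.ofInjective (fun a : TT n => (a.x, a.m)) (by
    intro a b h
    simp only [Prod.mk.injEq] at h
    exact TT.ext h.1 h.2)

/-- the projection. -/
def xi (n : ℕ) : TT n →* Multiplicative (Fin n → ZMod 2) where
  toFun a := Multiplicative.ofAdd a.x
  map_one' := rfl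
  map_mul' _ _ := rfl

/-- the central involution. -/
def gam (n : ℕ) : TT n := ⟨0, 1⟩

lemma add_self_fun (f : Fin n → ZMod 2) : f + f = 0 := by
  funext i; exact CharTwo.add_self_eq_zero _

lemma add_self_mat (f : Matrix (Fin n) (Fin n) (ZMod 2)) : f + f = 0 := by
  ext i j; exact CharTwo.add_self_eq_zero _

lemma sq_eq (a : TT n) : a ^ 2 = ⟨0, Matrix.vecMulVec a.x a.x⟩ := by
  rw [sq]
  ext1
  · rw [mul_x, add_self_fun]
  · rw [mul_m, add_self_mat, zero_add]

lemma rank_add_le' (A B : Matrix (Fin n) (Fin n) (ZMod 2)) :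
    (A + B).rank ≤ A.rank + B.rank := by
  unfold Matrix.rank
  have : LinearMap.range (A + B).mulVecLin ≤
      LinearMap.range A.mulVecLin ⊔ LinearMap.range B.mulVecLin := by
    rintro _ ⟨v, rfl⟩
    rw [Matrix.mulVecLin_add]
    exact Submodule.add_mem_sup ⟨v, rfl⟩ ⟨v, rfl⟩
  exact (Submodule.finrank_mono this).trans (Submodule.finrank_add_le_finrank_add_finrank _ _)

lemma rank_le_of_Sq {j : ℕ} : ∀ {ζ : TT n}, Sq j ζ → ζ.x = 0 ∧ ζ.m.rank ≤ j := by
  induction j with
  | zero =>
    intro ζ h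
    have : ζ = 1 := h
    subst this
    refine ⟨rfl, ?_⟩
    rw [one_m, Matrix.rank_zero]
  | succ j ih =>
    rintro ζ ⟨s, ζ', h', rfl⟩
    obtain ⟨h1, h2⟩ := ih h'
    rw [sq_eq]
    refine ⟨?_, ?_⟩
    · rw [mul_x, h1, add_zero]
    · rw [mul_m]
      simp only [Matrix.zero_vecMulVec, add_zero]
      have := Matrix.rank_vecMulVec_le s.x s.x
      refine (rank_add_le' _ _).trans ?_
      omega

lemma tdata {n : ℕ} (hn : 1 ≤ n) : TData (xi n) (gam n) n where
  gam :=
    { central := by
        intro t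
        ext1
        · change 0 + t.x = t.x + 0
          simp
        · change 1 + t.m + Matrix.vecMulVec 0 t.x = t.m + 1 + Matrix.vecMulVec t.x 0
          rw [Matrix.zero_vecMulVec, Matrix.vecMulVec_zero, add_comm 1 t.m]
      sq := by
        have := sq_eq (gam n)
        rw [sq] at this
        rw [this]
        ext1
        · rfl
        · change Matrix.vecMulVec 0 0 = 0
          rw [Matrix.zero_vecMulVec]
      ne := by
        intro h
        have h1 : (1 : Matrix (Fin n) (Fin n) (ZMod 2)) = 0 := congrArg TT.m h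
        have h2 := congrFun (congrFun h1 ⟨0, hn⟩) ⟨0, hn⟩
        simp at h2
      xi := rfl }
  sqc := by
    intro s t
    rw [sq_eq]
    ext1
    · change 0 + t.x = t.x + 0
      simp
    · change Matrix.vecMulVec s.x s.x + t.m + Matrix.vecMulVec 0 t.x =
        t.m + Matrix.vecMulVec s.x s.x + Matrix.vecMulVec t.x 0
      rw [Matrix.zero_vecMulVec, Matrix.vecMulVec_zero, add_comm t.m]
  exp4 := by
    intro s
    have : s ^ 4 = (s ^ 2) ^ 2 := by rw [← pow_mul]
    rw [this, sq_eq s, sq_eq]
    ext1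
    · rfl
    · change Matrix.vecMulVec 0 0 = 0
      rw [Matrix.zero_vecMulVec]
  xi2 := by
    intro s
    rw [sq_eq]; rfl
  width := by
    intro j hj ζ hζ he
    obtain ⟨-, h2⟩ := rank_le_of_Sq hζ
    rw [he] at h2
    have : (gam n).m.rank = n := by
      change (1 : Matrix (Fin n) (Fin n) (ZMod 2)).rank = n
      rw [Matrix.rank_one, Fintype.card_fin]
    omega

/-- basis elements. -/
def bs (n : ℕ) (i : ℕ) : TT n := if h : i < n then ⟨Pi.single ⟨i, h⟩ 1, 0⟩ else 1

lemma prod_list (l : List ℕ) (f : ℕ → Matrix (Fin n) (Fin n) (ZMod 2)) :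
    (l.map (fun i => (⟨0, f i⟩ : TT n))).prod = ⟨0, (l.map f).sum⟩ := by
  induction l with
  | nil => rfl
  | cons i l ih =>
    rw [List.map_cons, List.prod_cons, ih, List.map_cons, List.sum_cons]
    ext1
    · change (0 : Fin n → ZMod 2) + 0 = 0
      simp
    · change f i + (l.map f).sum + Matrix.vecMulVec 0 0 = f i + (l.map f).sum
      rw [Matrix.zero_vecMulVec, add_zero]

lemma prod_bs (n : ℕ) : ((List.range n).map (fun i => (bs n i) ^ 2)).prod = gam n := by
  have e1 : (fun i => (bs n i) ^ 2) = fun i => (⟨0, Matrix.vecMulVec (bs n i).x (bs n i).x⟩ : TT n) := by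
    funext i
    exact sq_eq _
  rw [e1, prod_list]
  have e2 : ((List.range n).map (fun i => Matrix.vecMulVec (bs n i).x (bs n i).x)).sum =
      (1 : Matrix (Fin n) (Fin n) (ZMod 2)) := by
    have e3 : ((List.range n).map (fun i => Matrix.vecMulVec (bs n i).x (bs n i).x)).sum =
        ∑ i ∈ Finset.range n, Matrix.vecMulVec (bs n i).x (bs n i).x := rfl
    rw [e3, Finset.sum_range]
    ext a b
    rw [Matrix.sum_apply]
    have e4 : ∀ i : Fin n, (bs n (i : ℕ)).x = Pi.single i 1 := by
      intro i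
      simp [bs]
    simp only [e4, Matrix.vecMulVec_apply, Matrix.one_apply, Pi.single_apply]
    simp
  rw [e2]; rfl

end TT

end Helper30.FB
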