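import Pool.Agent.Helper30.FB11

/-!
The final assembly.
-/

namespace Helper30.FB

open scoped commutatorElement

attribute [local instance] Classical.propDecidable

/-- all laws. -/
def Sinf : Set F := {s0} ∪ Set.range wk

/-- the first laws. -/
def SN (N : ℕ) : Set F := {s0} ∪ {w | ∃ j < N, wk j = w}

lemma SN_mono {N M : ℕ} (h : N ≤ M) : SN N ⊆ SN M := by
  rintro w (hw | ⟨j, hj, rfl⟩)
  · exact Or.inl hw
  · exact Or.inr ⟨j, hj.trans_le h, rfl⟩

lemma exists_N {w : F} (hw : w ∈ FI Sinf) : ∃ N, w ∈ FI (SN N) := by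
  unfold FI at hw
  induction hw using Subgroup.closure_induction with
  | mem x hx =>
    obtain ⟨s, hs, φ, rfl⟩ := hx
    rcases hs with hs | ⟨k, rfl⟩
    · exact ⟨0, map_mem_FI φ (subset_FI (Or.inl hs))⟩
    · exact ⟨k + 1, map_mem_FI φ (subset_FI (Or.inr ⟨k, Nat.lt_succ_self k, rfl⟩))⟩
  | one => exact ⟨0, Subgroup.one_mem _⟩
  | mul x y _ _ hx hy =>
    obtain ⟨N, hN⟩ := hx
    obtain ⟨M, hM⟩ := hy
    exact ⟨max N M, Subgroup.mul_mem _ (FI_mono (SN_mono (le_max_left _ _)) hN)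
      (FI_mono (SN_mono (le_max_right _ _)) hM)⟩
  | inv x _ hx =>
    obtain ⟨N, hN⟩ := hx
    exact ⟨N, Subgroup.inv_mem _ hN⟩

lemma exists_N_finset (S : Finset F) (hS : ∀ s ∈ S, s ∈ FI Sinf) :
    ∃ N, ∀ s ∈ S, s ∈ FI (SN N) := by
  induction S using Finset.induction_on with
  | empty => exact ⟨0, by simp⟩
  | insert a S _ ih =>
    obtain ⟨N, hN⟩ := ih (fun s hs => hS s (Finset.mem_insert_of_mem hs))
    obtain ⟨M, hM⟩ := exists_N (hS a (Finset.mem_insert_self a S))
    refine ⟨max N M, fun s hs => ?_⟩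
    rcases Finset.mem_insert.1 hs with rfl | hs
    · exact FI_mono (SN_mono (le_max_right _ _)) hM
    · exact FI_mono (SN_mono (le_max_left _ _)) (hN s hs)

/-- the groups `L n`. -/
abbrev Ln (n : ℕ) : Type := LL (TT.xi n) (TT.gam n)

lemma law_SN {n : ℕ} (hn : 1 ≤ n) : ∀ s ∈ SN n, IsLaw s (Ln n) := by
  have D := TT.tdata hn
  rintro s (hs | ⟨j, hj, rfl⟩)
  · rw [Set.mem_singleton_iff.1 hs]
    exact isLaw_s0.2 (W0_LL D.gam D.exp4)
  · rw [isLaw_wk]
    intro a x t1 t2 u
    exact wv_vanish D hj a x t1 t2 u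

lemma not_law {n : ℕ} (hn : 2 ≤ n) : ¬ IsLaw (wk n) (Ln n) := by
  have D := TT.tdata (n := n) (by omega)
  rw [isLaw_wk]
  intro hall
  have x0 : (TT.bs n 0).x = Pi.single ⟨0, by omega⟩ 1 := by
    have : 0 < n := by omega
    simp [TT.bs, this]
  have x1 : (TT.bs n 1).x = Pi.single ⟨1, by omega⟩ 1 := by
    have : 1 < n := by omega
    simp [TT.bs, this]
  have c1 : TT.xi n (TT.bs n 0) ≠ 1 := by
    intro h
    have h1 : (TT.bs n 0).x = 0 := h
    rw [x0] at h1
    have h2 := congrFun h1 ⟨0, by omega⟩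
    simp at h2
  have c2 : TT.xi n (TT.bs n 1) ≠ 1 := by
    intro h
    have h1 : (TT.bs n 1).x = 0 := h
    rw [x1] at h1
    have h2 := congrFun h1 ⟨1, by omega⟩
    simp at h2
  have c3 : TT.xi n (TT.bs n 1 * TT.bs n 0) ≠ 1 := by
    intro h
    have h1 : (TT.bs n 1).x + (TT.bs n 0).x = 0 := h
    rw [x0, x1] at h1
    have h2 := congrFun h1 ⟨0, by omega⟩
    simp at h2
  obtain ⟨a, x, t1, t2, u, h⟩ := wv_nonvanish D c1 c2 c3 (TT.bs n) (TT.prod_bs n)
  exact h (hall a x t1 t2 u)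

/-- the group `G1`. -/
abbrev G1 := F ⧸ FI Sinf

lemma W0_G1 : W0 G1 := by
  rw [← isLaw_s0, isLaw_quot]
  exact subset_FI (Or.inl rfl)

lemma wv_G1 (k : ℕ) (a x t1 t2 : G1) (u : ℕ → G1) : wv k a x t1 t2 u = 1 := by
  have : IsLaw (wk k) G1 := isLaw_quot.2 (subset_FI (Or.inr ⟨k, rfl⟩))
  exact (isLaw_wk k).1 this a x t1 t2 u

/-- the group `G`. -/
abbrev GG := G1 × G2

/-- the subgroup `H` of index three. -/
def HH : Subgroup GG := (pi2.comp (MonoidHom.snd G1 G2)).ker

lemma finiteIndex_HH : HH.FiniteIndex := by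
  unfold HH
  infer_instance

lemma W0_of_injective {G H : Type*} [Group G] [Group H] (hW : W0 H) (f : G →* H)
    (hf : Function.Injective f) : W0 G := by
  intro x y z w x' y' z' w'
  apply hf
  rw [map_pow, map_mul, map_β, map_β, map_one]
  exact hW _ _ _ _ _ _ _ _

theorem laws_GG (w : F) : IsLaw w GG ↔ w ∈ FI {s0} := by
  constructor
  · intro h
    have h2 : IsLaw w G2 := by
      intro f
      have := h ((1 : F →* G1).prod f)
      exact congrArg Prod.snd this
    have hW : W0 (F ⧸ FI {s0}) := isLaw_s0.1 (isLaw_quot.2 (subset_FI rfl))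
    exact isLaw_quot.1 (law_of_G2 h2 hW)
  · intro h
    apply isLaw_of_mem_FI _ h
    rintro s rfl
    exact isLaw_s0.2 (W0_prod W0_G1 W0_G2)

theorem laws_HH (w : F) : IsLaw w HH ↔ w ∈ FI Sinf := by
  constructor
  · intro h
    have h2 : IsLaw w G1 := by
      intro f
      let g : F →* HH := (f.prod (1 : F →* G2)).codRestrict HH (fun x => by
        rw [HH, MonoidHom.mem_ker]
        exact map_one pi2)
      have := h g
      have h3 : ((g w : HH) : GG) = 1 := congrArg Subtype.val this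
      exact congrArg Prod.fst h3
    exact isLaw_quot.1 h2
  · intro h
    apply isLaw_of_mem_FI _ h
    rintro s (hs | ⟨k, rfl⟩)
    · rw [Set.mem_singleton_iff.1 hs]
      exact isLaw_s0.2 (W0_of_injective (W0_prod W0_G1 W0_G2) HH.subtype
        HH.subtype_injective)
    · rw [isLaw_wk]
      intro a x t1 t2 u
      apply Subtype.ext
      have e1 := map_wv HH.subtype k a x t1 t2 u
      change HH.subtype (wv k a x t1 t2 u) = 1
      rw [e1]
      apply Prod.ext
      · have e2 := map_wv (MonoidHom.fst G1 G2) k (HH.subtype a) (HH.subtype x) (HH.subtype t1)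
          (HH.subtype t2) (fun i => HH.subtype (u i))
        have e3 := wv_G1 k (MonoidHom.fst G1 G2 (HH.subtype a)) (MonoidHom.fst G1 G2 (HH.subtype x))
          (MonoidHom.fst G1 G2 (HH.subtype t1)) (MonoidHom.fst G1 G2 (HH.subtype t2))
          (fun i => MonoidHom.fst G1 G2 (HH.subtype (u i)))
        exact e2.trans e3
      · have e2 := map_wv (MonoidHom.snd G1 G2) k (HH.subtype a) (HH.subtype x) (HH.subtype t1)
          (HH.subtype t2) (fun i => HH.subtype (u i))
        have hx : (MonoidHom.snd G1 G2 (HH.subtype x)) ^ 16 = 1 := pow16_of_ker x.2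
        refine e2.trans ?_
        rw [wv, hx]
        simp only [commutatorElement_one_left]
        exact nest_one _

theorem not_fb (S : Finset F) : ¬ ∀ w : F, IsLaw w HH ↔ w ∈ FI (S : Set F) := by
  intro h
  have hS : ∀ s ∈ S, s ∈ FI Sinf := by
    intro s hs
    rw [← laws_HH, h]
    exact subset_FI hs
  obtain ⟨N, hN⟩ := exists_N_finset S hS
  have hle : FI (S : Set F) ≤ FI (SN N) := FI_le_FI hN
  set n := max N 2 with hn
  have h1 : IsLaw (wk n) HH := (laws_HH _).2 (subset_FI (Or.inr ⟨n, rfl⟩))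
  have h2 : wk n ∈ FI (SN n) := FI_mono (SN_mono (le_max_left _ _)) (hle ((h _).1 h1))
  exact not_law (le_max_right _ _) (isLaw_of_mem_FI (law_SN (by omega)) h2)

end Helper30.FB
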