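import Pool.Agent.Helper30.FB1

/-!
Structure of the groups satisfying the law `s0`, and of the monolithic ones.
-/

namespace Helper30.FB

open scoped commutatorElement

section basic

variable {G : Type*} [Group G]

/-- the values of `β`. -/
def Bv (G : Type*) [Group G] : Set G := {g | ∃ x y z w : G, β x y z w = g}

/-- the subgroup generated by the values of `β`. -/
def DD (G : Type*) [Group G] : Subgroup G := Subgroup.closure (Bv G)

lemma β_one : β (1 : G) 1 1 1 = 1 := by simp [β]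

lemma Bv_sq (hW : W0 G) {g : G} (hg : g ∈ Bv G) : g * g = 1 := by
  obtain ⟨x, y, z, w, rfl⟩ := hg
  have := hW x y z w 1 1 1 1
  rwa [β_one, mul_one, sq] at this

lemma comm_of_sq {g h : G} (hg : g * g = 1) (hh : h * h = 1) (hgh : (g * h) * (g * h) = 1) :
    g * h = h * g := by
  have e1 : g⁻¹ = g := inv_eq_of_mul_eq_one_left hg
  have e2 : h⁻¹ = h := inv_eq_of_mul_eq_one_left hh
  have e3 : (g * h)⁻¹ = g * h := inv_eq_of_mul_eq_one_left hgh
  rw [← e3, mul_inv_rev, e1, e2]

lemma Bv_comm (hW : W0 G) {g h : G} (hg : g ∈ Bv G) (hh : h ∈ Bv G) : g * h = h * g := by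
  apply comm_of_sq (Bv_sq hW hg) (Bv_sq hW hh)
  obtain ⟨x, y, z, w, rfl⟩ := hg
  obtain ⟨x', y', z', w', rfl⟩ := hh
  rw [← sq]
  exact hW x y z w x' y' z' w'

lemma Bv_conj {g : G} (hg : g ∈ Bv G) (c : G) : c * g * c⁻¹ ∈ Bv G := by
  obtain ⟨x, y, z, w, rfl⟩ := hg
  refine ⟨_, _, _, _, (map_β (MulAut.conj c).toMonoidHom x y z w).symm⟩

lemma DD_comm (hW : W0 G) {g h : G} (hg : g ∈ DD G) (hh : h ∈ DD G) : g * h = h * g := by
  have h1 : ∀ a ∈ Bv G, ∀ d ∈ DD G, a * d = d * a := by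
    intro a ha d hd
    induction hd using Subgroup.closure_induction with
    | mem x hx => exact Bv_comm hW ha hx
    | one => simp
    | mul x y _ _ hx hy => rw [← mul_assoc, hx, mul_assoc, hy, mul_assoc]
    | inv x _ hx =>
      have : Commute a x := hx
      exact this.inv_right
  induction hg using Subgroup.closure_induction with
  | mem x hx => exact h1 x hx h hh
  | one => simp
  | mul x y _ _ hx hy => rw [mul_assoc, hy, ← mul_assoc, hx, mul_assoc]
  | inv x _ hx =>
    have : Commute x h := hx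
    exact this.inv_left

lemma DD_sq (hW : W0 G) {g : G} (hg : g ∈ DD G) : g * g = 1 := by
  induction hg using Subgroup.closure_induction with
  | mem x hx => exact Bv_sq hW hx
  | one => simp
  | mul x y hx' hy' hx hy =>
    have : y * x = x * y := DD_comm hW hy' hx'
    calc x * y * (x * y) = x * (y * x) * y := by group
      _ = (x * x) * (y * y) := by rw [this]; group
      _ = 1 := by rw [hx, hy, one_mul]
  | inv x _ hx => rw [← mul_inv_rev, hx, inv_one]

instance DD_normal : (DD G).Normal := by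
  constructor
  intro n hn g
  induction hn using Subgroup.closure_induction with
  | mem x hx => exact Subgroup.subset_closure (Bv_conj hx g)
  | one => simp
  | mul x y _ _ hx hy =>
    have : g * (x * y) * g⁻¹ = (g * x * g⁻¹) * (g * y * g⁻¹) := by group
    rw [this]
    exact (DD G).mul_mem hx hy
  | inv x _ hx =>
    have : g * x⁻¹ * g⁻¹ = (g * x * g⁻¹)⁻¹ := by group
    rw [this]
    exact (DD G).inv_mem hx

/-- the quotient by `DD`. -/
abbrev QQ (G : Type*) [Group G] := G ⧸ DD G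

lemma QQ_cube (q r : QQ G) : (q ^ 3 * r ^ 3) ^ 8 = 1 := by
  induction q using QuotientGroup.induction_on with | _ x
  induction r using QuotientGroup.induction_on with | _ y
  have : (x ^ 3 * y ^ 3) ^ 8 ∈ DD G := Subgroup.subset_closure ⟨x, y, 1, 1, by simp [β]⟩
  rw [← QuotientGroup.eq_one_iff] at this
  exact this

lemma QQ_central (q r : QQ G) : q ^ 8 * r = r * q ^ 8 := by
  induction q using QuotientGroup.induction_on with | _ x
  induction r using QuotientGroup.induction_on with | _ y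
  have : ⁅x ^ 8, y⁆ ∈ DD G := Subgroup.subset_closure ⟨1, 1, x, y, by simp [β]⟩
  rw [← QuotientGroup.eq_one_iff] at this
  have h2 : ⁅((x : QQ G)) ^ 8, (y : QQ G)⁆ = 1 := this
  rwa [commutatorElement_eq_one_iff_mul_comm] at h2

lemma QQ_pow24 (q : QQ G) : q ^ 24 = 1 := by
  have := QQ_cube q 1
  rwa [one_pow, mul_one, ← pow_mul] at this

lemma QQ_central16 (q r : QQ G) : q ^ 16 * r = r * q ^ 16 := by
  have h : q ^ 16 = q ^ 8 * q ^ 8 := by rw [← pow_add]
  rw [h, mul_assoc, QQ_central q r, ← mul_assoc, QQ_central q r, mul_assoc]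

lemma QQ_pow16_mul (q r : QQ G) : (q * r) ^ 16 = q ^ 16 * r ^ 16 := by
  have e1 : q ^ 9 * r ^ 9 = (q * r) * (q ^ 8 * r ^ 8) := by
    calc q ^ 9 * r ^ 9 = q * (q ^ 8 * r) * r ^ 8 := by group
      _ = q * (r * q ^ 8) * r ^ 8 := by rw [QQ_central]
      _ = _ := by group
  have e2 : (q ^ 9 * r ^ 9) ^ 16 = 1 := by
    have := QQ_cube (q ^ 3) (r ^ 3)
    rw [← pow_mul, ← pow_mul] at this
    have h : ((q ^ 9 * r ^ 9) ^ 8) ^ 2 = 1 := by rw [this, one_pow]
    rwa [← pow_mul] at h
  have hc : Commute (q * r) (q ^ 8 * r ^ 8) := by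
    have h1 : Commute (q * r) (q ^ 8) := (QQ_central q (q * r)).symm
    have h2 : Commute (q * r) (r ^ 8) := (QQ_central r (q * r)).symm
    exact h1.mul_right h2
  have hd : Commute (q ^ 8) (r ^ 8) := QQ_central q (r ^ 8)
  rw [e1, hc.mul_pow, hd.mul_pow, ← pow_mul, ← pow_mul] at e2
  have e3 : q ^ (8 * 16) = q ^ 8 := by
    have : q ^ (8 * 16) = (q ^ 24) ^ 5 * q ^ 8 := by rw [← pow_mul, ← pow_add]
    rw [this, QQ_pow24, one_pow, one_mul]
  have e4 : r ^ (8 * 16) = r ^ 8 := by
    have : r ^ (8 * 16) = (r ^ 24) ^ 5 * r ^ 8 := by rw [← pow_mul, ← pow_add]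
    rw [this, QQ_pow24, one_pow, one_mul]
  rw [e3, e4] at e2
  have e5 : q ^ 16 * r ^ 16 * (q ^ 8 * r ^ 8) = 1 := by
    calc q ^ 16 * r ^ 16 * (q ^ 8 * r ^ 8) = q ^ 16 * (r ^ 16 * q ^ 8) * r ^ 8 := by group
      _ = q ^ 16 * (q ^ 8 * r ^ 16) * r ^ 8 := by rw [QQ_central16 r (q ^ 8)]
      _ = q ^ 24 * r ^ 24 := by group
      _ = 1 := by rw [QQ_pow24, QQ_pow24, one_mul]
  exact mul_right_cancel (e2.trans e5.symm)

/-- the projection to the `3`-part. -/
def eta (G : Type*) [Group G] : G →* QQ G where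
  toFun g := ((g : QQ G)) ^ 16
  map_one' := by simp
  map_mul' g h := by
    have := QQ_pow16_mul (g : QQ G) (h : QQ G)
    simpa using this

lemma eta_apply (g : G) : eta G g = ((g : QQ G)) ^ 16 := rfl

lemma eta_central (g : G) (q : QQ G) : eta G g * q = q * eta G g := QQ_central16 _ _

lemma eta_cube (g : G) : eta G g ^ 3 = 1 := by
  rw [eta_apply, ← pow_mul]
  have : (g : QQ G) ^ (16 * 3) = ((g : QQ G) ^ 24) ^ 2 := by rw [← pow_mul]
  rw [this, QQ_pow24, one_pow]

lemma pow8_mem_of_ker {k : G} (hk : k ∈ (eta G).ker) : k ^ 8 ∈ DD G := by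
  rw [MonoidHom.mem_ker, eta_apply] at hk
  rw [← QuotientGroup.eq_one_iff]
  have h24 := QQ_pow24 (k : QQ G)
  have : (k : QQ G) ^ 24 = (k : QQ G) ^ 16 * (k : QQ G) ^ 8 := by rw [← pow_add]
  rw [this, hk, one_mul] at h24
  simpa using h24

/-- the condition of being (elementary abelian of exponent `2`)-by-(exponent `8`), for a
subgroup. -/
def V8 (K : Subgroup G) : Prop :=
  ∀ d ∈ Subgroup.closure {x : G | ∃ k ∈ K, k ^ 8 = x}, d * d = 1

lemma V8_ker (hW : W0 G) : V8 (eta G).ker := by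
  intro d hd
  apply DD_sq hW
  have : Subgroup.closure {x : G | ∃ k ∈ (eta G).ker, k ^ 8 = x} ≤ DD G := by
    rw [Subgroup.closure_le]
    rintro x ⟨k, hk, rfl⟩
    exact pow8_mem_of_ker hk
  exact this hd

end basic

end Helper30.FB
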