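import Pool.Agent.Helper30.FB2

/-!
Monolithic groups satisfying `s0` have a `3`-part of order at most `3`.
-/

namespace Helper30.FB

open scoped commutatorElement

/-- linear algebra over two commuting automorphisms of order three in characteristic two. -/
lemma key_lin {V : Type*} [AddCommGroup V] (a b : V →+ V) (hab : ∀ v, a (b v) = b (a v))
    (hb : ∀ v, b (b (b v)) = v) (h2 : ∀ v : V, v + v = 0) (v : V)
    (h1 : v + a v + a (a v) = 0) (h3 : v + b v + b (b v) = 0)
    (h4 : v + a (b v) + a (b (a (b v))) = 0)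
    (h5 : v + a (b (b v)) + a (b (b (a (b (b v))))) = 0) : v = 0 := by
  have e4 : a (b (a (b v))) = a (a (b (b v))) := by rw [← hab (b v)]
  have e5 : a (b (b (a (b (b v))))) = a (a (b v)) := by
    rw [← hab (b (b v)), ← hab (b (b (b v))), hb v]
  rw [e4] at h4
  rw [e5] at h5
  have h6 : v + b v + b (b v) + a (v + b v + b (b v)) + a (a (v + b v + b (b v))) = 0 := by
    rw [h3]; simp
  simp only [map_add] at h6
  have h7 : v + v + v = 0 := by
    have : v + v + v = (v + a v + a (a v)) + (v + b v + b (b v)) + (v + a (b v) + a (a (b (b v))))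
      + (v + a (b (b v)) + a (a (b v))) - (v + b v + b (b v) + (a v + a (b v) + a (b (b v)))
        + (a (a v) + a (a (b v)) + a (a (b (b v))))) := by abel
    rw [this, h6, h1, h3, h4, h5]
    simp
  rwa [h2, zero_add] at h7

section mono

variable {G : Type*} [Group G]

/-- the commutative group structure on `DD`. -/
@[reducible] def DDcomm (hW : W0 G) : CommGroup (DD G) :=
  { (inferInstance : Group (DD G)) with
    mul_comm := fun a b => Subtype.ext (DD_comm hW a.2 b.2) }

/-- conjugation on `DD`. -/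
def cj (c : G) : DD G →* DD G := (MulAut.conjNormal c : MulAut (DD G)).toMonoidHom

lemma cj_apply (c : G) (d : DD G) : ((cj c d : DD G) : G) = c * d * c⁻¹ := rfl

lemma conj_eq (hW : W0 G) {g h : G} (hgh : (g : QQ G) = h) (d : DD G) : cj g d = cj h d := by
  apply Subtype.ext
  rw [cj_apply, cj_apply]
  have hδ : h⁻¹ * g ∈ DD G := by
    rw [← QuotientGroup.eq]
    exact hgh.symm
  have hc := DD_comm hW hδ d.2
  calc g * d * g⁻¹ = h * ((h⁻¹ * g) * d) * g⁻¹ := by group
    _ = h * (d * (h⁻¹ * g)) * g⁻¹ := by rw [hc]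
    _ = h * d * h⁻¹ := by group

lemma cj_mul (g h : G) (d : DD G) : cj (g * h) d = cj g (cj h d) := by
  apply Subtype.ext
  simp only [cj_apply]
  group

lemma cj_one (d : DD G) : cj 1 d = d := by
  apply Subtype.ext
  simp [cj_apply]

/-- the norm map `1 + c + c^2` on `DD`. -/
def Nm (hW : W0 G) (c : G) : DD G →* DD G :=
  letI := DDcomm hW
  MonoidHom.id _ * cj c * (cj c).comp (cj c)

lemma Nm_apply (hW : W0 G) (c : G) (d : DD G) : Nm hW c d = d * cj c d * cj c (cj c d) := rfl

/-- kernel of the norm map, as a subgroup of `G`. -/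
def Mc (hW : W0 G) (c : G) : Subgroup G := (Nm hW c).ker.map (DD G).subtype

lemma Mc_normal (hW : W0 G) {c : G} (hc : ∀ q : QQ G, (c : QQ G) * q = q * c) :
    (Mc hW c).Normal := by
  constructor
  rintro n ⟨d, hd, rfl⟩ g
  refine ⟨cj g d, ?_, ?_⟩
  · have hcomm : ∀ d, cj c (cj g d) = cj g (cj c d) := by
      intro d
      rw [← cj_mul, ← cj_mul]
      exact conj_eq hW (by simpa using hc g) d
    have hd' : Nm hW c d = 1 := hd
    have : Nm hW c (cj g d) = cj g (Nm hW c d) := by
      rw [Nm_apply, Nm_apply, map_mul, map_mul, hcomm, hcomm]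
    change Nm hW c (cj g d) = 1
    rw [this, hd', map_one]
  · rfl

lemma mul_self_DD (hW : W0 G) (d : DD G) : d * d = 1 := Subtype.ext (DD_sq hW d.2)

lemma Mc_ne_bot (hW : W0 G) {c : G} (hc3 : (c : QQ G) ^ 3 = 1)
    {d : DD G} (hd : cj c d ≠ d) : Mc hW c ≠ ⊥ := by
  intro hbot
  apply hd
  have h3 : cj c (cj c (cj c d)) = d := by
    rw [← cj_mul, ← cj_mul]
    rw [conj_eq hW (h := 1) _ d, cj_one]
    have : (((c * c * c : G)) : QQ G) = (c : QQ G) ^ 3 := by
      rw [pow_succ, sq]; simp
    rw [this, hc3]; rfl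
  have h4 : Nm hW c (cj c d * d⁻¹) = 1 := by
    have e1 : Nm hW c (cj c d) = Nm hW c d := by
      rw [Nm_apply, Nm_apply, h3]
      have : ∀ x y z : DD G, x * y * z = z * x * y := by
        intro x y z
        have e : x * y * z = z * (x * y) := (DDcomm hW).mul_comm _ _
        rw [e, mul_assoc]
      exact this _ _ _
    rw [map_mul, map_inv, e1, mul_inv_cancel]
  have h5 : ((cj c d * d⁻¹ : DD G) : G) ∈ Mc hW c := ⟨_, h4, rfl⟩
  rw [hbot, Subgroup.mem_bot] at h5
  have h6 : (cj c d * d⁻¹ : DD G) = 1 := Subtype.ext h5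
  exact mul_inv_eq_one.1 h6

/-- all elements are powers of `v`, which has order three. -/
def Small (v : G) : Prop := v ^ 3 = 1 ∧ ∀ g : G, g ∈ Subgroup.zpowers v

lemma eq_one_of_pow {x : G} {m n : ℕ} (h1 : x ^ m = 1) (h2 : x ^ n = 1)
    (h : Nat.Coprime m n) : x = 1 := by
  have h3 : orderOf x ∣ Nat.gcd m n := Nat.dvd_gcd (orderOf_dvd_of_pow_eq_one h1)
    (orderOf_dvd_of_pow_eq_one h2)
  rw [Nat.Coprime] at h
  rw [h, Nat.dvd_one, orderOf_eq_one_iff] at h3
  exact h3

lemma mem_zpowers_cases {x v : G} (hx : x ^ 3 = 1) (h : v ∈ Subgroup.zpowers x) :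
    v = 1 ∨ v = x ∨ v = x⁻¹ := by
  obtain ⟨i, rfl⟩ := h
  have hx' : x ^ (3 : ℤ) = 1 := by exact_mod_cast hx
  have hi : i = 3 * (i / 3) + i % 3 := (Int.mul_ediv_add_emod i 3).symm
  have h3 : i % 3 = 0 ∨ i % 3 = 1 ∨ i % 3 = 2 := by omega
  have h4 : x ^ i = x ^ (i % 3) := by
    conv_lhs => rw [hi, zpow_add, zpow_mul, hx', one_zpow, one_mul]
  simp only
  rw [h4]
  rcases h3 with h | h | h
  · left; rw [h]; simp
  · right; left; rw [h]; simp
  · right; right; rw [h]
    rw [eq_inv_iff_mul_eq_one]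
    have : x ^ (2 : ℤ) * x = x ^ (3 : ℤ) := by
      have := zpow_add_one x 2
      rw [← this]; norm_num
    rw [this, hx']

lemma small_of_central (hW : W0 G) {v : G} (hv : v ≠ 1)
    (hmono : ∀ M : Subgroup G, M.Normal → M ≠ ⊥ → v ∈ M)
    {z : G} (hz : ∀ g, z * g = g * z) (hz3 : z ^ 3 = 1) (hz1 : z ≠ 1) : Small v := by
  -- v has order three
  have hv3 : v ^ 3 = 1 := by
    have hn : (Subgroup.zpowers z).Normal := by
      constructor
      intro n hn g
      obtain ⟨i, rfl⟩ := hn
      have : Commute (z ^ i) g := (show Commute z g from hz g).zpow_left i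
      have h2 : g * z ^ i * g⁻¹ = z ^ i := by rw [← this.eq, mul_assoc, mul_inv_cancel, mul_one]
      simp only
      rw [h2]
      exact ⟨i, rfl⟩
    have hmem : v ∈ Subgroup.zpowers z := by
      apply hmono _ hn
      intro h
      rw [Subgroup.zpowers_eq_bot] at h
      exact hz1 h
    rcases mem_zpowers_cases hz3 hmem with h | h | h
    · rw [h, one_pow]
    · rw [h, hz3]
    · rw [h, inv_pow, hz3, inv_one]
  have hD : DD G = ⊥ := by
    by_contra hne
    have h1 := hmono _ DD_normal hne
    have h2 := DD_sq hW h1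
    rw [← sq] at h2
    exact hv (eq_one_of_pow hv3 h2 (by norm_num))
  have hmk : ∀ g h : G, (g : QQ G) = h → g = h := by
    intro g h hgh
    have := QuotientGroup.eq.1 hgh
    rw [hD, Subgroup.mem_bot] at this
    rw [inv_mul_eq_one] at this
    exact this
  have hK : (eta G).ker = ⊥ := by
    by_contra hne
    have h1 := hmono _ inferInstance hne
    have h2 := pow8_mem_of_ker h1
    rw [hD, Subgroup.mem_bot] at h2
    exact hv (eq_one_of_pow hv3 h2 (by norm_num))
  have hinj : Function.Injective (eta G) := (MonoidHom.ker_eq_bot_iff _).1 hK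
  have hcomm : ∀ g h : G, g * h = h * g := by
    intro g h
    apply hinj
    rw [map_mul, map_mul, eta_central]
  have hcube : ∀ g : G, g ^ 3 = 1 := by
    intro g
    apply hinj
    rw [map_pow, eta_cube, map_one]
  refine ⟨hv3, fun g => ?_⟩
  by_cases hg : g = 1
  · rw [hg]; exact Subgroup.one_mem _
  have hn : (Subgroup.zpowers g).Normal := by
    constructor
    intro n hn h
    have h2 : h * n * h⁻¹ = n := by rw [hcomm h n, mul_assoc, mul_inv_cancel, mul_one]
    rw [h2]; exact hn
  have hmem : v ∈ Subgroup.zpowers g := by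
    apply hmono _ hn
    intro h
    rw [Subgroup.zpowers_eq_bot] at h
    exact hg h
  rcases mem_zpowers_cases (hcube g) hmem with h | h | h
  · exact absurd h hv
  · rw [h]; exact Subgroup.mem_zpowers g
  · rw [h, Subgroup.zpowers_inv]; exact Subgroup.mem_zpowers g

end mono

end Helper30.FB
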