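import Pool.Agent.Helper30.FB3

/-!
The `3`-part of a monolithic group satisfying `s0` has order at most three.
-/

namespace Helper30.FB

open scoped commutatorElement

section mono

variable {G : Type*} [Group G]

lemma alt_c (hW : W0 G) {v : G} (hv : v ≠ 1)
    (hmono : ∀ M : Subgroup G, M.Normal → M ≠ ⊥ → v ∈ M)
    {c : G} (hc : ∀ q : QQ G, (c : QQ G) * q = q * c) (hc3 : (c : QQ G) ^ 3 = 1) :
    (c : QQ G) = 1 ∨ Small v ∨ ∃ d : DD G, (d : G) = v ∧ Nm hW c d = 1 := by
  by_cases h : ∀ d : DD G, cj c d = d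
  · set z := c ^ 4 with hz
    have hmkz : (z : QQ G) = c := by
      rw [hz]
      have : ((c ^ 4 : G) : QQ G) = (c : QQ G) ^ 3 * c := by
        rw [← pow_succ]; rfl
      rw [this, hc3, one_mul]
    have hz3 : z ^ 3 = 1 := by
      have h1 : c ^ 3 ∈ DD G := by
        rw [← QuotientGroup.eq_one_iff]
        exact hc3
      have h2 := DD_sq hW h1
      have h3 : z ^ 3 = (c ^ 3 * c ^ 3) * (c ^ 3 * c ^ 3) := by
        rw [hz, ← pow_mul, ← pow_add, ← pow_add]
      rw [h3, h2, one_mul]
    have hact : ∀ d : DD G, z * d = d * z := by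
      intro d
      have h1 : cj z d = d := (conj_eq hW hmkz d).trans (h d)
      have h2 : z * d * z⁻¹ = d := congrArg Subtype.val h1
      exact mul_inv_eq_iff_eq_mul.1 h2
    have hcen : ∀ g, z * g = g * z := by
      intro g
      have hδ : g * z * g⁻¹ * z⁻¹ ∈ DD G := by
        rw [← QuotientGroup.eq_one_iff]
        have h1 : ((g * z * g⁻¹ * z⁻¹ : G) : QQ G)
            = (g : QQ G) * (z : QQ G) * (g : QQ G)⁻¹ * (z : QQ G)⁻¹ := rfl
        rw [h1, hmkz, ← hc (g : QQ G)]
        group
      set δ := g * z * g⁻¹ * z⁻¹ with hδ'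
      have h1 : g * z * g⁻¹ = δ * z := by rw [hδ']; group
      have hcomm : Commute δ z := (hact ⟨δ, hδ⟩).symm
      have h2 : (δ * z) ^ 3 = 1 := by
        rw [← h1, conj_pow, hz3]; simp
      rw [hcomm.mul_pow, hz3, mul_one] at h2
      have h3 := DD_sq hW hδ
      have h4 : δ = 1 := by
        have : δ ^ 3 = (δ * δ) * δ := by rw [pow_succ, sq]
        rw [this, h3, one_mul] at h2
        exact h2
      rw [h4, one_mul] at h1
      have := mul_inv_eq_iff_eq_mul.1 h1
      exact this.symm
    by_cases hz1 : z = 1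
    · left
      rw [← hmkz, hz1]; rfl
    · right; left
      exact small_of_central hW hv hmono hcen hz3 hz1
  · right; right
    push Not at h
    obtain ⟨d, hd⟩ := h
    obtain ⟨d', hd', he⟩ := hmono _ (Mc_normal hW hc) (Mc_ne_bot hW hc3 hd)
    exact ⟨d', he, hd'⟩

lemma dep (hW : W0 G) {v : G} (hv : v ≠ 1)
    (hmono : ∀ M : Subgroup G, M.Normal → M ≠ ⊥ → v ∈ M) (g h : G) :
    eta G g = 1 ∨ eta G h = 1 ∨ eta G g * eta G h = 1 ∨ eta G g * eta G h ^ 2 = 1 ∨ Small v := by
  set a := g ^ 16 with ha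
  set b := h ^ 16 with hb
  have hma : (a : QQ G) = eta G g := rfl
  have hmb : (b : QQ G) = eta G h := rfl
  have ca : ∀ q : QQ G, (a : QQ G) * q = q * a := by
    intro q; rw [hma]; exact eta_central g q
  have cb : ∀ q : QQ G, (b : QQ G) * q = q * b := by
    intro q; rw [hmb]; exact eta_central h q
  have a3 : (a : QQ G) ^ 3 = 1 := by rw [hma]; exact eta_cube g
  have b3 : (b : QQ G) ^ 3 = 1 := by rw [hmb]; exact eta_cube h
  have hmab : ((a * b : G) : QQ G) = eta G g * eta G h := rfl
  have hmabb : ((a * (b * b) : G) : QQ G) = eta G g * eta G h ^ 2 := by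
    rw [sq]; rfl
  have cab : ∀ q : QQ G, ((a * b : G) : QQ G) * q = q * ((a * b : G) : QQ G) := by
    intro q
    have : ((a * b : G) : QQ G) = (a : QQ G) * b := rfl
    rw [this, mul_assoc, cb, ← mul_assoc, ca, mul_assoc]
  have cabb : ∀ q : QQ G, ((a * (b * b) : G) : QQ G) * q = q * ((a * (b * b) : G) : QQ G) := by
    intro q
    have : ((a * (b * b) : G) : QQ G) = (a : QQ G) * b * b := by
      rw [mul_assoc]; rfl
    rw [this, mul_assoc, cb, ← mul_assoc, mul_assoc (a : QQ G) b q, cb, ← mul_assoc, ca, mul_assoc,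
      mul_assoc, mul_assoc]
  have ab3 : ((a * b : G) : QQ G) ^ 3 = 1 := by
    have h1 : Commute (a : QQ G) b := ca b
    have : ((a * b : G) : QQ G) = (a : QQ G) * b := rfl
    rw [this, h1.mul_pow, a3, b3, one_mul]
  have abb3 : ((a * (b * b) : G) : QQ G) ^ 3 = 1 := by
    have h1 : Commute (a : QQ G) (b * b) := ca _
    have : ((a * (b * b) : G) : QQ G) = (a : QQ G) * (b * b) := rfl
    rw [this, h1.mul_pow, a3, one_mul, (Commute.refl (b : QQ G)).mul_pow, b3, one_mul]
  rcases alt_c hW hv hmono ca a3 with h1 | h1 | ⟨d1, hd1, hn1⟩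
  · left; rw [← hma]; exact h1
  · right; right; right; right; exact h1
  rcases alt_c hW hv hmono cb b3 with h1 | h1 | ⟨d2, hd2, hn2⟩
  · right; left; rw [← hmb]; exact h1
  · right; right; right; right; exact h1
  rcases alt_c hW hv hmono cab ab3 with h1 | h1 | ⟨d3, hd3, hn3⟩
  · right; right; left; rw [← hmab]; exact h1
  · right; right; right; right; exact h1
  rcases alt_c hW hv hmono cabb abb3 with h1 | h1 | ⟨d4, hd4, hn4⟩
  · right; right; right; left; rw [← hmabb]; exact h1
  · right; right; right; right; exact h1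
  exfalso
  have e2 : d2 = d1 := Subtype.ext (hd2.trans hd1.symm)
  have e3 : d3 = d1 := Subtype.ext (hd3.trans hd1.symm)
  have e4 : d4 = d1 := Subtype.ext (hd4.trans hd1.symm)
  subst e2 e3 e4
  rw [Nm_apply] at hn1 hn2 hn3 hn4
  letI := DDcomm hW
  have key := key_lin (V := Additive (DD G)) (MonoidHom.toAdditive (cj a))
    (MonoidHom.toAdditive (cj b)) ?_ ?_ ?_ (Additive.ofMul d4) hn1 hn2 ?_ ?_
  · have h1 : d4 = 1 := key
    apply hv
    rw [← hd1, h1]; rfl
  · intro d
    have h1 : cj a (cj b d.toMul) = cj b (cj a d.toMul) := by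
      rw [← cj_mul, ← cj_mul]
      exact conj_eq hW (by exact ca b) _
    exact h1
  · intro d
    have h1 : cj b (cj b (cj b d.toMul)) = d.toMul := by
      rw [← cj_mul, ← cj_mul]
      rw [conj_eq hW (h := 1) _ _, cj_one]
      have : (((b * b * b : G)) : QQ G) = (b : QQ G) ^ 3 := by
        rw [pow_succ, sq]; rfl
      rw [this, b3]; rfl
    exact h1
  · intro d
    exact mul_self_DD hW d.toMul
  · have h1 : d4 * cj a (cj b d4) * cj a (cj b (cj a (cj b d4))) = 1 := by
      rw [← cj_mul, ← cj_mul]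
      exact hn3
    exact h1
  · have h1 : d4 * cj a (cj b (cj b d4)) * cj a (cj b (cj b (cj a (cj b (cj b d4))))) = 1 := by
      have e : ∀ d : DD G, cj a (cj b (cj b d)) = cj (a * (b * b)) d := by
        intro d
        rw [cj_mul, cj_mul]
      rw [e, e]
      exact hn4
    exact h1

/-- In a monolithic group satisfying `s0`, the kernel of `eta` is everything or the kernel of
a surjection onto the cyclic group of order three. -/
theorem exists_pi (hW : W0 G) {v : G} (hv : v ≠ 1)
    (hmono : ∀ M : Subgroup G, M.Normal → M ≠ ⊥ → v ∈ M) :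
    (eta G).ker = ⊤ ∨ ∃ π : G →* Multiplicative (ZMod 3), Function.Surjective π ∧
      π.ker = (eta G).ker := by
  by_cases hall : ∀ g, eta G g = 1
  · left
    rw [eq_top_iff]
    intro g _
    exact hall g
  right
  push Not at hall
  obtain ⟨g0, hg0⟩ := hall
  set x := eta G g0 with hx
  have hx3 : x ^ 3 = 1 := eta_cube g0
  have hord : orderOf x = 3 := by
    have : Fact (Nat.Prime 3) := ⟨by norm_num⟩
    exact orderOf_eq_prime hx3 hg0
  have hmem : ∀ h, eta G h ∈ Subgroup.zpowers x := by
    intro h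
    have hh3 := eta_cube h
    rcases dep hW hv hmono g0 h with h1 | h1 | h1 | h1 | h1
    · exact absurd h1 hg0
    · rw [h1]; exact Subgroup.one_mem _
    · have : eta G h = x⁻¹ := (inv_eq_of_mul_eq_one_right h1).symm
      rw [this]
      exact Subgroup.inv_mem _ (Subgroup.mem_zpowers x)
    · have h2 : eta G h ^ 2 = x⁻¹ := (inv_eq_of_mul_eq_one_right h1).symm
      have h3 : eta G h = (eta G h ^ 2) ^ 2 := by
        rw [← pow_mul]
        have : eta G h ^ (2 * 2) = eta G h ^ 3 * eta G h := by rw [← pow_succ]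
        rw [this, hh3, one_mul]
      rw [h3, h2]
      exact Subgroup.pow_mem _ (Subgroup.inv_mem _ (Subgroup.mem_zpowers x)) _
    · obtain ⟨hv3, hall⟩ := h1
      have hg1 : g0 ≠ 1 := by
        rintro rfl
        exact hg0 (map_one _)
      have hev : eta G v ∈ Subgroup.zpowers x := by
        rcases mem_zpowers_cases hv3 (hall g0) with h4 | h4 | h4
        · exact absurd h4 hg1
        · rw [hx, h4]; exact Subgroup.mem_zpowers _
        · rw [hx, h4, map_inv, Subgroup.zpowers_inv]; exact Subgroup.mem_zpowers _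
      obtain ⟨i, hi⟩ := hall h
      rw [← hi]
      simp only [map_zpow]
      exact Subgroup.zpow_mem _ hev i
  have hrange : (eta G).range = Subgroup.zpowers x := by
    apply le_antisymm
    · rintro _ ⟨h, rfl⟩
      exact hmem h
    · rw [Subgroup.zpowers_le]
      exact ⟨g0, rfl⟩
  have hcard : Nat.card (eta G).range = 3 := by
    rw [hrange, Nat.card_zpowers, hord]
  have : Fact (Nat.Prime 3) := ⟨by norm_num⟩
  have hcard2 : Nat.card (Multiplicative (ZMod 3)) = 3 := by simp
  let e : (eta G).range ≃* Multiplicative (ZMod 3) := mulEquivOfPrimeCardEq hcard hcard2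
  refine ⟨e.toMonoidHom.comp (eta G).rangeRestrict, ?_, ?_⟩
  · exact e.surjective.comp (eta G).rangeRestrict_surjective
  · ext g
    simp only [MonoidHom.mem_ker, MonoidHom.comp_apply]
    constructor
    · intro h
      have h1 : (eta G).rangeRestrict g = 1 := e.injective (h.trans (map_one e).symm)
      exact congrArg Subtype.val h1
    · intro h
      have h1 : (eta G).rangeRestrict g = 1 := Subtype.ext h
      rw [h1, map_one]

end mono

end Helper30.FB
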