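import Pool.Agent.Helper30.FB4

/-!
The group `G2`, whose laws are the consequences of `s0`, and which has a subgroup of index three
which is (elementary abelian)-by-(exponent 8).
-/

namespace Helper30.FB

open scoped commutatorElement

section gen

variable {G : Type*} [Group G] {H : Type*} [Group H]

/-- the subgroup generated by eighth powers. -/
def P8 (K : Subgroup G) : Subgroup G := Subgroup.closure {x : G | ∃ k ∈ K, k ^ 8 = x}

/-- the subgroup generated by squares of elements of `P8 K`. -/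
def Vs (K : Subgroup G) : Subgroup G := Subgroup.closure {x : G | ∃ d ∈ P8 K, d * d = x}

lemma closure_normal_of {S : Set G} (h : ∀ s ∈ S, ∀ g : G, g * s * g⁻¹ ∈ S) :
    (Subgroup.closure S).Normal := by
  constructor
  intro n hn g
  induction hn using Subgroup.closure_induction with
  | mem x hx => exact Subgroup.subset_closure (h x hx g)
  | one => simp
  | mul x y _ _ hx hy =>
    have : g * (x * y) * g⁻¹ = (g * x * g⁻¹) * (g * y * g⁻¹) := by group
    rw [this]
    exact Subgroup.mul_mem _ hx hy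
  | inv x _ hx =>
    have : g * x⁻¹ * g⁻¹ = (g * x * g⁻¹)⁻¹ := by group
    rw [this]
    exact Subgroup.inv_mem _ hx

instance P8_normal (K : Subgroup G) [K.Normal] : (P8 K).Normal := by
  apply closure_normal_of
  rintro _ ⟨k, hk, rfl⟩ g
  exact ⟨g * k * g⁻¹, ‹K.Normal›.conj_mem k hk g, conj_pow⟩

instance Vs_normal (K : Subgroup G) [K.Normal] : (Vs K).Normal := by
  apply closure_normal_of
  rintro _ ⟨d, hd, rfl⟩ g
  refine ⟨g * d * g⁻¹, (P8_normal K).conj_mem d hd g, ?_⟩
  group

lemma P8_map {K : Subgroup G} {L : Subgroup H} (f : G →* H) (h : ∀ k ∈ K, f k ∈ L) {d : G}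
    (hd : d ∈ P8 K) : f d ∈ P8 L := by
  have : P8 K ≤ (P8 L).comap f := by
    rw [P8, Subgroup.closure_le]
    rintro _ ⟨k, hk, rfl⟩
    rw [SetLike.mem_coe, Subgroup.mem_comap, map_pow]
    exact Subgroup.subset_closure ⟨f k, h k hk, rfl⟩
  exact this hd

lemma Vs_le_ker {K : Subgroup G} {L : Subgroup H} (f : G →* H) (h : ∀ k ∈ K, f k ∈ L)
    (hL : V8 L) : Vs K ≤ f.ker := by
  rw [Vs, Subgroup.closure_le]
  rintro _ ⟨d, hd, rfl⟩
  rw [SetLike.mem_coe, MonoidHom.mem_ker, map_mul]
  exact hL _ (P8_map f h hd)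

lemma W0_of_surjective (hW : W0 G) (f : G →* H) (hf : Function.Surjective f) : W0 H := by
  intro x y z w x' y' z' w'
  obtain ⟨x, rfl⟩ := hf x
  obtain ⟨y, rfl⟩ := hf y
  obtain ⟨z, rfl⟩ := hf z
  obtain ⟨w, rfl⟩ := hf w
  obtain ⟨x', rfl⟩ := hf x'
  obtain ⟨y', rfl⟩ := hf y'
  obtain ⟨z', rfl⟩ := hf z'
  obtain ⟨w', rfl⟩ := hf w'
  rw [← map_β, ← map_β, ← map_mul, ← map_pow, hW, map_one]

lemma W0_prod (hG : W0 G) (hH : W0 H) : W0 (G × H) := by
  intro x y z w x' y' z' w'
  apply Prod.ext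
  · have := map_β (MonoidHom.fst G H) x y z w
    have h2 := map_β (MonoidHom.fst G H) x' y' z' w'
    simp only [MonoidHom.coe_fst] at this h2
    rw [Prod.pow_fst, Prod.fst_mul, this, h2]
    exact hG _ _ _ _ _ _ _ _
  · have := map_β (MonoidHom.snd G H) x y z w
    have h2 := map_β (MonoidHom.snd G H) x' y' z' w'
    simp only [MonoidHom.coe_snd] at this h2
    rw [Prod.pow_snd, Prod.snd_mul, this, h2]
    exact hH _ _ _ _ _ _ _ _

end gen

/-- the cyclic group of order three. -/
abbrev C3 := Multiplicative (ZMod 3)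

lemma C3_cube (x : C3) : x ^ 3 = 1 := by
  apply Multiplicative.toAdd.injective
  rw [toAdd_pow, toAdd_one]
  have : ∀ y : ZMod 3, 3 • y = 0 := by decide
  exact this _

lemma W0_C3 : W0 C3 := by
  have h : ∀ x y z w : C3, β x y z w = 1 := by
    intro x y z w
    rw [β, C3_cube, C3_cube, commutatorElement_eq_one_iff_mul_comm.2 (mul_comm _ _)]
    simp
  intro x y z w x' y' z' w'
  rw [h, h]; simp

/-- the grading of the free group. -/
def psi0 : F →* C3 := FreeGroup.lift (fun n => Multiplicative.ofAdd (n : ZMod 3))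

lemma psi0_of (n : ℕ) : psi0 (FreeGroup.of n) = Multiplicative.ofAdd (n : ZMod 3) := by
  simp [psi0]

/-- the relations of `G2`. -/
def R2 : Subgroup F := FI {s0} ⊔ Vs psi0.ker

instance : R2.Normal := by
  unfold R2
  infer_instance

/-- the group `G2`. -/
abbrev G2 := F ⧸ R2

lemma FI_s0_le {G : Type} [Group G] (hW : W0 G) (f : F →* G) : FI {s0} ≤ f.ker := by
  intro w hw
  exact isLaw_of_mem_FI (S := {s0}) (by rintro s rfl; exact isLaw_s0.2 hW) hw f

lemma V8_bot {G : Type*} [Group G] : V8 (⊥ : Subgroup G) := by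
  intro d hd
  have : Subgroup.closure {x : G | ∃ k ∈ (⊥ : Subgroup G), k ^ 8 = x} ≤ ⊥ := by
    rw [Subgroup.closure_le]
    rintro _ ⟨k, hk, rfl⟩
    rw [Subgroup.mem_bot] at hk
    simp [hk]
  have h2 := this hd
  rw [Subgroup.mem_bot] at h2
  rw [h2, one_mul]

lemma R2_le_ker : R2 ≤ psi0.ker := by
  refine sup_le (FI_s0_le W0_C3 psi0) ?_
  exact Vs_le_ker (L := ⊥) psi0 (fun k hk => by simpa using hk) V8_bot

/-- the surjection of `G2` onto the cyclic group of order three. -/
def pi2 : G2 →* C3 := QuotientGroup.lift R2 psi0 (fun _ h => R2_le_ker h)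

lemma W0_G2 : W0 G2 := by
  rw [← isLaw_s0]
  intro f
  obtain ⟨φ, hφ⟩ := exists_lift f
  rw [hφ, QuotientGroup.eq_one_iff]
  exact (le_sup_left : FI {s0} ≤ R2) (map_mem_FI φ (subset_FI rfl))

lemma pow16_of_ker {g : G2} (hg : g ∈ pi2.ker) : g ^ 16 = 1 := by
  induction g using QuotientGroup.induction_on with | _ k
  have hk : k ∈ psi0.ker := hg
  have h1 : k ^ 8 ∈ P8 psi0.ker := Subgroup.subset_closure ⟨k, hk, rfl⟩
  have h2 : k ^ 8 * k ^ 8 ∈ R2 :=
    (le_sup_right : Vs psi0.ker ≤ R2) (Subgroup.subset_closure ⟨_, h1, rfl⟩)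
  rw [← pow_add] at h2
  rw [← QuotientGroup.eq_one_iff] at h2
  exact h2

/-- universal property of `G2`. -/
lemma law_of_pi {P : Type} [Group P] (hW : W0 P) (π : P →* C3) (hπ : Function.Surjective π)
    (hV : V8 π.ker) {w : F} (hw : IsLaw w G2) : IsLaw w P := by
  intro f
  choose s hs using hπ
  let c : ℕ → ℕ := fun i => (Multiplicative.toAdd (π (f (FreeGroup.of i)))).val
  have hc : ∀ i, c i < 3 := fun i => ZMod.val_lt _
  have hc2 : ∀ i, ((3 * i + c i : ℕ) : ZMod 3) = Multiplicative.toAdd (π (f (FreeGroup.of i))) := by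
    intro i
    push_cast
    have h3 : (3 : ZMod 3) = 0 := by decide
    rw [h3, zero_mul, zero_add]
    exact ZMod.natCast_zmod_val _
  let σ : F →* F := FreeGroup.lift (fun i => FreeGroup.of (3 * i + c i))
  let t : ℕ → P := fun n =>
    if π (f (FreeGroup.of (n / 3))) = Multiplicative.ofAdd (n : ZMod 3) then
      f (FreeGroup.of (n / 3)) else s (Multiplicative.ofAdd (n : ZMod 3))
  let θ : F →* P := FreeGroup.lift t
  have hπθ : π.comp θ = psi0 := by
    ext n
    simp only [MonoidHom.comp_apply, θ, FreeGroup.lift_apply_of, t, psi0_of]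
    split_ifs with h
    · exact h
    · exact hs _
  have hθσ : θ.comp σ = f := by
    ext i
    simp only [MonoidHom.comp_apply, θ, σ, FreeGroup.lift_apply_of, t]
    have h1 : (3 * i + c i) / 3 = i := by have := hc i; omega
    rw [h1, hc2, ofAdd_toAdd, if_pos rfl]
  have hker : R2 ≤ θ.ker := by
    refine sup_le (FI_s0_le hW θ) (Vs_le_ker (L := π.ker) θ ?_ hV)
    intro k hk
    rw [MonoidHom.mem_ker] at hk ⊢
    rw [← hk, ← hπθ]; rfl
  have h1 := hw ((QuotientGroup.mk' R2).comp σ)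
  have h2 : σ w ∈ R2 := by
    rw [← QuotientGroup.eq_one_iff]
    exact h1
  have h3 := hker h2
  rw [← hθσ]
  exact h3

lemma law_of_top {P : Type} [Group P] (hW : W0 P) (hV : V8 (⊤ : Subgroup P)) {w : F}
    (hw : IsLaw w G2) : IsLaw w P := by
  have h : IsLaw w (P × C3) := by
    apply law_of_pi (W0_prod hW W0_C3) (MonoidHom.snd P C3) _ _ hw
    · intro c
      exact ⟨(1, c), rfl⟩
    · intro d hd
      have h1 : d.1 ∈ P8 (⊤ : Subgroup P) :=
        P8_map (K := (MonoidHom.snd P C3).ker) (MonoidHom.fst P C3)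
          (fun _ _ => Subgroup.mem_top _) hd
      have h2 : d.2 ∈ P8 (⊥ : Subgroup C3) :=
        P8_map (K := (MonoidHom.snd P C3).ker) (MonoidHom.snd P C3)
          (fun k hk => by rw [Subgroup.mem_bot]; exact hk) hd
      apply Prod.ext
      · exact hV _ h1
      · exact V8_bot _ h2
  intro f
  have := h (f.prod 1)
  exact congrArg Prod.fst this

/-- maximal normal subgroups avoiding an element. -/
lemma exists_max {G : Type*} [Group G] {v : G} (hv : v ≠ 1) :
    ∃ M : Subgroup G, M.Normal ∧ v ∉ M ∧ ∀ N : Subgroup G, N.Normal → M ≤ N → v ∉ N → N = M := by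
  obtain ⟨M, hM⟩ := zorn_le₀ {M : Subgroup G | M.Normal ∧ v ∉ M} (by
    intro c hc hchain
    rcases c.eq_empty_or_nonempty with rfl | hne
    · exact ⟨⊥, ⟨inferInstance, by rwa [Subgroup.mem_bot]⟩, by simp⟩
    · have hdir : DirectedOn (· ≤ ·) c := hchain.directedOn
      refine ⟨sSup c, ⟨⟨?_⟩, ?_⟩, fun z hz => le_sSup hz⟩
      · intro n hn g
        rw [Subgroup.mem_sSup_of_directedOn hne hdir] at hn ⊢
        obtain ⟨s, hs, hns⟩ := hn
        exact ⟨s, hs, (hc hs).1.conj_mem n hns g⟩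
      · intro h
        rw [Subgroup.mem_sSup_of_directedOn hne hdir] at h
        obtain ⟨s, hs, hvs⟩ := h
        exact (hc hs).2 hvs)
  refine ⟨M, hM.prop.1, hM.prop.2, fun N hN hMN hvN => ?_⟩
  exact le_antisymm (hM.le_of_ge ⟨hN, hvN⟩ hMN) hMN

/-- laws of `G2` hold in all groups satisfying `s0`. -/
theorem law_of_G2 {w : F} (hw : IsLaw w G2) {G : Type} [Group G] (hW : W0 G) : IsLaw w G := by
  intro f
  by_contra hv
  obtain ⟨M, hM, hvM, hmax⟩ := exists_max hv
  have hW' : W0 (G ⧸ M) := W0_of_surjective hW (QuotientGroup.mk' M) (QuotientGroup.mk'_surjective M)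
  have hv' : (QuotientGroup.mk (f w) : G ⧸ M) ≠ 1 := by
    rwa [Ne, QuotientGroup.eq_one_iff]
  have hmono : ∀ N : Subgroup (G ⧸ M), N.Normal → N ≠ ⊥ → (QuotientGroup.mk (f w) : G ⧸ M) ∈ N := by
    intro N hN hne
    by_contra hnot
    apply hne
    have h1 : N.comap (QuotientGroup.mk' M) = M := by
      apply hmax _ (hN.comap _)
      · intro x hx
        rw [Subgroup.mem_comap, QuotientGroup.mk'_apply, (QuotientGroup.eq_one_iff x).2 hx]
        exact N.one_mem
      · exact hnot
    rw [eq_bot_iff]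
    intro x hx
    induction x using QuotientGroup.induction_on with | _ y
    have h2 : y ∈ N.comap (QuotientGroup.mk' M) := hx
    rw [h1, ← QuotientGroup.eq_one_iff] at h2
    rw [Subgroup.mem_bot]
    exact h2
  have hlaw : IsLaw w (G ⧸ M) := by
    rcases exists_pi hW' hv' hmono with h | ⟨π, hπ, hker⟩
    · apply law_of_top hW' _ hw
      rw [← h]; exact V8_ker hW'
    · apply law_of_pi hW' π hπ _ hw
      rw [hker]; exact V8_ker hW'
  exact hv' (hlaw ((QuotientGroup.mk' M).comp f))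

end Helper30.FB
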