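import Pool.Agent.Helper30.FB1

/-!
The modules on which the groups `Y` act: bilinear form and structured automorphisms.
-/

namespace Helper30.FB

open scoped commutatorElement

attribute [local instance] Classical.propDecidable

section form

variable {T X : Type} [Group T] [Fintype T] [Group X]

/-- the module. -/
abbrev Dm (T X : Type) := (X → ZMod 2) × (T → ZMod 2) × (X → ZMod 2)

/-- the linear automorphisms of the module. -/
abbrev LA (T X : Type) := Dm T X ≃ₗ[ZMod 2] Dm T X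

/-- right translation. -/
def tr (τ : T) (f : T → ZMod 2) : T → ZMod 2 := fun t => f (t * τ)

/-- the form with values in functions on `X`. -/
noncomputable def B (ξ : T →* X) (γ : T) (f g : T → ZMod 2) (y : X) : ZMod 2 :=
  ∑ t ∈ Finset.univ.filter (fun t => ξ t = y), f t * g (t * γ)

/-- hypotheses on `γ`. -/
structure Gam (ξ : T →* X) (γ : T) : Prop where
  central : ∀ t, γ * t = t * γ
  sq : γ * γ = 1
  ne : γ ≠ 1
  xi : ξ γ = 1

variable {ξ : T →* X} {γ : T}

lemma B_tr (h : Gam ξ γ) (τ : T) (f g : T → ZMod 2) (y : X) :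
    B ξ γ (tr τ f) (tr τ g) y = B ξ γ f g (y * ξ τ) := by
  unfold B tr
  apply Finset.sum_equiv (Equiv.mulRight τ)
  · intro t
    simp only [Finset.mem_filter, Finset.mem_univ, true_and, Equiv.coe_mulRight, map_mul,
      mul_left_inj]
  · intro t _
    simp only [Equiv.coe_mulRight]
    rw [mul_assoc t γ τ, h.central, ← mul_assoc]

lemma B_symm (h : Gam ξ γ) (f g : T → ZMod 2) (y : X) : B ξ γ f g y = B ξ γ g f y := by
  unfold B
  apply Finset.sum_equiv (Equiv.mulRight γ)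
  · intro t
    simp only [Finset.mem_filter, Finset.mem_univ, true_and, Equiv.coe_mulRight, map_mul, h.xi,
      mul_one]
  · intro t _
    simp only [Equiv.coe_mulRight]
    rw [mul_assoc t γ γ, h.sq, mul_one, mul_comm]

lemma B_add_right (f g g' : T → ZMod 2) (y : X) :
    B ξ γ f (g + g') y = B ξ γ f g y + B ξ γ f g' y := by
  unfold B
  rw [← Finset.sum_add_distrib]
  apply Finset.sum_congr rfl
  intro t _
  simp [mul_add]

lemma B_add_left (f f' g : T → ZMod 2) (y : X) :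
    B ξ γ (f + f') g y = B ξ γ f g y + B ξ γ f' g y := by
  unfold B
  rw [← Finset.sum_add_distrib]
  apply Finset.sum_congr rfl
  intro t _
  simp [add_mul]

lemma B_sub_right (f g g' : T → ZMod 2) (y : X) :
    B ξ γ f (g - g') y = B ξ γ f g y - B ξ γ f g' y := by
  unfold B
  rw [← Finset.sum_sub_distrib]
  apply Finset.sum_congr rfl
  intro t _
  simp [mul_sub]

lemma B_zero_left (g : T → ZMod 2) (y : X) : B ξ γ 0 g y = 0 := by simp [B]

lemma B_zero_right (g : T → ZMod 2) (y : X) : B ξ γ g 0 y = 0 := by simp [B]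

lemma B_smul_left (a : X → ZMod 2) (f g : T → ZMod 2) (y : X) :
    B ξ γ (fun t => a (ξ t) * f t) g y = a y * B ξ γ f g y := by
  unfold B
  rw [Finset.mul_sum]
  apply Finset.sum_congr rfl
  intro t ht
  rw [Finset.mem_filter] at ht
  simp only
  rw [ht.2, mul_assoc]

lemma B_self_tr (h : Gam ξ γ) {ζ : T} (hc : ∀ t, ζ * t = t * ζ) (h2 : ζ * ζ = 1)
    (hξ : ξ ζ = 1) (hne : ζ ≠ γ) (f : T → ZMod 2) (y : X) : B ξ γ f (tr ζ f) y = 0 := by
  unfold B tr
  apply Finset.sum_involution (fun t _ => t * γ * ζ)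
  · intro t _
    have e : t * γ * ζ * γ * ζ = t := by
      calc t * γ * ζ * γ * ζ = t * γ * (ζ * γ) * ζ := by group
        _ = t * γ * (γ * ζ) * ζ := by rw [hc γ]
        _ = t * (γ * γ) * (ζ * ζ) := by group
        _ = t := by rw [h.sq, h2]; simp
    rw [e, mul_comm (f (t * γ * ζ))]
    exact CharTwo.add_self_eq_zero _
  · intro t _ _ he
    have h3 : γ * ζ = 1 := by
      have : t * (γ * ζ) = t * 1 := by rw [← mul_assoc, he, mul_one]
      exact mul_left_cancel this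
    apply hne
    have : ζ = γ⁻¹ := (inv_eq_of_mul_eq_one_right h3).symm
    rw [this]
    exact inv_eq_of_mul_eq_one_right h.sq
  · intro t ht
    simp only [Finset.mem_filter, Finset.mem_univ, true_and, map_mul, h.xi, mul_one, hξ] at ht ⊢
    exact ht
  · intro t _
    calc t * γ * ζ * γ * ζ = t * γ * (ζ * γ) * ζ := by group
        _ = t * γ * (γ * ζ) * ζ := by rw [hc γ]
        _ = t * (γ * γ) * (ζ * ζ) := by group
        _ = t := by rw [h.sq, h2]; simp

lemma tr_one (f : T → ZMod 2) : tr (1 : T) f = f := by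
  funext t; simp [tr]

lemma tr_mul (τ σ : T) (f : T → ZMod 2) : tr (τ * σ) f = tr τ (tr σ f) := by
  funext t; simp [tr, mul_assoc]

lemma B_self (h : Gam ξ γ) (f : T → ZMod 2) (y : X) : B ξ γ f f y = 0 := by
  have := B_self_tr (ζ := 1) h (by simp) (by simp) (by simp) (Ne.symm h.ne) f y
  rwa [tr_one] at this

lemma B_tr_swap (h : Gam ξ γ) {ζ : T} (h2 : ζ * ζ = 1) (hξ : ξ ζ = 1) (f g : T → ZMod 2) (y : X) :
    B ξ γ f (tr ζ g) y = B ξ γ (tr ζ f) g y := by
  have := B_tr h ζ (tr ζ f) g y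
  rw [← tr_mul, h2, tr_one, hξ, mul_one] at this
  exact this

lemma B_self_gamma (h : Gam ξ γ) (f : T → ZMod 2) (y : X) :
    B ξ γ f (tr γ f) y = ∑ t ∈ Finset.univ.filter (fun t => ξ t = y), f t := by
  unfold B tr
  apply Finset.sum_congr rfl
  intro t _
  rw [mul_assoc t γ γ, h.sq, mul_one]
  have : ∀ a : ZMod 2, a * a = a := by decide
  exact this _

/-- the invariant form on the module. -/
noncomputable def form (ξ : T →* X) (γ : T) (d d' : Dm T X) (y : X) : ZMod 2 :=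
  d.1 y * d'.2.2 y + d.2.2 y * d'.1 y + B ξ γ d.2.1 d'.2.1 y

/-- structured automorphisms lying over `τ`. -/
structure Good (ξ : T →* X) (γ : T) (τ : T) (g : LA T X) : Prop where
  p0 : ∀ d y, (g d).1 y = d.1 (y * ξ τ)
  p1 : ∀ d, d.1 = 0 → ∀ t, (g d).2.1 t = d.2.1 (t * τ)
  p2 : ∀ d, d.1 = 0 → d.2.1 = 0 → ∀ y, (g d).2.2 y = d.2.2 (y * ξ τ)
  p3 : ∀ d d' y, form ξ γ (g d) (g d') y = form ξ γ d d' (y * ξ τ)

lemma Good.fst_zero {τ : T} {g : LA T X} (h : Good ξ γ τ g) {d : Dm T X}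
    (hd : d.1 = 0) : (g d).1 = 0 := by
  funext y
  rw [h.p0, hd]; rfl

lemma Good.snd_zero {τ : T} {g : LA T X} (h : Good ξ γ τ g) {d : Dm T X}
    (hd : d.1 = 0) (hd' : d.2.1 = 0) : (g d).2.1 = 0 := by
  funext t
  rw [h.p1 d hd, hd']; rfl

lemma Good.mul {τ τ' : T} {g g' : LA T X} (h : Good ξ γ τ g) (h' : Good ξ γ τ' g') :
    Good ξ γ (τ * τ') (g * g') := by
  refine ⟨?_, ?_, ?_, ?_⟩
  · intro d y
    rw [LinearEquiv.mul_apply, h.p0, h'.p0, map_mul, mul_assoc]
  · intro d hd t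
    rw [LinearEquiv.mul_apply, h.p1 _ (h'.fst_zero hd), h'.p1 _ hd, mul_assoc]
  · intro d hd hd' y
    rw [LinearEquiv.mul_apply, h.p2 _ (h'.fst_zero hd) (h'.snd_zero hd hd'), h'.p2 _ hd hd', map_mul,
      mul_assoc]
  · intro d d' y
    rw [LinearEquiv.mul_apply, LinearEquiv.mul_apply, h.p3, h'.p3, map_mul, mul_assoc]

lemma Good_one : Good ξ γ 1 (1 : LA T X) := by
  refine ⟨?_, ?_, ?_, ?_⟩ <;> intros <;> simp

lemma Good.inv {τ : T} {g : LA T X} (h : Good ξ γ τ g) : Good ξ γ τ⁻¹ g⁻¹ := by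
  have hgg : ∀ d, g (g⁻¹ d) = d := fun d => by
    rw [← LinearEquiv.mul_apply, mul_inv_cancel]; rfl
  have f0 : ∀ d y, (g⁻¹ d).1 y = d.1 (y * ξ τ⁻¹) := by
    intro d y
    have := h.p0 (g⁻¹ d) (y * ξ τ⁻¹)
    rw [hgg, mul_assoc, ← map_mul, inv_mul_cancel, map_one, mul_one] at this
    exact this.symm
  have f0' : ∀ d : Dm T X, d.1 = 0 → (g⁻¹ d).1 = 0 := by
    intro d hd
    funext y
    rw [f0, hd]; rfl
  have f1 : ∀ d : Dm T X, d.1 = 0 → ∀ t, (g⁻¹ d).2.1 t = d.2.1 (t * τ⁻¹) := by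
    intro d hd t
    have := h.p1 (g⁻¹ d) (f0' d hd) (t * τ⁻¹)
    rw [hgg, mul_assoc, inv_mul_cancel, mul_one] at this
    exact this.symm
  refine ⟨f0, f1, ?_, ?_⟩
  · intro d hd hd' y
    have h1 : (g⁻¹ d).2.1 = 0 := by
      funext t
      rw [f1 d hd, hd']; rfl
    have := h.p2 (g⁻¹ d) (f0' d hd) h1 (y * ξ τ⁻¹)
    rw [hgg, mul_assoc, ← map_mul, inv_mul_cancel, map_one, mul_one] at this
    exact this.symm
  · intro d d' y
    have := h.p3 (g⁻¹ d) (g⁻¹ d') (y * ξ τ⁻¹)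
    rw [hgg, hgg, mul_assoc, ← map_mul, inv_mul_cancel, map_one, mul_one] at this
    exact this.symm

/-- The group of structured automorphisms. -/
def YY (ξ : T →* X) (γ : T) : Subgroup (T × LA T X) where
  carrier := {g | Good ξ γ g.1 g.2}
  one_mem' := Good_one
  mul_mem' h h' := Good.mul h h'
  inv_mem' h := Good.inv h

/-- the parameter of a unipotent automorphism. -/
def pz (z : LA T X) : T → ZMod 2 := (z (1, 0, 0)).2.1

lemma Good.eval_mid (h : Gam ξ γ) {z : LA T X} (hz : Good ξ γ 1 z) (m : T → ZMod 2)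
    (y : X) : (z (0, m, 0)).2.2 y = B ξ γ (pz z) m y := by
  have h1 := hz.p3 (1, 0, 0) (0, m, 0) y
  have e1 : (z (1, 0, 0)).1 y = 1 := by rw [hz.p0]; rfl
  have e2 : (z (0, m, 0)).1 y = 0 := by rw [hz.p0]; rfl
  have e3 : (z (0, m, 0)).2.1 = m := by
    funext t
    rw [hz.p1 _ rfl, mul_one]
  simp only [form, e1, e2, e3, map_one, mul_one, B_zero_left, Pi.zero_apply, mul_zero, zero_mul,
    add_zero, one_mul] at h1
  have := eq_neg_of_add_eq_zero_left h1
  rw [CharTwo.neg_eq] at this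
  exact this

lemma Good.eval_top (h : Gam ξ γ) {z : LA T X} (hz : Good ξ γ 1 z) (a : X → ZMod 2)
    (m : T → ZMod 2) (y : X) :
    B ξ γ (z (a, 0, 0)).2.1 m y = a y * B ξ γ (pz z) m y := by
  have h1 := hz.p3 (a, 0, 0) (0, m, 0) y
  have e1 : (z (a, 0, 0)).1 y = a y := by rw [hz.p0, map_one, mul_one]
  have e2 : (z (0, m, 0)).1 y = 0 := by rw [hz.p0]; rfl
  have e3 : (z (0, m, 0)).2.1 = m := by
    funext t
    rw [hz.p1 _ rfl, mul_one]
  simp only [form, e1, e2, e3, map_one, mul_one, B_zero_left, Pi.zero_apply, mul_zero, zero_mul,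
    add_zero, hz.eval_mid h] at h1
  have := eq_neg_of_add_eq_zero_right h1
  rw [CharTwo.neg_eq] at this
  exact this

end form

end Helper30.FB
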