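import Pool.Agent.Helper30.FB6

/-!
Evaluation of iterated differences on the module.
-/

namespace Helper30.FB

open scoped commutatorElement

attribute [local instance] Classical.propDecidable

section

variable {T X : Type} [Group T] [Fintype T] [Group X] {ξ : T →* X} {γ : T}

lemma Good.apply (h : Gam ξ γ) {z : LA T X} (hz : Good ξ γ 1 z) (a : X → ZMod 2)
    (m : T → ZMod 2) (b : X → ZMod 2) :
    z (a, m, b) = (a, (z (a, 0, 0)).2.1 + m,
      (z (a, 0, 0)).2.2 + (fun y => B ξ γ (pz z) m y) + b) := by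
  have e1 : ((a, m, b) : Dm T X) = (a, 0, 0) + (0, m, 0) + (0, 0, b) := by
    ext <;> simp
  have e2 : z (0, 0, b) = (0, 0, b) := by
    apply Prod.ext
    · exact hz.fst_zero rfl
    apply Prod.ext
    · exact hz.snd_zero rfl rfl
    · funext y
      rw [hz.p2 _ rfl rfl, map_one, mul_one]
  have e3 : z (0, m, 0) = (0, m, fun y => B ξ γ (pz z) m y) := by
    apply Prod.ext
    · exact hz.fst_zero rfl
    apply Prod.ext
    · funext t
      rw [hz.p1 _ rfl, mul_one]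
    · funext y
      exact hz.eval_mid h m y
  have e4 : (z (a, 0, 0)).1 = a := by
    funext y
    rw [hz.p0, map_one, mul_one]
  rw [e1, map_add, map_add, e2, e3]
  apply Prod.ext
  · simp [e4]
  apply Prod.ext
  · simp
  · simp

lemma Good.sq_eq_one (h : Gam ξ γ) {z : LA T X} (hz : Good ξ γ 1 z) : z * z = 1 := by
  ext1 d
  obtain ⟨a, m, b⟩ := d
  rw [LinearEquiv.mul_apply, hz.apply h, hz.apply h]
  have hP : (fun y => B ξ γ (pz z) ((z (a, 0, 0)).2.1 + m) y) = fun y => B ξ γ (pz z) m y := by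
    funext y
    rw [B_add_right, B_symm h, hz.eval_top h, B_self h, mul_zero, zero_add]
  have h2 : ∀ f : T → ZMod 2, f + f = 0 := fun f => by
    funext t; exact CharTwo.add_self_eq_zero _
  have h3 : ∀ f : X → ZMod 2, f + f = 0 := fun f => by
    funext t; exact CharTwo.add_self_eq_zero _
  rw [hP]
  apply Prod.ext
  · rfl
  apply Prod.ext
  · change (z (a, 0, 0)).2.1 + ((z (a, 0, 0)).2.1 + m) = m
    rw [← add_assoc, h2, zero_add]
  · change (z (a, 0, 0)).2.2 + (fun y => B ξ γ (pz z) m y) + ((z (a, 0, 0)).2.2 +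
      (fun y => B ξ γ (pz z) m y) + b) = b
    rw [← add_assoc, h3, zero_add]

lemma YY_pow8 (h : Gam ξ γ) (h4 : ∀ s : T, s ^ 4 = 1) (y : YY ξ γ) : y ^ 8 = 1 := by
  have h1 : Good ξ γ (y ^ 4 : YY ξ γ).1.1 (y ^ 4 : YY ξ γ).1.2 := (y ^ 4).2
  have h2 : (y ^ 4 : YY ξ γ).1.1 = 1 := by
    have : (y ^ 4 : YY ξ γ).1.1 = y.1.1 ^ 4 := rfl
    rw [this, h4]
  rw [h2] at h1
  have h3 := h1.sq_eq_one h
  have h5 : y ^ 4 * y ^ 4 = 1 := by
    apply Subtype.ext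
    apply Prod.ext
    · change (y ^ 4 : YY ξ γ).1.1 * (y ^ 4 : YY ξ γ).1.1 = 1
      rw [h2, one_mul]
    · exact h3
  rw [← pow_add] at h5
  exact h5

/-- iterated differences by automorphisms. -/
def Ds (l : List (LA T X)) (d : Dm T X) : Dm T X := l.foldr (fun g d => g d - d) d

/-- iterated differences by translations. -/
def ds (l : List T) (m : T → ZMod 2) : T → ZMod 2 := l.foldr (fun ζ m => tr ζ m - m) m

lemma Ds_spec (l : List (YY ξ γ)) (d : Dm T X) (hd : d.1 = 0) :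
    (Ds (l.map (fun u => u.1.2)) d).1 = 0 ∧
      (Ds (l.map (fun u => u.1.2)) d).2.1 = ds (l.map (fun u => u.1.1)) d.2.1 := by
  induction l with
  | nil => exact ⟨hd, rfl⟩
  | cons u l ih =>
    obtain ⟨h1, h2⟩ := ih
    have hu : Good ξ γ u.1.1 u.1.2 := u.2
    refine ⟨?_, ?_⟩
    · change (u.1.2 (Ds (l.map (fun u => u.1.2)) d) - Ds (l.map (fun u => u.1.2)) d).1 = 0
      rw [Prod.fst_sub, hu.fst_zero h1, h1, sub_zero]
    · change (u.1.2 (Ds (l.map (fun u => u.1.2)) d) - Ds (l.map (fun u => u.1.2)) d).2.1 =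
        tr u.1.1 (ds (l.map (fun u => u.1.1)) d.2.1) - ds (l.map (fun u => u.1.1)) d.2.1
      rw [Prod.snd_sub, Prod.fst_sub, h2]
      congr 1
      funext t
      rw [hu.p1 _ h1, h2]; rfl

/-- the final value of the iterated difference. -/
lemma eval_E (h : Gam ξ γ) {z : LA T X} (hz : Good ξ γ 1 z) (l : List (YY ξ γ)) (d : Dm T X) :
    Ds (z :: (l.map (fun u => u.1.2) ++ [z])) d =
      (0, 0, fun y => B ξ γ (pz z) (ds (l.map (fun u => u.1.1)) (z (d.1, 0, 0)).2.1) y) := by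
  have e1 : Ds (z :: (l.map (fun u => u.1.2) ++ [z])) d =
      z (Ds (l.map (fun u => u.1.2)) (z d - d)) - Ds (l.map (fun u => u.1.2)) (z d - d) := by
    simp [Ds]
  have e2 : (z d - d).1 = 0 := by
    funext y
    rw [Prod.fst_sub, Pi.sub_apply, hz.p0, map_one, mul_one, sub_self]; rfl
  have e3 : (z d - d).2.1 = (z (d.1, 0, 0)).2.1 := by
    obtain ⟨a, m, b⟩ := d
    rw [hz.apply h a m b]
    change (z (a, 0, 0)).2.1 + m - m = _
    rw [add_sub_cancel_right]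
  obtain ⟨h1, h2⟩ := Ds_spec l (z d - d) e2
  rw [e3] at h2
  rw [e1]
  generalize Ds (l.map (fun u => u.1.2)) (z d - d) = d' at h1 h2
  obtain ⟨a, m, b⟩ := d'
  simp only at h1 h2
  subst h1 h2
  rw [hz.apply h]
  have h0 : z ((0, 0, 0) : Dm T X) = 0 := map_zero z
  rw [h0]
  apply Prod.ext
  · simp
  apply Prod.ext
  · simp
  · simp

lemma ds_tr {ζ : T} (hc : ∀ t, ζ * t = t * ζ) (l : List T) (m : T → ZMod 2) :
    ds l (tr ζ m) = tr ζ (ds l m) := by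
  induction l with
  | nil => rfl
  | cons s l ih =>
    change tr s (ds l (tr ζ m)) - ds l (tr ζ m) = tr ζ (tr s (ds l m) - ds l m)
    rw [ih, ← tr_mul, ← hc, tr_mul]
    rfl

/-- products of `j` squares. -/
def Sq : ℕ → T → Prop
  | 0, ζ => ζ = 1
  | j + 1, ζ => ∃ s ζ', Sq j ζ' ∧ ζ = s ^ 2 * ζ'

/-- the data on `T` used in the construction. -/
structure TData (ξ : T →* X) (γ : T) (n : ℕ) : Prop where
  gam : Gam ξ γ
  sqc : ∀ s t : T, s ^ 2 * t = t * s ^ 2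
  exp4 : ∀ s : T, s ^ 4 = 1
  xi2 : ∀ s : T, ξ (s ^ 2) = 1
  width : ∀ j < n, ∀ ζ : T, Sq j ζ → ζ ≠ γ

lemma Sq_central {n : ℕ} (D : TData ξ γ n) {j : ℕ} : ∀ {ζ : T}, Sq j ζ →
    (∀ t, ζ * t = t * ζ) ∧ ζ * ζ = 1 ∧ ξ ζ = 1 := by
  induction j with
  | zero =>
    intro ζ h
    have : ζ = 1 := h
    subst this
    exact ⟨by simp, by simp, by simp⟩
  | succ j ih =>
    rintro ζ ⟨s, ζ', h', rfl⟩
    obtain ⟨h1, h2, h3⟩ := ih h'
    refine ⟨?_, ?_, ?_⟩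
    · intro t
      rw [mul_assoc, h1, ← mul_assoc, D.sqc, mul_assoc]
    · calc s ^ 2 * ζ' * (s ^ 2 * ζ') = s ^ 2 * (ζ' * s ^ 2) * ζ' := by group
        _ = s ^ 2 * (s ^ 2 * ζ') * ζ' := by rw [h1]
        _ = s ^ 4 * (ζ' * ζ') := by group
        _ = 1 := by rw [D.exp4, h2, one_mul]
    · rw [map_mul, D.xi2, h3, one_mul]

lemma B_val {n : ℕ} (D : TData ξ γ n) {z : LA T X} (hz : Good ξ γ 1 z) (a : X → ZMod 2)
    {ζ : T} {j : ℕ} (hζ : Sq j ζ) (y : X) :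
    B ξ γ (pz z) (tr ζ (z (a, 0, 0)).2.1) y = a y * B ξ γ (pz z) (tr ζ (pz z)) y := by
  obtain ⟨h1, h2, h3⟩ := Sq_central D hζ
  rw [B_tr_swap D.gam h2 h3, B_symm D.gam, hz.eval_top D.gam]

lemma ds_vanish {n : ℕ} (D : TData ξ γ n) {z : LA T X} (hz : Good ξ γ 1 z) (a : X → ZMod 2)
    (y : X) (l : List T) (hl : ∀ ζ ∈ l, ∃ s : T, ζ = s ^ 2) :
    ∀ (j : ℕ) (ζ' : T), Sq j ζ' → l.length + j < n →
      B ξ γ (pz z) (ds l (tr ζ' (z (a, 0, 0)).2.1)) y = 0 := by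
  induction l with
  | nil =>
    intro j ζ' hζ' hj
    change B ξ γ (pz z) (tr ζ' (z (a, 0, 0)).2.1) y = 0
    obtain ⟨h1, h2, h3⟩ := Sq_central D hζ'
    rw [B_val D hz a hζ', B_self_tr D.gam h1 h2 h3 (D.width j (by simpa using hj) ζ' hζ'),
      mul_zero]
  | cons ζ l ih =>
    intro j ζ' hζ' hj
    obtain ⟨s, rfl⟩ := hl ζ (by simp)
    have hl' : ∀ ζ ∈ l, ∃ s : T, ζ = s ^ 2 := fun ζ hζ => hl ζ (by simp [hζ])
    have hc : ∀ t, s ^ 2 * t = t * s ^ 2 := D.sqc s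
    change B ξ γ (pz z) (tr (s ^ 2) (ds l (tr ζ' (z (a, 0, 0)).2.1)) -
      ds l (tr ζ' (z (a, 0, 0)).2.1)) y = 0
    simp only [List.length_cons] at hj
    rw [← ds_tr hc, ← tr_mul, B_sub_right, ih hl' (j + 1) (s ^ 2 * ζ') ⟨s, ζ', hζ', rfl⟩ (by omega),
      ih hl' j ζ' hζ' (by omega), sub_zero]

lemma ds_top {n : ℕ} (D : TData ξ γ n) {z : LA T X} (hz : Good ξ γ 1 z) (a : X → ZMod 2)
    (y : X) (l : List T) (hl : ∀ ζ ∈ l, ∃ s : T, ζ = s ^ 2) :
    ∀ (j : ℕ) (ζ' : T), Sq j ζ' → l.length + j = n →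
      B ξ γ (pz z) (ds l (tr ζ' (z (a, 0, 0)).2.1)) y =
        B ξ γ (pz z) (tr (l.prod * ζ') (z (a, 0, 0)).2.1) y := by
  induction l with
  | nil =>
    intro j ζ' hζ' hj
    change B ξ γ (pz z) (tr ζ' (z (a, 0, 0)).2.1) y = _
    rw [List.prod_nil, one_mul]
  | cons ζ l ih =>
    intro j ζ' hζ' hj
    obtain ⟨s, rfl⟩ := hl ζ (by simp)
    have hl' : ∀ ζ ∈ l, ∃ s : T, ζ = s ^ 2 := fun ζ hζ => hl ζ (by simp [hζ])
    have hc : ∀ t, s ^ 2 * t = t * s ^ 2 := D.sqc s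
    change B ξ γ (pz z) (tr (s ^ 2) (ds l (tr ζ' (z (a, 0, 0)).2.1)) -
      ds l (tr ζ' (z (a, 0, 0)).2.1)) y = _
    simp only [List.length_cons] at hj
    rw [← ds_tr hc, ← tr_mul, B_sub_right,
      ds_vanish D hz a y l hl' j ζ' hζ' (by omega), sub_zero,
      ih hl' (j + 1) (s ^ 2 * ζ') ⟨s, ζ', hζ', rfl⟩ (by omega), List.prod_cons, ← mul_assoc,
      ← hc l.prod]

end

end Helper30.FB
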