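import Pool.Agent.Helper30.FB7

/-!
Explicit structured automorphisms.
-/

namespace Helper30.FB

open scoped commutatorElement

attribute [local instance] Classical.propDecidable

section

variable {T X : Type} [Group T] [Fintype T] [Group X] {ξ : T →* X} {γ : T}

lemma B_smul_right (c : ZMod 2) (f g : T → ZMod 2) (y : X) :
    B ξ γ f (c • g) y = c * B ξ γ f g y := by
  unfold B
  rw [Finset.mul_sum]
  apply Finset.sum_congr rfl
  intro t _
  simp only [Pi.smul_apply, smul_eq_mul]
  ring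

lemma B_smul_right' (h : Gam ξ γ) (a : X → ZMod 2) (f g : T → ZMod 2) (y : X) :
    B ξ γ g (fun t => a (ξ t) * f t) y = a y * B ξ γ g f y := by
  rw [B_symm h, B_smul_left, B_symm h]

/-- translations. -/
def Tr (ξ : T →* X) (τ : T) : LA T X where
  toFun d := (fun y => d.1 (y * ξ τ), fun t => d.2.1 (t * τ), fun y => d.2.2 (y * ξ τ))
  invFun d := (fun y => d.1 (y * ξ τ⁻¹), fun t => d.2.1 (t * τ⁻¹), fun y => d.2.2 (y * ξ τ⁻¹))
  map_add' d d' := rfl
  map_smul' c d := rfl
  left_inv d := by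
    apply Prod.ext
    · funext y; simp
    apply Prod.ext
    · funext y; simp
    · funext y; simp
  right_inv d := by
    apply Prod.ext
    · funext y; simp
    apply Prod.ext
    · funext y; simp
    · funext y; simp

lemma Tr_apply (τ : T) (d : Dm T X) : Tr ξ τ d =
    (fun y => d.1 (y * ξ τ), fun t => d.2.1 (t * τ), fun y => d.2.2 (y * ξ τ)) := rfl

lemma Tr_mul (τ σ : T) : Tr ξ (τ * σ) = Tr ξ τ * Tr ξ σ := by
  ext1 d
  rw [LinearEquiv.mul_apply, Tr_apply, Tr_apply, Tr_apply]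
  apply Prod.ext
  · funext y; simp [mul_assoc]
  apply Prod.ext
  · funext y; simp [mul_assoc]
  · funext y; simp [mul_assoc]

lemma Good_Tr (h : Gam ξ γ) (τ : T) : Good ξ γ τ (Tr ξ τ) := by
  refine ⟨fun d y => rfl, fun d _ t => rfl, fun d _ _ y => rfl, ?_⟩
  intro d d' y
  have := B_tr h τ d.2.1 d'.2.1 y
  simp only [form, Tr_apply]
  rw [← this]
  rfl

/-- unipotent automorphisms. -/
noncomputable def np (h : Gam ξ γ) (p : T → ZMod 2) : LA T X where
  toFun d := (d.1, d.2.1 + fun t => d.1 (ξ t) * p t, d.2.2 + fun y => B ξ γ p d.2.1 y)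
  invFun d := (d.1, d.2.1 + fun t => d.1 (ξ t) * p t, d.2.2 + fun y => B ξ γ p d.2.1 y)
  map_add' d d' := by
    apply Prod.ext
    · rfl
    apply Prod.ext
    · funext t; simp [add_mul]; ring
    · funext y; simp [B_add_right]; ring
  map_smul' c d := by
    apply Prod.ext
    · rfl
    apply Prod.ext
    · funext t; simp [mul_add, mul_assoc]
    · funext y; simp [B_smul_right, mul_add]
  left_inv d := by
    apply Prod.ext
    · rfl
    apply Prod.ext
    · funext t
      change d.2.1 t + d.1 (ξ t) * p t + d.1 (ξ t) * p t = d.2.1 t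
      rw [add_assoc, CharTwo.add_self_eq_zero, add_zero]
    · funext y
      change d.2.2 y + B ξ γ p d.2.1 y + B ξ γ p (d.2.1 + fun t => d.1 (ξ t) * p t) y = d.2.2 y
      rw [B_add_right, B_smul_right' h, B_self h, mul_zero, add_zero, add_assoc,
        CharTwo.add_self_eq_zero, add_zero]
  right_inv d := by
    apply Prod.ext
    · rfl
    apply Prod.ext
    · funext t
      change d.2.1 t + d.1 (ξ t) * p t + d.1 (ξ t) * p t = d.2.1 t
      rw [add_assoc, CharTwo.add_self_eq_zero, add_zero]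
    · funext y
      change d.2.2 y + B ξ γ p d.2.1 y + B ξ γ p (d.2.1 + fun t => d.1 (ξ t) * p t) y = d.2.2 y
      rw [B_add_right, B_smul_right' h, B_self h, mul_zero, add_zero, add_assoc,
        CharTwo.add_self_eq_zero, add_zero]

lemma np_apply (h : Gam ξ γ) (p : T → ZMod 2) (d : Dm T X) : np h p d =
    (d.1, d.2.1 + fun t => d.1 (ξ t) * p t, d.2.2 + fun y => B ξ γ p d.2.1 y) := rfl

lemma Good_np (h : Gam ξ γ) (p : T → ZMod 2) : Good ξ γ 1 (np h p) := by
  refine ⟨?_, ?_, ?_, ?_⟩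
  · intro d y
    rw [np_apply, map_one, mul_one]
  · intro d hd t
    rw [np_apply]
    simp [hd]
  · intro d hd hd' y
    rw [np_apply]
    simp [hd', B_zero_right]
  · intro d d' y
    simp only [form, np_apply, map_one, mul_one, Pi.add_apply]
    rw [B_add_left, B_add_right, B_smul_right' h, B_smul_left, B_add_right, B_smul_right' h,
      B_self h, B_symm h d.2.1 p]
    have h2 : (2 : ZMod 2) = 0 := rfl
    linear_combination (d.1 y * B ξ γ p d'.2.1 y + d'.1 y * B ξ γ p d.2.1 y) * h2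

lemma pz_np (h : Gam ξ γ) (p : T → ZMod 2) : pz (np h p) = p := by
  funext t
  simp [pz, np_apply]

lemma pz_mul (h : Gam ξ γ) {z z' : LA T X} (hz : Good ξ γ 1 z) (hz' : Good ξ γ 1 z') :
    pz (z * z') = pz z + pz z' := by
  have e1 : (z' (1, 0, 0)).1 = 1 := by
    funext y
    rw [hz'.p0, map_one, mul_one]
  have e2 : z' (1, 0, 0) = (1, pz z', (z' (1, 0, 0)).2.2) := by
    apply Prod.ext
    · exact e1
    · rfl
  unfold pz
  rw [LinearEquiv.mul_apply]
  conv_lhs => rw [e2]
  rw [hz.apply h]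
  rfl

lemma Tr_base (τ : T) : Tr ξ τ (1, 0, 0) = (1, 0, 0) := rfl

lemma pz_conj (z : LA T X) (τ : T) : pz (Tr ξ τ * z * (Tr ξ τ)⁻¹) = tr τ (pz z) := by
  have h1 : (Tr ξ τ)⁻¹ (1, 0, 0) = (1, 0, 0) := by
    conv_lhs => rw [← Tr_base (ξ := ξ) τ]
    rw [← LinearEquiv.mul_apply, inv_mul_cancel]; rfl
  unfold pz
  rw [LinearEquiv.mul_apply, LinearEquiv.mul_apply, h1]
  rfl

/-- the value of the `z`-word on two elements. -/
lemma pz_word (h : Gam ξ γ) (p : T → ZMod 2) {τ σ : T} (hc : ∀ t, τ * τ * t = t * (τ * τ)) :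
    pz ⁅(np h p * Tr ξ τ) ^ 2, Tr ξ σ⁆ = (p + tr τ p) + tr σ (p + tr τ p) := by
  set n := np h p with hn
  set A := Tr ξ τ with hA
  set C := Tr ξ σ with hC
  set N1 := n * (A * n * A⁻¹) with hN1
  have gn : Good ξ γ 1 n := Good_np h p
  have gc : Good ξ γ 1 (A * n * A⁻¹) := by
    have := ((Good_Tr h τ).mul gn).mul (Good_Tr h τ).inv
    simpa using this
  have gN1 : Good ξ γ 1 N1 := by
    have := gn.mul gc
    simpa using this
  have hS : (A * A) * C = C * (A * A) := by
    rw [hA, hC, ← Tr_mul, ← Tr_mul, ← Tr_mul, hc]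
  have e1 : ⁅(n * A) ^ 2, C⁆ = N1 * (C * N1 * C⁻¹) := by
    have hN1inv : N1⁻¹ = N1 := by
      rw [inv_eq_iff_mul_eq_one]
      exact gN1.sq_eq_one h
    have e2 : (n * A) ^ 2 = N1 * (A * A) := by
      rw [hN1, sq]; group
    rw [e2, commutatorElement_def, mul_inv_rev]
    calc N1 * (A * A) * C * ((A * A)⁻¹ * N1⁻¹) * C⁻¹
        = N1 * ((A * A) * C) * (A * A)⁻¹ * N1⁻¹ * C⁻¹ := by group
      _ = N1 * (C * (A * A)) * (A * A)⁻¹ * N1⁻¹ * C⁻¹ := by rw [hS]
      _ = N1 * (C * N1⁻¹ * C⁻¹) := by group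
      _ = _ := by rw [hN1inv]
  have gC : Good ξ γ 1 (C * N1 * C⁻¹) := by
    have := ((Good_Tr h σ).mul gN1).mul (Good_Tr h σ).inv
    simpa using this
  have e3 : pz N1 = p + tr τ p := by
    rw [hN1, pz_mul h gn gc, pz_conj, hn, pz_np]
  rw [e1, pz_mul h gN1 gC, pz_conj, e3]

/-- the delta function at the identity. -/
noncomputable def dlt (T : Type) [Group T] : T → ZMod 2 := fun t => if t = 1 then 1 else 0

/-- the sum over a fibre of the parameter. -/
lemma sum_word {τ σ : T} (h1 : ξ τ ≠ 1) (h2 : ξ σ ≠ 1) (h3 : ξ (σ * τ) ≠ 1) :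
    ∑ t ∈ Finset.univ.filter (fun t => ξ t = 1),
      ((dlt T + tr τ (dlt T)) + tr σ (dlt T + tr τ (dlt T))) t = 1 := by
  have key : ∀ t ∈ Finset.univ.filter (fun t => ξ t = 1),
      ((dlt T + tr τ (dlt T)) + tr σ (dlt T + tr τ (dlt T))) t = dlt T t := by
    intro t ht
    rw [Finset.mem_filter] at ht
    have ht := ht.2
    have e1 : t * τ ≠ 1 := by
      intro he
      apply h1
      have := congrArg ξ he
      rwa [map_mul, ht, one_mul, map_one] at this
    have e2 : t * σ ≠ 1 := by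
      intro he
      apply h2
      have := congrArg ξ he
      rwa [map_mul, ht, one_mul, map_one] at this
    have e3 : t * σ * τ ≠ 1 := by
      intro he
      apply h3
      have := congrArg ξ he
      rwa [mul_assoc, map_mul, ht, one_mul, map_one] at this
    simp only [Pi.add_apply, tr, dlt, e1, e2, e3, if_false, add_zero]
  rw [Finset.sum_congr rfl key]
  rw [Finset.sum_eq_single (1 : T)]
  · simp [dlt]
  · intro t _ ht
    simp [dlt, ht]
  · intro h
    exfalso
    apply h
    simp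

end

end Helper30.FB
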