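import Pool.Agent.Helper30.FB5
import Pool.Agent.Helper30.FB8

/-!
The groups `L`.
-/

namespace Helper30.FB

open scoped commutatorElement

attribute [local instance] Classical.propDecidable

section semi

variable {A Γ : Type} [AddCommGroup A] [Group Γ] (Φ : Γ →* MulAut (Multiplicative A))

/-- embedding of the module. -/
def ila (a : A) : Multiplicative A ⋊[Φ] Γ := SemidirectProduct.inl (Multiplicative.ofAdd a)

/-- the action in additive notation. -/
def acta (h : Γ) (a : A) : A := Multiplicative.toAdd (Φ h (Multiplicative.ofAdd a))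

lemma ila_mul (a b : A) : ila Φ a * ila Φ b = ila Φ (a + b) := by
  unfold ila
  rw [← map_mul]; rfl

lemma ila_zero : ila Φ 0 = 1 := by
  unfold ila
  exact map_one _

lemma ila_inj {a b : A} (h : ila Φ a = ila Φ b) : a = b :=
  Multiplicative.ofAdd.injective (SemidirectProduct.inl_injective h)

lemma comm_ila (g : Multiplicative A ⋊[Φ] Γ) (a : A) :
    ⁅g, ila Φ a⁆ = ila Φ (acta Φ g.right a - a) := by
  have h1 : SemidirectProduct.inr g.right * ila Φ a * (SemidirectProduct.inr g.right)⁻¹ =
      ila Φ (acta Φ g.right a) := by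
    rw [← map_inv]
    exact (SemidirectProduct.inl_aut g.right (Multiplicative.ofAdd a)).symm
  have h2 : g = SemidirectProduct.inl g.left * SemidirectProduct.inr g.right :=
    (SemidirectProduct.inl_left_mul_inr_right g).symm
  have h3 : g * ila Φ a * g⁻¹ = ila Φ (acta Φ g.right a) := by
    calc g * ila Φ a * g⁻¹
        = (SemidirectProduct.inl g.left * SemidirectProduct.inr g.right) * ila Φ a *
          (SemidirectProduct.inl g.left * SemidirectProduct.inr g.right)⁻¹ := by rw [← h2]
      _ = SemidirectProduct.inl g.left * (SemidirectProduct.inr g.right * ila Φ a *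
          (SemidirectProduct.inr g.right)⁻¹) * (SemidirectProduct.inl g.left)⁻¹ := by
          group
      _ = SemidirectProduct.inl g.left * ila Φ (acta Φ g.right a) *
          (SemidirectProduct.inl g.left)⁻¹ := by rw [h1]
      _ = _ := by
          unfold ila
          rw [← map_mul, mul_comm g.left, map_mul, mul_assoc, mul_inv_cancel, mul_one]
  have h4 : (ila Φ a)⁻¹ = ila Φ (-a) := by
    rw [inv_eq_iff_mul_eq_one, ila_mul, add_neg_cancel, ila_zero]
  rw [commutatorElement_def, h3, h4, ila_mul, sub_eq_add_neg]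

lemma nest_ila (l : List (Multiplicative A ⋊[Φ] Γ)) (a : A) :
    nest l (ila Φ a) = ila Φ (l.foldr (fun g a => acta Φ g.right a - a) a) := by
  induction l with
  | nil => rfl
  | cons g l ih =>
    rw [nest_cons, ih, comm_ila]; rfl

lemma right_one {g : Multiplicative A ⋊[Φ] Γ} (h : g.right = 1) : ∃ a, g = ila Φ a := by
  refine ⟨Multiplicative.toAdd g.left, ?_⟩
  have h2 : g = SemidirectProduct.inl g.left * SemidirectProduct.inr g.right :=
    (SemidirectProduct.inl_left_mul_inr_right g).symm
  rw [h, map_one, mul_one] at h2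
  exact h2

end semi

section dbl

variable {T X : Type}

/-- linear automorphisms of the doubled module. -/
abbrev E2 (T X : Type) := (Dm T X × Dm T X) ≃ₗ[ZMod 2] (Dm T X × Dm T X)

/-- diagonal action. -/
def dg (T X : Type) : LA T X →* E2 T X where
  toFun g := LinearEquiv.prodCongr g g
  map_one' := rfl
  map_mul' _ _ := rfl

lemma dg_apply (g : LA T X) (d : Dm T X × Dm T X) : dg T X g d = (g d.1, g d.2) := rfl

/-- the automorphism of order three. -/
def om (T X : Type) : E2 T X where
  toFun d := (d.2, d.1 + d.2)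
  invFun d := (d.1 + d.2, d.1)
  map_add' d d' := by
    apply Prod.ext
    · rfl
    · change d.1 + d'.1 + (d.2 + d'.2) = (d.1 + d.2) + (d'.1 + d'.2)
      abel
  map_smul' c d := by
    apply Prod.ext
    · rfl
    · change c • d.1 + c • d.2 = c • (d.1 + d.2)
      rw [smul_add]
  left_inv d := by
    have h : ∀ a : Dm T X, a + a = 0 := fun a => by
      rw [← two_smul (ZMod 2) a]; exact zero_smul _ _
    apply Prod.ext
    · change d.2 + (d.1 + d.2) = d.1
      rw [add_left_comm, h, add_zero]
    · rfl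
  right_inv d := by
    have h : ∀ a : Dm T X, a + a = 0 := fun a => by
      rw [← two_smul (ZMod 2) a]; exact zero_smul _ _
    apply Prod.ext
    · rfl
    · change (d.1 + d.2) + d.1 = d.2
      rw [add_right_comm, h, zero_add]

lemma om_apply (d : Dm T X × Dm T X) : om T X d = (d.2, d.1 + d.2) := rfl

lemma dbl (a : Dm T X) : a + a = 0 := by
  rw [← two_smul (ZMod 2) a]; exact zero_smul _ _

lemma om_cube : om T X ^ 3 = 1 := by
  ext1 d
  have : (om T X ^ 3) d = om T X (om T X (om T X d)) := rfl
  rw [this, om_apply, om_apply, om_apply]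
  apply Prod.ext
  · change d.2 + (d.1 + d.2) = d.1
    rw [add_left_comm, dbl, add_zero]
  · change (d.1 + d.2) + (d.2 + (d.1 + d.2)) = d.2
    rw [add_left_comm d.2 d.1 d.2, dbl, add_zero, add_right_comm, dbl, zero_add]

/-- action of the cyclic group of order three. -/
def c3h (T X : Type) : C3 →* E2 T X where
  toFun c := om T X ^ (Multiplicative.toAdd c).val
  map_one' := rfl
  map_mul' a b := by
    rw [← pow_add, toAdd_mul, ZMod.val_add]
    exact (pow_eq_pow_mod _ om_cube).symm

lemma c3h_gen : c3h T X (Multiplicative.ofAdd 1) = om T X := by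
  change om T X ^ (1 : ZMod 3).val = om T X
  have : (1 : ZMod 3).val = 1 := rfl
  rw [this, pow_one]

lemma om_comm (g : LA T X) : om T X * dg T X g = dg T X g * om T X := by
  ext1 d
  rw [LinearEquiv.mul_apply, LinearEquiv.mul_apply, dg_apply, om_apply, om_apply, dg_apply]
  apply Prod.ext
  · rfl
  · exact (map_add g d.1 d.2).symm

lemma c3h_comm (c : C3) (g : LA T X) : c3h T X c * dg T X g = dg T X g * c3h T X c := by
  have : Commute (om T X) (dg T X g) := om_comm g
  exact this.pow_left _

/-- linear automorphisms as automorphisms of the multiplicative group. -/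
def toMA (T X : Type) : E2 T X →* MulAut (Multiplicative (Dm T X × Dm T X)) where
  toFun e := AddEquiv.toMultiplicative e.toAddEquiv
  map_one' := rfl
  map_mul' _ _ := rfl

end dbl

section

variable {T X : Type} [Group T] [Fintype T] [Group X] (ξ : T →* X) (γ : T)

/-- the action of `YY × C3`. -/
def act (ξ : T →* X) (γ : T) : (YY ξ γ × C3) →* E2 T X where
  toFun h := dg T X h.1.1.2 * c3h T X h.2
  map_one' := by
    simp only [Prod.fst_one, Prod.snd_one, map_one, mul_one]
    exact map_one (dg T X)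
  map_mul' a b := by
    have e : (a * b).1.1.2 = a.1.1.2 * b.1.1.2 := rfl
    rw [e, Prod.snd_mul, map_mul, map_mul]
    calc dg T X a.1.1.2 * dg T X b.1.1.2 * (c3h T X a.2 * c3h T X b.2)
        = dg T X a.1.1.2 * (dg T X b.1.1.2 * c3h T X a.2) * c3h T X b.2 := by group
      _ = dg T X a.1.1.2 * (c3h T X a.2 * dg T X b.1.1.2) * c3h T X b.2 := by rw [c3h_comm]
      _ = _ := by group

/-- the homomorphism defining the semidirect product. -/
def Ph (ξ : T →* X) (γ : T) : (YY ξ γ × C3) →* MulAut (Multiplicative (Dm T X × Dm T X)) :=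
  (toMA T X).comp (act ξ γ)

lemma acta_Ph (h : YY ξ γ × C3) (a : Dm T X × Dm T X) : acta (Ph ξ γ) h a = act ξ γ h a := rfl

/-- the group `L`. -/
abbrev LL (ξ : T →* X) (γ : T) : Type :=
  Multiplicative (Dm T X × Dm T X) ⋊[Ph ξ γ] (YY ξ γ × C3)

lemma foldr_comp (l : List (LL ξ γ)) (hl : ∀ g ∈ l, g.right.2 = 1) (a : Dm T X × Dm T X) :
    l.foldr (fun g a => acta (Ph ξ γ) g.right a - a) a =
      (Ds (l.map (fun g => g.right.1.1.2)) a.1, Ds (l.map (fun g => g.right.1.1.2)) a.2) := by
  induction l with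
  | nil => rfl
  | cons g l ih =>
    have h1 := ih (fun g hg => hl g (by simp [hg]))
    have h2 := hl g (by simp)
    rw [List.foldr_cons, h1]
    have h3 : act ξ γ g.right = dg T X g.right.1.1.2 := by
      change dg T X g.right.1.1.2 * c3h T X g.right.2 = _
      rw [h2, map_one, mul_one]
    rw [acta_Ph, h3]
    rfl

variable {ξ γ}

lemma Gam_pow8 (h : Gam ξ γ) (h4 : ∀ s : T, s ^ 4 = 1) (x : YY ξ γ × C3) :
    (x.1) ^ 8 = 1 ∧ x.2 ^ 3 = 1 := ⟨YY_pow8 h h4 _, C3_cube _⟩

lemma β_right (h : Gam ξ γ) (h4 : ∀ s : T, s ^ 4 = 1) (x y z w : YY ξ γ × C3) :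
    β x y z w = 1 := by
  have h1 : (x ^ 3 * y ^ 3) ^ 8 = 1 := by
    apply Prod.ext
    · exact YY_pow8 h h4 _
    · change (x.2 ^ 3 * y.2 ^ 3) ^ 8 = 1
      rw [C3_cube, C3_cube]; simp
  have h2 : ⁅z ^ 8, w⁆ = 1 := by
    rw [commutatorElement_eq_one_iff_mul_comm]
    apply Prod.ext
    · change z.1 ^ 8 * w.1 = w.1 * z.1 ^ 8
      rw [YY_pow8 h h4]; simp
    · exact mul_comm _ _
  rw [β, h1, h2, one_mul]

lemma W0_LL (h : Gam ξ γ) (h4 : ∀ s : T, s ^ 4 = 1) : W0 (LL ξ γ) := by
  have key : ∀ x y z w : LL ξ γ, ∃ a, β x y z w = ila (Ph ξ γ) a := by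
    intro x y z w
    apply right_one
    have := map_β (SemidirectProduct.rightHom : LL ξ γ →* (YY ξ γ × C3)) x y z w
    rw [β_right h h4] at this
    exact this
  intro x y z w x' y' z' w'
  obtain ⟨a, ha⟩ := key x y z w
  obtain ⟨b, hb⟩ := key x' y' z' w'
  rw [ha, hb, ila_mul, sq, ila_mul]
  have : a + b + (a + b) = 0 := by
    apply Prod.ext
    · exact dbl _
    · exact dbl _
  rw [this, ila_zero]

end

end Helper30.FB
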