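import Mathlib

/-!
# Weighted group-algebra filtrations over the field with two elements

Basic facts on the group algebra `GA G` of a group `G` over `ZMod 2`, on the sub-object
`SA M` spanned by a subgroup `M`, and on the filtration `J M y d n` of `SA M` spanned by the
products of elements of `M` and of `y i - 1` of total degree at least `n`.
-/

set_option autoImplicit false

namespace Pool.Agent.Helper30

/-- The group algebra of `G` over the field with two elements. -/
abbrev GA (G : Type) [Group G] := MonoidAlgebra (ZMod 2) G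

section basics

variable {G : Type} [Group G]

theorem z2_cases (c : ZMod 2) : c = 0 ∨ c = 1 := by revert c; decide

theorem z2_ne_zero {c : ZMod 2} (h : ¬ c = 0) : c = 1 := (z2_cases c).resolve_left h

/-- The basis element of the group algebra attached to `g`. -/
noncomputable def e (g : G) : GA G := MonoidAlgebra.of (ZMod 2) G g

theorem e_one : e (1 : G) = 1 := map_one _

theorem e_mul (g h : G) : e (g * h) = e g * e h := map_mul _ g h

theorem e_inv_mul (g : G) : e g⁻¹ * e g = 1 := by rw [← e_mul, inv_mul_cancel, e_one]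

theorem e_mul_inv (g : G) : e g * e g⁻¹ = 1 := by rw [← e_mul, mul_inv_cancel, e_one]

theorem add_self (a : GA G) : a + a = 0 := by
  have h : (2 : ZMod 2) = 0 := by decide
  rw [← two_smul (ZMod 2) a, h, zero_smul]

theorem neg_eq (a : GA G) : -a = a := neg_eq_of_add_eq_zero_left (add_self a)

theorem sub_eq (a b : GA G) : a - b = a + b := by rw [sub_eq_add_neg, neg_eq]

theorem ga_induction {P : GA G → Prop} (a : GA G) (h0 : P 0) (he : ∀ g, P (e g))
    (hadd : ∀ a b, P a → P b → P (a + b)) : P a := by
  induction a using MonoidAlgebra.induction_linear with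
  | zero => exact h0
  | add a b ha hb => exact hadd a b ha hb
  | single g r =>
    rcases z2_cases r with rfl | rfl
    · rw [MonoidAlgebra.single_zero]; exact h0
    · exact he g

theorem ga_hom_ext {N : Type} [AddCommMonoid N] {f h : GA G →+ N}
    (H : ∀ g, f (e g) = h (e g)) : f = h := by
  refine AddMonoidHom.ext fun a => ?_
  induction a using ga_induction with
  | h0 => simp
  | he g => exact H g
  | hadd a b ha hb => rw [map_add, map_add, ha, hb]

/-- The augmentation. -/
noncomputable def eps : GA G →+* ZMod 2 :=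
  (MonoidAlgebra.lift (ZMod 2) (ZMod 2) G (1 : G →* ZMod 2)).toRingHom

theorem eps_e (g : G) : eps (e g) = 1 := by
  unfold eps e
  simp

/-- The additive map given by arbitrary values on the basis elements. -/
noncomputable def lin {N : Type} [Group N] (f : G → GA N) : GA G →+ GA N :=
  MonoidAlgebra.liftNC (algebraMap (ZMod 2) (GA N)).toAddMonoidHom f

theorem lin_e {N : Type} [Group N] (f : G → GA N) (g : G) : lin f (e g) = f g := by
  unfold lin e
  simp [MonoidAlgebra.of, ← MonoidAlgebra.one_def]

end basics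

section SA

variable {G : Type} [Group G]

/-- The additive subgroup of the group algebra spanned by the subgroup `M`. -/
noncomputable def SA (M : Subgroup G) : AddSubgroup (GA G) := AddSubgroup.closure (e '' (M : Set G))

theorem e_mem {M : Subgroup G} {g : G} (h : g ∈ M) : e g ∈ SA M :=
  AddSubgroup.subset_closure ⟨g, h, rfl⟩

theorem one_mem_SA (M : Subgroup G) : (1 : GA G) ∈ SA M := by
  rw [← e_one]; exact e_mem M.one_mem

theorem SA_induction {M : Subgroup G} {P : GA G → Prop} {a : GA G} (ha : a ∈ SA M) (h0 : P 0)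
    (he : ∀ g ∈ M, P (e g)) (hadd : ∀ a b, P a → P b → P (a + b)) : P a := by
  induction ha using AddSubgroup.closure_induction with
  | mem x hx =>
    obtain ⟨g, hg, rfl⟩ := hx
    exact he g hg
  | zero => exact h0
  | add x y _ _ hx hy => exact hadd x y hx hy
  | neg x _ hx => rw [neg_eq]; exact hx

theorem SA_mono {M N : Subgroup G} (h : M ≤ N) : SA M ≤ SA N :=
  AddSubgroup.closure_mono (Set.image_mono h)

theorem e_mul_mem {M : Subgroup G} {g : G} {a : GA G} (hg : g ∈ M) (ha : a ∈ SA M) :
    e g * a ∈ SA M := by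
  refine SA_induction (P := fun a => e g * a ∈ SA M) ha ?_ ?_ ?_
  · rw [mul_zero]; exact (SA M).zero_mem
  · intro h hh; rw [← e_mul]; exact e_mem (M.mul_mem hg hh)
  · intro a b ha hb; rw [mul_add]; exact (SA M).add_mem ha hb

theorem mul_mem_SA {M : Subgroup G} {a b : GA G} (ha : a ∈ SA M) (hb : b ∈ SA M) :
    a * b ∈ SA M := by
  refine SA_induction (P := fun a => a * b ∈ SA M) ha ?_ ?_ ?_
  · rw [zero_mul]; exact (SA M).zero_mem
  · intro g hg; exact e_mul_mem hg hb
  · intro x y hx hy; rw [add_mul]; exact (SA M).add_mem hx hy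

theorem e_sub_one_mem {M : Subgroup G} {g : G} (h : g ∈ M) : e g - 1 ∈ SA M :=
  (SA M).sub_mem (e_mem h) (one_mem_SA M)

/-- Conjugation by a group element on the group algebra. -/
noncomputable def cj (g : G) (a : GA G) : GA G := e g * a * e g⁻¹

theorem cj_e (g h : G) : cj g (e h) = e (g * h * g⁻¹) := by
  unfold cj; rw [← e_mul, ← e_mul]

theorem cj_add (g : G) (a b : GA G) : cj g (a + b) = cj g a + cj g b := by
  unfold cj; rw [mul_add, add_mul]

theorem cj_zero (g : G) : cj g (0 : GA G) = 0 := by
  unfold cj; rw [mul_zero, zero_mul]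

theorem cj_one (g : G) : cj g (1 : GA G) = 1 := by
  unfold cj; rw [mul_one, e_mul_inv]

theorem cj_mul (g : G) (a b : GA G) : cj g (a * b) = cj g a * cj g b := by
  unfold cj
  calc e g * (a * b) * e g⁻¹ = e g * a * 1 * b * e g⁻¹ := by rw [mul_one, mul_assoc (e g) a b]
    _ = e g * a * (e g⁻¹ * e g) * b * e g⁻¹ := by rw [e_inv_mul]
    _ = e g * a * e g⁻¹ * (e g * b * e g⁻¹) := by simp only [mul_assoc]

theorem cj_sub (g : G) (a b : GA G) : cj g (a - b) = cj g a - cj g b := by
  unfold cj; rw [mul_sub, sub_mul]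

theorem cj_mul_e (g : G) (a : GA G) : cj g a * e g = e g * a := by
  unfold cj; rw [mul_assoc, e_inv_mul, mul_one]

end SA

section J

variable {G : Type} [Group G] {ι : Type}

/-- `J M y d n` is the set of sums of products of elements of `M` and of elements `y i - 1`,
where `y i - 1` has degree `d i` and the total degree is at least `n`. -/
inductive J (M : Subgroup G) (y : ι → G) (d : ι → ℕ) : ℕ → GA G → Prop
  | zero (n : ℕ) : J M y d n 0
  | add {n : ℕ} {a b : GA G} : J M y d n a → J M y d n b → J M y d n (a + b)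
  | base {g : G} : g ∈ M → J M y d 0 (e g)
  | lmul {n : ℕ} {g : G} {a : GA G} : g ∈ M → J M y d n a → J M y d n (e g * a)
  | gen {n : ℕ} {a : GA G} (i : ι) : J M y d n a → J M y d (n + d i) ((e (y i) - 1) * a)
  | mono {n : ℕ} {a : GA G} : J M y d (n + 1) a → J M y d n a

variable {M : Subgroup G} {y : ι → G} {d : ι → ℕ}

theorem J_mono {m n : ℕ} {a : GA G} (h : m ≤ n) (ha : J M y d n a) : J M y d m a := by
  induction n, h using Nat.le_induction with
  | base => exact ha
  | succ n _ ih => exact ih ha.mono

theorem J_neg {n : ℕ} {a : GA G} (ha : J M y d n a) : J M y d n (-a) := by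
  rw [neg_eq]; exact ha

/-- `J` as an additive subgroup. -/
def JS (M : Subgroup G) (y : ι → G) (d : ι → ℕ) (n : ℕ) : AddSubgroup (GA G) where
  carrier := {a | J M y d n a}
  zero_mem' := J.zero n
  add_mem' := J.add
  neg_mem' := J_neg

theorem mem_JS {n : ℕ} {a : GA G} : a ∈ JS M y d n ↔ J M y d n a := Iff.rfl

theorem J_sub {n : ℕ} {a b : GA G} (ha : J M y d n a) (hb : J M y d n b) :
    J M y d n (a - b) := (JS M y d n).sub_mem ha hb

theorem J_sum {α : Type} {s : Finset α} {n : ℕ} {f : α → GA G}
    (h : ∀ i ∈ s, J M y d n (f i)) : J M y d n (∑ i ∈ s, f i) :=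
  (JS M y d n).sum_mem h

theorem J_zero_of_SA {a : GA G} (ha : a ∈ SA M) : J M y d 0 a := by
  exact SA_induction (P := fun a => J M y d 0 a) ha (J.zero 0) (fun g hg => J.base hg)
    (fun a b ha hb => J.add ha hb)

theorem J_SA (hy : ∀ i, y i ∈ M) {n : ℕ} {a : GA G} (ha : J M y d n a) : a ∈ SA M := by
  induction ha with
  | zero n => exact (SA M).zero_mem
  | add _ _ ha hb => exact (SA M).add_mem ha hb
  | base hg => exact e_mem hg
  | lmul hg _ ha => exact e_mul_mem hg ha
  | gen i _ ha => exact mul_mem_SA (e_sub_one_mem (hy i)) ha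
  | mono _ ha => exact ha

theorem J_mul {m n : ℕ} {a b : GA G} (ha : J M y d m a) (hb : J M y d n b) :
    J M y d (m + n) (a * b) := by
  induction ha with
  | zero m => rw [zero_mul]; exact J.zero _
  | add _ _ ha ha' => rw [add_mul]; exact J.add ha ha'
  | base hg => rw [zero_add]; exact J.lmul hg hb
  | lmul hg _ ha => rw [mul_assoc]; exact J.lmul hg ha
  | gen i _ ha =>
    rw [mul_assoc, Nat.add_right_comm]; exact J.gen i ha
  | mono _ ha => exact J_mono (by omega) ha

theorem J_lmul {n : ℕ} {a b : GA G} (ha : a ∈ SA M) (hb : J M y d n b) : J M y d n (a * b) := by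
  have := J_mul (J_zero_of_SA (y := y) (d := d) ha) hb
  rwa [zero_add] at this

theorem J_rmul {n : ℕ} {a b : GA G} (ha : J M y d n a) (hb : b ∈ SA M) : J M y d n (a * b) :=
  J_mul ha (J_zero_of_SA hb)

theorem J_gen (i : ι) : J M y d (d i) (e (y i) - 1) := by
  have := J.gen (M := M) (y := y) (d := d) i (J.base (g := 1) M.one_mem)
  rwa [e_one, mul_one, zero_add] at this

theorem J_pow {n : ℕ} {a : GA G} (ha : J M y d n a) (k : ℕ) : J M y d (k * n) (a ^ k) := by
  induction k with
  | zero =>
    rw [pow_zero, zero_mul]; exact J_zero_of_SA (one_mem_SA M)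
  | succ k ih =>
    rw [pow_succ, Nat.succ_mul]; exact J_mul ih ha

/-- Decomposition of `g - 1` for `g` in the subgroup generated by the `y i`. -/
theorem closure_decomp [Fintype ι] [DecidableEq ι] (hy : ∀ i, y i ∈ M) {g : G}
    (hg : g ∈ Subgroup.closure (Set.range y)) :
    ∃ b : ι → GA G, (∀ i, b i ∈ SA M) ∧ e g - 1 = ∑ i, b i * (e (y i) - 1) := by
  have hcl : Subgroup.closure (Set.range y) ≤ M := by
    rw [Subgroup.closure_le]; rintro _ ⟨i, rfl⟩; exact hy i
  induction hg using Subgroup.closure_induction with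
  | mem x hx =>
    obtain ⟨i, rfl⟩ := hx
    refine ⟨fun j => if j = i then 1 else 0, fun j => ?_, ?_⟩
    · by_cases h : j = i
      · simp [h, one_mem_SA]
      · simp [h, (SA M).zero_mem]
    · simp
  | one => exact ⟨fun _ => 0, fun _ => (SA M).zero_mem, by simp [e_one]⟩
  | mul x z hx hz ihx ihz =>
    obtain ⟨b, hb, hb'⟩ := ihx
    obtain ⟨c, hc, hc'⟩ := ihz
    refine ⟨fun i => e x * c i + b i, fun i => (SA M).add_mem (e_mul_mem (hcl hx) (hc i)) (hb i), ?_⟩
    simp only [add_mul, Finset.sum_add_distrib, mul_assoc]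
    rw [← Finset.mul_sum, ← hb', ← hc', e_mul]
    noncomm_ring
  | inv x hx ih =>
    obtain ⟨b, hb, hb'⟩ := ih
    refine ⟨fun i => -(e x⁻¹ * b i), fun i =>
      (SA M).neg_mem (e_mul_mem (M.inv_mem (hcl hx)) (hb i)), ?_⟩
    simp only [neg_mul, Finset.sum_neg_distrib, mul_assoc]
    rw [← Finset.mul_sum, ← hb', mul_sub, e_inv_mul]
    noncomm_ring

/-- Every element of `J n` is, up to a constant when `n = 0`, a left combination of the
`y i - 1` with coefficients in the expected degrees. -/
theorem J_decomp_aux [Fintype ι] [DecidableEq ι] (hM : Subgroup.closure (Set.range y) = M)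
    {n : ℕ} {a : GA G} (ha : J M y d n a) :
    ∃ (c : ZMod 2) (b : ι → GA G), (c ≠ 0 → n = 0) ∧ (∀ i, J M y d (n - d i) (b i)) ∧
      a = c • (1 : GA G) + ∑ i, b i * (e (y i) - 1) := by
  have hy : ∀ i, y i ∈ M := fun i => hM ▸ Subgroup.subset_closure ⟨i, rfl⟩
  induction ha with
  | zero n => exact ⟨0, fun _ => 0, fun h => absurd rfl h, fun _ => J.zero _, by simp⟩
  | add _ _ ha hb =>
    obtain ⟨c, b, h1, h2, h3⟩ := ha
    obtain ⟨c', b', h1', h2', h3'⟩ := hb
    refine ⟨c + c', fun i => b i + b' i, ?_, fun i => J.add (h2 i) (h2' i), ?_⟩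
    · intro h
      by_cases hc : c = 0
      · apply h1'
        intro hc'
        apply h
        rw [hc, hc', add_zero]
      · exact h1 hc
    · rw [h3, h3', add_smul]
      simp only [add_mul, Finset.sum_add_distrib]
      abel
  | base hg =>
    obtain ⟨b, hb, hb'⟩ := closure_decomp (M := M) hy (hM.symm ▸ hg)
    refine ⟨1, b, fun _ => rfl, fun i => ?_, ?_⟩
    · rw [Nat.zero_sub]; exact J_zero_of_SA (hb i)
    · rw [← hb', one_smul]; abel
  | @lmul n g a hg ha ih =>
    obtain ⟨c, b, h1, h2, h3⟩ := ih
    by_cases hc : c = 0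
    · refine ⟨0, fun i => e g * b i, fun h => absurd rfl h, fun i => J.lmul hg (h2 i), ?_⟩
      rw [h3, hc, zero_smul, zero_add, zero_add, Finset.mul_sum]
      simp only [mul_assoc]
    · have hn := h1 hc
      subst hn
      have hc1 : c = 1 := z2_ne_zero hc
      obtain ⟨b', hb, hb'⟩ := closure_decomp (M := M) hy (hM.symm ▸ hg)
      refine ⟨1, fun i => e g * b i + b' i, fun _ => rfl, fun i => ?_, ?_⟩
      · rw [Nat.zero_sub]
        have := h2 i
        rw [Nat.zero_sub] at this
        exact J.add (J.lmul hg this) (J_zero_of_SA (hb i))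
      · simp only [add_mul, Finset.sum_add_distrib, mul_assoc]
        rw [h3, hc1, ← hb', one_smul, mul_add, mul_one, ← Finset.mul_sum]
        abel
  | @gen n a i ha ih =>
    obtain ⟨c, b, h1, h2, h3⟩ := ih
    refine ⟨0, fun j => (e (y i) - 1) * b j + if j = i then c • (1 : GA G) else 0,
      fun h => absurd rfl h, fun j => ?_, ?_⟩
    · apply J.add
      · exact J_mono (by omega) (J.gen i (h2 j))
      · by_cases hj : j = i
        · subst hj
          rw [if_pos rfl]
          by_cases hc : c = 0
          · rw [hc, zero_smul]; exact J.zero _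
          · have hn := h1 hc
            subst hn
            have hc1 : c = 1 := z2_ne_zero hc
            rw [hc1, one_smul, zero_add, Nat.sub_self]
            exact J_zero_of_SA (one_mem_SA M)
        · rw [if_neg hj]; exact J.zero _
    · rw [h3, zero_smul, zero_add, mul_add, Finset.mul_sum]
      simp only [add_mul, Finset.sum_add_distrib, mul_assoc, ite_mul, zero_mul,
        Finset.sum_ite_eq', Finset.mem_univ, if_true]
      rw [smul_mul_assoc, one_mul, mul_smul_comm, mul_one]
      abel
  | @mono n a ha ih =>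
    obtain ⟨c, b, h1, h2, h3⟩ := ih
    refine ⟨c, b, fun h => absurd (h1 h) (by omega), fun i => J_mono (by omega) (h2 i), h3⟩

theorem eps_sum_gen [Fintype ι] (b : ι → GA G) : eps (∑ i, b i * (e (y i) - 1)) = 0 := by
  rw [map_sum]
  apply Finset.sum_eq_zero
  intro i _
  rw [map_mul, map_sub, eps_e, map_one, sub_self, mul_zero]

theorem J_decomp [Fintype ι] [DecidableEq ι] (hM : Subgroup.closure (Set.range y) = M)
    {n : ℕ} {a : GA G} (ha : J M y d n a) (h0 : eps a = 0) :
    ∃ b : ι → GA G, (∀ i, J M y d (n - d i) (b i)) ∧ a = ∑ i, b i * (e (y i) - 1) := by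
  obtain ⟨c, b, -, h2, h3⟩ := J_decomp_aux hM ha
  refine ⟨b, h2, ?_⟩
  have : c = 0 := by
    have h := congrArg eps h3
    rw [h0, map_add, eps_sum_gen, add_zero] at h
    have h' : eps (c • (1 : GA G)) = c := by
      rcases z2_cases c with rfl | rfl
      · rw [zero_smul, map_zero]
      · rw [one_smul, map_one]
    rw [h'] at h
    exact h.symm
  rw [h3, this, zero_smul, zero_add]

theorem eps_J [Fintype ι] [DecidableEq ι] (hM : Subgroup.closure (Set.range y) = M)
    {n : ℕ} {a : GA G} (ha : J M y d n a) (hn : n ≠ 0) : eps a = 0 := by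
  obtain ⟨c, b, h1, -, h3⟩ := J_decomp_aux hM ha
  have hc : c = 0 := by
    by_contra h
    exact hn (h1 h)
  rw [h3, hc, zero_smul, zero_add, eps_sum_gen]

end J

end Pool.Agent.Helper30
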