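import Pool.Agent.Helper30.GS9

/-!
# The limit group

An infinite finitely generated `2`-group in which every finitely generated subgroup is finite or
of finite index, and all of whose nontrivial normal subgroups have finite index.
-/

set_option autoImplicit false

namespace Pool.Agent.Helper30

/-- The free group of rank three. -/
abbrev F3 : Type := FreeGroup (Fin 3)

/-- Kernels of maps onto good groups. -/
def GoodK (K : Subgroup F3) : Prop :=
  ∃ (Q : Type) (_ : Group Q) (f : F3 →* Q), Function.Surjective f ∧ f.ker = K ∧ Good Q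

theorem GoodK.normal {K : Subgroup F3} (h : GoodK K) : K.Normal := by
  obtain ⟨Q, _, f, -, rfl, -⟩ := h
  infer_instance

theorem GoodK.not_finiteIndex {K : Subgroup F3} (h : GoodK K) : ¬ K.FiniteIndex := by
  obtain ⟨Q, _, f, hf, rfl, hQ⟩ := h
  intro hfi
  have h1 := good_infinite hQ
  have h2 : Finite (F3 ⧸ f.ker) := inferInstance
  have h3 : Finite Q := Finite.of_equiv _
    (QuotientGroup.quotientKerEquivOfSurjective f hf).toEquiv
  exact not_finite Q

/-- The task of making an element torsion, or a finitely generated subgroup finite or of finite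
index. -/
def Task (K : Subgroup F3) : F3 ⊕ Finset F3 → Prop
  | Sum.inl g => ∃ b : ℕ, g ^ 2 ^ b ∈ K
  | Sum.inr S => (∃ N : Subgroup F3, N.FiniteIndex ∧ Subgroup.closure (S : Set F3) ⊓ N ≤ K) ∨
      (∃ N : Subgroup F3, N.FiniteIndex ∧ N ≤ Subgroup.closure (S : Set F3) ⊔ K)

theorem Task.mono {K K' : Subgroup F3} (h : K ≤ K') {t : F3 ⊕ Finset F3} (ht : Task K t) :
    Task K' t := by
  rcases t with g | S
  · obtain ⟨b, hb⟩ := ht
    exact ⟨b, h hb⟩
  · rcases ht with ⟨N, hN, hle⟩ | ⟨N, hN, hle⟩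
    · exact Or.inl ⟨N, hN, hle.trans h⟩
    · exact Or.inr ⟨N, hN, hle.trans (sup_le_sup_left h _)⟩

theorem comap_finiteIndex {G Q : Type} [Group G] [Group Q] (f : G →* Q) {N : Subgroup Q}
    (hN : N.FiniteIndex) : (N.comap f).FiniteIndex := by
  refine ⟨?_⟩
  rw [Subgroup.index_comap]
  exact Subgroup.FiniteIndex.index_ne_zero (H := N.subgroupOf f.range)

theorem exists_task {K : Subgroup F3} (hK : GoodK K) (t : F3 ⊕ Finset F3) :
    ∃ K' : Subgroup F3, K ≤ K' ∧ GoodK K' ∧ Task K' t := by
  obtain ⟨Q, hQ, f, hf, rfl, hgood⟩ := hK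
  have hcomp : ∀ (L : Subgroup Q) [L.Normal], ((QuotientGroup.mk' L).comp f).ker = L.comap f := by
    intro L _
    ext x
    rw [MonoidHom.mem_ker, MonoidHom.comp_apply, QuotientGroup.mk'_apply,
      QuotientGroup.eq_one_iff, Subgroup.mem_comap]
  have hle : ∀ (L : Subgroup Q), f.ker ≤ L.comap f := by
    intro L x hx
    rw [Subgroup.mem_comap, MonoidHom.mem_ker.1 hx]
    exact L.one_mem
  rcases t with g | S
  · obtain ⟨L, hL, hgL, b, hb⟩ := good_torsion hgood (f g)
    refine ⟨L.comap f, hle L, ⟨Q ⧸ L, inferInstance, (QuotientGroup.mk' L).comp f,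
      (QuotientGroup.mk'_surjective L).comp hf, hcomp L, hgL⟩, b, ?_⟩
    rw [Subgroup.mem_comap, map_pow]
    exact hb
  · classical
    have hfg : ((Subgroup.closure (S : Set F3)).map f).FG := by
      refine ⟨S.image f, ?_⟩
      rw [Finset.coe_image, MonoidHom.map_closure]
    obtain ⟨L, hL, hgL, hdich⟩ := good_dichotomy hgood _ hfg
    refine ⟨L.comap f, hle L, ⟨Q ⧸ L, inferInstance, (QuotientGroup.mk' L).comp f,
      (QuotientGroup.mk'_surjective L).comp hf, hcomp L, hgL⟩, ?_⟩
    rcases hdich with ⟨N, hN, hNle⟩ | ⟨N, hN, hNle⟩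
    · left
      refine ⟨N.comap f, comap_finiteIndex f hN, ?_⟩
      rintro x ⟨hx1, hx2⟩
      exact hNle ⟨⟨x, hx1, rfl⟩, hx2⟩
    · right
      refine ⟨N.comap f, comap_finiteIndex f hN, ?_⟩
      have h1 : (Subgroup.closure (S : Set F3)).map f ⊔ L =
          (Subgroup.closure (S : Set F3) ⊔ L.comap f).map f := by
        rw [Subgroup.map_sup, Subgroup.map_comap_eq_self_of_surjective hf]
      have h2 : ((Subgroup.closure (S : Set F3)).map f ⊔ L).comap f =
          Subgroup.closure (S : Set F3) ⊔ L.comap f := by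
        rw [h1, Subgroup.comap_map_eq, sup_assoc, sup_eq_left.2 (hle L)]
      rw [← h2]
      exact Subgroup.comap_mono hNle

/-- The limit kernel. -/
theorem exists_limit : ∃ K : Subgroup F3, K.Normal ∧ ¬ K.FiniteIndex ∧ ∀ t, Task K t := by
  obtain ⟨t, ht⟩ := exists_surjective_nat (F3 ⊕ Finset F3)
  have h0 : GoodK ⊥ := ⟨F3, inferInstance, MonoidHom.id _, Function.surjective_id,
    MonoidHom.ker_id, good_free⟩
  have hnext : ∀ (n : ℕ) (K : {K : Subgroup F3 // GoodK K}),
      ∃ K' : {K : Subgroup F3 // GoodK K}, K.1 ≤ K'.1 ∧ Task K'.1 (t n) := by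
    intro n K
    obtain ⟨K', h1, h2, h3⟩ := exists_task K.2 (t n)
    exact ⟨⟨K', h2⟩, h1, h3⟩
  choose nx hnx1 hnx2 using hnext
  let s : ℕ → {K : Subgroup F3 // GoodK K} := fun n => Nat.rec ⟨⊥, h0⟩ (fun n K => nx n K) n
  have hs : ∀ n, s (n + 1) = nx n (s n) := fun n => rfl
  have hmono : Monotone (fun n => (s n).1) := by
    apply monotone_nat_of_le_succ
    intro n
    rw [hs]
    exact hnx1 n (s n)
  have hdir : Directed (· ≤ ·) (fun n => (s n).1) := hmono.directed_le
  refine ⟨⨆ n, (s n).1, ?_, ?_, ?_⟩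
  · constructor
    intro x hx g
    rw [Subgroup.mem_iSup_of_directed hdir] at hx ⊢
    obtain ⟨n, hn⟩ := hx
    exact ⟨n, (s n).2.normal.conj_mem x hn g⟩
  · intro hfi
    have h1 : Group.FG (⨆ n, (s n).1 : Subgroup F3) := inferInstance
    have h2 : (⨆ n, (s n).1 : Subgroup F3).FG := (Group.fg_iff_subgroup_fg _).1 h1
    obtain ⟨S, hS⟩ := h2
    have h3 : ∀ x ∈ S, ∃ n, x ∈ (s n).1 := by
      intro x hx
      rw [← Subgroup.mem_iSup_of_directed hdir, ← hS]
      exact Subgroup.subset_closure hx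
    choose! n hn using h3
    set N := S.sup n with hN
    have h4 : (⨆ n, (s n).1 : Subgroup F3) ≤ (s N).1 := by
      rw [← hS, Subgroup.closure_le]
      intro x hx
      exact hmono (Finset.le_sup hx) (hn x hx)
    exact (s N).2.not_finiteIndex (Subgroup.finiteIndex_of_le h4)
  · intro t'
    obtain ⟨n, rfl⟩ := ht t'
    have h1 := hnx2 n (s n)
    rw [← hs] at h1
    exact h1.mono (le_iSup (fun n => (s n).1) (n + 1))

/-- A maximal normal subgroup of infinite index containing the limit kernel. -/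
theorem exists_maximal : ∃ K : Subgroup F3, K.Normal ∧ ¬ K.FiniteIndex ∧ (∀ t, Task K t) ∧
    ∀ K' : Subgroup F3, K'.Normal → K ≤ K' → K ≠ K' → K'.FiniteIndex := by
  obtain ⟨K₀, hn, hni, ht⟩ := exists_limit
  obtain ⟨K, hK₀K, hK⟩ := zorn_le_nonempty₀ {K : Subgroup F3 | K.Normal ∧ ¬ K.FiniteIndex}
    (by
      intro c hc hchain y hy
      have hne : c.Nonempty := ⟨y, hy⟩
      have hdir : DirectedOn (· ≤ ·) c := hchain.directedOn
      refine ⟨sSup c, ⟨⟨?_⟩, ?_⟩, fun z hz => le_sSup hz⟩
      · intro x hx g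
        rw [Subgroup.mem_sSup_of_directedOn hne hdir] at hx ⊢
        obtain ⟨L, hL, hxL⟩ := hx
        exact ⟨L, hL, (hc hL).1.conj_mem x hxL g⟩
      · intro hfi
        have h1 : Group.FG (sSup c : Subgroup F3) := inferInstance
        have h2 : (sSup c : Subgroup F3).FG := (Group.fg_iff_subgroup_fg _).1 h1
        obtain ⟨S, hS⟩ := h2
        have h3 : ∀ T : Finset F3, (T : Set F3) ⊆ (sSup c : Subgroup F3) →
            ∃ L ∈ c, (T : Set F3) ⊆ L := by
          classical
          intro T
          induction T using Finset.induction_on with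
          | empty => intro _; exact ⟨y, hy, by simp⟩
          | insert a T _ ih =>
            intro hT
            rw [Finset.coe_insert, Set.insert_subset_iff] at hT
            obtain ⟨L, hL, hTL⟩ := ih hT.2
            have ha := hT.1
            rw [SetLike.mem_coe, Subgroup.mem_sSup_of_directedOn hne hdir] at ha
            obtain ⟨L', hL', haL'⟩ := ha
            obtain ⟨L'', hL'', h5, h6⟩ := hdir L hL L' hL'
            refine ⟨L'', hL'', ?_⟩
            rw [Finset.coe_insert, Set.insert_subset_iff]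
            exact ⟨h6 haL', hTL.trans h5⟩
        obtain ⟨L, hL, hSL⟩ := h3 S (by rw [← hS]; exact Subgroup.subset_closure)
        apply (hc hL).2
        apply Subgroup.finiteIndex_of_le (H := sSup c)
        rw [← hS, Subgroup.closure_le]
        exact hSL) K₀ ⟨hn, hni⟩
  refine ⟨K, hK.prop.1, hK.prop.2, fun t => (ht t).mono hK₀K, ?_⟩
  intro K' hK'n hle hne
  by_contra hcon
  exact hne (le_antisymm hle (hK.le_of_ge ⟨hK'n, hcon⟩ hle))

end Pool.Agent.Helper30
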