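import Pool.Agent.Helper30.GS10

/-!
# The counterexample group
-/

set_option autoImplicit false

namespace Pool.Agent.Helper30

/-- The properties of the final group. -/
structure JI (Γ : Type) [Group Γ] : Prop where
  fg : Group.FG Γ
  inf : Infinite Γ
  tors : ∀ g : Γ, ∃ b : ℕ, g ^ 2 ^ b = 1
  normal : ∀ N : Subgroup Γ, N.Normal → N ≠ ⊥ → N.FiniteIndex
  dich : ∀ S : Finset Γ, Finite (Subgroup.closure (S : Set Γ)) ∨
    (Subgroup.closure (S : Set Γ)).FiniteIndex

theorem exists_JI : ∃ (Γ : Type) (_ : Group Γ), JI Γ := by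
  classical
  obtain ⟨K, hKn, hKi, hT, hmax⟩ := exists_maximal
  refine ⟨F3 ⧸ K, inferInstance, ⟨inferInstance, ?_, ?_, ?_, ?_⟩⟩
  · by_contra hfin
    rw [not_infinite_iff_finite] at hfin
    exact hKi Subgroup.finiteIndex_of_finite_quotient
  · intro g
    obtain ⟨x, rfl⟩ := QuotientGroup.mk'_surjective K g
    obtain ⟨b, hb⟩ := hT (Sum.inl x)
    refine ⟨b, ?_⟩
    rw [← map_pow, QuotientGroup.mk'_apply, QuotientGroup.eq_one_iff]
    exact hb
  · intro N hN hne
    have h1 : (N.comap (QuotientGroup.mk' K)).Normal := inferInstance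
    have h2 : K ≤ N.comap (QuotientGroup.mk' K) := by
      intro x hx
      rw [Subgroup.mem_comap, QuotientGroup.mk'_apply, (QuotientGroup.eq_one_iff x).2 hx]
      exact N.one_mem
    have h3 : K ≠ N.comap (QuotientGroup.mk' K) := by
      intro h
      apply hne
      rw [eq_bot_iff]
      intro y hy
      obtain ⟨x, rfl⟩ := QuotientGroup.mk'_surjective K y
      have hx : x ∈ N.comap (QuotientGroup.mk' K) := hy
      rw [← h] at hx
      rw [Subgroup.mem_bot, QuotientGroup.mk'_apply, QuotientGroup.eq_one_iff]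
      exact hx
    have h4 := hmax _ h1 h2 h3
    refine ⟨?_⟩
    rw [← Subgroup.index_comap_of_surjective N (QuotientGroup.mk'_surjective K)]
    exact h4.index_ne_zero
  · intro S
    -- lift the finite set
    obtain ⟨T, hT'⟩ : ∃ T : Finset F3, T.image (QuotientGroup.mk' K) = S := by
      refine ⟨S.image (Function.surjInv (QuotientGroup.mk'_surjective K)), ?_⟩
      have hid : (QuotientGroup.mk' K) ∘
          (Function.surjInv (QuotientGroup.mk'_surjective K)) = id := by
        funext y
        exact Function.surjInv_eq (QuotientGroup.mk'_surjective K) y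
      rw [Finset.image_image, hid, Finset.image_id]
    have hmap : Subgroup.closure (S : Set (F3 ⧸ K)) =
        (Subgroup.closure (T : Set F3)).map (QuotientGroup.mk' K) := by
      rw [MonoidHom.map_closure, ← hT', Finset.coe_image]
    rcases hT (Sum.inr T) with ⟨N, hN, hle⟩ | ⟨N, hN, hle⟩
    · left
      rw [hmap]
      set H := Subgroup.closure (T : Set F3) with hH
      let φ : H →* F3 ⧸ K := (QuotientGroup.mk' K).comp H.subtype
      have h1 : N.subgroupOf H ≤ φ.ker := by
        intro x hx
        rw [MonoidHom.mem_ker]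
        show (QuotientGroup.mk' K) (x : F3) = 1
        rw [QuotientGroup.mk'_apply, QuotientGroup.eq_one_iff]
        exact hle ⟨x.2, hx⟩
      have h2 : φ.ker.FiniteIndex := Subgroup.finiteIndex_of_le h1
      have h3 : Finite (H ⧸ φ.ker) := inferInstance
      have h4 : Finite φ.range := Finite.of_equiv _ (QuotientGroup.quotientKerEquivRange φ).toEquiv
      have h5 : φ.range = H.map (QuotientGroup.mk' K) := by
        rw [MonoidHom.range_comp, Subgroup.range_subtype]
      rwa [h5] at h4
    · right
      rw [hmap]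
      have h1 : (N.map (QuotientGroup.mk' K)) ≤
          (Subgroup.closure (T : Set F3)).map (QuotientGroup.mk' K) := by
        refine (Subgroup.map_mono hle).trans ?_
        rw [Subgroup.map_sup]
        apply sup_le le_rfl
        rintro _ ⟨x, hx, rfl⟩
        rw [QuotientGroup.mk'_apply, (QuotientGroup.eq_one_iff x).2 hx]
        exact Subgroup.one_mem _
      have h2 : (N.map (QuotientGroup.mk' K)).FiniteIndex := by
        refine ⟨fun h => hN.index_ne_zero ?_⟩
        have := Subgroup.index_map_dvd N (QuotientGroup.mk'_surjective K)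
        rw [h] at this
        exact Nat.eq_zero_of_zero_dvd this
      exact Subgroup.finiteIndex_of_le h1

section final

variable {Γ : Type} [Group Γ]

theorem JI.isTorsion (h : JI Γ) : IsMulTorsion Γ := by
  intro g
  obtain ⟨b, hb⟩ := h.tors g
  exact isOfFinOrder_iff_pow_eq_one.2 ⟨2 ^ b, by positivity, hb⟩

theorem JI.exists_involution (h : JI Γ) : ∃ x : Γ, orderOf x = 2 := by
  classical
  have hinf := h.inf
  obtain ⟨g, hg⟩ := exists_ne (1 : Γ)
  have hex := h.tors g
  have hfind := Nat.find_spec hex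
  set b := Nat.find hex with hb
  have hb0 : b ≠ 0 := by
    intro h0
    rw [h0, pow_zero, pow_one] at hfind
    exact hg hfind
  obtain ⟨c, hc⟩ := Nat.exists_eq_succ_of_ne_zero hb0
  refine ⟨g ^ 2 ^ c, orderOf_eq_prime ?_ ?_⟩
  · rw [← pow_mul, ← pow_succ, ← Nat.succ_eq_add_one, ← hc]; exact hfind
  · exact Nat.find_min hex (by omega)

/-- The FC-centre. -/
def fcc (Γ : Type) [Group Γ] : Subgroup Γ where
  carrier := {g | (Subgroup.centralizer ({g} : Set Γ)).FiniteIndex}
  one_mem' := by
    have : Subgroup.centralizer ({1} : Set Γ) = ⊤ := by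
      rw [eq_top_iff]
      intro x _
      rw [Subgroup.mem_centralizer_singleton_iff]
      simp
    show (Subgroup.centralizer ({1} : Set Γ)).FiniteIndex
    rw [this]; infer_instance
  mul_mem' := by
    intro a b ha hb
    have ha' : (Subgroup.centralizer ({a} : Set Γ)).FiniteIndex := ha
    have hb' : (Subgroup.centralizer ({b} : Set Γ)).FiniteIndex := hb
    show (Subgroup.centralizer ({a * b} : Set Γ)).FiniteIndex
    have h1 : Subgroup.centralizer ({a} : Set Γ) ⊓ Subgroup.centralizer ({b} : Set Γ) ≤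
        Subgroup.centralizer ({a * b} : Set Γ) := by
      rintro x ⟨hx1, hx2⟩
      have hx1' : x * a = a * x := (Subgroup.mem_centralizer_singleton_iff).1 hx1
      have hx2' : x * b = b * x := (Subgroup.mem_centralizer_singleton_iff).1 hx2
      rw [Subgroup.mem_centralizer_singleton_iff]
      rw [← mul_assoc, hx1', mul_assoc, hx2', mul_assoc]
    exact Subgroup.finiteIndex_of_le h1
  inv_mem' := by
    intro a ha
    have ha' : (Subgroup.centralizer ({a} : Set Γ)).FiniteIndex := ha
    show (Subgroup.centralizer ({a⁻¹} : Set Γ)).FiniteIndex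
    have h1 : Subgroup.centralizer ({a} : Set Γ) ≤ Subgroup.centralizer ({a⁻¹} : Set Γ) := by
      intro x hx
      have hx1 : x * a = a * x := (Subgroup.mem_centralizer_singleton_iff).1 hx
      rw [Subgroup.mem_centralizer_singleton_iff]
      calc x * a⁻¹ = a⁻¹ * (a * x) * a⁻¹ := by group
        _ = a⁻¹ * (x * a) * a⁻¹ := by rw [hx1]
        _ = a⁻¹ * x := by group
    exact Subgroup.finiteIndex_of_le h1

theorem fcc_conj {g x : Γ} (hx : x ∈ fcc Γ) : g * x * g⁻¹ ∈ fcc Γ := by
  have hx' : (Subgroup.centralizer ({x} : Set Γ)).FiniteIndex := hx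
  show (Subgroup.centralizer ({g * x * g⁻¹} : Set Γ)).FiniteIndex
  have h1 : (Subgroup.centralizer ({x} : Set Γ)).comap (MulAut.conj g⁻¹).toMonoidHom ≤
      Subgroup.centralizer ({g * x * g⁻¹} : Set Γ) := by
    intro y hy
    have hy1 : (g⁻¹ * y * g⁻¹⁻¹) * x = x * (g⁻¹ * y * g⁻¹⁻¹) :=
      (Subgroup.mem_centralizer_singleton_iff).1 hy
    rw [Subgroup.mem_centralizer_singleton_iff]
    calc y * (g * x * g⁻¹) = g * ((g⁻¹ * y * g⁻¹⁻¹) * x) * g⁻¹ := by group
      _ = g * (x * (g⁻¹ * y * g⁻¹⁻¹)) * g⁻¹ := by rw [hy1]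
      _ = g * x * g⁻¹ * y := by group
  have h2 := comap_finiteIndex (MulAut.conj g⁻¹).toMonoidHom hx'
  exact Subgroup.finiteIndex_of_le h1

/-- In the final group, centralizers of nontrivial elements have infinite index. -/
theorem JI.centralizer (h : JI Γ) {x : Γ} (hx : x ≠ 1) :
    ¬ (Subgroup.centralizer ({x} : Set Γ)).FiniteIndex := by
  intro hfi
  have hfg := h.fg
  have hN : (fcc Γ).Normal := ⟨fun y hy g => fcc_conj hy⟩
  have hne : fcc Γ ≠ ⊥ := by
    intro hbot
    have : x ∈ fcc Γ := hfi
    rw [hbot, Subgroup.mem_bot] at this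
    exact hx this
  have hF := h.normal _ hN hne
  have h1 : Group.FG (fcc Γ) := inferInstance
  obtain ⟨S, hS⟩ := (Group.fg_iff_subgroup_fg _).1 h1
  -- the centralizer of the FC-centre
  set Z := Subgroup.centralizer (S : Set Γ) with hZ
  have hZfi : Z.FiniteIndex := by
    rw [hZ, Subgroup.centralizer_eq_iInf]
    have : (⨅ g ∈ (S : Set Γ), Subgroup.centralizer ({g} : Set Γ)) =
        ⨅ g ∈ S, Subgroup.centralizer ({g} : Set Γ) := by simp
    rw [this]
    apply Subgroup.finiteIndex_iInf'
    intro g hg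
    have : g ∈ fcc Γ := by rw [← hS]; exact Subgroup.subset_closure hg
    exact this
  have hZ' : Z = Subgroup.centralizer (fcc Γ : Set Γ) := by
    rw [← hS, Subgroup.centralizer_closure]
  set T := fcc Γ ⊓ Z with hTdef
  have hTfi : T.FiniteIndex := inferInstance
  have hTfg : Group.FG T := inferInstance
  have hcomm : ∀ a b : T, a * b = b * a := by
    rintro ⟨a, ha1, ha2⟩ ⟨b, hb1, hb2⟩
    rw [hZ'] at hb2
    have := (Subgroup.mem_centralizer_iff.1 hb2) a ha1
    exact Subtype.ext this
  let _ : CommGroup T := { (inferInstance : Group T) with mul_comm := hcomm }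
  have htors : IsMulTorsion T := by
    rintro ⟨a, ha⟩
    have := h.isTorsion a
    rw [isOfFinOrder_iff_pow_eq_one] at this ⊢
    obtain ⟨n, hn, hn'⟩ := this
    exact ⟨n, hn, Subtype.ext hn'⟩
  have hTfin : Finite T := CommGroup.finite_of_fg_isMulTorsion (G := T) htors
  have hfin : Finite Γ := by
    have h3 : Finite (Γ ⧸ T) := inferInstance
    exact Finite.of_equiv _ (Subgroup.groupEquivQuotientProdSubgroup (s := T)).symm
  have := h.inf
  exact not_finite Γ

end final

end Pool.Agent.Helper30
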