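import Pool.Agent.Helper30.GS1

/-!
# Passing to a subgroup of index two

Generators of a subgroup of index two, and the behaviour of the filtration `J`.
-/

set_option autoImplicit false

namespace Pool.Agent.Helper30

variable {G : Type} [Group G]

/-- `M'` is a subgroup of `M` of index at most two. -/
structure Idx2 (M M' : Subgroup G) : Prop where
  le : M' ≤ M
  mul_mem : ∀ g ∈ M, ∀ h ∈ M, g ∉ M' → h ∉ M' → g * h ∈ M'

theorem Idx2.conj {M M' : Subgroup G} (h2 : Idx2 M M') {g h : G} (hg : g ∈ M) (hh : h ∈ M') :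
    g * h * g⁻¹ ∈ M' := by
  by_cases hg' : g ∈ M'
  · exact M'.mul_mem (M'.mul_mem hg' hh) (M'.inv_mem hg')
  · apply h2.mul_mem _ (M.mul_mem hg (h2.le hh)) _ (M.inv_mem hg)
    · intro h
      apply hg'
      have := M'.mul_mem h (M'.inv_mem hh)
      simpa using this
    · intro h
      apply hg'
      have := M'.inv_mem h
      simpa using this

theorem Idx2.mul_inv {M M' : Subgroup G} (h2 : Idx2 M M') {g h : G} (hg : g ∈ M) (hh : h ∈ M)
    (hg' : g ∉ M') (hh' : h ∉ M') : g * h⁻¹ ∈ M' :=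
  h2.mul_mem g hg h⁻¹ (M.inv_mem hh) hg' (fun h => hh' (by simpa using M'.inv_mem h))

theorem Idx2.inv_mul {M M' : Subgroup G} (h2 : Idx2 M M') {g h : G} (hg : g ∈ M) (hh : h ∈ M)
    (hg' : g ∉ M') (hh' : h ∉ M') : g⁻¹ * h ∈ M' :=
  h2.mul_mem g⁻¹ (M.inv_mem hg) h hh (fun h => hg' (by simpa using M'.inv_mem h)) hh'

section newY

variable {α : Type}

/-- The generators of the subgroup of index two. -/
def newY (z : α → G) (a₀ : α) : Option ({a // a ≠ a₀} ⊕ {a // a ≠ a₀}) → G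
  | none => z a₀ * z a₀
  | some (Sum.inl a) => z a
  | some (Sum.inr a) => (z a)⁻¹ * (z a₀ * z a * (z a₀)⁻¹)

/-- The degrees of the generators of the subgroup of index two. -/
def newD (d : α → ℕ) (a₀ : α) : Option ({a // a ≠ a₀} ⊕ {a // a ≠ a₀}) → ℕ
  | none => d a₀ + d a₀
  | some (Sum.inl a) => d a
  | some (Sum.inr a) => d a + d a₀

theorem conj_newY_inr (p t : G) :
    t * (p⁻¹ * (t * p * t⁻¹)) * t⁻¹ =
      (p⁻¹ * (t * p * t⁻¹))⁻¹ * (p⁻¹ * (t * t * p) * (t * t)⁻¹) := by group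

theorem newY_mem {L L' : Subgroup G} (h2 : Idx2 L L') {z : α → G} {a₀ : α}
    (hz : ∀ a, z a ∈ L) (h0 : z a₀ ∉ L') (h1 : ∀ a, a ≠ a₀ → z a ∈ L') (j) :
    newY z a₀ j ∈ L' := by
  rcases j with _ | (a | a)
  · exact h2.mul_mem _ (hz _) _ (hz _) h0 h0
  · exact h1 _ a.2
  · exact L'.mul_mem (L'.inv_mem (h1 _ a.2)) (h2.conj (hz _) (h1 _ a.2))

theorem closure_newY {L L' : Subgroup G} (h2 : Idx2 L L') {z : α → G} {a₀ : α}
    (hL : Subgroup.closure (Set.range z) = L) (h0 : z a₀ ∉ L') (h1 : ∀ a, a ≠ a₀ → z a ∈ L') :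
    Subgroup.closure (Set.range (newY z a₀)) = L' := by
  have hz : ∀ a, z a ∈ L := fun a => hL ▸ Subgroup.subset_closure ⟨a, rfl⟩
  set C := Subgroup.closure (Set.range (newY z a₀)) with hC
  set t := z a₀ with ht
  have hCL : C ≤ L' := by
    rw [hC, Subgroup.closure_le]
    rintro _ ⟨j, rfl⟩
    exact newY_mem h2 hz h0 h1 j
  have htt : t * t ∈ C := Subgroup.subset_closure ⟨none, rfl⟩
  have hp : ∀ a, a ≠ a₀ → z a ∈ C := fun a ha => Subgroup.subset_closure ⟨some (Sum.inl ⟨a, ha⟩), rfl⟩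
  have hq : ∀ a, a ≠ a₀ → (z a)⁻¹ * (t * z a * t⁻¹) ∈ C := fun a ha =>
    Subgroup.subset_closure ⟨some (Sum.inr ⟨a, ha⟩), rfl⟩
  have hconj : ∀ c ∈ C, t * c * t⁻¹ ∈ C := by
    intro c hc
    induction hc using Subgroup.closure_induction with
    | mem x hx =>
      obtain ⟨j, rfl⟩ := hx
      rcases j with _ | (a | a)
      · have : t * newY z a₀ none * t⁻¹ = t * t := by
          show t * (t * t) * t⁻¹ = t * t
          group
        rw [this]; exact htt
      · have : t * newY z a₀ (some (Sum.inl a)) * t⁻¹ =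
            z a * ((z a)⁻¹ * (t * z a * t⁻¹)) := by
          show t * z a * t⁻¹ = _
          group
        rw [this]; exact C.mul_mem (hp a a.2) (hq a a.2)
      · have : t * newY z a₀ (some (Sum.inr a)) * t⁻¹ =
            ((z a)⁻¹ * (t * z a * t⁻¹))⁻¹ * ((z a)⁻¹ * (t * t * z a) * (t * t)⁻¹) :=
          conj_newY_inr _ _
        rw [this]
        exact C.mul_mem (C.inv_mem (hq a a.2)) (C.mul_mem (C.mul_mem (C.inv_mem (hp a a.2))
          (C.mul_mem htt (hp a a.2))) (C.inv_mem htt))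
    | one => simp [C.one_mem]
    | mul x w _ _ hx hw =>
      have : t * (x * w) * t⁻¹ = (t * x * t⁻¹) * (t * w * t⁻¹) := by group
      rw [this]; exact C.mul_mem hx hw
    | inv x _ hx =>
      have : t * x⁻¹ * t⁻¹ = (t * x * t⁻¹)⁻¹ := by group
      rw [this]; exact C.inv_mem hx
  have hdich : ∀ x ∈ L, x ∈ C ∨ x * t⁻¹ ∈ C := by
    intro x hx
    rw [← hL] at hx
    induction hx using Subgroup.closure_induction with
    | mem x hx =>
      obtain ⟨a, rfl⟩ := hx
      by_cases ha : a = a₀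
      · right; rw [ha, ← ht, mul_inv_cancel]; exact C.one_mem
      · left; exact hp a ha
    | one => left; exact C.one_mem
    | mul x w _ _ hx hw =>
      rcases hx with hx | hx <;> rcases hw with hw | hw
      · left; exact C.mul_mem hx hw
      · right
        rw [mul_assoc]; exact C.mul_mem hx hw
      · right
        have : x * w * t⁻¹ = (x * t⁻¹) * (t * w * t⁻¹) := by group
        rw [this]; exact C.mul_mem hx (hconj _ hw)
      · left
        have : x * w = (x * t⁻¹) * (t * (w * t⁻¹) * t⁻¹) * (t * t) := by group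
        rw [this]; exact C.mul_mem (C.mul_mem hx (hconj _ hw)) htt
    | inv x _ hx =>
      rcases hx with hx | hx
      · left; exact C.inv_mem hx
      · right
        have : x⁻¹ * t⁻¹ = (t * t)⁻¹ * (t * (x * t⁻¹)⁻¹ * t⁻¹) := by group
        rw [this]; exact C.mul_mem (C.inv_mem htt) (hconj _ (C.inv_mem hx))
  apply le_antisymm hCL
  intro x hx
  rcases hdich x (h2.le hx) with h | h
  · exact h
  · exfalso
    apply h0
    have := L'.mul_mem (L'.inv_mem (hCL h)) hx
    simpa using this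

end newY

section filtration

variable {ι : Type} {M M' : Subgroup G} {y : ι → G} {d : ι → ℕ} {i₀ : ι}

/-- The commutator identity for `[p, t]` in the group algebra. -/
theorem comm_identity (p t : G) :
    e (p⁻¹ * (t * p) * t⁻¹) - 1 =
      e p⁻¹ * ((e t - 1) * (e p - 1) - (e p - 1) * (e t - 1)) * e t⁻¹ := by
  calc e (p⁻¹ * (t * p) * t⁻¹) - 1
      = e (p⁻¹ * (t * p) * t⁻¹) - e (p⁻¹ * (p * t) * t⁻¹) := by
        congr 1
        rw [← e_one]
        congr 1
        group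
    _ = e p⁻¹ * (e t * e p - e p * e t) * e t⁻¹ := by
        simp only [e_mul]; noncomm_ring
    _ = e p⁻¹ * ((e t - 1) * (e p - 1) - (e p - 1) * (e t - 1)) * e t⁻¹ := by
        noncomm_ring

theorem J_comm {N : Subgroup G} {κ : Type} {w : κ → G} {f : κ → ℕ} {p t : G} {m n : ℕ}
    (hp : p ∈ N) (ht : t ∈ N) (h1 : J N w f m (e p - 1)) (h2 : J N w f n (e t - 1)) :
    J N w f (m + n) (e (p⁻¹ * (t * p) * t⁻¹) - 1) := by
  rw [comm_identity]
  apply J_rmul _ (e_mem (N.inv_mem ht))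
  apply J_lmul (e_mem (N.inv_mem hp))
  apply J_sub
  · rw [add_comm]; exact J_mul h2 h1
  · exact J_mul h1 h2

theorem J_sq {N : Subgroup G} {κ : Type} {w : κ → G} {f : κ → ℕ} {p : G} {m : ℕ}
    (h1 : J N w f m (e p - 1)) : J N w f (m + m) (e (p * p) - 1) := by
  have : e (p * p) - 1 = (e p - 1) * (e p - 1) := by
    rw [e_mul, sub_mul, mul_sub, one_mul, mul_one]
    have h := add_self (e p)
    have h' : e p * e p - e p - (e p - 1) = e p * e p + 1 - (e p + e p) := by abel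
    rw [h', h, sub_zero, sub_eq]
  rw [this]; exact J_mul h1 h1

variable (hM : Subgroup.closure (Set.range y) = M) (h2 : Idx2 M M') (h0 : y i₀ ∉ M')
  (h1 : ∀ i, i ≠ i₀ → y i ∈ M')

include hM h2 h0 h1

/-- Conjugation by `y i₀` moves the new generators only in higher degree. -/
theorem cj_newY (j) : J M' (newY y i₀) (newD d i₀) (newD d i₀ j + d i₀)
    (cj (y i₀) (e (newY y i₀ j)) - e (newY y i₀ j)) := by
  have hy : ∀ i, y i ∈ M := fun i => hM ▸ Subgroup.subset_closure ⟨i, rfl⟩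
  have htt : y i₀ * y i₀ ∈ M' := h2.mul_mem _ (hy _) _ (hy _) h0 h0
  have hJtt : J M' (newY y i₀) (newD d i₀) (d i₀ + d i₀) (e (y i₀ * y i₀) - 1) :=
    J_gen (y := newY y i₀) (d := newD d i₀) none
  rw [cj_e]
  rcases j with _ | (a | a)
  · have : y i₀ * newY y i₀ none * (y i₀)⁻¹ = newY y i₀ none := by
      show y i₀ * (y i₀ * y i₀) * (y i₀)⁻¹ = y i₀ * y i₀
      group
    rw [this, sub_self]; exact J.zero _
  · have : y i₀ * newY y i₀ (some (Sum.inl a)) * (y i₀)⁻¹ =
        y a * newY y i₀ (some (Sum.inr a)) := by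
      show y i₀ * y a * (y i₀)⁻¹ = y a * ((y a)⁻¹ * (y i₀ * y a * (y i₀)⁻¹))
      group
    have h3 : e (y i₀ * newY y i₀ (some (Sum.inl a)) * (y i₀)⁻¹) -
        e (newY y i₀ (some (Sum.inl a))) =
        e (y a) * (e (newY y i₀ (some (Sum.inr a))) - 1) := by
      rw [this, e_mul, mul_sub, mul_one]; rfl
    rw [h3]
    exact J.lmul (h1 a a.2) (J_gen (y := newY y i₀) (d := newD d i₀) (some (Sum.inr a)))
  · set p := y a with hp
    set t := y i₀ with ht
    have hpM : p ∈ M' := h1 a a.2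
    have hq : newY y i₀ (some (Sum.inr a)) = p⁻¹ * (t * p * t⁻¹) := rfl
    have hd : newD d i₀ (some (Sum.inr a)) = d a + d i₀ := rfl
    have hqM : p⁻¹ * (t * p * t⁻¹) ∈ M' := hq ▸ newY_mem h2 hy h0 h1 _
    rw [hq, hd, conj_newY_inr]
    set q := p⁻¹ * (t * p * t⁻¹) with hqdef
    have hJq : J M' (newY y i₀) (newD d i₀) (d a + d i₀) (e q - 1) :=
      J_gen (y := newY y i₀) (d := newD d i₀) (some (Sum.inr a))
    have hJp : J M' (newY y i₀) (newD d i₀) (d a) (e p - 1) :=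
      J_gen (y := newY y i₀) (d := newD d i₀) (some (Sum.inl a))
    have h3 : e (q⁻¹ * (p⁻¹ * (t * t * p) * (t * t)⁻¹)) - e q =
        e q⁻¹ * (e (p⁻¹ * (t * t * p) * (t * t)⁻¹) - 1) - e q⁻¹ * (e (q * q) - 1) := by
      rw [e_mul q⁻¹ (p⁻¹ * (t * t * p) * (t * t)⁻¹), e_mul q q, mul_sub, mul_sub, mul_one,
        ← mul_assoc (e q⁻¹) (e q), e_inv_mul, one_mul]
      abel
    rw [h3]
    apply J_sub
    · apply J.lmul (M'.inv_mem hqM)
      exact J_mono (by omega) (J_comm hpM htt hJp hJtt)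
    · apply J.lmul (M'.inv_mem hqM)
      exact J_mono (by omega) (J_sq hJq)

theorem cj_base {g : G} (hg : g ∈ M') : J M' (newY y i₀) (newD d i₀) (d i₀)
    (cj (y i₀) (e g) - e g) := by
  have hy : ∀ i, y i ∈ M := fun i => hM ▸ Subgroup.subset_closure ⟨i, rfl⟩
  have hcl := closure_newY h2 hM h0 h1
  have hg' := hg
  rw [← hcl] at hg
  induction hg using Subgroup.closure_induction with
  | mem x hx =>
    obtain ⟨j, rfl⟩ := hx
    exact J_mono (by omega) (cj_newY hM h2 h0 h1 j)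
  | one => rw [e_one, cj_one, sub_self]; exact J.zero _
  | mul x w hx hw ihx ihw =>
    rw [hcl] at hx hw
    have h3 : cj (y i₀) (e (x * w)) - e (x * w) =
        e (y i₀ * x * (y i₀)⁻¹) * (cj (y i₀) (e w) - e w) + (cj (y i₀) (e x) - e x) * e w := by
      rw [e_mul, cj_mul, ← cj_e]
      noncomm_ring
    rw [h3]
    exact J.add (J.lmul (h2.conj (hy _) hx) (ihw hw)) (J_rmul (ihx hx) (e_mem hw))
  | inv x hx ihx =>
    rw [hcl] at hx
    have h3 : cj (y i₀) (e x⁻¹) - e x⁻¹ =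
        -(e (y i₀ * x⁻¹ * (y i₀)⁻¹) * (cj (y i₀) (e x) - e x) * e x⁻¹) := by
      rw [← cj_e, mul_sub, sub_mul, ← cj_mul, e_inv_mul, cj_one, one_mul, mul_assoc,
        e_mul_inv, mul_one]
      abel
    rw [h3]
    exact J_neg (J_rmul (J.lmul (h2.conj (hy _) (M'.inv_mem hx)) (ihx hx)) (e_mem (M'.inv_mem hx)))

theorem cj_J {n : ℕ} {a : GA G} (ha : J M' (newY y i₀) (newD d i₀) n a) :
    J M' (newY y i₀) (newD d i₀) (n + d i₀) (cj (y i₀) a - a) := by
  have hy : ∀ i, y i ∈ M := fun i => hM ▸ Subgroup.subset_closure ⟨i, rfl⟩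
  induction ha with
  | zero n => rw [cj_zero, sub_zero]; exact J.zero _
  | @add n a b _ _ ha hb =>
    have : cj (y i₀) (a + b) - (a + b) = (cj (y i₀) a - a) + (cj (y i₀) b - b) := by
      rw [cj_add]; abel
    rw [this]; exact J.add ha hb
  | base hg => rw [zero_add]; exact cj_base hM h2 h0 h1 hg
  | @lmul n g a hg ha ih =>
    have : cj (y i₀) (e g * a) - e g * a =
        cj (y i₀) (e g) * (cj (y i₀) a - a) + (cj (y i₀) (e g) - e g) * a := by
      rw [cj_mul]; noncomm_ring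
    rw [this]
    apply J.add
    · rw [cj_e]; exact J.lmul (h2.conj (hy _) hg) ih
    · rw [add_comm]; exact J_mul (cj_base hM h2 h0 h1 hg) ha
  | @gen n a j ha ih =>
    have h3 : cj (y i₀) ((e (newY y i₀ j) - 1) * a) - (e (newY y i₀ j) - 1) * a =
        ((e (newY y i₀ j) - 1) + (cj (y i₀) (e (newY y i₀ j)) - e (newY y i₀ j))) *
          (cj (y i₀) a - a) + (cj (y i₀) (e (newY y i₀ j)) - e (newY y i₀ j)) * a := by
      rw [cj_mul, cj_sub, cj_one]; noncomm_ring
    rw [h3]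
    have h4 := cj_newY (d := d) hM h2 h0 h1 j
    apply J.add
    · apply J_mono _ (J_mul (J.add (J_gen j) (J_mono (Nat.le_add_right _ _) h4)) ih)
      omega
    · apply J_mono _ (J_mul h4 ha)
      omega
  | mono _ ih => exact J_mono (by omega) ih

theorem cj_J' {n : ℕ} {a : GA G} (ha : J M' (newY y i₀) (newD d i₀) n a) :
    J M' (newY y i₀) (newD d i₀) n (cj (y i₀) a) := by
  have : cj (y i₀) a = a + (cj (y i₀) a - a) := by abel
  rw [this]
  exact J.add ha (J_mono (by omega) (cj_J hM h2 h0 h1 ha))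

/-- The old filtration in terms of the new one: existence of the decomposition. -/
theorem J_split {n : ℕ} {a : GA G} (ha : J M y d n a) :
    ∃ b c : GA G, J M' (newY y i₀) (newD d i₀) n b ∧ J M' (newY y i₀) (newD d i₀) (n - d i₀) c ∧
      a = b + c * (e (y i₀) - 1) := by
  have hy : ∀ i, y i ∈ M := fun i => hM ▸ Subgroup.subset_closure ⟨i, rfl⟩
  have hJtt : J M' (newY y i₀) (newD d i₀) (d i₀ + d i₀) (e (y i₀ * y i₀) - 1) :=
    J_gen (y := newY y i₀) (d := newD d i₀) none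
  -- left multiplication by `e t`
  have key : ∀ (n : ℕ) (b c : GA G), J M' (newY y i₀) (newD d i₀) n b →
      J M' (newY y i₀) (newD d i₀) (n - d i₀) c →
      J M' (newY y i₀) (newD d i₀) n (cj (y i₀) b + cj (y i₀) c * (e (y i₀ * y i₀) - 1)) ∧
      J M' (newY y i₀) (newD d i₀) (n - d i₀) (cj (y i₀) b - cj (y i₀) c) ∧
      e (y i₀) * (b + c * (e (y i₀) - 1)) =
        (cj (y i₀) b + cj (y i₀) c * (e (y i₀ * y i₀) - 1)) +
          (cj (y i₀) b - cj (y i₀) c) * (e (y i₀) - 1) := by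
    intro n b c hb hc
    refine ⟨?_, ?_, ?_⟩
    · exact J.add (cj_J' hM h2 h0 h1 hb)
        (J_mono (by omega) (J_mul (cj_J' hM h2 h0 h1 hc) hJtt))
    · exact J_sub (J_mono (by omega) (cj_J' hM h2 h0 h1 hb)) (cj_J' hM h2 h0 h1 hc)
    · rw [mul_add, ← mul_assoc, ← cj_mul_e, ← cj_mul_e, e_mul]
      noncomm_ring
  induction ha with
  | zero n => exact ⟨0, 0, J.zero _, J.zero _, by simp⟩
  | add _ _ ha hb =>
    obtain ⟨b, c, hb1, hc1, h3⟩ := ha
    obtain ⟨b', c', hb', hc', h3'⟩ := hb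
    refine ⟨b + b', c + c', J.add hb1 hb', J.add hc1 hc', ?_⟩
    rw [h3, h3']; noncomm_ring
  | @base g hg =>
    by_cases hg' : g ∈ M'
    · exact ⟨e g, 0, J.base hg', J.zero _, by simp⟩
    · have h3 : g * (y i₀)⁻¹ ∈ M' := h2.mul_inv hg (hy _) hg' h0
      refine ⟨e (g * (y i₀)⁻¹), e (g * (y i₀)⁻¹), J.base h3, ?_, ?_⟩
      · rw [Nat.zero_sub]; exact J.base h3
      · have : e g = e (g * (y i₀)⁻¹) * e (y i₀) := by rw [← e_mul]; congr 1; group
        rw [this]; noncomm_ring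
  | @lmul n g a hg ha ih =>
    obtain ⟨b, c, hb, hc, h3⟩ := ih
    by_cases hg' : g ∈ M'
    · refine ⟨e g * b, e g * c, J.lmul hg' hb, J.lmul hg' hc, ?_⟩
      rw [h3]; noncomm_ring
    · have h4 : g * (y i₀)⁻¹ ∈ M' := h2.mul_inv hg (hy _) hg' h0
      obtain ⟨k1, k2, k3⟩ := key n b c hb hc
      refine ⟨_, _, J.lmul h4 k1, J.lmul h4 k2, ?_⟩
      have : e g = e (g * (y i₀)⁻¹) * e (y i₀) := by rw [← e_mul]; congr 1; group
      rw [this, h3, mul_assoc, k3]
      noncomm_ring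
  | @gen n a i ha ih =>
    obtain ⟨b, c, hb, hc, h3⟩ := ih
    by_cases hi : i = i₀
    · subst hi
      refine ⟨(cj (y i) b - b) + cj (y i) c * (e (y i * y i) - 1),
        cj (y i) b - (cj (y i) c - c), ?_, ?_, ?_⟩
      · exact J.add (cj_J hM h2 h0 h1 hb)
          (J_mono (by omega) (J_mul (cj_J' hM h2 h0 h1 hc) hJtt))
      · rw [Nat.add_sub_cancel]
        exact J_sub (cj_J' hM h2 h0 h1 hb) (J_mono (by omega) (cj_J hM h2 h0 h1 hc))
      · rw [h3, sub_mul, one_mul, mul_add, ← mul_assoc, ← cj_mul_e, ← cj_mul_e, e_mul]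
        have hcc : c * (e (y i) - 1) + c * (e (y i) - 1) = 0 := add_self _
        have : cj (y i) b * e (y i) + cj (y i) c * e (y i) * (e (y i) - 1) -
            (b + c * (e (y i) - 1)) =
          cj (y i) b - b + cj (y i) c * (e (y i) * e (y i) - 1) +
            (cj (y i) b - (cj (y i) c - c)) * (e (y i) - 1) -
            (c * (e (y i) - 1) + c * (e (y i) - 1)) := by noncomm_ring
        rw [this, hcc, sub_zero]
    · have hdi : newD d i₀ (some (Sum.inl ⟨i, hi⟩)) = d i := rfl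
      have hyi : newY y i₀ (some (Sum.inl ⟨i, hi⟩)) = y i := rfl
      refine ⟨(e (y i) - 1) * b, (e (y i) - 1) * c, ?_, ?_, ?_⟩
      · rw [← hdi, ← hyi]; exact J.gen _ hb
      · have := J.gen (some (Sum.inl ⟨i, hi⟩)) hc
        rw [hdi, hyi] at this
        exact J_mono (by omega) this
      · rw [h3]; noncomm_ring
  | @mono n a ha ih =>
    obtain ⟨b, c, hb, hc, h3⟩ := ih
    exact ⟨b, c, hb.mono, J_mono (by omega) hc, h3⟩

omit h0 h1 in
theorem J_of_J' {n : ℕ} {a : GA G} (ha : J M' (newY y i₀) (newD d i₀) n a) : J M y d n a := by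
  have hy : ∀ i, y i ∈ M := fun i => hM ▸ Subgroup.subset_closure ⟨i, rfl⟩
  induction ha with
  | zero n => exact J.zero _
  | add _ _ ha hb => exact J.add ha hb
  | base hg => exact J.base (h2.le hg)
  | lmul hg _ ih => exact J.lmul (h2.le hg) ih
  | @gen n a j ha ih =>
    have : J M y d (newD d i₀ j) (e (newY y i₀ j) - 1) := by
      rcases j with _ | (a | a)
      · exact J_sq (J_gen i₀)
      · exact J_gen (a : ι)
      · have h3 := J_comm (hy a) (hy i₀) (J_gen (M := M) (y := y) (d := d) (a : ι)) (J_gen i₀)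
        have h4 : newY y i₀ (some (Sum.inr a)) = (y a)⁻¹ * (y i₀ * y a) * (y i₀)⁻¹ := by
          show (y a)⁻¹ * (y i₀ * y a * (y i₀)⁻¹) = _
          group
        rw [h4]; exact h3
    rw [add_comm]
    exact J_mul this ih
  | mono _ ih => exact ih.mono

end filtration

end Pool.Agent.Helper30
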