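import Pool.Agent.Helper30.GS2

/-!
# Weighted presentations and their restriction to subgroups of index two
-/

set_option autoImplicit false

namespace Pool.Agent.Helper30

variable {G : Type} [Group G]

/-- A weighted presentation of the group algebra of `M`: generators `y i` of degree `d i` and
relation vectors `ρ k` of degree `r k` generating all relations between the `y i - 1`. -/
structure Data (M : Subgroup G) where
  ι : Type
  κ : Type
  [fι : Fintype ι]
  [dι : DecidableEq ι]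
  [fκ : Fintype κ]
  y : ι → G
  d : ι → ℕ
  ρ : κ → ι → GA G
  r : κ → ℕ
  d_pos : ∀ i, 1 ≤ d i
  hy : Subgroup.closure (Set.range y) = M
  hρ : ∀ k i, J M y d (r k - d i) (ρ k i)
  rel : ∀ k, ∑ i, ρ k i * (e (y i) - 1) = 0
  gen : ∀ v : ι → GA G, (∀ i, v i ∈ SA M) → ∑ i, v i * (e (y i) - 1) = 0 →
    ∃ a : κ → GA G, (∀ k, a k ∈ SA M) ∧ ∀ i, v i = ∑ k, a k * ρ k i

attribute [instance] Data.fι Data.dι Data.fκ

/-- The filtration of a weighted presentation. -/
def Data.J {M : Subgroup G} (D : Data M) (n : ℕ) (a : GA G) : Prop := Helper30.J M D.y D.d n a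

/-- The weighted deficiency plus one. -/
noncomputable def Data.tot {M : Subgroup G} (D : Data M) : ℝ :=
  ∑ i, (1 / 2 : ℝ) ^ D.d i - ∑ k, (1 / 2 : ℝ) ^ D.r k

/-- The number of generators of degree `m`. -/
noncomputable def Data.cnt {M : Subgroup G} (D : Data M) (m : ℕ) : ℕ :=
  (Finset.univ.filter (fun i => D.d i = m)).card

theorem Data.y_mem {M : Subgroup G} (D : Data M) (i : D.ι) : D.y i ∈ M :=
  D.hy.le (Subgroup.subset_closure ⟨i, rfl⟩)

theorem Data.ρ_mem {M : Subgroup G} (D : Data M) (k : D.κ) (i : D.ι) : D.ρ k i ∈ SA M :=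
  J_SA D.y_mem (D.hρ k i)

/-- Comparison of filtrations. -/
theorem J_le {ι κ : Type} {M M' : Subgroup G} {y : ι → G} {d : ι → ℕ} {y' : κ → G} {d' : κ → ℕ}
    (hM : M' ≤ M) (h : ∀ j, J M y d (d' j) (e (y' j) - 1)) {n : ℕ} {a : GA G}
    (ha : J M' y' d' n a) : J M y d n a := by
  induction ha with
  | zero n => exact J.zero _
  | add _ _ ha hb => exact J.add ha hb
  | base hg => exact J.base (hM hg)
  | lmul hg _ ih => exact J.lmul (hM hg) ih
  | @gen n a j ha ih => rw [add_comm]; exact J_mul (h j) ih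
  | mono _ ih => exact ih.mono

section change

variable {M : Subgroup G} (D : Data M) (i₀ : D.ι) (S : Finset D.ι)

/-- New generators: multiply those in `S` by `y i₀`. -/
def chY : D.ι → G := fun i => if i ∈ S then D.y i * D.y i₀ else D.y i

/-- The change of coordinates. -/
noncomputable def chT (v : D.ι → GA G) : D.ι → GA G := fun i =>
  v i - if i = i₀ then ∑ j ∈ S, v j * e (D.y j) else 0

variable {D i₀ S} (h0 : i₀ ∉ S)

include h0

theorem chT_chT (v : D.ι → GA G) : chT D i₀ S (chT D i₀ S v) = v := by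
  funext i
  have h : ∀ j ∈ S, chT D i₀ S v j = v j := by
    intro j hj
    have hj0 : ¬ j = i₀ := by rintro rfl; exact h0 hj
    unfold chT
    rw [if_neg hj0, sub_zero]
  have h' : ∑ j ∈ S, chT D i₀ S v j * e (D.y j) = ∑ j ∈ S, v j * e (D.y j) :=
    Finset.sum_congr rfl (fun j hj => by rw [h j hj])
  show chT D i₀ S v i - (if i = i₀ then ∑ j ∈ S, chT D i₀ S v j * e (D.y j) else 0) = v i
  rw [h']
  unfold chT
  by_cases hi : i = i₀
  · rw [if_pos hi, sub_eq, sub_eq, add_assoc, add_self, add_zero]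
  · rw [if_neg hi, sub_zero, sub_zero]

theorem chT_sum (v : D.ι → GA G) :
    ∑ i, chT D i₀ S v i * (e (chY D i₀ S i) - 1) = ∑ i, v i * (e (D.y i) - 1) := by
  have h1 : ∀ i, chT D i₀ S v i * (e (chY D i₀ S i) - 1) =
      v i * (e (D.y i) - 1) + (if i ∈ S then v i * e (D.y i) * (e (D.y i₀) - 1) else 0) -
        (if i = i₀ then (∑ j ∈ S, v j * e (D.y j)) * (e (D.y i₀) - 1) else 0) := by
    intro i
    unfold chT chY
    by_cases hi : i = i₀
    · subst hi
      rw [if_pos rfl, if_pos rfl, if_neg h0, if_neg h0]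
      noncomm_ring
    · rw [if_neg hi, if_neg hi]
      by_cases hS : i ∈ S
      · rw [if_pos hS, if_pos hS, e_mul]; noncomm_ring
      · rw [if_neg hS, if_neg hS]; noncomm_ring
  rw [Finset.sum_congr rfl (fun i _ => h1 i), Finset.sum_sub_distrib, Finset.sum_add_distrib,
    Finset.sum_ite_eq' , if_pos (Finset.mem_univ _), Finset.sum_ite_mem, Finset.univ_inter,
    Finset.sum_mul]
  abel

/-- The two filtrations agree. -/
theorem ch_J (hd : ∀ i ∈ S, D.d i ≤ D.d i₀) {n : ℕ} {a : GA G} :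
    J M (chY D i₀ S) D.d n a ↔ J M D.y D.d n a := by
  have e0 : chY D i₀ S i₀ = D.y i₀ := by unfold chY; rw [if_neg h0]
  constructor
  · apply J_le le_rfl
    intro i
    unfold chY
    by_cases hS : i ∈ S
    · rw [if_pos hS]
      have : e (D.y i * D.y i₀) - 1 = (e (D.y i) - 1) * e (D.y i₀) + (e (D.y i₀) - 1) := by
        rw [e_mul]; noncomm_ring
      rw [this]
      exact J.add (J_rmul (J_gen i) (e_mem (D.y_mem _))) (J_mono (hd i hS) (J_gen i₀))
    · rw [if_neg hS]; exact J_gen i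
  · apply J_le le_rfl
    intro i
    by_cases hS : i ∈ S
    · have h1 : chY D i₀ S i = D.y i * D.y i₀ := by unfold chY; rw [if_pos hS]
      have : e (D.y i) - 1 = (e (chY D i₀ S i) - 1) * e (D.y i₀)⁻¹ -
          e (D.y i₀)⁻¹ * (e (chY D i₀ S i₀) - 1) := by
        rw [h1, e0, e_mul, sub_mul, mul_sub, mul_one, one_mul, mul_assoc, e_mul_inv, e_inv_mul,
          mul_one]
        abel
      rw [this]
      apply J_sub
      · exact J_rmul (J_gen i) (e_mem (M.inv_mem (D.y_mem _)))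
      · exact J.lmul (M.inv_mem (D.y_mem _)) (J_mono (hd i hS) (J_gen i₀))
    · have h1 : chY D i₀ S i = D.y i := by unfold chY; rw [if_neg hS]
      rw [← h1]; exact J_gen i

/-- Change of generators. -/
noncomputable def Data.change (D : Data M) {i₀ : D.ι} {S : Finset D.ι} (h0 : i₀ ∉ S)
    (hd : ∀ i ∈ S, D.d i ≤ D.d i₀) : Data M where
  ι := D.ι
  κ := D.κ
  y := chY D i₀ S
  d := D.d
  ρ := fun k => chT D i₀ S (D.ρ k)
  r := D.r
  d_pos := D.d_pos
  hy := by
    have e0 : chY D i₀ S i₀ = D.y i₀ := by unfold chY; rw [if_neg h0]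
    apply le_antisymm
    · rw [Subgroup.closure_le]
      rintro _ ⟨i, rfl⟩
      unfold chY
      by_cases hS : i ∈ S
      · rw [if_pos hS]; exact M.mul_mem (D.y_mem _) (D.y_mem _)
      · rw [if_neg hS]; exact D.y_mem _
    · conv_lhs => rw [← D.hy]
      rw [Subgroup.closure_le]
      rintro _ ⟨i, rfl⟩
      have hi0 : D.y i₀ ∈ Subgroup.closure (Set.range (chY D i₀ S)) :=
        Subgroup.subset_closure ⟨i₀, e0⟩
      by_cases hS : i ∈ S
      · have h1 : chY D i₀ S i = D.y i * D.y i₀ := by unfold chY; rw [if_pos hS]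
        have h2 : D.y i = chY D i₀ S i * (D.y i₀)⁻¹ := by rw [h1]; group
        rw [h2]
        exact Subgroup.mul_mem _ (Subgroup.subset_closure ⟨i, rfl⟩) (Subgroup.inv_mem _ hi0)
      · have h1 : chY D i₀ S i = D.y i := by unfold chY; rw [if_neg hS]
        exact Subgroup.subset_closure ⟨i, h1⟩
  hρ := by
    intro k i
    rw [ch_J h0 hd]
    unfold chT
    by_cases hi : i = i₀
    · rw [if_pos hi]
      apply J_sub (D.hρ k i)
      apply J_sum
      intro j hj
      apply J_rmul _ (e_mem (D.y_mem _))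
      apply J_mono _ (D.hρ k j)
      have := hd j hj
      rw [hi]
      omega
    · rw [if_neg hi, sub_zero]; exact D.hρ k i
  rel := by
    intro k
    rw [chT_sum h0]; exact D.rel k
  gen := by
    intro v hv hv0
    have hT : ∀ i, chT D i₀ S v i ∈ SA M := by
      intro i
      unfold chT
      apply (SA M).sub_mem (hv i)
      by_cases hi : i = i₀
      · rw [if_pos hi]
        exact (SA M).sum_mem (fun j _ => mul_mem_SA (hv j) (e_mem (D.y_mem _)))
      · rw [if_neg hi]; exact (SA M).zero_mem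
    have h1 : ∑ i, chT D i₀ S v i * (e (D.y i) - 1) = 0 := by
      rw [← chT_sum h0, chT_chT h0, hv0]
    obtain ⟨a, ha, ha'⟩ := D.gen _ hT h1
    refine ⟨a, ha, fun i => ?_⟩
    have h2 : v i = chT D i₀ S (chT D i₀ S v) i := by rw [chT_chT h0]
    rw [h2]
    have h3 : chT D i₀ S v = fun i => ∑ k, a k * D.ρ k i := funext ha'
    rw [h3]
    unfold chT
    by_cases hi : i = i₀
    · simp only [if_pos hi, mul_sub, Finset.sum_sub_distrib, Finset.mul_sum, Finset.sum_mul,
        mul_assoc]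
      congr 1
      exact Finset.sum_comm
    · simp only [if_neg hi, sub_zero]

end change

section step

variable {M M' : Subgroup G}

open Classical in
/-- Restriction of the support to `M'`. -/
noncomputable def res (M' : Subgroup G) : GA G →+ GA G :=
  lin (fun g => if g ∈ M' then e g else 0)

theorem res_e_mem {g : G} (h : g ∈ M') : res M' (e g) = e g := by
  unfold res; rw [lin_e, if_pos h]

theorem res_e_notMem {g : G} (h : g ∉ M') : res M' (e g) = 0 := by
  unfold res; rw [lin_e, if_neg h]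

theorem res_mem (a : GA G) : res M' a ∈ SA M' := by
  refine ga_induction (P := fun a => res M' a ∈ SA M') a ?_ ?_ ?_
  · rw [map_zero]; exact (SA M').zero_mem
  · intro g
    by_cases h : g ∈ M'
    · rw [res_e_mem h]; exact e_mem h
    · rw [res_e_notMem h]; exact (SA M').zero_mem
  · intro a b ha hb
    rw [map_add]; exact (SA M').add_mem ha hb

theorem res_of_mem {a : GA G} (ha : a ∈ SA M') : res M' a = a := by
  refine SA_induction (P := fun a => res M' a = a) ha ?_ ?_ ?_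
  · rw [map_zero]
  · intro g hg; exact res_e_mem hg
  · intro a b ha hb; rw [map_add, ha, hb]

theorem res_mul_e {a : GA G} (ha : a ∈ SA M') {s : G} (hs : s ∉ M') : res M' (a * e s) = 0 := by
  refine SA_induction (P := fun a => res M' (a * e s) = 0) ha ?_ ?_ ?_
  · rw [zero_mul, map_zero]
  · intro g hg
    rw [← e_mul]
    apply res_e_notMem
    intro h
    apply hs
    have := M'.mul_mem (M'.inv_mem hg) h
    simpa using this
  · intro a b ha hb; rw [add_mul, map_add, ha, hb, add_zero]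

theorem res_mul {a : GA G} (ha : a ∈ SA M') (v : GA G) : res M' (a * v) = a * res M' v := by
  refine SA_induction (P := fun a => res M' (a * v) = a * res M' v) ha ?_ ?_ ?_
  · rw [zero_mul, map_zero, zero_mul]
  · intro g hg
    refine ga_induction (P := fun v => res M' (e g * v) = e g * res M' v) v ?_ ?_ ?_
    · rw [mul_zero, map_zero, mul_zero]
    · intro h
      rw [← e_mul]
      by_cases hh : h ∈ M'
      · rw [res_e_mem hh, res_e_mem (M'.mul_mem hg hh), e_mul]
      · rw [res_e_notMem hh, mul_zero]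
        apply res_e_notMem
        intro h'
        apply hh
        have := M'.mul_mem (M'.inv_mem hg) h'
        simpa using this
    · intro v w hv hw; rw [mul_add, map_add, map_add, hv, hw, mul_add]
  · intro a b ha hb; rw [add_mul, map_add, ha, hb, add_mul]

/-- The coefficient of `e t - 1`. -/
noncomputable def P1 (M' : Subgroup G) (t : G) (v : GA G) : GA G := res M' (v * e t⁻¹)

/-- The coefficient of `1`. -/
noncomputable def P0 (M' : Subgroup G) (t : G) (v : GA G) : GA G := res M' v + P1 M' t v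

variable {t : G}

theorem P1_mem (v : GA G) : P1 M' t v ∈ SA M' := res_mem _

theorem P0_mem (v : GA G) : P0 M' t v ∈ SA M' := (SA M').add_mem (res_mem _) (res_mem _)

theorem P1_add (v w : GA G) : P1 M' t (v + w) = P1 M' t v + P1 M' t w := by
  unfold P1; rw [add_mul, map_add]

theorem P0_add (v w : GA G) : P0 M' t (v + w) = P0 M' t v + P0 M' t w := by
  unfold P0; rw [map_add, P1_add]; abel

theorem P1_mul {a : GA G} (ha : a ∈ SA M') (v : GA G) : P1 M' t (a * v) = a * P1 M' t v := by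
  unfold P1; rw [mul_assoc, res_mul ha]

theorem P0_mul {a : GA G} (ha : a ∈ SA M') (v : GA G) : P0 M' t (a * v) = a * P0 M' t v := by
  unfold P0; rw [res_mul ha, P1_mul ha, mul_add]

theorem P1_zero : P1 M' t (0 : GA G) = 0 := by unfold P1; rw [zero_mul, map_zero]

theorem P0_zero : P0 M' t (0 : GA G) = 0 := by unfold P0; rw [map_zero, P1_zero, add_zero]

theorem P1_sum {α : Type} (s : Finset α) (f : α → GA G) :
    P1 M' t (∑ i ∈ s, f i) = ∑ i ∈ s, P1 M' t (f i) := by
  classical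
  induction s using Finset.induction_on with
  | empty => simp [P1_zero]
  | insert a s ha ih => rw [Finset.sum_insert ha, Finset.sum_insert ha, P1_add, ih]

theorem P0_sum {α : Type} (s : Finset α) (f : α → GA G) :
    P0 M' t (∑ i ∈ s, f i) = ∑ i ∈ s, P0 M' t (f i) := by
  classical
  induction s using Finset.induction_on with
  | empty => simp [P0_zero]
  | insert a s ha ih => rw [Finset.sum_insert ha, Finset.sum_insert ha, P0_add, ih]

theorem P1_split (ht : t ∉ M') {b c : GA G} (hb : b ∈ SA M') (hc : c ∈ SA M') :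
    P1 M' t (b + c * (e t - 1)) = c := by
  have ht' : t⁻¹ ∉ M' := fun h => ht (by simpa using M'.inv_mem h)
  unfold P1
  have h1 : (b + c * (e t - 1)) * e t⁻¹ = (b - c) * e t⁻¹ + c * (e t * e t⁻¹) := by noncomm_ring
  rw [h1, e_mul_inv, mul_one, map_add, res_mul_e ((SA M').sub_mem hb hc) ht', zero_add,
    res_of_mem hc]

theorem P0_split (ht : t ∉ M') {b c : GA G} (hb : b ∈ SA M') (hc : c ∈ SA M') :
    P0 M' t (b + c * (e t - 1)) = b := by
  unfold P0
  rw [P1_split ht hb hc]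
  have h1 : b + c * (e t - 1) = (b - c) + c * e t := by noncomm_ring
  rw [h1, map_add, res_mul_e hc ht, res_of_mem ((SA M').sub_mem hb hc)]
  abel

theorem eq_P0_P1 (h2 : Idx2 M M') (htM : t ∈ M) (ht : t ∉ M') {v : GA G} (hv : v ∈ SA M) :
    v = P0 M' t v + P1 M' t v * (e t - 1) := by
  have : ∃ b c : GA G, b ∈ SA M' ∧ c ∈ SA M' ∧ v = b + c * (e t - 1) := by
    refine SA_induction (P := fun v => ∃ b c : GA G, b ∈ SA M' ∧ c ∈ SA M' ∧
      v = b + c * (e t - 1)) hv ?_ ?_ ?_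
    · exact ⟨0, 0, (SA M').zero_mem, (SA M').zero_mem, by simp⟩
    · intro g hg
      by_cases hg' : g ∈ M'
      · exact ⟨e g, 0, e_mem hg', (SA M').zero_mem, by simp⟩
      · have h3 : g * t⁻¹ ∈ M' := h2.mul_inv hg htM hg' ht
        refine ⟨e (g * t⁻¹), e (g * t⁻¹), e_mem h3, e_mem h3, ?_⟩
        have : e g = e (g * t⁻¹) * e t := by rw [← e_mul]; congr 1; group
        rw [this]; noncomm_ring
    · rintro v w ⟨b, c, hb, hc, h⟩ ⟨b', c', hb', hc', h'⟩
      refine ⟨b + b', c + c', (SA M').add_mem hb hb', (SA M').add_mem hc hc', ?_⟩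
      rw [h, h']; noncomm_ring
  obtain ⟨b, c, hb, hc, h⟩ := this
  rw [h, P0_split ht hb hc, P1_split ht hb hc]

theorem split_zero (ht : t ∉ M') {b c : GA G} (hb : b ∈ SA M') (hc : c ∈ SA M')
    (h : b + c * (e t - 1) = 0) : b = 0 ∧ c = 0 := by
  have h1 := P0_split ht hb hc
  have h2 := P1_split ht hb hc
  rw [h, P0_zero] at h1
  rw [h, P1_zero] at h2
  exact ⟨h1.symm, h2.symm⟩

variable {ι : Type}

/-- The new coordinates of a vector. -/
noncomputable def Psi (M' : Subgroup G) (y : ι → G) (i₀ : ι) (v : ι → GA G) :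
    Option ({a // a ≠ i₀} ⊕ {a // a ≠ i₀}) → GA G
  | none => P1 M' (y i₀) (v i₀)
  | some (Sum.inl a) => P0 M' (y i₀) (v a)
  | some (Sum.inr a) => P1 M' (y i₀) (v a) * e (y a)

variable {y : ι → G} {d : ι → ℕ} {i₀ : ι}

theorem Psi_mem (h1 : ∀ i, i ≠ i₀ → y i ∈ M') (v : ι → GA G) (j) :
    Psi M' y i₀ v j ∈ SA M' := by
  rcases j with _ | (a | a)
  · exact P1_mem _
  · exact P0_mem _
  · exact mul_mem_SA (P1_mem _) (e_mem (h1 _ a.2))

theorem Psi_add (v w : ι → GA G) (j) :
    Psi M' y i₀ (fun i => v i + w i) j = Psi M' y i₀ v j + Psi M' y i₀ w j := by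
  rcases j with _ | (a | a)
  · exact P1_add _ _
  · exact P0_add _ _
  · show P1 M' (y i₀) (v a + w a) * e (y a) = _
    rw [P1_add, add_mul]; rfl

theorem Psi_mul {a : GA G} (ha : a ∈ SA M') (v : ι → GA G) (j) :
    Psi M' y i₀ (fun i => a * v i) j = a * Psi M' y i₀ v j := by
  rcases j with _ | (b | b)
  · exact P1_mul ha _
  · exact P0_mul ha _
  · show P1 M' (y i₀) (a * v b) * e (y b) = _
    rw [P1_mul ha, mul_assoc]; rfl

theorem Psi_sum {α : Type} (s : Finset α) (f : α → ι → GA G) (j) :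
    Psi M' y i₀ (fun i => ∑ k ∈ s, f k i) j = ∑ k ∈ s, Psi M' y i₀ (f k) j := by
  rcases j with _ | (b | b)
  · exact P1_sum _ _
  · exact P0_sum _ _
  · show P1 M' (y i₀) (∑ k ∈ s, f k b) * e (y b) = _
    rw [P1_sum, Finset.sum_mul]; rfl

theorem sum_option {A : Type} [AddCommMonoid A] [Fintype ι] [DecidableEq ι]
    (f : Option ({a // a ≠ i₀} ⊕ {a // a ≠ i₀}) → A) :
    ∑ j, f j = f none + (∑ a : {a // a ≠ i₀}, f (some (Sum.inl a)) +
      ∑ a : {a // a ≠ i₀}, f (some (Sum.inr a))) := by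
  rw [Fintype.sum_option, Fintype.sum_sum_type]

theorem sum_split {A : Type} [AddCommMonoid A] [Fintype ι] [DecidableEq ι]
    (f : ι → A) : ∑ i, f i = f i₀ + ∑ a : {a // a ≠ i₀}, f a :=
  Fintype.sum_eq_add_sum_subtype_ne f i₀

/-- Key computation for one term. -/
theorem term_identity (p t : G) (b c : GA G) :
    (b + c * (e t - 1)) * (e p - 1) =
      b * (e p - 1) + c * e p * (e (p⁻¹ * (t * p * t⁻¹)) - 1) +
        c * (e (t * p * t⁻¹) - 1) * (e t - 1) := by
  have h1 : e p * e (p⁻¹ * (t * p * t⁻¹)) = e (t * p * t⁻¹) := by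
    rw [← e_mul]; congr 1; group
  have h2 : e (t * p * t⁻¹) * e t = e t * e p := by
    rw [← e_mul, ← e_mul]; congr 1; group
  have h3 : c * e p * (e (p⁻¹ * (t * p * t⁻¹)) - 1) = c * (e (t * p * t⁻¹)) - c * e p := by
    rw [mul_sub, mul_one, mul_assoc, h1]
  have h4 : c * (e (t * p * t⁻¹) - 1) * (e t - 1) =
      c * (e t * e p) - c * e (t * p * t⁻¹) - c * (e t - 1) := by
    rw [← h2]; noncomm_ring
  rw [h3, h4]
  noncomm_ring

theorem Psi_identity [Fintype ι] [DecidableEq ι] (h2 : Idx2 M M') (hy : ∀ i, y i ∈ M)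
    (h0 : y i₀ ∉ M') (v : ι → GA G) (hv : ∀ i, v i ∈ SA M) :
    ∑ i, v i * (e (y i) - 1) = ∑ j, Psi M' y i₀ v j * (e (newY y i₀ j) - 1) +
      (P0 M' (y i₀) (v i₀) + ∑ a : {a // a ≠ i₀},
        P1 M' (y i₀) (v a) * (e (y i₀ * y a * (y i₀)⁻¹) - 1)) * (e (y i₀) - 1) := by
  rw [sum_option, sum_split (i₀ := i₀)]
  have ht : v i₀ * (e (y i₀) - 1) = Psi M' y i₀ v none * (e (newY y i₀ none) - 1) +
      P0 M' (y i₀) (v i₀) * (e (y i₀) - 1) := by
    conv_lhs => rw [eq_P0_P1 h2 (hy i₀) h0 (hv i₀)]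
    show _ = P1 M' (y i₀) (v i₀) * (e (y i₀ * y i₀) - 1) + _
    have h3 : (e (y i₀) - 1) * (e (y i₀) - 1) = e (y i₀ * y i₀) - 1 := by
      rw [e_mul, sub_mul, mul_sub, one_mul, mul_one]
      have h := add_self (e (y i₀))
      have h' : e (y i₀) * e (y i₀) - e (y i₀) - (e (y i₀) - 1) =
        e (y i₀) * e (y i₀) + 1 - (e (y i₀) + e (y i₀)) := by abel
      rw [h', h, sub_zero, sub_eq]
    rw [add_mul, mul_assoc, h3, add_comm]
  rw [ht]
  have hs : ∀ a : {a // a ≠ i₀}, v a * (e (y a) - 1) =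
      Psi M' y i₀ v (some (Sum.inl a)) * (e (newY y i₀ (some (Sum.inl a))) - 1) +
      Psi M' y i₀ v (some (Sum.inr a)) * (e (newY y i₀ (some (Sum.inr a))) - 1) +
      P1 M' (y i₀) (v a) * (e (y i₀ * y a * (y i₀)⁻¹) - 1) * (e (y i₀) - 1) := by
    intro a
    conv_lhs => rw [eq_P0_P1 h2 (hy i₀) h0 (hv a)]
    exact term_identity _ _ _ _
  rw [Finset.sum_congr rfl (fun a _ => hs a), Finset.sum_add_distrib, Finset.sum_add_distrib,
    add_mul, Finset.sum_mul]
  abel

theorem Psi_rel [Fintype ι] [DecidableEq ι] (h2 : Idx2 M M') (hy : ∀ i, y i ∈ M)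
    (h0 : y i₀ ∉ M') (h1 : ∀ i, i ≠ i₀ → y i ∈ M')
    (v : ι → GA G) (hv : ∀ i, v i ∈ SA M) (hv0 : ∑ i, v i * (e (y i) - 1) = 0) :
    ∑ j, Psi M' y i₀ v j * (e (newY y i₀ j) - 1) = 0 := by
  rw [Psi_identity h2 hy h0 v hv] at hv0
  refine (split_zero h0 ?_ ?_ hv0).1
  · apply (SA M').sum_mem
    intro j _
    exact mul_mem_SA (Psi_mem h1 v j) (e_sub_one_mem (newY_mem h2 hy h0 h1 j))
  · apply (SA M').add_mem (P0_mem _)
    apply (SA M').sum_mem
    intro a _
    exact mul_mem_SA (P1_mem _) (e_sub_one_mem (h2.conj (hy _) (h1 _ a.2)))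

/-- A vector with given new coordinates. -/
noncomputable def Theta [Fintype ι] [DecidableEq ι] (y : ι → G) (i₀ : ι)
    (u : Option ({a // a ≠ i₀} ⊕ {a // a ≠ i₀}) → GA G) (i : ι) : GA G :=
  if h : i = i₀ then
    (∑ a : {a // a ≠ i₀}, u (some (Sum.inr a)) * (e (y a)⁻¹ - e (newY y i₀ (some (Sum.inr a))))) +
      u none * (e (y i₀) - 1)
  else u (some (Sum.inl ⟨i, h⟩)) + u (some (Sum.inr ⟨i, h⟩)) * e (y i)⁻¹ * (e (y i₀) - 1)

theorem Theta_mem [Fintype ι] [DecidableEq ι] (h2 : Idx2 M M') (hy : ∀ i, y i ∈ M)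
    (h0 : y i₀ ∉ M') (h1 : ∀ i, i ≠ i₀ → y i ∈ M')
    (u : Option ({a // a ≠ i₀} ⊕ {a // a ≠ i₀}) → GA G) (hu : ∀ j, u j ∈ SA M') (i : ι) :
    Theta y i₀ u i ∈ SA M := by
  have hu' : ∀ j, u j ∈ SA M := fun j => SA_mono h2.le (hu j)
  unfold Theta
  by_cases h : i = i₀
  · rw [dif_pos h]
    apply (SA M).add_mem
    · apply (SA M).sum_mem
      intro a _
      exact mul_mem_SA (hu' _) ((SA M).sub_mem (e_mem (M.inv_mem (hy _)))
        (e_mem (h2.le (newY_mem h2 hy h0 h1 _))))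
    · exact mul_mem_SA (hu' _) (e_sub_one_mem (hy _))
  · rw [dif_neg h]
    exact (SA M).add_mem (hu' _) (mul_mem_SA (mul_mem_SA (hu' _) (e_mem (M.inv_mem (hy _))))
      (e_sub_one_mem (hy _)))

theorem Psi_Theta [Fintype ι] [DecidableEq ι] (h2 : Idx2 M M') (hy : ∀ i, y i ∈ M)
    (h0 : y i₀ ∉ M') (h1 : ∀ i, i ≠ i₀ → y i ∈ M')
    (u : Option ({a // a ≠ i₀} ⊕ {a // a ≠ i₀}) → GA G) (hu : ∀ j, u j ∈ SA M') (j) :
    Psi M' y i₀ (Theta y i₀ u) j = u j := by
  rcases j with _ | (a | a)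
  · show P1 M' (y i₀) (Theta y i₀ u i₀) = u none
    unfold Theta
    rw [dif_pos rfl]
    apply P1_split h0 _ (hu _)
    apply (SA M').sum_mem
    intro a _
    exact mul_mem_SA (hu _) ((SA M').sub_mem (e_mem (M'.inv_mem (h1 _ a.2)))
        (e_mem (newY_mem h2 hy h0 h1 _)))
  · show P0 M' (y i₀) (Theta y i₀ u a) = _
    unfold Theta
    rw [dif_neg a.2]
    exact P0_split h0 (hu _) (mul_mem_SA (hu _) (e_mem (M'.inv_mem (h1 _ a.2))))
  · show P1 M' (y i₀) (Theta y i₀ u a) * e (y a) = _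
    unfold Theta
    rw [dif_neg a.2, P1_split h0 (hu _) (mul_mem_SA (hu _) (e_mem (M'.inv_mem (h1 _ a.2)))),
      mul_assoc, e_inv_mul, mul_one]

theorem Theta_sum [Fintype ι] [DecidableEq ι] 
    (u : Option ({a // a ≠ i₀} ⊕ {a // a ≠ i₀}) → GA G) :
    ∑ i, Theta y i₀ u i * (e (y i) - 1) = ∑ j, u j * (e (newY y i₀ j) - 1) := by
  rw [sum_option, sum_split (i₀ := i₀)]
  have ha : ∀ a : {a // a ≠ i₀}, Theta y i₀ u a * (e (y a) - 1) =
      u (some (Sum.inl a)) * (e (newY y i₀ (some (Sum.inl a))) - 1) +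
      (u (some (Sum.inr a)) * (e (newY y i₀ (some (Sum.inr a))) - 1) -
      u (some (Sum.inr a)) * (e (y a)⁻¹ - e (newY y i₀ (some (Sum.inr a)))) * (e (y i₀) - 1)) := by
    intro a
    unfold Theta
    rw [dif_neg a.2]
    show _ = u (some (Sum.inl a)) * (e (y a) - 1) + _
    have h3 : e (y a)⁻¹ * e (y i₀) * e (y a) =
        e (newY y i₀ (some (Sum.inr a))) * e (y i₀) := by
      show _ = e ((y a)⁻¹ * (y i₀ * y a * (y i₀)⁻¹)) * e (y i₀)
      rw [← e_mul, ← e_mul, ← e_mul]; congr 1; group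
    have h4 : e (y a)⁻¹ * (e (y i₀) - 1) * (e (y a) - 1) =
        (e (newY y i₀ (some (Sum.inr a))) - 1) -
          (e (y a)⁻¹ - e (newY y i₀ (some (Sum.inr a)))) * (e (y i₀) - 1) := by
      have : e (y a)⁻¹ * (e (y i₀) - 1) * (e (y a) - 1) =
        e (y a)⁻¹ * e (y i₀) * e (y a) - e (y a)⁻¹ * e (y a) - e (y a)⁻¹ * (e (y i₀) - 1) := by
        noncomm_ring
      rw [this, h3, e_inv_mul]
      noncomm_ring
    have h5 : (u (some (Sum.inl a)) + u (some (Sum.inr a)) * e (y a)⁻¹ * (e (y i₀) - 1)) *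
        (e (y a) - 1) = u (some (Sum.inl a)) * (e (y a) - 1) +
        u (some (Sum.inr a)) * (e (y a)⁻¹ * (e (y i₀) - 1) * (e (y a) - 1)) := by noncomm_ring
    show (u (some (Sum.inl a)) + u (some (Sum.inr a)) * e (y a)⁻¹ * (e (y i₀) - 1)) *
        (e (y a) - 1) = _
    rw [h5, h4]
    noncomm_ring
  rw [Finset.sum_congr rfl (fun a _ => ha a)]
  simp only [Finset.sum_add_distrib, Finset.sum_sub_distrib]
  have h6 : Theta y i₀ u i₀ * (e (y i₀) - 1) =
      (∑ a : {a // a ≠ i₀}, u (some (Sum.inr a)) *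
        (e (y a)⁻¹ - e (newY y i₀ (some (Sum.inr a)))) * (e (y i₀) - 1)) +
      u none * (e (newY y i₀ none) - 1) := by
    unfold Theta
    rw [dif_pos rfl, add_mul, Finset.sum_mul]
    congr 1
    show _ = u none * (e (y i₀ * y i₀) - 1)
    have h3 : (e (y i₀) - 1) * (e (y i₀) - 1) = e (y i₀ * y i₀) - 1 := by
      rw [e_mul, sub_mul, mul_sub, one_mul, mul_one]
      have h := add_self (e (y i₀))
      have h' : e (y i₀) * e (y i₀) - e (y i₀) - (e (y i₀) - 1) =
        e (y i₀) * e (y i₀) + 1 - (e (y i₀) + e (y i₀)) := by abel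
      rw [h', h, sub_zero, sub_eq]
    rw [mul_assoc, h3]
  rw [h6]
  abel

theorem P_J [Fintype ι] [DecidableEq ι] (hM : Subgroup.closure (Set.range y) = M)
    (h2 : Idx2 M M') (h0 : y i₀ ∉ M')
    (h1 : ∀ i, i ≠ i₀ → y i ∈ M') {n : ℕ} {v : GA G} (hv : J M y d n v) :
    J M' (newY y i₀) (newD d i₀) n (P0 M' (y i₀) v) ∧
      J M' (newY y i₀) (newD d i₀) (n - d i₀) (P1 M' (y i₀) v) := by
  have hy : ∀ i, y i ∈ M := fun i => hM ▸ Subgroup.subset_closure ⟨i, rfl⟩
  obtain ⟨b, c, hb, hc, h⟩ := J_split hM h2 h0 h1 hv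
  have hb' : b ∈ SA M' := J_SA (fun j => newY_mem h2 hy h0 h1 j) hb
  have hc' : c ∈ SA M' := J_SA (fun j => newY_mem h2 hy h0 h1 j) hc
  rw [h, P0_split h0 hb' hc', P1_split h0 hb' hc']
  exact ⟨hb, hc⟩

theorem newJ_iff [Fintype ι] [DecidableEq ι] (hM : Subgroup.closure (Set.range y) = M)
    (h2 : Idx2 M M') (h0 : y i₀ ∉ M')
    (h1 : ∀ i, i ≠ i₀ → y i ∈ M') (n : ℕ) (v : GA G) :
    J M' (newY y i₀) (newD d i₀) n v ↔ J M y d n v ∧ v ∈ SA M' := by
  have hy : ∀ i, y i ∈ M := fun i => hM ▸ Subgroup.subset_closure ⟨i, rfl⟩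
  constructor
  · intro h
    exact ⟨J_of_J' hM h2 h, J_SA (fun j => newY_mem h2 hy h0 h1 j) h⟩
  · rintro ⟨h, hv⟩
    have h3 := (P_J hM h2 h0 h1 h).1
    have h4 : P0 M' (y i₀) v = v := by
      have := P0_split (M' := M') h0 hv (SA M').zero_mem
      rwa [zero_mul, add_zero] at this
    rwa [h4] at h3

/-- The weighted presentation of the subgroup of index two, when all generators but one lie
in it. -/
noncomputable def Data.sub (D : Data M) (h2 : Idx2 M M') {i₀ : D.ι} (h0 : D.y i₀ ∉ M')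
    (h1 : ∀ i, i ≠ i₀ → D.y i ∈ M') : Data M' where
  ι := Option ({a // a ≠ i₀} ⊕ {a // a ≠ i₀})
  κ := D.κ ⊕ D.κ
  y := newY D.y i₀
  d := newD D.d i₀
  ρ := fun k => match k with
    | Sum.inl k => Psi M' D.y i₀ (D.ρ k)
    | Sum.inr k => Psi M' D.y i₀ (fun i => (e (D.y i₀) - 1) * D.ρ k i)
  r := fun k => match k with
    | Sum.inl k => D.r k
    | Sum.inr k => D.r k + D.d i₀
  d_pos := by
    intro j
    rcases j with _ | (a | a)
    · have := D.d_pos i₀
      show 1 ≤ D.d i₀ + D.d i₀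
      omega
    · exact D.d_pos a
    · have := D.d_pos a
      show 1 ≤ D.d a + D.d i₀
      omega
  hy := closure_newY h2 D.hy h0 h1
  hρ := by
    intro k j
    have hgen : ∀ (m : ℕ) (v : D.ι → GA G), (∀ i, Helper30.J M D.y D.d (m - D.d i) (v i)) →
        ∀ j, Helper30.J M' (newY D.y i₀) (newD D.d i₀) (m - newD D.d i₀ j)
          (Psi M' D.y i₀ v j) := by
      intro m v hv j
      rcases j with _ | (a | a)
      · have := (P_J D.hy h2 h0 h1 (hv i₀)).2
        rw [Nat.sub_sub] at this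
        exact this
      · exact (P_J D.hy h2 h0 h1 (hv a)).1
      · have := (P_J D.hy h2 h0 h1 (hv a)).2
        rw [Nat.sub_sub] at this
        exact J_rmul this (e_mem (h1 _ a.2))
    rcases k with k | k
    · exact hgen (D.r k) (D.ρ k) (D.hρ k) j
    · apply hgen (D.r k + D.d i₀)
      intro i
      exact J_mono (by omega) (J.gen i₀ (D.hρ k i))
  rel := by
    intro k
    rcases k with k | k
    · exact Psi_rel h2 D.y_mem h0 h1 (D.ρ k) (D.ρ_mem k) (D.rel k)
    · apply Psi_rel h2 D.y_mem h0 h1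
      · intro i
        exact mul_mem_SA (e_sub_one_mem (D.y_mem _)) (D.ρ_mem k i)
      · simp only [mul_assoc]
        rw [← Finset.mul_sum, D.rel k, mul_zero]
  gen := by
    intro u hu hu0
    have hv := Theta_mem h2 D.y_mem h0 h1 u hu
    have hv0 : ∑ i, Theta D.y i₀ u i * (e (D.y i) - 1) = 0 := by rw [Theta_sum, hu0]
    obtain ⟨a, ha, ha'⟩ := D.gen _ hv hv0
    refine ⟨fun k => match k with
      | Sum.inl k => P0 M' (D.y i₀) (a k)
      | Sum.inr k => P1 M' (D.y i₀) (a k), ?_, ?_⟩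
    · intro k
      rcases k with k | k
      · exact P0_mem _
      · exact P1_mem _
    · intro j
      rw [Fintype.sum_sum_type]
      have h3 : Theta D.y i₀ u = fun i => ∑ k, (P0 M' (D.y i₀) (a k) * D.ρ k i +
          P1 M' (D.y i₀) (a k) * ((e (D.y i₀) - 1) * D.ρ k i)) := by
        funext i
        rw [ha' i]
        apply Finset.sum_congr rfl
        intro k _
        conv_lhs => rw [eq_P0_P1 h2 (D.y_mem i₀) h0 (ha k)]
        rw [add_mul, mul_assoc]
      rw [← Psi_Theta h2 D.y_mem h0 h1 u hu j, h3, Psi_sum, ← Finset.sum_add_distrib]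
      apply Finset.sum_congr rfl
      intro k _
      rw [Psi_add, Psi_mul (P0_mem _), Psi_mul (P1_mem _)]

end step

end Pool.Agent.Helper30
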