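import Pool.Agent.Helper30.GS3

/-!
# Existence of index two subgroups and the descending chain
-/

set_option autoImplicit false

namespace Pool.Agent.Helper30

variable {G : Type} [Group G]

section numeric

theorem half_pow_eq (N x : ℕ) (hx : x ≤ N) :
    (1 / 2 : ℝ) ^ x = (1 / 2 : ℝ) ^ (N + 1) +
      ∑ n ∈ Finset.range (N + 1), if x ≤ n then (1 / 2 : ℝ) ^ (n + 1) else 0 := by
  induction N, hx using Nat.le_induction with
  | base =>
    rw [Finset.sum_range_succ, if_pos le_rfl]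
    have : ∑ n ∈ Finset.range x, (if x ≤ n then (1 / 2 : ℝ) ^ (n + 1) else 0) = 0 := by
      apply Finset.sum_eq_zero
      intro n hn
      rw [Finset.mem_range] at hn
      rw [if_neg (by omega)]
    rw [this]
    ring
  | succ N hN ih =>
    rw [Finset.sum_range_succ, if_pos (by omega), ih]
    ring

theorem sum_half_le {ι κ : Type} [Fintype ι] [Fintype κ] (d : ι → ℕ) (r : κ → ℕ)
    (h : ∀ n, (Finset.univ.filter (fun i => d i ≤ n)).card ≤
      (Finset.univ.filter (fun k => r k ≤ n)).card) :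
    ∑ i, (1 / 2 : ℝ) ^ d i ≤ ∑ k, (1 / 2 : ℝ) ^ r k := by
  obtain ⟨N, hN1, hN2⟩ : ∃ N, (∀ i, d i ≤ N) ∧ ∀ k, r k ≤ N := by
    refine ⟨(∑ i, d i) + ∑ k, r k, fun i => ?_, fun k => ?_⟩
    · have := Finset.single_le_sum (f := d) (fun i _ => Nat.zero_le _) (Finset.mem_univ i)
      omega
    · have := Finset.single_le_sum (f := r) (fun i _ => Nat.zero_le _) (Finset.mem_univ k)
      omega
  have key : ∀ (α : Type) [Fintype α] (f : α → ℕ) (_ : ∀ a, f a ≤ N),
      ∑ a, (1 / 2 : ℝ) ^ f a = (Fintype.card α : ℝ) * (1 / 2 : ℝ) ^ (N + 1) +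
        ∑ n ∈ Finset.range (N + 1), ((Finset.univ.filter (fun a => f a ≤ n)).card : ℝ) *
          (1 / 2 : ℝ) ^ (n + 1) := by
    intro α _ f hf
    rw [Finset.sum_congr rfl (fun a _ => half_pow_eq N (f a) (hf a)), Finset.sum_add_distrib,
      Finset.sum_const, Finset.card_univ, nsmul_eq_mul, Finset.sum_comm]
    congr 1
    apply Finset.sum_congr rfl
    intro n _
    rw [← Finset.sum_filter, Finset.sum_const, nsmul_eq_mul]
  rw [key ι d hN1, key κ r hN2]
  have hcard : Fintype.card ι ≤ Fintype.card κ := by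
    have := h N
    rw [Finset.filter_true_of_mem (fun i _ => hN1 i),
      Finset.filter_true_of_mem (fun i _ => hN2 i)] at this
    exact this
  apply add_le_add
  · apply mul_le_mul_of_nonneg_right _ (by positivity)
    exact_mod_cast hcard
  · apply Finset.sum_le_sum
    intro n _
    apply mul_le_mul_of_nonneg_right _ (by positivity)
    exact_mod_cast h n

end numeric

section exist

variable {M : Subgroup G}

theorem Data.eps_J (D : Data M) {n : ℕ} {a : GA G} (h : D.J n a) (hn : n ≠ 0) : eps a = 0 :=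
  Helper30.eps_J D.hy h hn

theorem Data.J_one (D : Data M) {g : G} (hg : g ∈ M) : D.J 1 (e g - 1) := by
  obtain ⟨b, hb, hb'⟩ := closure_decomp (M := M) D.y_mem (D.hy.symm ▸ hg)
  rw [hb']
  apply J_sum
  intro i _
  exact J_mono (D.d_pos i) (J_lmul (hb i) (J_gen i))

theorem card_le_of_perfect (D : Data M) (h : ∀ n, ∀ g ∈ M, D.J n (e g - 1)) (n : ℕ) :
    (Finset.univ.filter (fun i => D.d i ≤ n)).card ≤
      (Finset.univ.filter (fun k => D.r k ≤ n)).card := by
  classical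
  have h1 : ∀ i' : D.ι, ∃ a : D.κ → GA G, ∀ j, D.d j ≤ n →
      ∑ k, eps (a k) * eps (D.ρ k j) = if j = i' then 1 else 0 := by
    intro i'
    have h2 : eps (e (D.y i') - 1) = 0 := by rw [map_sub, eps_e, map_one, sub_self]
    obtain ⟨b, hb, hb'⟩ := J_decomp D.hy (h (n + 1) _ (D.y_mem i')) h2
    have hv : ∀ j, ((if j = i' then 1 else 0) - b j : GA G) ∈ SA M := by
      intro j
      apply (SA M).sub_mem _ (J_SA D.y_mem (hb j))
      split_ifs
      · exact one_mem_SA M
      · exact (SA M).zero_mem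
    have hv0 : ∑ j, ((if j = i' then 1 else 0) - b j : GA G) * (e (D.y j) - 1) = 0 := by
      simp only [sub_mul, Finset.sum_sub_distrib, ite_mul, one_mul, zero_mul,
        Finset.sum_ite_eq', Finset.mem_univ, if_true]
      rw [← hb']
      simp
    obtain ⟨a, -, ha'⟩ := D.gen _ hv hv0
    refine ⟨a, fun j hj => ?_⟩
    have h3 : eps (b j) = 0 := D.eps_J (hb j) (by omega)
    have h4 := congrArg eps (ha' j)
    rw [map_sub, h3, sub_zero, map_sum] at h4
    simp only [map_mul] at h4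
    rw [← h4]
    split_ifs
    · exact map_one _
    · exact map_zero _
  choose a ha using h1
  let F : ({k // D.r k ≤ n} → ZMod 2) → ({i // D.d i ≤ n} → ZMod 2) := fun c i =>
    ∑ k : {k // D.r k ≤ n}, c k * eps (D.ρ k i)
  have hF : Function.Surjective F := by
    intro w
    refine ⟨fun k => ∑ i' : {i // D.d i ≤ n}, w i' * eps (a i' k), ?_⟩
    funext j
    show ∑ k : {k // D.r k ≤ n}, (∑ i' : {i // D.d i ≤ n}, w i' * eps (a i' k)) *
      eps (D.ρ k j) = w j
    simp only [Finset.sum_mul]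
    rw [Finset.sum_comm]
    have h5 : ∀ i' : {i // D.d i ≤ n}, ∑ k : {k // D.r k ≤ n},
        w i' * eps (a i' k) * eps (D.ρ k j) = if j = i' then w i' else 0 := by
      intro i'
      have h6 := ha i' j j.2
      have h7 : ∑ k : {k // D.r k ≤ n}, eps (a i' k) * eps (D.ρ k j) =
          ∑ k, eps (a i' k) * eps (D.ρ k j) := by
        rw [← Finset.sum_subtype (Finset.univ.filter (fun k => D.r k ≤ n)) (by simp)
          (fun k => eps (a i' k) * eps (D.ρ k j)), Finset.sum_filter]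
        apply Finset.sum_congr rfl
        intro k _
        by_cases hk : D.r k ≤ n
        · rw [if_pos hk]
        · rw [if_neg hk, D.eps_J (D.hρ k j) (by have := j.2; omega), mul_zero]
      simp only [mul_assoc]
      rw [← Finset.mul_sum, h7, h6]
      by_cases hj : j = i'
      · rw [if_pos hj, if_pos (by rw [hj]), mul_one]
      · rw [if_neg hj, if_neg (fun h => hj (Subtype.ext h)), mul_zero]
    rw [Finset.sum_congr rfl (fun i' _ => h5 i')]
    simp
  have hcard := Fintype.card_le_of_surjective F hF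
  rw [Fintype.card_fun, Fintype.card_fun, ZMod.card,
    Nat.pow_le_pow_iff_right (by norm_num)] at hcard
  rwa [Fintype.card_subtype, Fintype.card_subtype] at hcard

theorem exists_not_J (D : Data M) (h : 0 < D.tot) : ∃ n, ∃ g ∈ M, ¬ D.J n (e g - 1) := by
  by_contra hcon
  push Not at hcon
  have := sum_half_le D.d D.r (card_le_of_perfect D hcon)
  unfold Data.tot at h
  linarith

theorem exists_level (D : Data M) (h : 0 < D.tot) :
    ∃ n, 1 ≤ n ∧ (∀ g ∈ M, D.J n (e g - 1)) ∧ ∃ g ∈ M, ¬ D.J (n + 1) (e g - 1) := by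
  classical
  have hex := exists_not_J D h
  set m := Nat.find hex with hm
  have h1 : ∃ g ∈ M, ¬ D.J m (e g - 1) := Nat.find_spec hex
  have h2 : ∀ k < m, ∀ g ∈ M, D.J k (e g - 1) := by
    intro k hk g hg
    have := Nat.find_min hex hk
    push Not at this
    exact this g hg
  have h3 : 2 ≤ m := by
    by_contra hlt
    obtain ⟨g, hg, hg'⟩ := h1
    exact hg' (J_mono (by omega) (D.J_one hg))
  refine ⟨m - 1, by omega, h2 (m - 1) (by omega), ?_⟩
  have : m - 1 + 1 = m := by omega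
  rw [this]; exact h1

/-- `J n` as a submodule. -/
def JM {ι : Type} (M : Subgroup G) (y : ι → G) (d : ι → ℕ) (n : ℕ) :
    Submodule (ZMod 2) (GA G) where
  carrier := {a | J M y d n a}
  zero_mem' := J.zero n
  add_mem' := J.add
  smul_mem' := by
    intro c a ha
    rcases z2_cases c with rfl | rfl
    · rw [zero_smul]; exact J.zero n
    · rw [one_smul]; exact ha

theorem exists_idx2 (D : Data M) {n : ℕ} (hn1 : 1 ≤ n) (hn : ∀ g ∈ M, D.J n (e g - 1))
    (hne : ∃ g ∈ M, ¬ D.J (n + 1) (e g - 1)) :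
    ∃ M' : Subgroup G, Idx2 M M' ∧ (∃ g ∈ M, g ∉ M') ∧
      ∀ g ∈ M, D.J (n + 1) (e g - 1) → g ∈ M' := by
  obtain ⟨g₀, hg₀, hg₀'⟩ := hne
  obtain ⟨f, hf, hker⟩ := Submodule.exists_le_ker_of_notMem
    (p := JM M D.y D.d (n + 1)) (v := e g₀ - 1) hg₀'
  have hf0 : ∀ a, D.J (n + 1) a → f a = 0 := fun a ha => LinearMap.mem_ker.1 (hker ha)
  have hmul : ∀ g ∈ M, ∀ h ∈ M, f (e (g * h) - 1) = f (e g - 1) + f (e h - 1) := by
    intro g hg h hh
    have h1 : e (g * h) - 1 = (e g - 1) + (e h - 1) + (e g - 1) * (e h - 1) := by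
      rw [e_mul]; noncomm_ring
    have h2 : f ((e g - 1) * (e h - 1)) = 0 := by
      apply hf0
      exact J_mono (by omega) (J_mul (hn g hg) (hn h hh))
    rw [h1, map_add, map_add, h2, add_zero]
  refine ⟨{ carrier := {g | g ∈ M ∧ f (e g - 1) = 0}
            one_mem' := ⟨M.one_mem, by rw [e_one, sub_self, map_zero]⟩
            mul_mem' := ?_
            inv_mem' := ?_ }, ⟨?_, ?_⟩, ?_, ?_⟩
  · rintro g h ⟨hg, hg'⟩ ⟨hh, hh'⟩
    exact ⟨M.mul_mem hg hh, by rw [hmul g hg h hh, hg', hh', add_zero]⟩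
  · rintro g ⟨hg, hg'⟩
    refine ⟨M.inv_mem hg, ?_⟩
    have := hmul g hg g⁻¹ (M.inv_mem hg)
    rw [mul_inv_cancel, e_one, sub_self, map_zero, hg', zero_add] at this
    exact this.symm
  · rintro g ⟨hg, -⟩; exact hg
  · intro g hg h hh hg' hh'
    have h1 : f (e g - 1) = 1 := z2_ne_zero (fun h => hg' ⟨hg, h⟩)
    have h2 : f (e h - 1) = 1 := z2_ne_zero (fun h => hh' ⟨hh, h⟩)
    exact ⟨M.mul_mem hg hh, by rw [hmul g hg h hh, h1, h2]; decide⟩
  · exact ⟨g₀, hg₀, fun h => hf h.2⟩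
  · intro g hg h
    exact ⟨hg, hf0 _ h⟩

/-- The relation between a weighted presentation and its restriction to the next subgroup of
index two. -/
structure Step {M M' : Subgroup G} (D : Data M) (D' : Data M') (n k : ℕ) : Prop where
  n_pos : 1 ≤ n
  hn : ∀ g ∈ M, D.J n (e g - 1)
  idx : Idx2 M M'
  ne : ∃ g ∈ M, g ∉ M'
  ker : ∀ g ∈ M, D.J (n + 1) (e g - 1) → g ∈ M'
  hJ : ∀ m a, D'.J m a ↔ D.J m a ∧ a ∈ SA M'
  k_pos : 1 ≤ k
  kn : k ≤ n
  tot : D'.tot - 1 = (1 + (1 / 2 : ℝ) ^ k) * (D.tot - 1)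
  cnt_lt : ∀ m < k, D'.cnt m = D.cnt m
  cnt_eq : D'.cnt k + 1 = D.cnt k

theorem sub_tot {M' : Subgroup G} (D : Data M) (h2 : Idx2 M M') {i₀ : D.ι} (h0 : D.y i₀ ∉ M')
    (h1 : ∀ i, i ≠ i₀ → D.y i ∈ M') :
    (D.sub h2 h0 h1).tot - 1 = (1 + (1 / 2 : ℝ) ^ D.d i₀) * (D.tot - 1) := by
  have e1 : ∑ j : (D.sub h2 h0 h1).ι, (1 / 2 : ℝ) ^ (D.sub h2 h0 h1).d j =
      (1 / 2 : ℝ) ^ (D.d i₀ + D.d i₀) + (∑ a : {a // a ≠ i₀}, (1 / 2 : ℝ) ^ D.d a +
        ∑ a : {a // a ≠ i₀}, (1 / 2 : ℝ) ^ (D.d a + D.d i₀)) := by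
    exact sum_option (i₀ := i₀) (fun j => (1 / 2 : ℝ) ^ newD D.d i₀ j)
  have e2 : ∑ k : (D.sub h2 h0 h1).κ, (1 / 2 : ℝ) ^ (D.sub h2 h0 h1).r k =
      ∑ k, (1 / 2 : ℝ) ^ D.r k + ∑ k, (1 / 2 : ℝ) ^ (D.r k + D.d i₀) :=
    Fintype.sum_sum_type _
  have e3 : ∑ i, (1 / 2 : ℝ) ^ D.d i = (1 / 2 : ℝ) ^ D.d i₀ +
      ∑ a : {a // a ≠ i₀}, (1 / 2 : ℝ) ^ D.d a := sum_split (i₀ := i₀) _
  unfold Data.tot
  rw [e1, e2, e3]
  simp only [pow_add]
  rw [← Finset.sum_mul, ← Finset.sum_mul]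
  ring

theorem cnt_newD {ι : Type} [Fintype ι] [DecidableEq ι] (d : ι → ℕ) (i₀ : ι) (m : ℕ) :
    (Finset.univ.filter (fun j => newD d i₀ j = m)).card =
      (if d i₀ + d i₀ = m then 1 else 0) +
      ((Finset.univ.filter (fun a : {a // a ≠ i₀} => d a = m)).card +
      (Finset.univ.filter (fun a : {a // a ≠ i₀} => d a + d i₀ = m)).card) := by
  rw [Finset.card_filter, sum_option, Finset.card_filter, Finset.card_filter]
  rfl

theorem cnt_split {ι : Type} [Fintype ι] [DecidableEq ι] (d : ι → ℕ) (i₀ : ι) (m : ℕ) :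
    (Finset.univ.filter (fun j => d j = m)).card =
      (if d i₀ = m then 1 else 0) +
      (Finset.univ.filter (fun a : {a // a ≠ i₀} => d a = m)).card := by
  rw [Finset.card_filter, sum_split (i₀ := i₀), Finset.card_filter]

theorem exists_step (D : Data M) (h : 0 < D.tot) :
    ∃ (M' : Subgroup G) (D' : Data M') (n k : ℕ), Step D D' n k := by
  classical
  obtain ⟨n, hn1, hn, hne⟩ := exists_level D h
  obtain ⟨M', h2, hne', hker⟩ := exists_idx2 D hn1 hn hne
  -- the generators outside `M'`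
  have hex : ∃ i, D.y i ∉ M' := by
    by_contra hcon
    push Not at hcon
    obtain ⟨g, hg, hg'⟩ := hne'
    apply hg'
    have : Subgroup.closure (Set.range D.y) ≤ M' := by
      rw [Subgroup.closure_le]; rintro _ ⟨i, rfl⟩; exact hcon i
    exact this (D.hy.symm ▸ hg)
  obtain ⟨i₀, hi₀, hmax⟩ := Finset.exists_max_image (Finset.univ.filter (fun i => D.y i ∉ M'))
    D.d (by obtain ⟨i, hi⟩ := hex; exact ⟨i, by simpa using hi⟩)
  have hi₀' : D.y i₀ ∉ M' := by simpa using hi₀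
  have hmax' : ∀ i, D.y i ∉ M' → D.d i ≤ D.d i₀ := fun i hi => hmax i (by simpa using hi)
  set S : Finset D.ι := Finset.univ.filter (fun i => D.y i ∉ M' ∧ i ≠ i₀) with hS
  have h0S : i₀ ∉ S := by simp [hS]
  have hdS : ∀ i ∈ S, D.d i ≤ D.d i₀ := by
    intro i hi
    have : D.y i ∉ M' ∧ i ≠ i₀ := by simpa [hS] using hi
    exact hmax' i this.1
  set E := D.change h0S hdS with hE
  have hEJ : ∀ m a, E.J m a ↔ D.J m a := fun m a => ch_J h0S hdS
  have hE0 : E.y i₀ ∉ M' := by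
    have : E.y i₀ = D.y i₀ := by
      show chY D i₀ S i₀ = D.y i₀
      unfold chY; rw [if_neg h0S]
    rw [this]; exact hi₀'
  have hE1 : ∀ i, i ≠ i₀ → E.y i ∈ M' := by
    intro i hi
    show chY D i₀ S i ∈ M'
    unfold chY
    by_cases hiM : D.y i ∈ M'
    · have : i ∉ S := by simp [hS, hiM]
      rw [if_neg this]; exact hiM
    · have : i ∈ S := by simp [hS, hiM, hi]
      rw [if_pos this]
      exact h2.mul_mem _ (D.y_mem _) _ (D.y_mem _) hiM hi₀'
  refine ⟨M', E.sub h2 hE0 hE1, n, D.d i₀, ?_⟩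
  have hcnt : ∀ m, (E.sub h2 hE0 hE1).cnt m = (if D.d i₀ + D.d i₀ = m then 1 else 0) +
      ((Finset.univ.filter (fun a : {a // a ≠ i₀} => D.d a = m)).card +
      (Finset.univ.filter (fun a : {a // a ≠ i₀} => D.d a + D.d i₀ = m)).card) := by
    intro m
    exact cnt_newD D.d i₀ m
  have hcnt' : ∀ m, D.cnt m = (if D.d i₀ = m then 1 else 0) +
      (Finset.univ.filter (fun a : {a // a ≠ i₀} => D.d a = m)).card :=
    fun m => cnt_split D.d i₀ m
  have hzero : ∀ m ≤ D.d i₀, (Finset.univ.filter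
      (fun a : {a // a ≠ i₀} => D.d a + D.d i₀ = m)).card = 0 := by
    intro m hm
    rw [Finset.card_eq_zero, Finset.filter_eq_empty_iff]
    intro a _
    have := D.d_pos a
    omega
  have hpos := D.d_pos i₀
  exact {
    n_pos := hn1
    hn := hn
    idx := h2
    ne := hne'
    ker := hker
    hJ := by
      intro m a
      rw [← hEJ]
      exact newJ_iff E.hy h2 hE0 hE1 m a
    k_pos := D.d_pos i₀
    kn := by
      by_contra hlt
      apply hi₀'
      exact hker _ (D.y_mem _) (J_mono (by omega) (J_gen i₀))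
    tot := sub_tot E h2 hE0 hE1
    cnt_lt := by
      intro m hm
      rw [hcnt, hcnt', hzero m (by omega), if_neg (by omega), if_neg (by omega), add_zero]
    cnt_eq := by
      rw [hcnt, hcnt', hzero _ le_rfl, if_neg (by omega), if_pos rfl, add_zero, zero_add,
        add_comm] }

end exist

end Pool.Agent.Helper30
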