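import Pool.Agent.Helper30.GS4

/-!
# The descending chain of subgroups of index two
-/

set_option autoImplicit false

namespace Pool.Agent.Helper30

variable {G : Type} [Group G]

/-- An infinite descending chain of weighted presentations. -/
structure Chain (G : Type) [Group G] where
  s : ℕ → Σ M : Subgroup G, Data M
  n : ℕ → ℕ
  k : ℕ → ℕ
  step : ∀ j, Step (s j).2 (s (j + 1)).2 (n j) (k j)
  pos : ∀ j, 1 < (s j).2.tot

theorem exists_chain {M : Subgroup G} (D : Data M) (h : 1 < D.tot) :
    ∃ C : Chain G, C.s 0 = ⟨M, D⟩ := by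
  have next : ∀ x : {x : Σ M : Subgroup G, Data M // 1 < x.2.tot},
      ∃ (x' : {x : Σ M : Subgroup G, Data M // 1 < x.2.tot}) (n k : ℕ),
        Step x.1.2 x'.1.2 n k := by
    rintro ⟨⟨M, D⟩, hD⟩
    obtain ⟨M', D', n, k, hs⟩ := exists_step D (by linarith)
    refine ⟨⟨⟨M', D'⟩, ?_⟩, n, k, hs⟩
    have h1 := hs.tot
    have h2 : 0 < (1 + (1 / 2 : ℝ) ^ k) * (D.tot - 1) := by
      apply mul_pos (by positivity)
      have : 1 < D.tot := hD
      linarith
    show 1 < D'.tot
    linarith
  choose nx n k hx using next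
  let sq : ℕ → {x : Σ M : Subgroup G, Data M // 1 < x.2.tot} := fun j =>
    Nat.rec ⟨⟨M, D⟩, h⟩ (fun _ x => nx x) j
  exact ⟨⟨fun j => (sq j).1, fun j => n (sq j), fun j => k (sq j), fun j => hx (sq j),
    fun j => (sq j).2⟩, rfl⟩

namespace Chain

variable (C : Chain G)

/-- The subgroups of the chain. -/
def M (j : ℕ) : Subgroup G := (C.s j).1

/-- The weighted presentations of the chain. -/
def D (j : ℕ) : Data (C.M j) := (C.s j).2

theorem st (j : ℕ) : Step (C.D j) (C.D (j + 1)) (C.n j) (C.k j) := C.step j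

theorem M_succ_le (j : ℕ) : C.M (j + 1) ≤ C.M j := (C.st j).idx.le

theorem M_le {i j : ℕ} (h : i ≤ j) : C.M j ≤ C.M i := by
  induction j, h using Nat.le_induction with
  | base => exact le_rfl
  | succ j _ ih => exact (C.M_succ_le j).trans ih

theorem J_iff' {i j : ℕ} (h : i ≤ j) (m : ℕ) (a : GA G) :
    (C.D j).J m a ↔ (C.D i).J m a ∧ a ∈ SA (C.M j) := by
  induction j, h using Nat.le_induction with
  | base => exact ⟨fun h => ⟨h, J_SA (C.D i).y_mem h⟩, fun h => h.1⟩
  | succ j hj ih =>
    rw [(C.st j).hJ, ih]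
    constructor
    · rintro ⟨⟨h1, -⟩, h3⟩; exact ⟨h1, h3⟩
    · rintro ⟨h1, h3⟩; exact ⟨⟨h1, SA_mono (C.M_succ_le j) h3⟩, h3⟩

theorem J_of {i j : ℕ} (h : i ≤ j) {m : ℕ} {a : GA G} (ha : (C.D j).J m a) : (C.D i).J m a :=
  ((C.J_iff' h m a).1 ha).1

theorem n_mono_succ (j : ℕ) : C.n j ≤ C.n (j + 1) := by
  by_contra hlt
  push Not at hlt
  obtain ⟨g, hg, hg'⟩ := (C.st (j + 1)).ne
  apply hg'
  apply (C.st (j + 1)).ker g hg
  rw [(C.st j).hJ]
  refine ⟨?_, e_sub_one_mem hg⟩
  exact J_mono (by omega) ((C.st j).hn g (C.M_succ_le j hg))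

theorem n_mono {i j : ℕ} (h : i ≤ j) : C.n i ≤ C.n j := by
  induction j, h using Nat.le_induction with
  | base => exact le_rfl
  | succ j _ ih => exact ih.trans (C.n_mono_succ j)

theorem eventually_k (m : ℕ) : ∃ J, ∀ j, J ≤ j → m < C.k j := by
  induction m with
  | zero => exact ⟨0, fun j _ => (C.st j).k_pos⟩
  | succ m ih =>
    obtain ⟨J, hJ⟩ := ih
    have key : ∀ c : ℕ, ∀ J', J ≤ J' → (C.D J').cnt (m + 1) = c →
        ∃ J'', ∀ j, J'' ≤ j → m + 1 < C.k j := by
      intro c
      induction c with
      | zero =>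
        intro J' hJ' hc
        refine ⟨J', ?_⟩
        have hz : ∀ j, J' ≤ j → (C.D j).cnt (m + 1) = 0 ∧ m + 1 < C.k j := by
          intro j hj
          induction j, hj using Nat.le_induction with
          | base =>
            refine ⟨hc, ?_⟩
            have h1 := hJ J' hJ'
            by_contra hlt
            have h2 : C.k J' = m + 1 := by omega
            have h3 := (C.st J').cnt_eq
            rw [h2, hc] at h3
            omega
          | succ j hj ihj =>
            have h4 := (C.st j).cnt_lt (m + 1) ihj.2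
            rw [ihj.1] at h4
            refine ⟨h4, ?_⟩
            have h1 := hJ (j + 1) (by omega)
            by_contra hlt
            have h2 : C.k (j + 1) = m + 1 := by omega
            have h3 := (C.st (j + 1)).cnt_eq
            rw [h2, h4] at h3
            omega
        exact fun j hj => (hz j hj).2
      | succ c ihc =>
        intro J' hJ' hc
        by_cases hex : ∃ j, J' ≤ j ∧ C.k j = m + 1
        · classical
          -- take the first such `j`
          have hfind := Nat.find_spec hex
          set j₀ := Nat.find hex with hj₀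
          have hmin : ∀ j, J' ≤ j → j < j₀ → C.k j ≠ m + 1 := by
            intro j hj hlt hk
            exact Nat.find_min hex hlt ⟨hj, hk⟩
          have hconst : ∀ j, J' ≤ j → j ≤ j₀ → (C.D j).cnt (m + 1) = c + 1 := by
            intro j hj
            induction j, hj using Nat.le_induction with
            | base => intro _; exact hc
            | succ j hj ihj =>
              intro hle
              have h1 := hJ j (by omega)
              have h2 := hmin j hj (by omega)
              rw [(C.st j).cnt_lt (m + 1) (by omega), ihj (by omega)]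
          have h3 := hconst j₀ hfind.1 le_rfl
          have h4 := (C.st j₀).cnt_eq
          rw [hfind.2, h3] at h4
          exact ihc (j₀ + 1) (by omega) (by omega)
        · push Not at hex
          refine ⟨J', fun j hj => ?_⟩
          have h1 := hJ j (by omega)
          have h2 := hex j hj
          omega
    exact key _ J le_rfl rfl

theorem n_unbounded (N : ℕ) : ∃ j, N < C.n j := by
  obtain ⟨J, hJ⟩ := C.eventually_k N
  exact ⟨J, lt_of_lt_of_le (hJ J le_rfl) (C.st J).kn⟩

theorem mem_iff {j N : ℕ} (h1 : ∀ i < j, C.n i ≤ N) (h2 : N < C.n j) (g : G) :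
    g ∈ C.M j ↔ g ∈ C.M 0 ∧ (C.D 0).J (N + 1) (e g - 1) := by
  constructor
  · intro hg
    refine ⟨C.M_le (Nat.zero_le j) hg, ?_⟩
    exact J_mono (by omega) (C.J_of (Nat.zero_le j) ((C.st j).hn g hg))
  · rintro ⟨hg, hJ⟩
    have : ∀ i, i ≤ j → g ∈ C.M i := by
      intro i
      induction i with
      | zero => intro _; exact hg
      | succ i ih =>
        intro hi
        have hgi := ih (by omega)
        apply (C.st i).ker g hgi
        rw [C.J_iff' (Nat.zero_le i)]
        have := h1 i (by omega)
        exact ⟨J_mono (by omega) hJ, e_sub_one_mem hgi⟩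
    exact this j le_rfl

theorem exists_level_index (j₁ N : ℕ) : ∃ j N', j₁ ≤ j ∧ N ≤ N' ∧ (∀ i < j, C.n i ≤ N') ∧
    N' < C.n j := by
  classical
  have hex := C.n_unbounded (max N (C.n j₁))
  refine ⟨Nat.find hex, max N (C.n j₁), ?_, le_max_left _ _, ?_, Nat.find_spec hex⟩
  · by_contra hlt
    push Not at hlt
    have h1 := Nat.find_spec hex
    have h2 := C.n_mono hlt.le
    have h3 := le_max_right N (C.n j₁)
    omega
  · intro i hi
    have := Nat.find_min hex hi
    omega

theorem index_succ (j : ℕ) : (C.M (j + 1)).index = 2 * (C.M j).index := by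
  have h := (C.st j).idx
  obtain ⟨g, hg, hg'⟩ := (C.st j).ne
  have h1 : (C.M (j + 1)).relIndex (C.M j) = 2 := by
    unfold Subgroup.relIndex
    rw [Subgroup.index_eq_two_iff]
    refine ⟨⟨g, hg⟩, fun b => ?_⟩
    rw [Subgroup.mem_subgroupOf, Subgroup.mem_subgroupOf]
    by_cases hb : (b : G) ∈ C.M (j + 1)
    · right
      refine ⟨hb, fun hc => hg' ?_⟩
      have := (C.M (j + 1)).mul_mem ((C.M (j + 1)).inv_mem hb) hc
      simpa using this
    · left
      exact ⟨h.mul_mem _ b.2 _ hg hb hg', hb⟩
  rw [← h1, Subgroup.relIndex_mul_index h.le]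

theorem index_pow {a : ℕ} (h : (C.M 0).index = 2 ^ a) (j : ℕ) :
    (C.M j).index = 2 ^ (a + j) := by
  induction j with
  | zero => exact h
  | succ j ih => rw [C.index_succ, ih, ← add_assoc, pow_succ]; ring

end Chain

end Pool.Agent.Helper30
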