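import Pool.Agent.Helper30.GS5

/-!
# Invariance, contraction, and generators of a subgroup along the chain
-/

set_option autoImplicit false

namespace Pool.Agent.Helper30

variable {G : Type} [Group G]

section inv

variable {M : Subgroup G}

/-- The filtration is invariant under conjugation by the whole group. -/
structure Data.Inv (D : Data M) : Prop where
  normal : M.Normal
  conj : ∀ (g : G) (n : ℕ) (a : GA G), D.J n a → D.J n (cj g a)

theorem cj_mem_SA (hM : M.Normal) (g : G) {a : GA G} (ha : a ∈ SA M) : cj g a ∈ SA M := by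
  refine SA_induction (P := fun a => cj g a ∈ SA M) ha ?_ ?_ ?_
  · rw [cj_zero]; exact (SA M).zero_mem
  · intro h hh; rw [cj_e]; exact e_mem (hM.conj_mem h hh g)
  · intro a b ha hb; rw [cj_add]; exact (SA M).add_mem ha hb

theorem cj_e_sub_one (g h : G) : cj g (e h - 1) = e (g * h * g⁻¹) - 1 := by
  rw [cj_sub, cj_e, cj_one]

theorem Chain.inv (C : Chain G) (h0 : (C.D 0).Inv) {j N : ℕ} (h1 : ∀ i < j, C.n i ≤ N)
    (h2 : N < C.n j) : (C.D j).Inv := by
  have hnorm : (C.M j).Normal := by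
    constructor
    intro h hh g
    rw [C.mem_iff h1 h2] at hh ⊢
    refine ⟨h0.normal.conj_mem h hh.1 g, ?_⟩
    rw [← cj_e_sub_one]
    exact h0.conj g _ _ hh.2
  refine ⟨hnorm, ?_⟩
  intro g n a ha
  rw [C.J_iff' (Nat.zero_le j)] at ha ⊢
  exact ⟨h0.conj g n a ha.1, cj_mem_SA hnorm g ha.2⟩

theorem J_shift_weak {ι : Type} {y : ι → G} {d : ι → ℕ} (m : ℕ) {n : ℕ} {a : GA G}
    (ha : J M y d n a) : J M y (fun i => d i + m) n a := by
  induction ha with
  | zero n => exact J.zero _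
  | add _ _ ha hb => exact J.add ha hb
  | base hg => exact J.base hg
  | lmul hg _ ih => exact J.lmul hg ih
  | gen i _ ih => exact J_mono (by omega) (J.gen i ih)
  | mono _ ih => exact ih.mono

theorem J_shift {ι : Type} {y : ι → G} {d : ι → ℕ} (m : ℕ) {n : ℕ} {a : GA G}
    (ha : J M y d n a) : n ≠ 0 → J M y (fun i => d i + m) (n + m) a := by
  induction ha with
  | zero n => intro _; exact J.zero _
  | add _ _ ha hb => intro h; exact J.add (ha h) (hb h)
  | base hg => intro h; exact absurd rfl h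
  | lmul hg _ ih => intro h; exact J.lmul hg (ih h)
  | @gen n a i ha ih =>
    intro _
    have := J.gen (M := M) (y := y) (d := fun i => d i + m) i (J_shift_weak m ha)
    exact J_mono (by omega) this
  | mono _ ih => intro h; exact J_mono (by omega) (ih (by omega))

/-- Contraction of the weights by a power of one half. -/
def Data.shift (D : Data M) (m : ℕ) : Data M where
  ι := D.ι
  κ := D.κ
  y := D.y
  d := fun i => D.d i + m
  ρ := D.ρ
  r := fun k => D.r k + m
  d_pos := fun i => by have := D.d_pos i; omega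
  hy := D.hy
  hρ := fun k i => by
    have := J_shift_weak m (D.hρ k i)
    have h2 : D.r k + m - (D.d i + m) = D.r k - D.d i := by omega
    rw [h2]; exact this
  rel := D.rel
  gen := D.gen

theorem shift_tot (D : Data M) (m : ℕ) : (D.shift m).tot = (1 / 2 : ℝ) ^ m * D.tot := by
  show ∑ i, (1 / 2 : ℝ) ^ (D.d i + m) - ∑ k, (1 / 2 : ℝ) ^ (D.r k + m) = _
  unfold Data.tot
  simp only [pow_add]
  rw [← Finset.sum_mul, ← Finset.sum_mul]
  ring

theorem shift_J (D : Data M) (m : ℕ) {n : ℕ} {a : GA G} (h : D.J n a) (hn : n ≠ 0) :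
    (D.shift m).J (n + m) a := J_shift m h hn

theorem shift_inv {D : Data M} (h : D.Inv) (m : ℕ) : (D.shift m).Inv := by
  refine ⟨h.normal, ?_⟩
  intro g n a ha
  have key : ∀ (n : ℕ) (a : GA G), J M D.y (fun i => D.d i + m) n a →
      J M D.y (fun i => D.d i + m) n (cj g a) := by
    intro n a ha
    induction ha with
    | zero n => rw [cj_zero]; exact J.zero _
    | add _ _ ha hb => rw [cj_add]; exact J.add ha hb
    | base hh => rw [cj_e]; exact J.base (h.normal.conj_mem _ hh g)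
    | lmul hh _ ih => rw [cj_mul, cj_e]; exact J.lmul (h.normal.conj_mem _ hh g) ih
    | @gen n a i ha ih =>
      rw [cj_mul, add_comm]
      apply J_mul _ ih
      have h1 : D.J (D.d i) (cj g (e (D.y i) - 1)) := h.conj g _ _ (J_gen i)
      exact J_shift m h1 (by have := D.d_pos i; omega)
    | mono _ ih => exact ih.mono
  exact key n a ha

end inv

section gens

/-- `H ⊓ M` is generated by finitely many elements of total weight at most `w`. -/
def GenW {M : Subgroup G} (D : Data M) (H : Subgroup G) (w : ℝ) : Prop :=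
  ∃ (α : Type) (_ : Fintype α) (z : α → G) (v : α → ℕ),
    Subgroup.closure (Set.range z) = H ⊓ M ∧ (∀ a, D.J (v a) (e (z a) - 1)) ∧
    ∑ a, (1 / 2 : ℝ) ^ v a ≤ w

variable {M M' : Subgroup G} {D : Data M} {D' : Data M'} {n k : ℕ} {H : Subgroup G} {w : ℝ}

theorem GenW.step_le (hs : Step D D' n k) (hg : GenW D H w) (hH : H ⊓ M ≤ M') :
    GenW D' H w := by
  obtain ⟨α, hα, z, v, h1, h2, h3⟩ := hg
  have h4 : H ⊓ M = H ⊓ M' := le_antisymm (le_inf inf_le_left hH)
    (inf_le_inf_left H hs.idx.le)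
  refine ⟨α, hα, z, v, h1.trans h4, fun a => ?_, h3⟩
  rw [hs.hJ]
  refine ⟨h2 a, e_sub_one_mem (hH ?_)⟩
  rw [← h1]
  exact Subgroup.subset_closure ⟨a, rfl⟩

theorem GenW.reassign (hn : ∀ g ∈ M, D.J n (e g - 1)) (hg : GenW D H w) :
    ∃ (α : Type) (_ : Fintype α) (z : α → G) (v : α → ℕ),
    Subgroup.closure (Set.range z) = H ⊓ M ∧ (∀ a, D.J (v a) (e (z a) - 1)) ∧
    (∀ a, n ≤ v a) ∧ ∑ a, (1 / 2 : ℝ) ^ v a ≤ w := by
  obtain ⟨α, hα, z, v, h1, h2, h3⟩ := hg
  have hz : ∀ a, z a ∈ M := fun a =>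
    (h1.le (Subgroup.subset_closure ⟨a, rfl⟩)).2
  refine ⟨α, hα, z, fun a => max (v a) n, h1, fun a => ?_, fun a => le_max_right _ _, ?_⟩
  · show D.J (max (v a) n) (e (z a) - 1)
    rcases le_total (v a) n with h | h
    · rw [max_eq_right h]; exact hn _ (hz a)
    · rw [max_eq_left h]; exact h2 a
  · refine le_trans (Finset.sum_le_sum fun a _ => ?_) h3
    exact pow_le_pow_of_le_one (by norm_num) (by norm_num) (le_max_left _ _)

theorem closure_change {α : Type} (z : α → G) (a₀ : α) (S : Set α) [DecidablePred (· ∈ S)]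
    (h0 : a₀ ∉ S) :
    Subgroup.closure (Set.range (fun a => if a ∈ S then z a * z a₀ else z a)) =
      Subgroup.closure (Set.range z) := by
  set z' : α → G := fun a => if a ∈ S then z a * z a₀ else z a with hz'
  have e0 : z' a₀ = z a₀ := by simp [hz', h0]
  have hmem : ∀ a, z a ∈ Subgroup.closure (Set.range z) := fun a =>
    Subgroup.subset_closure ⟨a, rfl⟩
  have hmem' : ∀ a, z' a ∈ Subgroup.closure (Set.range z') := fun a =>
    Subgroup.subset_closure ⟨a, rfl⟩
  apply le_antisymm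
  · rw [Subgroup.closure_le]
    rintro _ ⟨a, rfl⟩
    show z' a ∈ Subgroup.closure (Set.range z)
    rw [hz']
    by_cases ha : a ∈ S
    · simp only [ha, if_true]; exact Subgroup.mul_mem _ (hmem a) (hmem a₀)
    · simp only [ha, if_false]; exact hmem a
  · rw [Subgroup.closure_le]
    rintro _ ⟨a, rfl⟩
    by_cases ha : a ∈ S
    · have h1 : z' a = z a * z a₀ := by simp [hz', ha]
      have h2 : z a = z' a * (z' a₀)⁻¹ := by rw [h1, e0]; group
      rw [h2]
      exact Subgroup.mul_mem _ (hmem' a) (Subgroup.inv_mem _ (hmem' a₀))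
    · have h1 : z' a = z a := by simp [hz', ha]
      rw [← h1]; exact hmem' a

theorem GenW.step_not_le (hs : Step D D' n k) (hg : GenW D H w) (hH : ¬ H ⊓ M ≤ M') :
    GenW D' H (1 + (1 + (1 / 2 : ℝ) ^ n) * (w - 1)) := by
  classical
  obtain ⟨α, hα, z, v, h1, h2, h3, h4⟩ := hg.reassign hs.hn
  have hz : ∀ a, z a ∈ H ⊓ M := fun a => h1.le (Subgroup.subset_closure ⟨a, rfl⟩)
  obtain ⟨a₀, ha₀⟩ : ∃ a, z a ∉ M' := by
    by_contra hcon
    push Not at hcon
    apply hH
    rw [← h1, Subgroup.closure_le]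
    rintro _ ⟨a, rfl⟩
    exact hcon a
  have hv : ∀ a, z a ∉ M' → v a = n := by
    intro a ha
    apply le_antisymm _ (h3 a)
    by_contra hlt
    exact ha (hs.ker _ (hz a).2 (J_mono (by omega) (h2 a)))
  set S : Set α := {a | z a ∉ M' ∧ a ≠ a₀} with hS
  have h0S : a₀ ∉ S := fun h => h.2 rfl
  set z' : α → G := fun a => if a ∈ S then z a * z a₀ else z a with hz'
  have hcl : Subgroup.closure (Set.range z') = H ⊓ M := by
    rw [hz', closure_change z a₀ S h0S, h1]
  have e0 : z' a₀ = z a₀ := by simp only [hz', h0S, if_false]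
  have hz'0 : z' a₀ ∉ H ⊓ M' := by rw [e0]; exact fun h => ha₀ h.2
  have hz'1 : ∀ a, a ≠ a₀ → z' a ∈ H ⊓ M' := by
    intro a ha
    by_cases haS : a ∈ S
    · have : z' a = z a * z a₀ := by simp only [hz', haS, if_true]
      rw [this]
      exact ⟨H.mul_mem (hz a).1 (hz a₀).1,
        hs.idx.mul_mem _ (hz a).2 _ (hz a₀).2 haS.1 ha₀⟩
    · have : z' a = z a := by simp only [hz', haS, if_false]
      rw [this]
      refine ⟨(hz a).1, ?_⟩
      by_contra hcon
      exact haS ⟨hcon, ha⟩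
  have hidx : Idx2 (H ⊓ M) (H ⊓ M') := by
    refine ⟨inf_le_inf_left H hs.idx.le, ?_⟩
    intro g hg h hh hg' hh'
    refine ⟨H.mul_mem hg.1 hh.1, hs.idx.mul_mem g hg.2 h hh.2 ?_ ?_⟩
    · exact fun h => hg' ⟨hg.1, h⟩
    · exact fun h => hh' ⟨hh.1, h⟩
  have hJz' : ∀ a, D.J (v a) (e (z' a) - 1) := by
    intro a
    by_cases haS : a ∈ S
    · have h5 : z' a = z a * z a₀ := by simp only [hz', haS, if_true]
      have h6 : e (z a * z a₀) - 1 = (e (z a) - 1) * e (z a₀) + (e (z a₀) - 1) := by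
        rw [e_mul]; noncomm_ring
      rw [h5, h6]
      apply J.add
      · exact J_rmul (h2 a) (e_mem (hz a₀).2)
      · have h7 := h2 a₀
        rw [hv a₀ ha₀] at h7
        rw [hv a haS.1]
        exact h7
    · have h5 : z' a = z a := by simp only [hz', haS, if_false]
      rw [h5]; exact h2 a
  refine ⟨_, inferInstance, newY z' a₀, newD v a₀, closure_newY hidx hcl hz'0 hz'1, ?_, ?_⟩
  · intro j
    rw [hs.hJ]
    refine ⟨?_, ?_⟩
    · rcases j with _ | (a | a)
      · exact J_sq (hJz' a₀)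
      · exact hJz' a
      · have h5 : newY z' a₀ (some (Sum.inr a)) = (z' a)⁻¹ * (z' a₀ * z' a) * (z' a₀)⁻¹ := by
          show (z' a)⁻¹ * (z' a₀ * z' a * (z' a₀)⁻¹) = _
          group
        rw [h5]
        exact J_comm (hidx.le (hz'1 a a.2)).2 (by rw [e0]; exact (hz a₀).2) (hJz' a) (hJz' a₀)
    · apply e_sub_one_mem
      exact (newY_mem hidx (fun a => hcl.le (Subgroup.subset_closure ⟨a, rfl⟩)) hz'0 hz'1 j).2
  · have e1 : ∑ j, (1 / 2 : ℝ) ^ newD v a₀ j =
      (1 / 2 : ℝ) ^ (v a₀ + v a₀) + (∑ a : {a // a ≠ a₀}, (1 / 2 : ℝ) ^ v a +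
        ∑ a : {a // a ≠ a₀}, (1 / 2 : ℝ) ^ (v a + v a₀)) := sum_option _
    have e3 : ∑ a, (1 / 2 : ℝ) ^ v a = (1 / 2 : ℝ) ^ v a₀ +
      ∑ a : {a // a ≠ a₀}, (1 / 2 : ℝ) ^ v a := sum_split (i₀ := a₀) _
    rw [e1]
    simp only [pow_add]
    rw [← Finset.sum_mul, hv a₀ ha₀]
    rw [hv a₀ ha₀] at e3
    have e4 : ∑ a : {a // a ≠ a₀}, (1 / 2 : ℝ) ^ v a ≤ w - (1 / 2 : ℝ) ^ n := by linarith
    have hpos : 0 < (1 / 2 : ℝ) ^ n := by positivity
    nlinarith

end gens

end Pool.Agent.Helper30
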