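import Pool.Agent.Helper30.GS6

/-!
# Adding relators of high degree
-/

set_option autoImplicit false

namespace Pool.Agent.Helper30

variable {G Q : Type} [Group G] [Group Q]

/-- The map of group algebras induced by a group homomorphism. -/
noncomputable def hat (f : G →* Q) : GA G →+* GA Q := MonoidAlgebra.mapDomainRingHom (ZMod 2) f

theorem hat_e (f : G →* Q) (g : G) : hat f (e g) = e (f g) := by
  unfold hat e
  simp

theorem hat_SA {f : G →* Q} {M : Subgroup G} {a : GA G} (ha : a ∈ SA M) :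
    hat f a ∈ SA (M.map f) := by
  refine SA_induction (P := fun a => hat f a ∈ SA (M.map f)) ha ?_ ?_ ?_
  · rw [map_zero]; exact (SA _).zero_mem
  · intro g hg; rw [hat_e]; exact e_mem ⟨g, hg, rfl⟩
  · intro a b ha hb; rw [map_add]; exact (SA _).add_mem ha hb

theorem SA_lift {f : G →* Q} {M : Subgroup G} {b : GA Q} (hb : b ∈ SA (M.map f)) :
    ∃ a ∈ SA M, hat f a = b := by
  refine SA_induction (P := fun b => ∃ a ∈ SA M, hat f a = b) hb ?_ ?_ ?_
  · exact ⟨0, (SA M).zero_mem, map_zero _⟩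
  · rintro _ ⟨g, hg, rfl⟩; exact ⟨e g, e_mem hg, hat_e f g⟩
  · rintro b b' ⟨a, ha, rfl⟩ ⟨a', ha', rfl⟩
    exact ⟨a + a', (SA M).add_mem ha ha', map_add _ _ _⟩

theorem hat_J {ι : Type} {f : G →* Q} {M : Subgroup G} {y : ι → G} {d : ι → ℕ} {n : ℕ}
    {a : GA G} (ha : J M y d n a) : J (M.map f) (fun i => f (y i)) d n (hat f a) := by
  induction ha with
  | zero n => rw [map_zero]; exact J.zero _
  | add _ _ ha hb => rw [map_add]; exact J.add ha hb
  | @base g hg => rw [hat_e]; exact J.base ⟨g, hg, rfl⟩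
  | @lmul n g a hg _ ih => rw [map_mul, hat_e]; exact J.lmul ⟨g, hg, rfl⟩ ih
  | gen i _ ih => rw [map_mul, map_sub, hat_e, map_one]; exact J.gen i ih
  | mono _ ih => exact ih.mono

theorem J_lift {ι : Type} {f : G →* Q} {M : Subgroup G} {y : ι → G} {d : ι → ℕ} {n : ℕ}
    {b : GA Q} (hb : J (M.map f) (fun i => f (y i)) d n b) : ∃ a, J M y d n a ∧ hat f a = b := by
  induction hb with
  | zero n => exact ⟨0, J.zero _, map_zero _⟩
  | add _ _ ha hb =>
    obtain ⟨a, ha, rfl⟩ := ha
    obtain ⟨b, hb, rfl⟩ := hb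
    exact ⟨a + b, J.add ha hb, map_add _ _ _⟩
  | base hg =>
    obtain ⟨g, hg, rfl⟩ := hg
    exact ⟨e g, J.base hg, hat_e f g⟩
  | lmul hg _ ih =>
    obtain ⟨g, hg, rfl⟩ := hg
    obtain ⟨a, ha, rfl⟩ := ih
    exact ⟨e g * a, J.lmul hg ha, by rw [map_mul, hat_e]⟩
  | gen i _ ih =>
    obtain ⟨a, ha, rfl⟩ := ih
    exact ⟨(e (y i) - 1) * a, J.gen i ha, by rw [map_mul, map_sub, hat_e, map_one]⟩
  | mono _ ih =>
    obtain ⟨a, ha, rfl⟩ := ih
    exact ⟨a, ha.mono, rfl⟩

/-- The kernel of the map of group algebras. -/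
theorem ker_hat {f : G →* Q} (hf : Function.Surjective f) {M : Subgroup G} (hL : f.ker ≤ M)
    {a : GA G} (ha : a ∈ SA M) (h0 : hat f a = 0) :
    a ∈ AddSubgroup.closure {x : GA G | ∃ g ∈ M, ∃ l ∈ f.ker, x = e g * (e l - 1)} := by
  set KL := AddSubgroup.closure {x : GA G | ∃ g ∈ M, ∃ l ∈ f.ker, x = e g * (e l - 1)} with hKL
  let T : GA Q →+ GA G := lin (fun q => e (Function.surjInv hf q))
  have key : a - T (hat f a) ∈ KL := by
    refine SA_induction (P := fun a => a - T (hat f a) ∈ KL) ha ?_ ?_ ?_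
    · rw [map_zero, map_zero, sub_zero]; exact KL.zero_mem
    · intro g hg
      set x := Function.surjInv hf (f g) with hx
      have hfx : f x = f g := Function.surjInv_eq hf (f g)
      have hl : x⁻¹ * g ∈ f.ker := by
        rw [MonoidHom.mem_ker, map_mul, map_inv, hfx, inv_mul_cancel]
      have hxM : x ∈ M := by
        have : x = g * (x⁻¹ * g)⁻¹ := by group
        rw [this]
        exact M.mul_mem hg (M.inv_mem (hL hl))
      have : e g - T (hat f (e g)) = e x * (e (x⁻¹ * g) - 1) := by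
        have h1 : T (hat f (e g)) = e x := by
          rw [hat_e]; exact lin_e _ _
        rw [h1, mul_sub, mul_one, ← e_mul]
        congr 2
        group
      rw [this]
      exact AddSubgroup.subset_closure ⟨x, hxM, _, hl, rfl⟩
    · intro a b ha hb
      have : a + b - T (hat f (a + b)) = (a - T (hat f a)) + (b - T (hat f b)) := by
        rw [map_add, map_add]; abel
      rw [this]; exact KL.add_mem ha hb
  rwa [h0, map_zero, sub_zero] at key

section quot

variable {M : Subgroup G} (D : Data M) {f : G →* Q} {σ : Type} [Fintype σ] (s : σ → G)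

/-- Combinations of the `s j - 1`, and of the `y i - 1` with coefficients in the kernel. -/
def PQ (f : G →* Q) (w : GA G) : Prop :=
  ∃ (b : σ → GA G) (c : D.ι → GA G), (∀ j, b j ∈ SA M) ∧ (∀ i, c i ∈ SA M) ∧
    (∀ i, hat f (c i) = 0) ∧
    w = ∑ j, b j * (e (s j) - 1) + ∑ i, c i * (e (D.y i) - 1)

variable {D s}

theorem PQ.add {w w' : GA G} (h : PQ D s f w) (h' : PQ D s f w') : PQ D s f (w + w') := by
  obtain ⟨b, c, hb, hc, hc0, rfl⟩ := h
  obtain ⟨b', c', hb', hc', hc0', rfl⟩ := h'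
  refine ⟨fun j => b j + b' j, fun i => c i + c' i, fun j => (SA M).add_mem (hb j) (hb' j),
    fun i => (SA M).add_mem (hc i) (hc' i), fun i => by rw [map_add, hc0, hc0', add_zero], ?_⟩
  simp only [add_mul, Finset.sum_add_distrib]
  abel

theorem PQ.zero : PQ D s f 0 :=
  ⟨fun _ => 0, fun _ => 0, fun _ => (SA M).zero_mem, fun _ => (SA M).zero_mem,
    fun _ => map_zero _, by simp⟩

theorem PQ.mul {g : G} (hg : g ∈ M) {w : GA G} (h : PQ D s f w) : PQ D s f (e g * w) := by
  obtain ⟨b, c, hb, hc, hc0, rfl⟩ := h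
  refine ⟨fun j => e g * b j, fun i => e g * c i, fun j => e_mul_mem hg (hb j),
    fun i => e_mul_mem hg (hc i), fun i => by rw [map_mul, hc0, mul_zero], ?_⟩
  simp only [mul_assoc]
  rw [← Finset.mul_sum, ← Finset.mul_sum, mul_add]

theorem PQ.neg {w : GA G} (h : PQ D s f w) : PQ D s f (-w) := by rw [neg_eq]; exact h

theorem PQ_of_closure (hs : ∀ j, s j ∈ M) (hs1 : ∀ j, f (s j) = 1) {l : G}
    (hl : l ∈ Subgroup.closure {x : G | ∃ m ∈ M, ∃ j, x = m * s j * m⁻¹}) :
    PQ D s f (e l - 1) := by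
  classical
  have hcl : Subgroup.closure {x : G | ∃ m ∈ M, ∃ j, x = m * s j * m⁻¹} ≤ M := by
    rw [Subgroup.closure_le]
    rintro _ ⟨m, hm, j, rfl⟩
    exact M.mul_mem (M.mul_mem hm (hs j)) (M.inv_mem hm)
  induction hl using Subgroup.closure_induction with
  | mem x hx =>
    obtain ⟨m, hm, j, rfl⟩ := hx
    obtain ⟨τ, hτ, hτ'⟩ := closure_decomp (M := M) D.y_mem (D.hy.symm ▸ M.inv_mem hm)
    refine ⟨fun j' => if j' = j then e m else 0, fun i => e m * (e (s j) - 1) * τ i,
      fun j' => ?_, fun i => ?_, fun i => ?_, ?_⟩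
    · by_cases h : j' = j
      · simp only [h, if_true]; exact e_mem hm
      · simp only [h, if_false]; exact (SA M).zero_mem
    · exact mul_mem_SA (e_mul_mem hm (e_sub_one_mem (hs j))) (hτ i)
    · rw [map_mul, map_mul, map_sub, hat_e f (s j), hs1, e_one, map_one, sub_self, mul_zero,
        zero_mul]
    · simp only [ite_mul, zero_mul, Finset.sum_ite_eq', Finset.mem_univ, if_true]
      rw [← Finset.sum_congr rfl (fun i _ => (mul_assoc (e m * (e (s j) - 1)) (τ i) _).symm),
        ← Finset.mul_sum, ← hτ', ← cj_e_sub_one]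
      unfold cj
      noncomm_ring
  | one => rw [e_one, sub_self]; exact PQ.zero
  | mul x z hx hz ihx ihz =>
    have : e (x * z) - 1 = e x * (e z - 1) + (e x - 1) := by rw [e_mul]; noncomm_ring
    rw [this]; exact (ihz.mul (hcl hx)).add ihx
  | inv x hx ih =>
    have : e x⁻¹ - 1 = -(e x⁻¹ * (e x - 1)) := by
      rw [mul_sub, e_inv_mul, mul_one]; abel
    rw [this]; exact (ih.mul (M.inv_mem (hcl hx))).neg

theorem PQ_of_ker (hf : Function.Surjective f) (hs : ∀ j, s j ∈ M)
    (hker : f.ker = Subgroup.closure {x : G | ∃ m ∈ M, ∃ j, x = m * s j * m⁻¹})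
    {a : GA G} (ha : a ∈ SA M) (h0 : hat f a = 0) : PQ D s f a := by
  have hcl : f.ker ≤ M := by
    rw [hker, Subgroup.closure_le]
    rintro _ ⟨m, hm, j, rfl⟩
    exact M.mul_mem (M.mul_mem hm (hs j)) (M.inv_mem hm)
  have hs1 : ∀ j, f (s j) = 1 := by
    intro j
    rw [← MonoidHom.mem_ker, hker]
    exact Subgroup.subset_closure ⟨1, M.one_mem, j, by simp⟩
  have h1 := ker_hat hf hcl ha h0
  clear ha h0
  induction h1 using AddSubgroup.closure_induction with
  | mem x hx =>
    obtain ⟨g, hg, l, hl, rfl⟩ := hx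
    rw [hker] at hl
    exact (PQ_of_closure hs hs1 hl).mul hg
  | zero => exact PQ.zero
  | add x y _ _ hx hy => exact hx.add hy
  | neg x _ hx => exact hx.neg

/-- The weighted presentation of the quotient. -/
noncomputable def Data.quot (D : Data M) (f : G →* Q) (hf : Function.Surjective f)
    (s : σ → G) (hs : ∀ j, s j ∈ M)
    (hker : f.ker = Subgroup.closure {x : G | ∃ m ∈ M, ∃ j, x = m * s j * m⁻¹})
    (deg : σ → ℕ) (lam : σ → D.ι → GA G)
    (hlam1 : ∀ j i, Helper30.J M D.y D.d (deg j - D.d i) (lam j i))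
    (hlam2 : ∀ j, e (s j) - 1 = ∑ i, lam j i * (e (D.y i) - 1)) : Data (M.map f) where
  ι := D.ι
  κ := D.κ ⊕ σ
  y := fun i => f (D.y i)
  d := D.d
  ρ := fun k i => match k with
    | Sum.inl k => hat f (D.ρ k i)
    | Sum.inr j => hat f (lam j i)
  r := fun k => match k with
    | Sum.inl k => D.r k
    | Sum.inr j => deg j
  d_pos := D.d_pos
  hy := by
    have h1 : Set.range (fun i => f (D.y i)) = f '' Set.range D.y := by
      ext x
      constructor
      · rintro ⟨i, rfl⟩; exact ⟨D.y i, ⟨i, rfl⟩, rfl⟩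
      · rintro ⟨_, ⟨i, rfl⟩, rfl⟩; exact ⟨i, rfl⟩
    rw [h1, ← MonoidHom.map_closure, D.hy]
  hρ := by
    intro k i
    rcases k with k | j
    · exact hat_J (D.hρ k i)
    · exact hat_J (hlam1 j i)
  rel := by
    intro k
    rcases k with k | j
    · have h := congrArg (hat f) (D.rel k)
      rw [map_sum, map_zero] at h
      simp only [map_mul, map_sub, hat_e, map_one] at h
      exact h
    · have h := congrArg (hat f) (hlam2 j)
      have hs1 : f (s j) = 1 := by
        rw [← MonoidHom.mem_ker, hker]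
        exact Subgroup.subset_closure ⟨1, M.one_mem, j, by simp⟩
      rw [map_sum, map_sub, hat_e, hs1, e_one, map_one, sub_self] at h
      simp only [map_mul, map_sub, hat_e, map_one] at h
      exact h.symm
  gen := by
    intro v hv hv0
    choose u hu hu' using fun i => SA_lift (hv i)
    have h1 : hat f (∑ i, u i * (e (D.y i) - 1)) = 0 := by
      rw [map_sum, ← hv0]
      apply Finset.sum_congr rfl
      intro i _
      rw [map_mul, map_sub, hat_e, map_one, hu']
    have h2 : ∑ i, u i * (e (D.y i) - 1) ∈ SA M :=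
      (SA M).sum_mem fun i _ => mul_mem_SA (hu i) (e_sub_one_mem (D.y_mem i))
    obtain ⟨b, c, hb, hc, hc0, hbc⟩ := PQ_of_ker (D := D) hf hs hker h2 h1
    have hlam3 : ∀ j i, lam j i ∈ SA M := fun j i => J_SA D.y_mem (hlam1 j i)
    have h3 : ∑ i, (u i - (∑ j, b j * lam j i + c i)) * (e (D.y i) - 1) = 0 := by
      simp only [sub_mul, add_mul, Finset.sum_sub_distrib, Finset.sum_add_distrib,
        Finset.sum_mul]
      rw [hbc, Finset.sum_comm (γ := D.ι)]
      have h4 : ∀ j, ∑ i, b j * lam j i * (e (D.y i) - 1) = b j * (e (s j) - 1) := by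
        intro j
        rw [hlam2 j, Finset.mul_sum]
        simp only [mul_assoc]
      rw [Finset.sum_congr rfl (fun j _ => h4 j)]
      abel
    have h5 : ∀ i, u i - (∑ j, b j * lam j i + c i) ∈ SA M := fun i =>
      (SA M).sub_mem (hu i) ((SA M).add_mem ((SA M).sum_mem fun j _ =>
        mul_mem_SA (hb j) (hlam3 j i)) (hc i))
    obtain ⟨a, ha, ha'⟩ := D.gen _ h5 h3
    refine ⟨fun k => match k with
      | Sum.inl k => hat f (a k)
      | Sum.inr j => hat f (b j), ?_, ?_⟩
    · intro k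
      rcases k with k | j
      · exact hat_SA (ha k)
      · exact hat_SA (hb j)
    · intro i
      rw [Fintype.sum_sum_type, ← hu' i]
      have h6 : u i = (∑ k, a k * D.ρ k i) + (∑ j, b j * lam j i + c i) := by
        rw [← ha' i]; abel
      rw [h6, map_add, map_add, hc0, add_zero, map_sum, map_sum]
      congr 1
      · apply Finset.sum_congr rfl
        intro k _
        rw [map_mul]
      · apply Finset.sum_congr rfl
        intro j _
        rw [map_mul]

theorem quot_tot (D : Data M) (f : G →* Q) (hf : Function.Surjective f)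
    (s : σ → G) (hs : ∀ j, s j ∈ M)
    (hker : f.ker = Subgroup.closure {x : G | ∃ m ∈ M, ∃ j, x = m * s j * m⁻¹})
    (deg : σ → ℕ) (lam : σ → D.ι → GA G)
    (hlam1 : ∀ j i, J M D.y D.d (deg j - D.d i) (lam j i))
    (hlam2 : ∀ j, e (s j) - 1 = ∑ i, lam j i * (e (D.y i) - 1)) :
    (D.quot f hf s hs hker deg lam hlam1 hlam2).tot = D.tot - ∑ j, (1 / 2 : ℝ) ^ deg j := by
  have e2 : ∑ k : (D.quot f hf s hs hker deg lam hlam1 hlam2).κ,
      (1 / 2 : ℝ) ^ (D.quot f hf s hs hker deg lam hlam1 hlam2).r k =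
      ∑ k, (1 / 2 : ℝ) ^ D.r k + ∑ j, (1 / 2 : ℝ) ^ deg j := Fintype.sum_sum_type _
  have e1 : ∑ j : (D.quot f hf s hs hker deg lam hlam1 hlam2).ι,
      (1 / 2 : ℝ) ^ (D.quot f hf s hs hker deg lam hlam1 hlam2).d j =
      ∑ i, (1 / 2 : ℝ) ^ D.d i := rfl
  unfold Data.tot
  rw [e1, e2]
  ring

theorem quot_inv {D : Data M} (hD : D.Inv) (f : G →* Q) (hf : Function.Surjective f)
    (s : σ → G) (hs : ∀ j, s j ∈ M)
    (hker : f.ker = Subgroup.closure {x : G | ∃ m ∈ M, ∃ j, x = m * s j * m⁻¹})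
    (deg : σ → ℕ) (lam : σ → D.ι → GA G)
    (hlam1 : ∀ j i, J M D.y D.d (deg j - D.d i) (lam j i))
    (hlam2 : ∀ j, e (s j) - 1 = ∑ i, lam j i * (e (D.y i) - 1)) :
    (D.quot f hf s hs hker deg lam hlam1 hlam2).Inv := by
  refine ⟨hD.normal.map f hf, ?_⟩
  intro q n b hb
  obtain ⟨g, rfl⟩ := hf q
  obtain ⟨a, ha, rfl⟩ := J_lift (f := f) hb
  have h1 : cj (f g) (hat f a) = hat f (cj g a) := by
    unfold cj
    rw [map_mul, map_mul, hat_e, hat_e, map_inv]
  rw [h1]
  exact hat_J (hD.conj g n a ha)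

end quot

/-- A group carrying a weighted presentation, of weighted deficiency positive, of a normal
subgroup whose index is a power of two. -/
def Good (G : Type) [Group G] : Prop :=
  ∃ (M : Subgroup G) (D : Data M), D.Inv ∧ 1 < D.tot ∧ ∃ a, M.index = 2 ^ a

/-- Killing few elements of high degree. -/
theorem good_quot {M : Subgroup G} {D : Data M} (hD : D.Inv) {a : ℕ} (ha : M.index = 2 ^ a)
    {σ : Type} [Fintype σ] (s : σ → G) (hs : ∀ j, s j ∈ M) (deg : σ → ℕ)
    (hdeg : ∀ j, D.J (deg j) (e (s j) - 1))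
    (hlt : (2 : ℝ) ^ a * ∑ j, (1 / 2 : ℝ) ^ deg j < D.tot - 1) :
    Good (G ⧸ Subgroup.normalClosure (Set.range s)) := by
  classical
  have hnorm := hD.normal
  have hfi : M.FiniteIndex := ⟨by rw [ha]; positivity⟩
  have : Fintype (G ⧸ M) := Fintype.ofFinite _
  set L := Subgroup.normalClosure (Set.range s) with hL
  set s' : (G ⧸ M) × σ → G := fun c => c.1.out * s c.2 * (c.1.out)⁻¹ with hs'
  have hsM : ∀ c, s' c ∈ M := fun c => hnorm.conj_mem _ (hs c.2) _
  have hker : (QuotientGroup.mk' L).ker =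
      Subgroup.closure {x : G | ∃ m ∈ M, ∃ c, x = m * s' c * m⁻¹} := by
    rw [QuotientGroup.ker_mk']
    apply le_antisymm
    · rw [hL, Subgroup.normalClosure, Subgroup.closure_le]
      intro x hx
      rw [Group.mem_conjugatesOfSet_iff] at hx
      obtain ⟨_, ⟨j, rfl⟩, hconj⟩ := hx
      rw [isConj_iff] at hconj
      obtain ⟨g, rfl⟩ := hconj
      apply Subgroup.subset_closure
      set c : G ⧸ M := (g : G ⧸ M) with hc
      have h1 : (c.out)⁻¹ * g ∈ M := by
        rw [← QuotientGroup.eq]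
        rw [QuotientGroup.out_eq']
      have h2 : g * (c.out)⁻¹ ∈ M := by
        have := hnorm.conj_mem _ h1 c.out
        have h3 : c.out * ((c.out)⁻¹ * g) * (c.out)⁻¹ = g * (c.out)⁻¹ := by group
        rwa [h3] at this
      refine ⟨g * (c.out)⁻¹, h2, (c, j), ?_⟩
      rw [hs']
      group
    · rw [Subgroup.closure_le]
      rintro _ ⟨m, hm, c, rfl⟩
      have hn : L.Normal := Subgroup.normalClosure_normal
      apply hn.conj_mem
      apply hn.conj_mem
      exact Subgroup.subset_normalClosure ⟨c.2, rfl⟩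
  have hdeg' : ∀ c, D.J (deg c.2) (e (s' c) - 1) := by
    intro c
    rw [hs', ← cj_e_sub_one]
    exact hD.conj _ _ _ (hdeg c.2)
  have hf : Function.Surjective (QuotientGroup.mk' L) := QuotientGroup.mk'_surjective L
  have hlam : ∀ c, ∃ b : D.ι → GA G, (∀ i, J M D.y D.d (deg c.2 - D.d i) (b i)) ∧
      e (s' c) - 1 = ∑ i, b i * (e (D.y i) - 1) := fun c =>
    J_decomp D.hy (hdeg' c) (by rw [map_sub, eps_e, map_one, sub_self])
  choose lam hlam1 hlam2 using hlam
  refine ⟨M.map (QuotientGroup.mk' L), D.quot (QuotientGroup.mk' L) hf s' hsM hker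
    (fun c => deg c.2) lam hlam1 hlam2, quot_inv hD _ hf _ _ _ _ _ _ _, ?_, a, ?_⟩
  · rw [quot_tot]
    have h1 : ∑ c : (G ⧸ M) × σ, (1 / 2 : ℝ) ^ deg c.2 =
        (2 : ℝ) ^ a * ∑ j, (1 / 2 : ℝ) ^ deg j := by
      rw [Fintype.sum_prod_type]
      simp only
      rw [Finset.sum_const, nsmul_eq_mul, Finset.card_univ, ← Nat.card_eq_fintype_card,
        ← Subgroup.index, ha]
      norm_cast
    rw [h1]
    linarith
  · rw [← ha]
    apply Subgroup.index_map_eq _ hf
    rw [hker, Subgroup.closure_le]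
    rintro _ ⟨m, hm, j, rfl⟩
    exact M.mul_mem (M.mul_mem hm (hsM j)) (M.inv_mem hm)

end Pool.Agent.Helper30
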