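import Pool.Agent.Helper30.GS7

/-!
# The torsion step and the dichotomy for finitely generated subgroups
-/

set_option autoImplicit false

namespace Pool.Agent.Helper30

variable {G : Type} [Group G]

theorem J_pow_two {M : Subgroup G} (D : Data M) {x : G} (hx : x ∈ M) (b : ℕ) :
    D.J (2 ^ b) (e (x ^ 2 ^ b) - 1) := by
  induction b with
  | zero => rw [pow_zero, pow_one]; exact D.J_one hx
  | succ b ih =>
    have h1 : x ^ 2 ^ (b + 1) = x ^ 2 ^ b * x ^ 2 ^ b := by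
      rw [pow_succ, mul_two, pow_add]
    have h2 : 2 ^ (b + 1) = 2 ^ b + 2 ^ b := by rw [pow_succ, mul_two]
    rw [h1, h2]
    exact J_sq ih

theorem exists_half_pow_lt {ε : ℝ} (hε : 0 < ε) : ∃ N : ℕ, (1 / 2 : ℝ) ^ N < ε :=
  exists_pow_lt_of_lt_one hε (by norm_num)

theorem good_torsion (hG : Good G) (g : G) :
    ∃ L : Subgroup G, ∃ _ : L.Normal, Good (G ⧸ L) ∧ ∃ b : ℕ, g ^ 2 ^ b ∈ L := by
  obtain ⟨M, D, hD, hpos, a, ha⟩ := hG
  have hn := hD.normal
  have hx : g ^ 2 ^ a ∈ M := by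
    rw [← ha]; exact Subgroup.pow_index_mem M g
  obtain ⟨b, hb⟩ : ∃ b : ℕ, (1 / 2 : ℝ) ^ 2 ^ b < (D.tot - 1) / 2 ^ a := by
    obtain ⟨N, hN⟩ := exists_half_pow_lt (ε := (D.tot - 1) / 2 ^ a)
      (div_pos (by linarith) (by positivity))
    refine ⟨N, lt_of_le_of_lt ?_ hN⟩
    exact pow_le_pow_of_le_one (by norm_num) (by norm_num) (Nat.lt_two_pow_self).le
  refine ⟨Subgroup.normalClosure (Set.range (fun _ : Unit => (g ^ 2 ^ a) ^ 2 ^ b)),
    Subgroup.normalClosure_normal, ?_, a + b, ?_⟩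
  · refine good_quot hD ha (fun _ : Unit => (g ^ 2 ^ a) ^ 2 ^ b)
      (fun _ => M.pow_mem hx _) (fun _ => 2 ^ b) (fun _ => J_pow_two D hx b) ?_
    rw [Finset.sum_const, Finset.card_univ, Fintype.card_unit, one_smul]
    rw [lt_div_iff₀ (by positivity)] at hb
    linarith
  · rw [pow_add, pow_mul]
    exact Subgroup.subset_normalClosure ⟨(), rfl⟩

namespace Chain

variable (C : Chain G)

/-- Correcting an element of `K` by an element of `P` to go down the chain. -/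
theorem walk (K P : Subgroup G) (hPK : P ≤ K) {j₀ j : ℕ} (hj : j₀ ≤ j)
    (h : ∀ i, j₀ ≤ i → i < j → ¬ K ⊓ C.M i ≤ C.M (i + 1) →
      ∃ t ∈ P, t ∈ C.M i ∧ t ∉ C.M (i + 1)) :
    ∀ x ∈ K ⊓ C.M j₀, ∃ w ∈ P, w⁻¹ * x ∈ K ⊓ C.M j := by
  induction j, hj using Nat.le_induction with
  | base => intro x hx; exact ⟨1, P.one_mem, by simpa using hx⟩
  | succ j hj ih =>
    intro x hx
    obtain ⟨w, hw, hwx⟩ := ih (fun i hi hij => h i hi (by omega)) x hx
    by_cases hmem : w⁻¹ * x ∈ C.M (j + 1)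
    · exact ⟨w, hw, hwx.1, hmem⟩
    · obtain ⟨t, htP, htM, htM'⟩ := h j hj (by omega) (fun hle => hmem (hle hwx))
      refine ⟨w * t, P.mul_mem hw htP, ?_⟩
      have h1 : (w * t)⁻¹ * x = t⁻¹ * (w⁻¹ * x) := by group
      rw [h1]
      exact ⟨K.mul_mem (K.inv_mem (hPK htP)) hwx.1, (C.st j).idx.inv_mul htM hwx.2 htM' hmem⟩

theorem tail_small {f : ℕ → ℝ} (hb : ∃ B, ∀ j, f j ≤ B) {ε : ℝ}
    (hε : 0 < ε) : ∃ j₀, ∀ j, f j < f j₀ + ε := by
  have hbdd : BddAbove (Set.range f) := by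
    obtain ⟨B, hB⟩ := hb
    exact ⟨B, by rintro _ ⟨j, rfl⟩; exact hB j⟩
  obtain ⟨j₀, hj₀⟩ := exists_lt_of_lt_ciSup (show (⨆ j, f j) - ε < ⨆ j, f j by linarith)
  refine ⟨j₀, fun j => ?_⟩
  have := le_ciSup hbdd j
  linarith

open Classical in
/-- Killing the part of `K` not covered by `P₀`, when it is small. -/
theorem kill (h0 : (C.D 0).Inv) {a : ℕ} (ha : (C.M 0).index = 2 ^ a)
    (K P₀ : Subgroup G) (hPK : P₀ ≤ K) (hfg : ∀ j, (K ⊓ C.M j).FG)
    (hb : ∃ B : ℝ, ∀ j, ∑ i ∈ (Finset.range j).filter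
      (fun i => ¬ K ⊓ C.M i ≤ C.M (i + 1) ∧ P₀ ⊓ C.M i ≤ C.M (i + 1)),
        (1 / 2 : ℝ) ^ C.n i ≤ B) :
    ∃ L : Subgroup G, ∃ _ : L.Normal, Good (G ⧸ L) ∧ ∃ j₀, K ⊓ C.M j₀ ≤ P₀ ⊔ L := by
  set bad : ℕ → Prop := fun i => ¬ K ⊓ C.M i ≤ C.M (i + 1) ∧ P₀ ⊓ C.M i ≤ C.M (i + 1) with hbad
  set f : ℕ → ℝ := fun j => ∑ i ∈ (Finset.range j).filter bad, (1 / 2 : ℝ) ^ C.n i with hf
  have hpos : 0 < (C.D 0).tot - 1 := by
    have := C.pos 0
    have h1 : 1 < (C.D 0).tot := this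
    linarith
  set ε : ℝ := ((C.D 0).tot - 1) / 2 ^ a / 2 with hε
  have hεpos : 0 < ε := by positivity
  obtain ⟨j₀, hj₀⟩ := tail_small hb hεpos
  -- generators of `K ⊓ M j₀`
  obtain ⟨Z, hZ⟩ := hfg j₀
  have hZmem : ∀ z ∈ Z, z ∈ K ⊓ C.M j₀ := fun z hz => hZ.le (Subgroup.subset_closure hz)
  -- a deep level
  obtain ⟨N, hN⟩ := exists_half_pow_lt (ε := ε / (Z.card + 1)) (by positivity)
  obtain ⟨j₂, hj₂⟩ := C.n_unbounded N
  set j₁ := max j₀ j₂ with hj₁
  have hnj₁ : N ≤ C.n j₁ := hj₂.le.trans (C.n_mono (le_max_right _ _))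
  have hZsmall : (Z.card : ℝ) * (1 / 2 : ℝ) ^ C.n j₁ < ε := by
    have h1 : (1 / 2 : ℝ) ^ C.n j₁ ≤ (1 / 2 : ℝ) ^ N :=
      pow_le_pow_of_le_one (by norm_num) (by norm_num) hnj₁
    have h2 : (Z.card : ℝ) * (1 / 2 : ℝ) ^ C.n j₁ ≤ (Z.card : ℝ) * (ε / (Z.card + 1)) :=
      mul_le_mul_of_nonneg_left (h1.trans hN.le) (by positivity)
    have h3 : (Z.card : ℝ) * (ε / (Z.card + 1)) < ε := by
      rw [mul_div_assoc', div_lt_iff₀ (by positivity)]
      nlinarith [hεpos]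
    linarith
  -- the elements to kill at each bad step
  have hm : ∀ i, ∃ t, bad i → t ∈ K ∧ t ∈ C.M i ∧ t ∉ C.M (i + 1) := by
    intro i
    by_cases h : bad i
    · have := h.1
      rw [SetLike.not_le_iff_exists] at this
      obtain ⟨t, ht, ht'⟩ := this
      exact ⟨t, fun _ => ⟨ht.1, ht.2, ht'⟩⟩
    · exact ⟨1, fun h' => absurd h' h⟩
  choose t ht using hm
  set I := (Finset.Ico j₀ j₁).filter bad with hI
  set P := P₀ ⊔ Subgroup.closure (t '' (I : Set ℕ)) with hP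
  have hPK' : P ≤ K := by
    apply sup_le hPK
    rw [Subgroup.closure_le]
    rintro _ ⟨i, hi, rfl⟩
    have : bad i := (Finset.mem_filter.1 hi).2
    exact (ht i this).1
  have hwalk := C.walk K P hPK' (le_max_left j₀ j₂) (by
    intro i hi hij hne
    by_cases h : bad i
    · refine ⟨t i, ?_, (ht i h).2.1, (ht i h).2.2⟩
      apply Subgroup.mem_sup_right
      apply Subgroup.subset_closure
      exact ⟨i, Finset.mem_coe.2 (Finset.mem_filter.2 ⟨Finset.mem_Ico.2 ⟨hi, hij⟩, h⟩), rfl⟩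
    · have h1 : ¬ P₀ ⊓ C.M i ≤ C.M (i + 1) := fun h2 => h ⟨hne, h2⟩
      rw [SetLike.not_le_iff_exists] at h1
      obtain ⟨p, hp, hp'⟩ := h1
      exact ⟨p, Subgroup.mem_sup_left hp.1, hp.2, hp'⟩)
  choose! w hwP hw using hwalk
  -- the family to kill
  set s : {i // i ∈ I} ⊕ {z // z ∈ Z} → G := fun c => match c with
    | Sum.inl i => t i
    | Sum.inr z => (w z)⁻¹ * z with hs
  set deg : {i // i ∈ I} ⊕ {z // z ∈ Z} → ℕ := fun c => match c with
    | Sum.inl i => C.n i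
    | Sum.inr _ => C.n j₁ with hdeg
  have hsM : ∀ c, s c ∈ C.M 0 := by
    rintro (i | z)
    · exact C.M_le (Nat.zero_le _) (ht i (Finset.mem_filter.1 i.2).2).2.1
    · exact C.M_le (Nat.zero_le _) (hw z (hZmem z z.2)).2
  have hsJ : ∀ c, (C.D 0).J (deg c) (e (s c) - 1) := by
    rintro (i | z)
    · exact C.J_of (Nat.zero_le _) ((C.st i).hn _ (ht i (Finset.mem_filter.1 i.2).2).2.1)
    · exact C.J_of (Nat.zero_le _) ((C.st j₁).hn _ (hw z (hZmem z z.2)).2)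
  have hsum : (2 : ℝ) ^ a * ∑ c, (1 / 2 : ℝ) ^ deg c < (C.D 0).tot - 1 := by
    rw [Fintype.sum_sum_type]
    have h1 : ∑ i : {i // i ∈ I}, (1 / 2 : ℝ) ^ deg (Sum.inl i) < ε := by
      have h2 : ∑ i : {i // i ∈ I}, (1 / 2 : ℝ) ^ deg (Sum.inl i) =
          ∑ i ∈ I, (1 / 2 : ℝ) ^ C.n i := Finset.sum_coe_sort I (fun i => (1 / 2 : ℝ) ^ C.n i)
      have h3 : f j₁ = f j₀ + ∑ i ∈ I, (1 / 2 : ℝ) ^ C.n i := by
        rw [hf, hI]
        simp only [Finset.sum_filter]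
        rw [Finset.sum_range_add_sum_Ico _ (le_max_left j₀ j₂)]
      have h4 := hj₀ j₁
      rw [h2]
      linarith
    have h5 : ∑ z : {z // z ∈ Z}, (1 / 2 : ℝ) ^ deg (Sum.inr z) < ε := by
      have h6 : ∑ z : {z // z ∈ Z}, (1 / 2 : ℝ) ^ deg (Sum.inr z) =
          (Z.card : ℝ) * (1 / 2 : ℝ) ^ C.n j₁ := by
        show ∑ _z : {z // z ∈ Z}, (1 / 2 : ℝ) ^ C.n j₁ = _
        rw [Finset.sum_const, Finset.card_univ, Fintype.card_coe, nsmul_eq_mul]
      rw [h6]; exact hZsmall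
    have h7 : (2 : ℝ) ^ a * (ε + ε) = (C.D 0).tot - 1 := by
      rw [hε]
      field_simp
      ring
    calc _ < (2 : ℝ) ^ a * (ε + ε) := by
          apply mul_lt_mul_of_pos_left (by linarith) (by positivity)
      _ = _ := h7
  refine ⟨Subgroup.normalClosure (Set.range s), Subgroup.normalClosure_normal,
    good_quot h0 ha s hsM deg hsJ hsum, j₀, ?_⟩
  have hsL : ∀ c, s c ∈ Subgroup.normalClosure (Set.range s) := fun c =>
    Subgroup.subset_normalClosure ⟨c, rfl⟩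
  have hPL : P ≤ P₀ ⊔ Subgroup.normalClosure (Set.range s) := by
    apply sup_le le_sup_left
    rw [Subgroup.closure_le]
    rintro _ ⟨i, hi, rfl⟩
    exact Subgroup.mem_sup_right (hsL (Sum.inl ⟨i, hi⟩))
  rw [← hZ, Subgroup.closure_le]
  intro z hz
  have h1 : z = w z * ((w z)⁻¹ * z) := by group
  have h2 : w z ∈ P₀ ⊔ Subgroup.normalClosure (Set.range s) := hPL (hwP z (hZmem z hz))
  have h3 : (w z)⁻¹ * z ∈ P₀ ⊔ Subgroup.normalClosure (Set.range s) :=
    Subgroup.mem_sup_right (hsL (Sum.inr ⟨z, hz⟩))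
  show z ∈ P₀ ⊔ Subgroup.normalClosure (Set.range s)
  rw [h1]
  exact Subgroup.mul_mem _ h2 h3

theorem fg_inf {H M : Subgroup G} (hH : H.FG) (hM : M.FiniteIndex) : (H ⊓ M).FG := by
  have h1 : Group.FG H := (Group.fg_iff_subgroup_fg H).2 hH
  have h2 : (M.subgroupOf H).FiniteIndex := inferInstance
  have h3 : Group.FG (M.subgroupOf H) := inferInstance
  have h4 : (M.subgroupOf H).FG := (Group.fg_iff_subgroup_fg _).1 h3
  obtain ⟨S, hS⟩ := h4
  classical
  refine ⟨S.image H.subtype, ?_⟩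
  rw [Finset.coe_image, ← MonoidHom.map_closure, hS, Subgroup.subgroupOf_map_subtype, inf_comm]

theorem finiteIndex {a : ℕ} (ha : (C.M 0).index = 2 ^ a) (j : ℕ) : (C.M j).FiniteIndex :=
  ⟨by rw [C.index_pow ha]; positivity⟩

open Classical in
/-- The product of the growth factors over the steps satisfying `p`. -/
noncomputable def prd (p : ℕ → Prop) (j : ℕ) : ℝ :=
  ∏ i ∈ (Finset.range j).filter p, (1 + (1 / 2 : ℝ) ^ C.n i)

variable {C}

theorem prd_zero (p : ℕ → Prop) : C.prd p 0 = 1 := by unfold prd; simp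

theorem prd_succ_of {p : ℕ → Prop} {j : ℕ} (h : p j) :
    C.prd p (j + 1) = (1 + (1 / 2 : ℝ) ^ C.n j) * C.prd p j := by
  classical
  unfold prd
  rw [Finset.range_add_one, Finset.filter_insert, if_pos h, Finset.prod_insert (by simp)]

theorem prd_succ_not {p : ℕ → Prop} {j : ℕ} (h : ¬ p j) :
    C.prd p (j + 1) = C.prd p j := by
  classical
  unfold prd
  rw [Finset.range_add_one, Finset.filter_insert, if_neg h]

theorem one_le_prd (p : ℕ → Prop) (j : ℕ) : 1 ≤ C.prd p j := by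
  induction j with
  | zero => rw [prd_zero]
  | succ j ih =>
    by_cases h : p j
    · rw [prd_succ_of h]
      have : (0 : ℝ) < (1 / 2 : ℝ) ^ C.n j := by positivity
      nlinarith
    · rw [prd_succ_not h]; exact ih

open Classical in
theorem sum_le_prd (p : ℕ → Prop) (j : ℕ) :
    1 + ∑ i ∈ (Finset.range j).filter p, (1 / 2 : ℝ) ^ C.n i ≤ C.prd p j := by
  induction j with
  | zero => rw [prd_zero]; simp
  | succ j ih =>
    rw [Finset.range_add_one, Finset.filter_insert]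
    by_cases h : p j
    · rw [if_pos h, Finset.sum_insert (by simp), prd_succ_of h]
      have h1 : (0 : ℝ) < (1 / 2 : ℝ) ^ C.n j := by positivity
      have h2 := one_le_prd (C := C) p j
      nlinarith
    · rw [if_neg h, prd_succ_not h]; exact ih

theorem prd_mono (p : ℕ → Prop) {i j : ℕ} (h : i ≤ j) : C.prd p i ≤ C.prd p j := by
  induction j, h using Nat.le_induction with
  | base => exact le_rfl
  | succ j _ ih =>
    refine ih.trans ?_
    by_cases h : p j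
    · rw [prd_succ_of h]
      have : (0 : ℝ) < (1 / 2 : ℝ) ^ C.n j := by positivity
      have h2 := one_le_prd (C := C) p j
      nlinarith
    · rw [prd_succ_not h]

variable (C)

/-- The growth of the weighted deficiency. -/
theorem tot_ge (H : Subgroup G) (j : ℕ) :
    C.prd (fun i => ¬ H ⊓ C.M i ≤ C.M (i + 1)) j * C.prd (fun i => H ⊓ C.M i ≤ C.M (i + 1)) j *
      ((C.D 0).tot - 1) ≤ (C.D j).tot - 1 := by
  induction j with
  | zero => rw [prd_zero, prd_zero]; linarith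
  | succ j ih =>
    rw [(C.st j).tot]
    have hpos : 0 < (C.D j).tot - 1 := by
      have : 1 < (C.D j).tot := C.pos j
      linarith
    have h1 : (1 / 2 : ℝ) ^ C.n j ≤ (1 / 2 : ℝ) ^ C.k j :=
      pow_le_pow_of_le_one (by norm_num) (by norm_num) (C.st j).kn
    have h2 : (1 + (1 / 2 : ℝ) ^ C.n j) * ((C.D j).tot - 1) ≤
        (1 + (1 / 2 : ℝ) ^ C.k j) * ((C.D j).tot - 1) := by nlinarith
    refine le_trans ?_ h2
    have h3 : (0 : ℝ) < (1 / 2 : ℝ) ^ C.n j := by positivity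
    by_cases h : H ⊓ C.M j ≤ C.M (j + 1)
    · rw [prd_succ_of (p := fun i => H ⊓ C.M i ≤ C.M (i + 1)) h,
        prd_succ_not (p := fun i => ¬ H ⊓ C.M i ≤ C.M (i + 1)) (not_not.2 h)]
      nlinarith
    · rw [prd_succ_not (p := fun i => H ⊓ C.M i ≤ C.M (i + 1)) h,
        prd_succ_of (p := fun i => ¬ H ⊓ C.M i ≤ C.M (i + 1)) h]
      nlinarith

/-- The growth of the weight of the generators of `H ⊓ M j`. -/
theorem genW (H : Subgroup G) {w : ℝ} (hw : GenW (C.D 0) H w) (j : ℕ) :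
    GenW (C.D j) H (1 + C.prd (fun i => ¬ H ⊓ C.M i ≤ C.M (i + 1)) j * (w - 1)) := by
  induction j with
  | zero => rw [prd_zero, one_mul]; simpa using hw
  | succ j ih =>
    by_cases h : H ⊓ C.M j ≤ C.M (j + 1)
    · rw [prd_succ_not (p := fun i => ¬ H ⊓ C.M i ≤ C.M (i + 1)) (not_not.2 h)]
      exact ih.step_le (C.st j) h
    · rw [prd_succ_of (p := fun i => ¬ H ⊓ C.M i ≤ C.M (i + 1)) h]
      have := ih.step_not_le (C.st j) h
      have h1 : 1 + (1 + (1 / 2 : ℝ) ^ C.n j) *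
          (1 + C.prd (fun i => ¬ H ⊓ C.M i ≤ C.M (i + 1)) j * (w - 1) - 1) =
          1 + (1 + (1 / 2 : ℝ) ^ C.n j) * C.prd (fun i => ¬ H ⊓ C.M i ≤ C.M (i + 1)) j *
            (w - 1) := by ring
      rwa [h1] at this

theorem _root_.Pool.Agent.Helper30.GenW.nonneg {M : Subgroup G} {D : Data M} {H : Subgroup G}
    {w : ℝ} (h : GenW D H w) : 0 ≤ w := by
  obtain ⟨α, _, z, v, -, -, h3⟩ := h
  refine le_trans ?_ h3
  positivity

/-- If the generators of `H ⊓ M 0` have total weight less than one, `H` can be made finite. -/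
theorem kill_small (h0 : (C.D 0).Inv) {a : ℕ} (ha : (C.M 0).index = 2 ^ a)
    (H : Subgroup G) (hH : H.FG) {w : ℝ} (hw : w < 1) (hg : GenW (C.D 0) H w) :
    ∃ L : Subgroup G, ∃ _ : L.Normal, Good (G ⧸ L) ∧ ∃ K : Subgroup G, K.FiniteIndex ∧
      H ⊓ K ≤ L := by
  classical
  obtain ⟨L, hL, hgood, j₀, hle⟩ := C.kill h0 ha H ⊥ bot_le
    (fun j => fg_inf hH (C.finiteIndex ha j)) (by
      refine ⟨1 / (1 - w), fun j => ?_⟩
      have h1 := (C.genW H hg j).nonneg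
      have h2 := sum_le_prd (C := C) (fun i => ¬ H ⊓ C.M i ≤ C.M (i + 1)) j
      have h3 : ∑ i ∈ (Finset.range j).filter
          (fun i => ¬ H ⊓ C.M i ≤ C.M (i + 1) ∧ (⊥ : Subgroup G) ⊓ C.M i ≤ C.M (i + 1)),
          (1 / 2 : ℝ) ^ C.n i = ∑ i ∈ (Finset.range j).filter
          (fun i => ¬ H ⊓ C.M i ≤ C.M (i + 1)), (1 / 2 : ℝ) ^ C.n i := by
        congr 1
        ext i
        simp
      rw [h3, le_div_iff₀ (by linarith)]
      set S := ∑ i ∈ (Finset.range j).filter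
          (fun i => ¬ H ⊓ C.M i ≤ C.M (i + 1)), (1 / 2 : ℝ) ^ C.n i with hS
      set Pr := C.prd (fun i => ¬ H ⊓ C.M i ≤ C.M (i + 1)) j with hPr
      have h2' : 1 + S ≤ Pr := by rw [hS]; convert h2
      have h4 : S * (1 - w) ≤ Pr * (1 - w) :=
        mul_le_mul_of_nonneg_right (by linarith) (by linarith)
      have h5 : Pr * (w - 1) = -(Pr * (1 - w)) := by ring
      linarith)
  refine ⟨L, hL, hgood, C.M j₀, C.finiteIndex ha j₀, ?_⟩
  rwa [bot_sup_eq] at hle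

end Chain

open Classical in
/-- The dichotomy: a finitely generated subgroup can be made finite or of finite index. -/
theorem good_dichotomy (hG : Good G) (H : Subgroup G) (hH : H.FG) :
    ∃ L : Subgroup G, ∃ _ : L.Normal, Good (G ⧸ L) ∧
      ((∃ K : Subgroup G, K.FiniteIndex ∧ H ⊓ K ≤ L) ∨
       (∃ K : Subgroup G, K.FiniteIndex ∧ K ≤ H ⊔ L)) := by
  obtain ⟨M, D, hD, hpos, a, ha⟩ := hG
  obtain ⟨C, hC⟩ := exists_chain D hpos
  have h0 : (C.s 0).2.Inv := by rw [hC]; exact hD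
  have ha0 : (C.s 0).1.index = 2 ^ a := by rw [hC]; exact ha
  have h0' : (C.D 0).Inv := h0
  have ha' : (C.M 0).index = 2 ^ a := ha0
  by_cases hb : ∃ B : ℝ, ∀ j, ∑ i ∈ (Finset.range j).filter
      (fun i => H ⊓ C.M i ≤ C.M (i + 1)), (1 / 2 : ℝ) ^ C.n i ≤ B
  · -- finite weighted index: make `H` of finite index
    obtain ⟨L, hL, hgood, j₀, hle⟩ := C.kill h0' ha' ⊤ H le_top (fun j => by
        rw [top_inf_eq, ← (C.D j).hy, Subgroup.fg_iff]
        exact ⟨_, rfl, Set.finite_range _⟩) (by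
      obtain ⟨B, hB⟩ := hb
      refine ⟨B, fun j => ?_⟩
      have h3 : ∑ i ∈ (Finset.range j).filter
          (fun i => ¬ (⊤ : Subgroup G) ⊓ C.M i ≤ C.M (i + 1) ∧ H ⊓ C.M i ≤ C.M (i + 1)),
          (1 / 2 : ℝ) ^ C.n i = ∑ i ∈ (Finset.range j).filter
          (fun i => H ⊓ C.M i ≤ C.M (i + 1)), (1 / 2 : ℝ) ^ C.n i := by
        congr 1
        apply Finset.filter_congr
        intro i _
        have : ¬ (⊤ : Subgroup G) ⊓ C.M i ≤ C.M (i + 1) := by
          rw [top_inf_eq, SetLike.not_le_iff_exists]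
          exact (C.st i).ne
        exact ⟨fun h => h.2, fun h => ⟨this, h⟩⟩
      rw [h3]; exact hB j)
    refine ⟨L, hL, hgood, Or.inr ⟨C.M j₀, C.finiteIndex ha' j₀, ?_⟩⟩
    rwa [top_inf_eq] at hle
  · -- infinite weighted index: make `H` finite
    push Not at hb
    -- initial weight
    obtain ⟨Z, hZ⟩ := Chain.fg_inf hH (C.finiteIndex ha' 0)
    have hg0 : GenW (C.D 0) H (∑ _z : {z // z ∈ Z}, (1 / 2 : ℝ) ^ 1) := by
      refine ⟨{z // z ∈ Z}, inferInstance, fun z => z, fun _ => 1, ?_, ?_, le_rfl⟩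
      · rw [← hZ]
        congr 1
        ext x
        constructor
        · rintro ⟨z, rfl⟩; exact z.2
        · intro hx; exact ⟨⟨x, hx⟩, rfl⟩
      · intro z
        apply (C.D 0).J_one
        exact (hZ.le (Subgroup.subset_closure z.2)).2
    set W₀ : ℝ := ∑ _z : {z // z ∈ Z}, (1 / 2 : ℝ) ^ 1 with hW₀
    have hW₀' : 0 ≤ W₀ := hg0.nonneg
    have hpos0 : 0 < (C.D 0).tot - 1 := by
      have : 1 < (C.D 0).tot := C.pos 0
      linarith
    obtain ⟨j₁, hj₁⟩ := hb ((2 * W₀ + 2) / ((C.D 0).tot - 1))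
    obtain ⟨j, N, hj, -, hN1, hN2⟩ := C.exists_level_index j₁ 0
    have hinv := C.inv h0' hN1 hN2
    set Q := C.prd (fun i => ¬ H ⊓ C.M i ≤ C.M (i + 1)) j with hQ
    set R := C.prd (fun i => H ⊓ C.M i ≤ C.M (i + 1)) j with hR
    have hQ1 : 1 ≤ Q := Chain.one_le_prd _ _
    have hR1 : (2 * W₀ + 2) ≤ R * ((C.D 0).tot - 1) := by
      have h1 := Chain.sum_le_prd (C := C) (fun i => H ⊓ C.M i ≤ C.M (i + 1)) j₁
      have h2 : C.prd (fun i => H ⊓ C.M i ≤ C.M (i + 1)) j₁ ≤ R := Chain.prd_mono _ hj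
      have h3 : (2 * W₀ + 2) / ((C.D 0).tot - 1) ≤ R := by linarith
      rwa [div_le_iff₀ hpos0] at h3
    have htot : Q * (2 * W₀ + 2) ≤ (C.D j).tot - 1 := by
      have h1 := C.tot_ge H j
      rw [← hQ, ← hR] at h1
      nlinarith
    -- the weight of the generators at level `j`
    have hgj := C.genW H hg0 j
    rw [← hQ] at hgj
    set Wj : ℝ := 1 + Q * W₀ with hWj
    obtain ⟨α, hα, z, v, hz1, hz2, hz3, hz4⟩ := hgj.reassign (fun g hg => (C.D j).J_one hg)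
    have hz5 : ∑ a, (1 / 2 : ℝ) ^ v a ≤ Wj := by
      refine hz4.trans ?_
      rw [hWj]
      nlinarith
    have hWj1 : 1 ≤ Wj := by rw [hWj]; nlinarith
    -- the contraction
    obtain ⟨m, hm1, hm2⟩ : ∃ m : ℕ, Wj < 2 ^ m ∧ (2 : ℝ) ^ m ≤ 2 * Wj := by
      have hex : ∃ m : ℕ, Wj < 2 ^ m := pow_unbounded_of_one_lt _ (by norm_num)
      refine ⟨Nat.find hex, Nat.find_spec hex, ?_⟩
      have hne : Nat.find hex ≠ 0 := by
        intro h
        have := Nat.find_spec hex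
        rw [h, pow_zero] at this
        linarith
      obtain ⟨m', hm'⟩ := Nat.exists_eq_succ_of_ne_zero hne
      have h1 := Nat.find_min hex (m := m') (by omega)
      push Not at h1
      rw [hm', pow_succ]
      linarith
    have hhalf : (1 / 2 : ℝ) ^ m * 2 ^ m = 1 := by rw [← mul_pow]; norm_num
    have hhalf0 : 0 < (1 / 2 : ℝ) ^ m := by positivity
    have htot' : 1 < ((C.D j).shift m).tot := by
      rw [shift_tot]
      have h1 : (2 : ℝ) ^ m < (C.D j).tot := by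
        rw [hWj] at hm2
        nlinarith
      nlinarith
    have hgen' : GenW ((C.D j).shift m) H (Wj * (1 / 2 : ℝ) ^ m) := by
      refine ⟨α, hα, z, fun a => v a + m, hz1, fun a => ?_, ?_⟩
      · apply shift_J _ _ (hz2 a)
        have := hz3 a
        omega
      · simp only [pow_add]
        rw [← Finset.sum_mul]
        exact mul_le_mul_of_nonneg_right hz5 hhalf0.le
    have hlt' : Wj * (1 / 2 : ℝ) ^ m < 1 := by nlinarith
    obtain ⟨C', hC'⟩ := exists_chain ((C.D j).shift m) htot'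
    have h0'' : (C'.s 0).2.Inv := by rw [hC']; exact shift_inv hinv m
    have ha'' : (C'.s 0).1.index = 2 ^ (a + j) := by rw [hC']; exact C.index_pow ha' j
    have hg'' : GenW (C'.s 0).2 H (Wj * (1 / 2 : ℝ) ^ m) := by rw [hC']; exact hgen'
    obtain ⟨L, hL, hgood, K, hK, hle⟩ := C'.kill_small h0'' ha'' H hH hlt' hg''
    exact ⟨L, hL, hgood, Or.inl ⟨K, hK, hle⟩⟩

end Pool.Agent.Helper30
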