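import Pool.Agent.Helper30.GS8

/-!
# The free group carries a weighted presentation without relations
-/

set_option autoImplicit false

namespace Pool.Agent.Helper30

/-- Pairs of a vector over the group algebra and a group element, the target of the Fox
derivative. -/
structure Fx (ι G : Type) [Group G] where
  v : ι → GA G
  g : G

namespace Fx

variable {ι G : Type} [Group G]

theorem ext' {a b : Fx ι G} (h1 : a.v = b.v) (h2 : a.g = b.g) : a = b := by
  cases a; cases b; cases h1; cases h2; rfl

noncomputable instance : Group (Fx ι G) where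
  mul a b := ⟨fun i => a.v i + e a.g * b.v i, a.g * b.g⟩
  one := ⟨fun _ => 0, 1⟩
  inv a := ⟨fun i => -(e a.g⁻¹ * a.v i), a.g⁻¹⟩
  mul_assoc a b c := by
    apply ext'
    · funext i
      show (a.v i + e a.g * b.v i) + e (a.g * b.g) * c.v i =
        a.v i + e a.g * (b.v i + e b.g * c.v i)
      rw [e_mul]; noncomm_ring
    · exact mul_assoc _ _ _
  one_mul a := by
    apply ext'
    · funext i
      show 0 + e (1 : G) * a.v i = a.v i
      rw [e_one, one_mul, zero_add]
    · exact one_mul _
  mul_one a := by
    apply ext'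
    · funext i
      show a.v i + e a.g * 0 = a.v i
      rw [mul_zero, add_zero]
    · exact mul_one _
  inv_mul_cancel a := by
    apply ext'
    · funext i
      show -(e a.g⁻¹ * a.v i) + e a.g⁻¹ * a.v i = 0
      rw [neg_add_cancel]
    · exact inv_mul_cancel _

/-- The projection to the group. -/
def proj : Fx ι G →* G where
  toFun a := a.g
  map_one' := rfl
  map_mul' _ _ := rfl

end Fx

section fox

variable {ι : Type} [DecidableEq ι]

/-- The Fox derivatives. -/
noncomputable def fox : FreeGroup ι →* Fx ι (FreeGroup ι) :=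
  FreeGroup.lift (fun i => ⟨Pi.single i 1, FreeGroup.of i⟩)

theorem fox_g (x : FreeGroup ι) : (fox x).g = x := by
  have : Fx.proj.comp fox = MonoidHom.id (FreeGroup ι) := by
    ext i
    simp [fox, Fx.proj]
  exact DFunLike.congr_fun this x

theorem fox_mul (x z : FreeGroup ι) (j : ι) :
    (fox (x * z)).v j = (fox x).v j + e x * (fox z).v j := by
  rw [map_mul]
  show (fox x).v j + e (fox x).g * (fox z).v j = _
  rw [fox_g]

theorem fox_of (i j : ι) : (fox (FreeGroup.of i)).v j = if j = i then 1 else 0 := by
  unfold fox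
  rw [FreeGroup.lift_apply_of]
  show (Pi.single i 1 : ι → GA (FreeGroup ι)) j = _
  rw [Pi.single_apply]

theorem fox_lin (j i : ι) (a : GA (FreeGroup ι)) :
    lin (fun x => (fox x).v j) (a * (e (FreeGroup.of i) - 1)) =
      if j = i then a else 0 := by
  refine ga_induction (P := fun a => lin (fun x => (fox x).v j)
    (a * (e (FreeGroup.of i) - 1)) = if j = i then a else 0) a ?_ ?_ ?_
  · rw [zero_mul, map_zero]; simp
  · intro x
    rw [mul_sub, mul_one, ← e_mul, map_sub, lin_e, lin_e, fox_mul, fox_of]
    by_cases h : j = i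
    · rw [if_pos h, if_pos h]; noncomm_ring
    · rw [if_neg h, if_neg h]; noncomm_ring
  · intro a b ha hb
    rw [add_mul, map_add, ha, hb]
    by_cases h : j = i
    · rw [if_pos h, if_pos h, if_pos h]
    · rw [if_neg h, if_neg h, if_neg h, add_zero]

theorem fox_free [Fintype ι] {v : ι → GA (FreeGroup ι)}
    (h : ∑ i, v i * (e (FreeGroup.of i) - 1) = 0) (j : ι) : v j = 0 := by
  have h1 := congrArg (lin (fun x => (fox x).v j)) h
  rw [map_zero, map_sum] at h1
  simp only [fox_lin] at h1
  simpa using h1

end fox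

/-- The weighted presentation of the free group of rank three. -/
noncomputable def freeData : Data (⊤ : Subgroup (FreeGroup (Fin 3))) where
  ι := Fin 3
  κ := Empty
  y := FreeGroup.of
  d := fun _ => 1
  ρ := fun k => k.elim
  r := fun k => k.elim
  d_pos := fun _ => le_rfl
  hy := FreeGroup.closure_range_of _
  hρ := fun k => k.elim
  rel := fun k => k.elim
  gen := fun v _ h => ⟨fun k => k.elim, fun k => k.elim, fun i => by
    rw [fox_free h i]; simp⟩

theorem good_free : Good (FreeGroup (Fin 3)) := by
  refine ⟨⊤, freeData, ⟨inferInstance, ?_⟩, ?_, 0, ?_⟩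
  · intro g n a ha
    unfold cj
    exact J_rmul (J_lmul (e_mem (Subgroup.mem_top g)) ha) (e_mem (Subgroup.mem_top _))
  · show 1 < ∑ _i : Fin 3, (1 / 2 : ℝ) ^ 1 - ∑ k : Empty, (1 / 2 : ℝ) ^ (k.elim : ℕ)
    norm_num
  · rw [Subgroup.index_top, pow_zero]

theorem good_infinite {G : Type} [Group G] (hG : Good G) : Infinite G := by
  by_contra hfin
  rw [not_infinite_iff_finite] at hfin
  obtain ⟨M, D, hD, hpos, a, ha⟩ := hG
  obtain ⟨C, hC⟩ := exists_chain D hpos
  have ha0 : (C.s 0).1.index = 2 ^ a := by rw [hC]; exact ha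
  have ha' : (C.M 0).index = 2 ^ a := ha0
  have h1 : ∀ j, 2 ^ (a + j) ≤ Nat.card G := by
    intro j
    rw [← C.index_pow ha' j]
    exact Nat.le_of_dvd Nat.card_pos (Subgroup.index_dvd_card _)
  have h2 := h1 (Nat.card G)
  have h3 : Nat.card G < 2 ^ Nat.card G := Nat.lt_two_pow_self
  have h4 : 2 ^ Nat.card G ≤ 2 ^ (a + Nat.card G) := Nat.pow_le_pow_right (by norm_num) (by omega)
  omega

end Pool.Agent.Helper30
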