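import Mathlib
import Pool.Agent.Helper79.NC.Spec

/-! Action of `SL(2, ℂ)` on hyperbolic three-space in tube coordinates. -/

set_option autoImplicit false

namespace Pool.Agent.Helper30.NCL

open Matrix Complex ComplexConjugate
open scoped ContDiff
open Pool.Agent.Helper79.NC

abbrev M2 : Type := Matrix (Fin 2) (Fin 2) ℂ
abbrev SL2C : Type := Matrix.SpecialLinearGroup (Fin 2) ℂ
/-- Hermitian matrices `(p, w, s)` -/
abbrev V4 : Type := ℝ × ℂ × ℝ

def toMat (h : V4) : M2 := !![(h.1 : ℂ), h.2.1; conj h.2.1, (h.2.2 : ℂ)]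
def fromMat (H : M2) : V4 := ((H 0 0).re, H 0 1, (H 1 1).re)

theorem fromMat_toMat (h : V4) : fromMat (toMat h) = h := by
  obtain ⟨p, w, s⟩ := h
  simp [fromMat, toMat]

theorem isHermitian_toMat (h : V4) : (toMat h).IsHermitian := by
  obtain ⟨p, w, s⟩ := h
  ext i j
  fin_cases i <;> fin_cases j <;> simp [toMat]

theorem toMat_fromMat {H : M2} (hH : H.IsHermitian) : toMat (fromMat H) = H := by
  have h00 : conj (H 0 0) = H 0 0 := hH.apply 0 0
  have h11 : conj (H 1 1) = H 1 1 := hH.apply 1 1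
  have h01 : conj (H 0 1) = H 1 0 := hH.apply 1 0
  ext i j
  fin_cases i <;> fin_cases j
  · simpa [toMat, fromMat] using Complex.conj_eq_iff_re.1 h00
  · simp [toMat, fromMat]
  · simpa [toMat, fromMat] using h01
  · simpa [toMat, fromMat] using Complex.conj_eq_iff_re.1 h11

/-- the linear action -/
def lin (M : M2) (h : V4) : V4 := fromMat (M * toMat h * Mᴴ)

theorem toMat_lin (M : M2) (h : V4) : toMat (lin M h) = M * toMat h * Mᴴ := by
  apply toMat_fromMat
  exact isHermitian_mul_mul_conjTranspose M (isHermitian_toMat h)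

theorem toMat_injective : Function.Injective toMat := fun a b h => by
  rw [← fromMat_toMat a, ← fromMat_toMat b, h]

theorem lin_one (h : V4) : lin 1 h = h := by
  apply toMat_injective
  rw [toMat_lin]
  simp

theorem lin_mul (M N : M2) (h : V4) : lin (M * N) h = lin M (lin N h) := by
  apply toMat_injective
  rw [toMat_lin, toMat_lin, toMat_lin, conjTranspose_mul]
  simp only [Matrix.mul_assoc]

theorem toMat_add (h k : V4) : toMat (h + k) = toMat h + toMat k := by
  ext i j
  fin_cases i <;> fin_cases j <;> simp [toMat]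

theorem toMat_smul (c : ℝ) (h : V4) : toMat (c • h) = (c : ℂ) • toMat h := by
  ext i j
  fin_cases i <;> fin_cases j <;> simp [toMat]

theorem lin_add (M : M2) (h k : V4) : lin M (h + k) = lin M h + lin M k := by
  apply toMat_injective
  rw [toMat_lin, toMat_add, toMat_add, toMat_lin, toMat_lin]
  simp only [Matrix.mul_add, Matrix.add_mul]

theorem lin_smul (M : M2) (c : ℝ) (h : V4) : lin M (c • h) = c • lin M h := by
  apply toMat_injective
  rw [toMat_lin, toMat_smul, toMat_smul, toMat_lin]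
  simp only [Matrix.mul_smul, Matrix.smul_mul]

/-- `lin M` as a continuous linear map -/
noncomputable def linL (M : M2) : V4 →L[ℝ] V4 :=
  LinearMap.toContinuousLinearMap
    { toFun := lin M, map_add' := lin_add M, map_smul' := lin_smul M }

theorem linL_apply (M : M2) (h : V4) : linL M h = lin M h := rfl

theorem lin_fst (M : M2) (h : V4) : (lin M h).1 = normSq (M 0 0) * h.1 + normSq (M 0 1) * h.2.2
    + 2 * (M 0 0 * conj (M 0 1) * h.2.1).re := by
  simp [lin, fromMat, toMat, Matrix.mul_apply, Fin.sum_univ_two, normSq_apply]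
  ring

theorem lin_snd_snd (M : M2) (h : V4) : (lin M h).2.2 = normSq (M 1 0) * h.1 + normSq (M 1 1) * h.2.2
    + 2 * (M 1 0 * conj (M 1 1) * h.2.1).re := by
  simp [lin, fromMat, toMat, Matrix.mul_apply, Fin.sum_univ_two, normSq_apply]
  ring

theorem lin_snd_fst (M : M2) (h : V4) : (lin M h).2.1 = M 0 0 * conj (M 1 0) * h.1
    + M 0 1 * conj (M 1 0) * conj h.2.1 + M 0 0 * conj (M 1 1) * h.2.1
    + M 0 1 * conj (M 1 1) * h.2.2 := by
  simp [lin, fromMat, toMat, Matrix.mul_apply, Fin.sum_univ_two]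
  ring

/-- minus the determinant -/
def Qf (h : V4) : ℝ := normSq h.2.1 - h.1 * h.2.2

theorem det_toMat (h : V4) : (toMat h).det = -((Qf h : ℝ) : ℂ) := by
  rw [toMat, Matrix.det_fin_two_of, Qf]
  push_cast
  rw [← Complex.mul_conj]
  ring

theorem Qf_lin {M : M2} (hM : M.det = 1) (h : V4) : Qf (lin M h) = Qf h := by
  have h1 : (toMat (lin M h)).det = (toMat h).det := by
    rw [toMat_lin, Matrix.det_mul, Matrix.det_mul, Matrix.det_conjTranspose, hM]
    simp
  rw [det_toMat, det_toMat, neg_inj] at h1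
  exact_mod_cast h1

/-- the polarisation of `Qf` -/
noncomputable def Bf (h k : V4) : ℝ := dot h.2.1 k.2.1 - (h.1 * k.2.2 + k.1 * h.2.2) / 2

theorem Bf_eq (h k : V4) : Bf h k = (Qf (h + k) - Qf h - Qf k) / 2 := by
  simp only [Bf, Qf, dot, Prod.fst_add, Prod.snd_add, normSq_apply, add_re, add_im]
  ring

theorem Bf_lin {M : M2} (hM : M.det = 1) (h k : V4) : Bf (lin M h) (lin M k) = Bf h k := by
  rw [Bf_eq, Bf_eq, ← lin_add, Qf_lin hM, Qf_lin hM, Qf_lin hM]

/-- the hyperboloid -/
structure Hyp (h : V4) : Prop where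
  p_pos : 0 < h.1
  s_pos : 0 < h.2.2
  eq : h.1 * h.2.2 = 1 + normSq h.2.1

theorem lin_fst_mul_p (M : M2) {h : V4} (hh : Hyp h) :
    (lin M h).1 * h.1 = normSq (M 0 0 * h.1 + M 0 1 * conj h.2.1) + normSq (M 0 1) := by
  have h1 : normSq (M 0 1) = normSq (M 0 1) * (h.1 * h.2.2 - normSq h.2.1) := by
    rw [hh.eq]; ring
  rw [lin_fst]
  conv_rhs => rw [h1]
  simp [normSq_apply]
  ring

theorem lin_fst_mul_s (M : M2) {h : V4} (hh : Hyp h) :
    (lin M h).1 * h.2.2 = normSq (M 0 0 * h.2.1 + M 0 1 * h.2.2) + normSq (M 0 0) := by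
  have h1 : normSq (M 0 0) = normSq (M 0 0) * (h.1 * h.2.2 - normSq h.2.1) := by
    rw [hh.eq]; ring
  rw [lin_fst]
  conv_rhs => rw [h1]
  simp [normSq_apply]
  ring

theorem lin_snd_mul_p (M : M2) {h : V4} (hh : Hyp h) :
    (lin M h).2.2 * h.1 = normSq (M 1 0 * h.1 + M 1 1 * conj h.2.1) + normSq (M 1 1) := by
  have h1 : normSq (M 1 1) = normSq (M 1 1) * (h.1 * h.2.2 - normSq h.2.1) := by
    rw [hh.eq]; ring
  rw [lin_snd_snd]
  conv_rhs => rw [h1]
  simp [normSq_apply]
  ring

theorem lin_snd_mul_s (M : M2) {h : V4} (hh : Hyp h) :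
    (lin M h).2.2 * h.2.2 = normSq (M 1 0 * h.2.1 + M 1 1 * h.2.2) + normSq (M 1 0) := by
  have h1 : normSq (M 1 0) = normSq (M 1 0) * (h.1 * h.2.2 - normSq h.2.1) := by
    rw [hh.eq]; ring
  rw [lin_snd_snd]
  conv_rhs => rw [h1]
  simp [normSq_apply]
  ring

theorem Hyp.lin {M : M2} (hM : M.det = 1) {h : V4} (hh : Hyp h) : Hyp (lin M h) := by
  have hQ : (NCL.lin M h).1 * (NCL.lin M h).2.2 = 1 + normSq (NCL.lin M h).2.1 := by
    have h1 := Qf_lin hM h
    have h2 := hh.eq
    rw [Qf, Qf] at h1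
    linarith
  have hp : 0 < (NCL.lin M h).1 := by
    have h1 := lin_fst_mul_p M hh
    have h2 := lin_fst_mul_s M hh
    have h3 : 0 ≤ (NCL.lin M h).1 := by
      by_contra hcon
      push Not at hcon
      have h4 := mul_neg_of_neg_of_pos hcon hh.p_pos
      have h5 := normSq_nonneg (M 0 0 * h.1 + M 0 1 * conj h.2.1)
      have h6 := normSq_nonneg (M 0 1)
      linarith
    rcases h3.lt_or_eq with h4 | h4
    · exact h4
    · exfalso
      rw [← h4, zero_mul] at h1 h2
      have h5 := normSq_nonneg (M 0 0 * h.1 + M 0 1 * conj h.2.1)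
      have h6 := normSq_nonneg (M 0 1)
      have h7 := normSq_nonneg (M 0 0 * h.2.1 + M 0 1 * h.2.2)
      have h8 := normSq_nonneg (M 0 0)
      have h9 : M 0 1 = 0 := normSq_eq_zero.1 (by linarith)
      have h10 : M 0 0 = 0 := normSq_eq_zero.1 (by linarith)
      rw [Matrix.det_fin_two, h9, h10] at hM
      simp at hM
  refine ⟨hp, ?_, hQ⟩
  have h1 : 0 < (NCL.lin M h).1 * (NCL.lin M h).2.2 := by
    rw [hQ]
    have := normSq_nonneg (NCL.lin M h).2.1
    linarith
  exact (mul_pos_iff_of_pos_left hp).1 h1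

/-- `C = √(1 + |w|²)` -/
noncomputable def cc (x : E3) : ℝ := √(1 + normSq x.1)

theorem cc_pos (x : E3) : 0 < cc x := by
  apply Real.sqrt_pos.2
  have := normSq_nonneg x.1
  linarith

theorem cc_sq (x : E3) : cc x ^ 2 = 1 + normSq x.1 := by
  apply Real.sq_sqrt
  have := normSq_nonneg x.1
  linarith

theorem one_le_cc (x : E3) : 1 ≤ cc x := by
  have h1 := cc_sq x
  have h2 := cc_pos x
  have h3 := normSq_nonneg x.1
  nlinarith

/-- the embedding in the hyperboloid -/
noncomputable def io (x : E3) : V4 := (cc x * Real.exp x.2, x.1, cc x * Real.exp (-x.2))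

/-- its inverse -/
noncomputable def pj (h : V4) : E3 := (h.2.1, (1 / 2) * Real.log (h.1 / h.2.2))

theorem hyp_io (x : E3) : Hyp (io x) := by
  refine ⟨mul_pos (cc_pos x) (Real.exp_pos _), mul_pos (cc_pos x) (Real.exp_pos _), ?_⟩
  have h1 : Real.exp x.2 * Real.exp (-x.2) = 1 := by rw [← Real.exp_add]; simp
  have h2 := cc_sq x
  show cc x * Real.exp x.2 * (cc x * Real.exp (-x.2)) = 1 + normSq x.1
  rw [← h2]
  calc cc x * Real.exp x.2 * (cc x * Real.exp (-x.2))
      = cc x ^ 2 * (Real.exp x.2 * Real.exp (-x.2)) := by ring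
    _ = _ := by rw [h1, mul_one]

theorem pj_io (x : E3) : pj (io x) = x := by
  apply Prod.ext
  · rfl
  · show (1 / 2) * Real.log (cc x * Real.exp x.2 / (cc x * Real.exp (-x.2))) = x.2
    rw [mul_div_mul_left _ _ (cc_pos x).ne', ← Real.exp_sub, Real.log_exp]
    ring

theorem io_pj {h : V4} (hh : Hyp h) : io (pj h) = h := by
  obtain ⟨hp, hs, he⟩ := hh
  set E := Real.exp ((1 / 2) * Real.log (h.1 / h.2.2)) with hE
  have hE0 : 0 < E := Real.exp_pos _
  have hE2 : E ^ 2 = h.1 / h.2.2 := by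
    rw [hE, ← Real.exp_nat_mul]
    push_cast
    rw [← mul_assoc]
    norm_num
    exact Real.exp_log (div_pos hp hs)
  have hC : cc (pj h) ^ 2 = h.1 * h.2.2 := by
    rw [cc_sq, he]
    rfl
  have hC0 := cc_pos (pj h)
  have h1 : cc (pj h) * E = h.1 := by
    have h2 : (cc (pj h) * E) ^ 2 = h.1 ^ 2 := by
      rw [mul_pow, hC, hE2]
      field_simp
    exact (pow_left_inj₀ (by positivity) hp.le (by norm_num)).1 h2
  have h3 : cc (pj h) * Real.exp (-((1 / 2) * Real.log (h.1 / h.2.2))) = h.2.2 := by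
    rw [Real.exp_neg, ← hE]
    have h2 : (cc (pj h) * E⁻¹) ^ 2 = h.2.2 ^ 2 := by
      rw [mul_pow, inv_pow, hC, hE2]
      field_simp
    exact (pow_left_inj₀ (by positivity) hs.le (by norm_num)).1 h2
  apply Prod.ext
  · exact h1
  · apply Prod.ext
    · rfl
    · exact h3

theorem io_injective : Function.Injective io := fun a b h => by
  rw [← pj_io a, ← pj_io b, h]

noncomputable instance actE3 : MulAction SL2C E3 where
  smul M x := pj (lin (M : M2) (io x))
  one_smul x := by
    have h : lin ((1 : SL2C) : M2) (io x) = io x := lin_one _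
    exact (congrArg pj h).trans (pj_io x)
  mul_smul M N x := by
    have h : lin ((M * N : SL2C) : M2) (io x) = lin (M : M2) (lin (N : M2) (io x)) := lin_mul _ _ _
    have h2 : io (pj (lin (N : M2) (io x))) = lin (N : M2) (io x) :=
      io_pj ((hyp_io x).lin N.det_coe)
    exact congrArg pj (h.trans (congrArg (lin (M : M2)) h2.symm))

theorem smul_def' (M : SL2C) (x : E3) : M • x = pj (lin (M : M2) (io x)) := rfl

theorem io_smul (M : SL2C) (x : E3) : io (M • x) = lin (M : M2) (io x) := by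
  rw [smul_def', io_pj ((hyp_io x).lin M.det_coe)]

/-! ### Smoothness -/

theorem contDiff_normSq : ContDiff ℝ ∞ (fun x : E3 => normSq x.1) := by
  have h : (fun x : E3 => normSq x.1) = fun x => reL x ^ 2 + imL x ^ 2 := by
    funext x
    simp [reL, imL, normSq_apply, sq]
  rw [h]
  exact (reL.contDiff.pow 2).add (imL.contDiff.pow 2)

theorem contDiff_cc : ContDiff ℝ ∞ cc := by
  unfold cc
  apply ContDiff.sqrt (contDiff_const.add contDiff_normSq)
  intro x
  have := normSq_nonneg x.1
  linarith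

theorem contDiff_io : ContDiff ℝ ∞ io := by
  unfold io
  apply ContDiff.prodMk
  · exact contDiff_cc.mul (Real.contDiff_exp.comp contDiff_snd)
  · apply ContDiff.prodMk contDiff_fst
    exact contDiff_cc.mul (Real.contDiff_exp.comp contDiff_snd.neg)

theorem contDiff_smul (M : SL2C) : ContDiff ℝ ∞ (fun x : E3 => M • x) := by
  have h1 : ContDiff ℝ ∞ (fun x : E3 => linL (M : M2) (io x)) := (linL (M : M2)).contDiff.comp contDiff_io
  have h2 : ∀ x, Hyp (linL (M : M2) (io x)) := fun x => (hyp_io x).lin M.det_coe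
  show ContDiff ℝ ∞ (fun x : E3 => ((linL (M : M2) (io x)).2.1,
    (1 / 2) * Real.log ((linL (M : M2) (io x)).1 / (linL (M : M2) (io x)).2.2)))
  apply ContDiff.prodMk
  · exact contDiff_fst.comp (contDiff_snd.comp h1)
  · apply contDiff_const.mul
    apply ContDiff.log
    · apply ContDiff.div
      · exact contDiff_fst.comp h1
      · exact contDiff_snd.comp (contDiff_snd.comp h1)
      · intro x
        exact (h2 x).s_pos.ne'
    · intro x
      exact (div_pos (h2 x).p_pos (h2 x).s_pos).ne'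

/-! ### The isometry property -/

theorem hasFDerivAt_normSq (x : E3) : HasFDerivAt (fun x : E3 => normSq x.1)
    ((2 : ℝ) • radL x.1) x := by
  have h : (fun x : E3 => normSq x.1) = fun x => reL x ^ 2 + imL x ^ 2 := by
    funext x
    simp [reL, imL, normSq_apply, sq]
  rw [h]
  have h1 := (reL.hasFDerivAt (x := x)).pow 2
  have h2 := (imL.hasFDerivAt (x := x)).pow 2
  refine (h1.add h2).congr_fderiv ?_
  ext v <;> simp [radL, reL, imL] <;> ring

theorem hasFDerivAt_cc (x : E3) : HasFDerivAt cc ((1 / cc x) • radL x.1) x := by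
  have h1 : HasFDerivAt (fun x : E3 => 1 + normSq x.1) ((2 : ℝ) • radL x.1) x :=
    (hasFDerivAt_normSq x).const_add 1
  have h2 := h1.sqrt (by have := normSq_nonneg x.1; linarith)
  refine h2.congr_fderiv ?_
  rw [smul_smul]
  congr 1
  show 1 / (2 * cc x) * 2 = 1 / cc x
  have := (cc_pos x).ne'
  field_simp

theorem fderiv_io (x v : E3) : fderiv ℝ io x v
    = (Real.exp x.2 * (dot x.1 v.1 / cc x + cc x * v.2), v.1,
        Real.exp (-x.2) * (dot x.1 v.1 / cc x - cc x * v.2)) := by
  have h1 := hasFDerivAt_cc x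
  have h2 : HasFDerivAt (fun x : E3 => Real.exp x.2) (Real.exp x.2 • thL) x :=
    (thL.hasFDerivAt (x := x)).exp
  have h3 : HasFDerivAt (fun x : E3 => Real.exp (-x.2)) (Real.exp (-x.2) • (-thL)) x :=
    ((thL.hasFDerivAt (x := x)).neg).exp
  have h4 : HasFDerivAt (fun x : E3 => x.1) (ContinuousLinearMap.fst ℝ ℂ ℝ) x := hasFDerivAt_fst
  have h5 : HasFDerivAt io _ x := (h1.mul h2).prodMk (h4.prodMk (h1.mul h3))
  rw [h5.fderiv]
  have hd : radL x.1 v = dot x.1 v.1 := by
    simp [radL, reL, imL, dot]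
  have ht : thL v = v.2 := rfl
  simp only [ContinuousLinearMap.prod_apply, _root_.add_apply, _root_.smul_apply, _root_.neg_apply,
    smul_eq_mul, hd, ht, ContinuousLinearMap.coe_fst']
  refine Prod.ext ?_ (Prod.ext rfl ?_)
  · show cc x * (Real.exp x.2 * v.2) + Real.exp x.2 * (1 / cc x * dot x.1 v.1) = _
    ring
  · show cc x * (Real.exp (-x.2) * -v.2) + Real.exp (-x.2) * (1 / cc x * dot x.1 v.1) = _
    ring

theorem hypForm_eq (x v w : E3) : hypForm x v w = Bf (fderiv ℝ io x v) (fderiv ℝ io x w) := by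
  rw [fderiv_io, fderiv_io, Bf, hypForm]
  simp only
  have h1 : Real.exp x.2 * Real.exp (-x.2) = 1 := by rw [← Real.exp_add]; simp
  have h2 := cc_sq x
  have h3 := (cc_pos x).ne'
  rw [← h2]
  have e1 : Real.exp x.2 * (dot x.1 v.1 / cc x + cc x * v.2) *
      (Real.exp (-x.2) * (dot x.1 w.1 / cc x - cc x * w.2))
      + Real.exp x.2 * (dot x.1 w.1 / cc x + cc x * w.2) *
      (Real.exp (-x.2) * (dot x.1 v.1 / cc x - cc x * v.2))
      = (Real.exp x.2 * Real.exp (-x.2)) * (((dot x.1 v.1 / cc x + cc x * v.2) *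
        (dot x.1 w.1 / cc x - cc x * w.2)) + (dot x.1 w.1 / cc x + cc x * w.2) *
        (dot x.1 v.1 / cc x - cc x * v.2)) := by ring
  rw [e1, h1]
  field_simp
  ring

theorem isometry (M : SL2C) (x v w : E3) :
    hypForm (M • x) (fderiv ℝ (fun y : E3 => M • y) x v) (fderiv ℝ (fun y : E3 => M • y) x w)
      = hypForm x v w := by
  have hcomp : (fun y : E3 => io (M • y)) = fun y => linL (M : M2) (io y) := by
    funext y
    rw [io_smul]
    rfl
  have hd : ∀ u : E3, fderiv ℝ io (M • x) (fderiv ℝ (fun y : E3 => M • y) x u)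
      = lin (M : M2) (fderiv ℝ io x u) := by
    intro u
    have h1 : HasFDerivAt (fun y : E3 => M • y) (fderiv ℝ (fun y : E3 => M • y) x) x :=
      ((contDiff_smul M).differentiable (by simp)).differentiableAt.hasFDerivAt
    have h2 : HasFDerivAt io (fderiv ℝ io (M • x)) (M • x) :=
      (contDiff_io.differentiable (by simp)).differentiableAt.hasFDerivAt
    have h3 := h2.comp x h1
    have h4 : HasFDerivAt io (fderiv ℝ io x) x :=
      (contDiff_io.differentiable (by simp)).differentiableAt.hasFDerivAt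
    have h5 := (linL (M : M2)).hasFDerivAt.comp x h4
    have h6 : io ∘ (fun y : E3 => M • y) = (linL (M : M2)) ∘ io := hcomp
    rw [h6] at h3
    have h7 := h3.unique h5
    have h8 := congrArg (fun L : E3 →L[ℝ] V4 => L u) h7
    exact h8
  rw [hypForm_eq, hypForm_eq, hd, hd, Bf_lin M.det_coe]

end Pool.Agent.Helper30.NCL
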