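import Mathlib
import Pool.Agent.Helper30.NCLat1

/-! The quaternion order `(2,5)` over `ℤ[i]` and the group. -/

set_option autoImplicit false
set_option linter.unusedSimpArgs false

namespace Pool.Agent.Helper30.NCL

open Matrix Complex ComplexConjugate
open scoped ContDiff
open Pool.Agent.Helper79.NC

abbrev GI : Type := GaussianInt

/-! ### Anisotropy -/

/-- reduction modulo `2 + i` -/
def red : GI →+* ZMod 5 := Zsqrtd.lift ⟨(3 : ZMod 5), by decide⟩

theorem red_apply (z : GI) : red z = (z.re : ZMod 5) + (z.im : ZMod 5) * 3 := by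
  simp [red, Zsqrtd.lift_apply_apply]

/-- the prime `2 + i` -/
def pr : GI := ⟨2, 1⟩
/-- its conjugate -/
def prb : GI := ⟨2, -1⟩

theorem pr_mul_prb : pr * prb = 5 := by
  decide

theorem pr_ne_zero : pr ≠ 0 := by
  decide

theorem red_pr : red pr = 0 := by
  rw [red_apply]; decide

theorem red_prb : red prb ≠ 0 := by
  rw [red_apply]; decide

theorem red_eq_zero {z : GI} (h : red z = 0) : ∃ y, z = pr * y := by
  rw [red_apply] at h
  have h1 : ((z.re + z.im * 3 : ℤ) : ZMod 5) = 0 := by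
    push_cast
    exact h
  rw [ZMod.intCast_zmod_eq_zero_iff_dvd] at h1
  obtain ⟨k, hk⟩ := h1
  push_cast at hk
  refine ⟨⟨2 * k - z.im, z.im - k⟩, ?_⟩
  rw [Zsqrtd.ext_iff]
  constructor
  · simp [pr]
    linarith
  · simp [pr]
    ring

instance fact5 : Fact (Nat.Prime 5) := ⟨by norm_num⟩

theorem two_nonsq : ∀ a b : ZMod 5, a ^ 2 - 2 * b ^ 2 = 0 → a = 0 ∧ b = 0 := by
  decide

theorem norm_pr_mul (y : GI) : (pr * y).norm = 5 * y.norm := by
  rw [Zsqrtd.norm_mul]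
  rfl

theorem aniso_aux : ∀ (n : ℕ) (x0 x1 x2 x3 : GI), x0.norm + x1.norm + x2.norm + x3.norm ≤ n →
    x0 ^ 2 - 2 * x1 ^ 2 = 5 * (x2 ^ 2 - 2 * x3 ^ 2) → x0 = 0 ∧ x1 = 0 ∧ x2 = 0 ∧ x3 = 0 := by
  intro n
  induction n using Nat.strong_induction_on with
  | _ n ih =>
    intro x0 x1 x2 x3 hn h
    have n0 := GaussianInt.norm_nonneg x0
    have n1 := GaussianInt.norm_nonneg x1
    have n2 := GaussianInt.norm_nonneg x2
    have n3 := GaussianInt.norm_nonneg x3
    have h1 : (red x0) ^ 2 - 2 * (red x1) ^ 2 = 0 := by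
      have h2 := congrArg red h
      rw [← pr_mul_prb] at h2
      simp only [map_sub, map_mul, map_pow, red_pr, zero_mul] at h2
      have h3 : red 2 = 2 := map_ofNat red 2
      rw [h3] at h2
      exact h2
    obtain ⟨h4, h5⟩ := two_nonsq _ _ h1
    obtain ⟨y0, rfl⟩ := red_eq_zero h4
    obtain ⟨y1, rfl⟩ := red_eq_zero h5
    have h6 : pr * (y0 ^ 2 - 2 * y1 ^ 2) = prb * (x2 ^ 2 - 2 * x3 ^ 2) := by
      apply mul_left_cancel₀ pr_ne_zero
      rw [← pr_mul_prb] at h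
      linear_combination h
    have h7 : (red x2) ^ 2 - 2 * (red x3) ^ 2 = 0 := by
      have h2 := congrArg red h6
      simp only [map_sub, map_mul, map_pow, red_pr, zero_mul] at h2
      have h3 : red 2 = 2 := map_ofNat red 2
      rw [h3] at h2
      exact (mul_eq_zero.1 h2.symm).resolve_left red_prb
    obtain ⟨h8, h9⟩ := two_nonsq _ _ h7
    obtain ⟨y2, rfl⟩ := red_eq_zero h8
    obtain ⟨y3, rfl⟩ := red_eq_zero h9
    have h10 : y0 ^ 2 - 2 * y1 ^ 2 = 5 * (y2 ^ 2 - 2 * y3 ^ 2) := by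
      apply mul_left_cancel₀ pr_ne_zero
      rw [h6, ← pr_mul_prb]
      ring
    rw [norm_pr_mul, norm_pr_mul, norm_pr_mul, norm_pr_mul] at hn
    have m0 := GaussianInt.norm_nonneg y0
    have m1 := GaussianInt.norm_nonneg y1
    have m2 := GaussianInt.norm_nonneg y2
    have m3 := GaussianInt.norm_nonneg y3
    by_cases hz : y0.norm + y1.norm + y2.norm + y3.norm = 0
    · have e0 : y0 = 0 := GaussianInt.norm_eq_zero.1 (by linarith)
      have e1 : y1 = 0 := GaussianInt.norm_eq_zero.1 (by linarith)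
      have e2 : y2 = 0 := GaussianInt.norm_eq_zero.1 (by linarith)
      have e3 : y3 = 0 := GaussianInt.norm_eq_zero.1 (by linarith)
      simp [e0, e1, e2, e3]
    · have hlt : y0.norm + y1.norm + y2.norm + y3.norm < n := by omega
      obtain ⟨m, hm⟩ := Int.eq_ofNat_of_zero_le
        (show 0 ≤ y0.norm + y1.norm + y2.norm + y3.norm by positivity)
      have hmn : m < n := by omega
      obtain ⟨e0, e1, e2, e3⟩ := ih m hmn y0 y1 y2 y3 hm.le h10
      simp [e0, e1, e2, e3]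

theorem aniso {x0 x1 x2 x3 : GI} (h : x0 ^ 2 - 2 * x1 ^ 2 = 5 * (x2 ^ 2 - 2 * x3 ^ 2)) :
    x0 = 0 ∧ x1 = 0 ∧ x2 = 0 ∧ x3 = 0 := by
  obtain ⟨m, hm⟩ := Int.eq_ofNat_of_zero_le
    (show 0 ≤ x0.norm + x1.norm + x2.norm + x3.norm by
      have n0 := GaussianInt.norm_nonneg x0
      have n1 := GaussianInt.norm_nonneg x1
      have n2 := GaussianInt.norm_nonneg x2
      have n3 := GaussianInt.norm_nonneg x3
      positivity)
  exact aniso_aux m x0 x1 x2 x3 hm.le h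

/-! ### The order -/

/-- `√2` -/
noncomputable def r2 : ℂ := ((√2 : ℝ) : ℂ)

theorem r2_sq : r2 * r2 = 2 := by
  rw [r2, ← ofReal_mul, Real.mul_self_sqrt (by norm_num)]
  norm_num

theorem r2_sq' : r2 ^ 2 = 2 := by rw [sq, r2_sq]

theorem conj_r2 : conj r2 = r2 := conj_ofReal _

theorem r2_ne : r2 ≠ 0 := by
  intro h
  have := r2_sq
  rw [h] at this
  norm_num at this

abbrev Q4 : Type := Fin 4 → GI

/-- `x₀ + x₁ √2` -/
noncomputable def pA (x : Q4) : ℂ := (x 0 : ℂ) + (x 1 : ℂ) * r2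
noncomputable def pA' (x : Q4) : ℂ := (x 0 : ℂ) - (x 1 : ℂ) * r2
noncomputable def pB (x : Q4) : ℂ := (x 2 : ℂ) + (x 3 : ℂ) * r2
noncomputable def pB' (x : Q4) : ℂ := (x 2 : ℂ) - (x 3 : ℂ) * r2

/-- the matrix of an element of the order -/
noncomputable def mat (x : Q4) : M2 := !![pA x, pB x; 5 * pB' x, pA' x]

/-- product -/
def qmul (x y : Q4) : Q4 :=
  ![x 0 * y 0 + 2 * x 1 * y 1 + 5 * (x 2 * y 2 - 2 * x 3 * y 3),
    x 0 * y 1 + x 1 * y 0 + 5 * (x 3 * y 2 - x 2 * y 3),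
    x 0 * y 2 + 2 * x 1 * y 3 + (x 2 * y 0 - 2 * x 3 * y 1),
    x 0 * y 3 + x 1 * y 2 + (x 3 * y 0 - x 2 * y 1)]

/-- adjoint -/
def qadj (x : Q4) : Q4 := ![x 0, -x 1, -x 2, -x 3]

/-- reduced norm -/
def nrd (x : Q4) : GI := x 0 ^ 2 - 2 * x 1 ^ 2 - 5 * (x 2 ^ 2 - 2 * x 3 ^ 2)

theorem tc2 : ((2 : GI) : ℂ) = 2 := map_ofNat GaussianInt.toComplex 2
theorem tc5 : ((5 : GI) : ℂ) = 5 := map_ofNat GaussianInt.toComplex 5

theorem mat_mul (x y : Q4) : mat (qmul x y) = mat x * mat y := by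
  have h := r2_sq'
  ext i j
  fin_cases i <;> fin_cases j
  · simp [mat, Matrix.mul_apply, Fin.sum_univ_two, pA, pA', pB, pB', qmul, tc2, tc5]
    linear_combination ((-(x 1 : ℂ) * y 1) + 5 * x 3 * y 3) * h
  · simp [mat, Matrix.mul_apply, Fin.sum_univ_two, pA, pA', pB, pB', qmul, tc2, tc5]
    linear_combination ((-(x 1 : ℂ) * y 3) + x 3 * y 1) * h
  · simp [mat, Matrix.mul_apply, Fin.sum_univ_two, pA, pA', pB, pB', qmul, tc2, tc5]
    linear_combination (5 * ((-(x 1 : ℂ) * y 3) + x 3 * y 1)) * h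
  · simp [mat, Matrix.mul_apply, Fin.sum_univ_two, pA, pA', pB, pB', qmul, tc2, tc5]
    linear_combination ((-(x 1 : ℂ) * y 1) + 5 * x 3 * y 3) * h

theorem mat_adj (x : Q4) : mat (qadj x) = (mat x).adjugate := by
  rw [Matrix.adjugate_fin_two]
  ext i j
  fin_cases i <;> fin_cases j <;> simp [mat, pA, pA', pB, pB', qadj] <;> ring

theorem det_mat (x : Q4) : (mat x).det = (nrd x : ℂ) := by
  have h := r2_sq'
  rw [Matrix.det_fin_two]
  simp [mat, pA, pA', pB, pB', nrd, tc2, tc5]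
  linear_combination ((-(x 1 : ℂ) ^ 2) + 5 * (x 3 : ℂ) ^ 2) * h

theorem mat_injective : Function.Injective mat := by
  intro x y h
  have h00 := congrFun (congrFun h 0) 0
  have h01 := congrFun (congrFun h 0) 1
  have h10 := congrFun (congrFun h 1) 0
  have h11 := congrFun (congrFun h 1) 1
  simp only [mat, Matrix.of_apply, Matrix.cons_val', Matrix.cons_val_zero, Matrix.cons_val_one,
    Matrix.cons_val_fin_one, pA, pB, pA', pB'] at h00 h01 h10 h11
  have e0 : (x 0 : ℂ) = y 0 := by linear_combination (h00 + h11) / 2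
  have e1 : (x 1 : ℂ) = y 1 := by
    have : ((x 1 : ℂ) - y 1) * r2 = 0 := by linear_combination (h00 - h11) / 2
    exact sub_eq_zero.1 ((mul_eq_zero.1 this).resolve_right r2_ne)
  have e2 : (x 2 : ℂ) = y 2 := by linear_combination h01 / 2 + h10 / 10
  have e3 : (x 3 : ℂ) = y 3 := by
    have : ((x 3 : ℂ) - y 3) * r2 = 0 := by linear_combination h01 / 2 - h10 / 10
    exact sub_eq_zero.1 ((mul_eq_zero.1 this).resolve_right r2_ne)
  funext i
  fin_cases i
  · exact GaussianInt.toComplex_inj.1 e0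
  · exact GaussianInt.toComplex_inj.1 e1
  · exact GaussianInt.toComplex_inj.1 e2
  · exact GaussianInt.toComplex_inj.1 e3

theorem nrd_ne_zero {x : Q4} (hx : x ≠ 0) : nrd x ≠ 0 := by
  intro h
  apply hx
  obtain ⟨h0, h1, h2, h3⟩ := aniso (x0 := x 0) (x1 := x 1) (x2 := x 2) (x3 := x 3)
    (by rw [nrd] at h; linear_combination h)
  funext i
  fin_cases i
  · exact h0
  · exact h1
  · exact h2
  · exact h3

/-- congruence modulo `3` -/
def Cong (x : Q4) : Prop := (3 : GI) ∣ x 0 - 1 ∧ (3 : GI) ∣ x 1 ∧ (3 : GI) ∣ x 2 ∧ (3 : GI) ∣ x 3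

theorem Cong.mul {x y : Q4} (hx : Cong x) (hy : Cong y) : Cong (qmul x y) := by
  obtain ⟨⟨a0, h0⟩, ⟨a1, h1⟩, ⟨a2, h2⟩, ⟨a3, h3⟩⟩ := hx
  obtain ⟨⟨b0, g0⟩, ⟨b1, g1⟩, ⟨b2, g2⟩, ⟨b3, g3⟩⟩ := hy
  refine ⟨⟨a0 * y 0 + b0 + 2 * a1 * y 1 + 5 * (a2 * y 2 - 2 * a3 * y 3), ?_⟩,
    ⟨x 0 * b1 + a1 * y 0 + 5 * (a3 * y 2 - a2 * y 3), ?_⟩,
    ⟨x 0 * b2 + 2 * a1 * y 3 + (a2 * y 0 - 2 * a3 * y 1), ?_⟩,
    ⟨x 0 * b3 + a1 * y 2 + (a3 * y 0 - a2 * y 1), ?_⟩⟩
  · simp [qmul]
    linear_combination y 0 * h0 + g0 + 2 * y 1 * h1 + 5 * y 2 * h2 - 10 * y 3 * h3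
  · simp [qmul]
    linear_combination x 0 * g1 + y 0 * h1 + 5 * y 2 * h3 - 5 * y 3 * h2
  · simp [qmul]
    linear_combination x 0 * g2 + 2 * y 3 * h1 + y 0 * h2 - 2 * y 1 * h3
  · simp [qmul]
    linear_combination x 0 * g3 + y 2 * h1 + y 0 * h3 - y 1 * h2

theorem Cong.adj {x : Q4} (hx : Cong x) : Cong (qadj x) := by
  obtain ⟨h0, h1, h2, h3⟩ := hx
  exact ⟨h0, (dvd_neg.2 h1 : (3 : GI) ∣ -x 1), (dvd_neg.2 h2 : (3 : GI) ∣ -x 2),
    (dvd_neg.2 h3 : (3 : GI) ∣ -x 3)⟩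

/-- The group. -/
noncomputable def Gam : Subgroup SL2C where
  carrier := {M | ∃ x : Q4, Cong x ∧ (M : M2) = mat x}
  mul_mem' := by
    rintro M N ⟨x, hx, hM⟩ ⟨y, hy, hN⟩
    refine ⟨qmul x y, hx.mul hy, ?_⟩
    rw [mat_mul, ← hM, ← hN]
    rfl
  one_mem' := by
    refine ⟨![1, 0, 0, 0], ⟨?_, ?_, ?_, ?_⟩, ?_⟩
    · simp
    · simp
    · simp
    · simp
    · ext i j
      fin_cases i <;> fin_cases j <;> simp [mat, pA, pA', pB, pB']
  inv_mem' := by
    rintro M ⟨x, hx, hM⟩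
    refine ⟨qadj x, hx.adj, ?_⟩
    rw [mat_adj, ← hM]
    exact Matrix.SpecialLinearGroup.coe_inv M

theorem mem_Gam {M : SL2C} : M ∈ Gam ↔ ∃ x : Q4, Cong x ∧ (M : M2) = mat x := Iff.rfl

theorem gam_smul_def (γ : Gam) (x : E3) : γ • x = (γ : SL2C) • x := rfl

/-! ### Cholesky factors -/

noncomputable def ch (h : V4) : M2 := !![(((√h.2.2)⁻¹ : ℝ) : ℂ), h.2.1 * (((√h.2.2)⁻¹ : ℝ) : ℂ);
  0, ((√h.2.2 : ℝ) : ℂ)]
noncomputable def chi (h : V4) : M2 := !![((√h.2.2 : ℝ) : ℂ), -h.2.1 * (((√h.2.2)⁻¹ : ℝ) : ℂ);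
  0, (((√h.2.2)⁻¹ : ℝ) : ℂ)]

theorem sqrt_inv {s : ℝ} (hs : 0 < s) : ((√s : ℝ) : ℂ) * (((√s)⁻¹ : ℝ) : ℂ) = 1 := by
  rw [← ofReal_mul, mul_inv_cancel₀ (Real.sqrt_pos.2 hs).ne', ofReal_one]

theorem ch_mul_chi {h : V4} (hh : Hyp h) : ch h * chi h = 1 := by
  have h1 := sqrt_inv hh.s_pos
  ext i j
  fin_cases i <;> fin_cases j
  · simp only [ch, chi, Matrix.mul_apply, Fin.sum_univ_two, Matrix.of_apply, Matrix.cons_val',
      Matrix.cons_val_zero, Matrix.cons_val_one, Matrix.cons_val_fin_one, Fin.mk_zero, Fin.mk_one,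
      Matrix.one_apply_eq, Fin.zero_eta, Fin.isValue]
    linear_combination h1
  · simp [ch, chi, Matrix.mul_apply, Fin.sum_univ_two]
    ring
  · simp [ch, chi, Matrix.mul_apply, Fin.sum_univ_two]
  · simp only [ch, chi, Matrix.mul_apply, Fin.sum_univ_two, Matrix.of_apply, Matrix.cons_val',
      Matrix.cons_val_zero, Matrix.cons_val_one, Matrix.cons_val_fin_one, Fin.mk_zero, Fin.mk_one,
      Matrix.one_apply_eq, Fin.zero_eta, Fin.isValue]
    linear_combination h1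

theorem chi_mul_ch {h : V4} (hh : Hyp h) : chi h * ch h = 1 :=
  mul_eq_one_comm.1 (ch_mul_chi hh)

theorem ch_mul_conjTranspose {h : V4} (hh : Hyp h) : ch h * (ch h)ᴴ = toMat h := by
  have hs := hh.s_pos
  have h1 := sqrt_inv hs
  have h2 : ((√h.2.2 : ℝ) : ℂ) * ((√h.2.2 : ℝ) : ℂ) = (h.2.2 : ℂ) := by
    rw [← ofReal_mul, Real.mul_self_sqrt hs.le]
  have h3 : ((((√h.2.2)⁻¹ : ℝ) : ℂ)) * ((((√h.2.2)⁻¹ : ℝ) : ℂ)) * (h.2.2 : ℂ) = 1 := by
    rw [← h2]
    linear_combination (((√h.2.2 : ℝ) : ℂ) * (((√h.2.2)⁻¹ : ℝ) : ℂ) + 1) * h1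
  have h4 : (h.1 : ℂ) * (h.2.2 : ℂ) = 1 + h.2.1 * conj h.2.1 := by
    rw [Complex.mul_conj]
    exact_mod_cast hh.eq
  have hs0 : (h.2.2 : ℂ) ≠ 0 := by exact_mod_cast hs.ne'
  ext i j
  fin_cases i <;> fin_cases j
  · simp only [ch, toMat, Matrix.mul_apply, Fin.sum_univ_two, Matrix.of_apply, Matrix.cons_val',
      Matrix.cons_val_zero, Matrix.cons_val_one, Matrix.cons_val_fin_one, Fin.mk_zero, Fin.mk_one,
      Fin.zero_eta, Fin.isValue, Matrix.conjTranspose_apply, RCLike.star_def, map_mul, conj_ofReal]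
    apply mul_right_cancel₀ hs0
    linear_combination (1 + h.2.1 * conj h.2.1) * h3 - h4
  · simp only [ch, toMat, Matrix.mul_apply, Fin.sum_univ_two, Matrix.of_apply, Matrix.cons_val',
      Matrix.cons_val_zero, Matrix.cons_val_one, Matrix.cons_val_fin_one, Fin.mk_zero, Fin.mk_one,
      Fin.zero_eta, Fin.isValue, Matrix.conjTranspose_apply, RCLike.star_def, map_mul, conj_ofReal,
      map_zero]
    linear_combination h.2.1 * h1
  · simp only [ch, toMat, Matrix.mul_apply, Fin.sum_univ_two, Matrix.of_apply, Matrix.cons_val',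
      Matrix.cons_val_zero, Matrix.cons_val_one, Matrix.cons_val_fin_one, Fin.mk_zero, Fin.mk_one,
      Fin.zero_eta, Fin.isValue, Matrix.conjTranspose_apply, RCLike.star_def, map_mul, conj_ofReal,
      map_zero]
    linear_combination conj h.2.1 * h1
  · simp only [ch, toMat, Matrix.mul_apply, Fin.sum_univ_two, Matrix.of_apply, Matrix.cons_val',
      Matrix.cons_val_zero, Matrix.cons_val_one, Matrix.cons_val_fin_one, Fin.mk_zero, Fin.mk_one,
      Fin.zero_eta, Fin.isValue, Matrix.conjTranspose_apply, RCLike.star_def, map_mul, conj_ofReal,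
      map_zero]
    linear_combination h2

theorem det_ch {h : V4} (hh : Hyp h) : (ch h).det = 1 := by
  rw [ch, Matrix.det_fin_two_of]
  linear_combination sqrt_inv hh.s_pos

theorem det_chi {h : V4} (hh : Hyp h) : (chi h).det = 1 := by
  rw [chi, Matrix.det_fin_two_of]
  linear_combination sqrt_inv hh.s_pos

/-! ### Free action -/

theorem unitary_entries {U : M2} (hU : U * Uᴴ = 1) (hd : U.det = 1) :
    U 1 1 = conj (U 0 0) ∧ U 1 0 = -conj (U 0 1) ∧ normSq (U 0 0) + normSq (U 0 1) = 1 := by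
  have h1 : U * U.adjugate = 1 := by rw [Matrix.mul_adjugate, hd, one_smul]
  have h2 : U.adjugate * U = 1 := by rw [Matrix.adjugate_mul, hd, one_smul]
  have h3 : Uᴴ = U.adjugate := by
    calc Uᴴ = (U.adjugate * U) * Uᴴ := by rw [h2, one_mul]
      _ = U.adjugate * (U * Uᴴ) := by rw [Matrix.mul_assoc]
      _ = _ := by rw [hU, mul_one]
  rw [Matrix.adjugate_fin_two] at h3
  have e1 := congrFun (congrFun h3 0) 0
  have e2 := congrFun (congrFun h3 1) 0
  have e3 := congrFun (congrFun hU 0) 0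
  simp only [Matrix.conjTranspose_apply, RCLike.star_def, Matrix.of_apply, Matrix.cons_val',
    Matrix.cons_val_zero, Matrix.cons_val_one, Matrix.cons_val_fin_one] at e1 e2
  simp only [Matrix.mul_apply, Fin.sum_univ_two, Matrix.conjTranspose_apply, RCLike.star_def,
    Matrix.one_apply_eq, Complex.mul_conj] at e3
  refine ⟨e1.symm, ?_, by exact_mod_cast e3⟩
  rw [e2, neg_neg]

theorem free (γ : Gam) (x : E3) (h : γ • x = x) : γ = 1 := by
  obtain ⟨M, z, hz, hM⟩ := γ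
  have hfix : lin (M : M2) (io x) = io x := by
    rw [← io_smul]
    exact congrArg io h
  have hH := hyp_io x
  set H := io x with hHdef
  have hmat : (M : M2) * toMat H * (M : M2)ᴴ = toMat H := by
    rw [← toMat_lin, hfix]
  set U : M2 := chi H * (M : M2) * ch H with hU
  have hUU : U * Uᴴ = 1 := by
    rw [hU, conjTranspose_mul, conjTranspose_mul]
    calc chi H * (M : M2) * ch H * ((ch H)ᴴ * ((M : M2)ᴴ * (chi H)ᴴ))
        = chi H * ((M : M2) * (ch H * (ch H)ᴴ) * (M : M2)ᴴ) * (chi H)ᴴ := by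
          simp only [Matrix.mul_assoc]
      _ = chi H * toMat H * (chi H)ᴴ := by rw [ch_mul_conjTranspose hH, hmat]
      _ = (chi H * ch H) * (chi H * ch H)ᴴ := by
          rw [← ch_mul_conjTranspose hH, conjTranspose_mul]
          simp only [Matrix.mul_assoc]
      _ = 1 := by rw [chi_mul_ch hH]; simp
  have hUd : U.det = 1 := by
    rw [hU, Matrix.det_mul, Matrix.det_mul, det_chi hH, det_ch hH, M.det_coe]
    simp
  obtain ⟨u1, u2, u3⟩ := unitary_entries hUU hUd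
  have htr : U.trace = (M : M2).trace := by
    rw [hU, Matrix.trace_mul_comm, ← Matrix.mul_assoc, ch_mul_chi hH, one_mul]
  have htr2 : 2 * (z 0 : ℂ) = U 0 0 + conj (U 0 0) := by
    rw [Matrix.trace_fin_two, Matrix.trace_fin_two, hM, u1] at htr
    rw [htr]
    simp [mat, pA, pA']
    ring
  rw [Complex.add_conj] at htr2
  have h0 : (z 0 : ℂ) = ((U 0 0).re : ℂ) := by
    push_cast at htr2
    linear_combination htr2 / 2
  have him : (z 0).im = 0 := by
    have h1 := congrArg Complex.im h0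
    rw [← GaussianInt.intCast_im, ofReal_im] at h1
    exact_mod_cast h1
  have hre : ((z 0).re : ℝ) = (U 0 0).re := by
    have h1 := congrArg Complex.re h0
    rw [← GaussianInt.intCast_re, ofReal_re] at h1
    exact h1
  have hnn := normSq_nonneg (U 0 1)
  have hsq : (U 0 0).re ^ 2 + (U 0 0).im ^ 2 + normSq (U 0 1) = 1 := by
    rw [← u3, normSq_apply (U 0 0)]
    ring
  have hle : ((z 0).re) ^ 2 ≤ 1 := by
    have h1 : ((z 0).re : ℝ) ^ 2 ≤ 1 := by
      rw [hre]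
      nlinarith [sq_nonneg (U 0 0).im]
    exact_mod_cast h1
  have hre1 : (z 0).re = 1 := by
    obtain ⟨⟨a, ha⟩, -⟩ := hz
    have h1 := congrArg Zsqrtd.re ha
    have h2 : ((3 : GI) * a).re = 3 * a.re := by simp
    have h3 : (z 0 - 1).re = (z 0).re - 1 := by simp
    rw [h2, h3] at h1
    have h4 : -1 ≤ (z 0).re := by nlinarith
    have h5 : (z 0).re ≤ 1 := by nlinarith
    omega
  rw [hre1] at hre
  push_cast at hre
  have hUre : (U 0 0).re = 1 := hre.symm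
  rw [hUre] at hsq
  have hUim : (U 0 0).im = 0 := by nlinarith [sq_nonneg (U 0 0).im]
  have hU01 : U 0 1 = 0 := normSq_eq_zero.1 (by nlinarith [sq_nonneg (U 0 0).im])
  have hU00 : U 0 0 = 1 := Complex.ext hUre hUim
  have hU1 : U = 1 := by
    ext i j
    fin_cases i <;> fin_cases j
    · simpa using hU00
    · simpa using hU01
    · simp [u2, hU01]
    · simp [u1, hU00]
  have hM1 : (M : M2) = 1 := by
    calc (M : M2) = (ch H * chi H) * (M : M2) * (ch H * chi H) := by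
          rw [ch_mul_chi hH, one_mul, mul_one]
      _ = ch H * U * chi H := by rw [hU]; simp only [Matrix.mul_assoc]
      _ = 1 := by rw [hU1, mul_one, ch_mul_chi hH]
  apply Subtype.ext
  apply Subtype.ext
  exact hM1

end Pool.Agent.Helper30.NCL
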