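import Mathlib
import Pool.Agent.Helper30.NCLat2

/-! Proper discontinuity, the tube and the translation. -/

set_option autoImplicit false
set_option linter.unusedSimpArgs false

namespace Pool.Agent.Helper30.NCL

open Matrix Complex ComplexConjugate
open scoped ContDiff
open Pool.Agent.Helper79.NC

/-! ### Proper discontinuity -/

theorem normSq_entries (M : SL2C) (x : E3) :
    normSq ((M : M2) 0 0) ≤ (io (M • x)).1 * (io x).2.2 ∧
    normSq ((M : M2) 0 1) ≤ (io (M • x)).1 * (io x).1 ∧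
    normSq ((M : M2) 1 0) ≤ (io (M • x)).2.2 * (io x).2.2 ∧
    normSq ((M : M2) 1 1) ≤ (io (M • x)).2.2 * (io x).1 := by
  have hh := hyp_io x
  rw [io_smul]
  refine ⟨?_, ?_, ?_, ?_⟩
  · rw [lin_fst_mul_s _ hh]
    have := normSq_nonneg ((M : M2) 0 0 * (io x).2.1 + (M : M2) 0 1 * (io x).2.2)
    linarith
  · rw [lin_fst_mul_p _ hh]
    have := normSq_nonneg ((M : M2) 0 0 * (io x).1 + (M : M2) 0 1 * conj (io x).2.1)
    linarith
  · rw [lin_snd_mul_s _ hh]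
    have := normSq_nonneg ((M : M2) 1 0 * (io x).2.1 + (M : M2) 1 1 * (io x).2.2)
    linarith
  · rw [lin_snd_mul_p _ hh]
    have := normSq_nonneg ((M : M2) 1 0 * (io x).1 + (M : M2) 1 1 * conj (io x).2.1)
    linarith

theorem finite_gi (T : ℝ) : {z : GI | ‖(z : ℂ)‖ ≤ T}.Finite := by
  set N : ℤ := ⌈T⌉ with hN
  have hsub : {z : GI | ‖(z : ℂ)‖ ≤ T} ⊆
      (fun p : ℤ × ℤ => (⟨p.1, p.2⟩ : GI)) '' (Set.Icc (-N) N ×ˢ Set.Icc (-N) N) := by
    intro z hz
    have h1 : |(z.re : ℝ)| ≤ T := by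
      rw [GaussianInt.intCast_re]
      exact (Complex.abs_re_le_norm _).trans hz
    have h2 : |(z.im : ℝ)| ≤ T := by
      rw [GaussianInt.intCast_im]
      exact (Complex.abs_im_le_norm _).trans hz
    have h3 : ∀ a : ℤ, |(a : ℝ)| ≤ T → a ∈ Set.Icc (-N) N := by
      intro a ha
      have h4 : |(a : ℝ)| ≤ (N : ℝ) := ha.trans (Int.le_ceil T)
      rw [abs_le] at h4
      constructor
      · exact_mod_cast h4.1
      · exact_mod_cast h4.2
    exact ⟨(z.re, z.im), ⟨h3 _ h1, h3 _ h2⟩, rfl⟩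
  exact (((Set.finite_Icc _ _).prod (Set.finite_Icc _ _)).image _).subset hsub

theorem norm_r2 : ‖r2‖ = √2 := by
  rw [r2, norm_real, Real.norm_of_nonneg (Real.sqrt_nonneg _)]

theorem one_le_norm_r2 : 1 ≤ ‖r2‖ := by
  rw [norm_r2]
  exact Real.one_le_sqrt.2 (by norm_num)

/-- coordinates of an element of the order are bounded by the entries -/
theorem coord_le {z : Q4} {T : ℝ} (h : ∀ i j, ‖mat z i j‖ ≤ T) : ∀ i, ‖(z i : ℂ)‖ ≤ T := by
  have h00 : ‖pA z‖ ≤ T := by simpa [mat] using h 0 0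
  have h01 : ‖pB z‖ ≤ T := by simpa [mat] using h 0 1
  have h10 : ‖5 * pB' z‖ ≤ T := by simpa [mat] using h 1 0
  have h11 : ‖pA' z‖ ≤ T := by simpa [mat] using h 1 1
  have h10' : ‖pB' z‖ ≤ T := by
    rw [norm_mul] at h10
    have h5 : ‖(5 : ℂ)‖ = 5 := by norm_num
    rw [h5] at h10
    have := norm_nonneg (pB' z)
    linarith
  have key : ∀ u v w : ℂ, ‖u‖ ≤ T → ‖v‖ ≤ T → 2 * w = u + v → ‖w‖ ≤ T := by
    intro u v w hu hv hw
    have h1 : ‖2 * w‖ ≤ ‖u‖ + ‖v‖ := by rw [hw]; exact norm_add_le _ _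
    rw [norm_mul] at h1
    have h2 : ‖(2 : ℂ)‖ = 2 := by norm_num
    rw [h2] at h1
    linarith
  have key2 : ∀ w : ℂ, ‖w * r2‖ ≤ T → ‖w‖ ≤ T := by
    intro w hw
    rw [norm_mul] at hw
    have h1 := one_le_norm_r2
    have h2 := norm_nonneg w
    nlinarith
  have g0 : ‖(z 0 : ℂ)‖ ≤ T := key _ _ _ h00 h11 (by simp only [pA, pA']; ring)
  have g1 : ‖(z 1 : ℂ)‖ ≤ T := key2 _ (key _ _ _ h00 (by rwa [norm_neg] : ‖-pA' z‖ ≤ T)
    (by simp only [pA, pA']; ring))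
  have g2 : ‖(z 2 : ℂ)‖ ≤ T := key _ _ _ h01 h10' (by simp only [pB, pB']; ring)
  have g3 : ‖(z 3 : ℂ)‖ ≤ T := key2 _ (key _ _ _ h01 (by rwa [norm_neg] : ‖-pB' z‖ ≤ T)
    (by simp only [pB, pB']; ring))
  intro i
  fin_cases i
  · exact g0
  · exact g1
  · exact g2
  · exact g3

theorem finite_gam (T : ℝ) : {γ : Gam | ∀ i j, ‖((γ : SL2C) : M2) i j‖ ≤ T}.Finite := by
  have hfin : (Set.pi Set.univ fun _ : Fin 4 => {z : GI | ‖(z : ℂ)‖ ≤ T}).Finite :=
    Set.Finite.pi fun _ => finite_gi T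
  apply Set.Finite.of_finite_image (f := fun γ : Gam => ((γ : SL2C) : M2)) ((hfin.image mat).subset _)
  · intro γ _ δ _ h
    exact Subtype.ext (Subtype.ext h)
  · rintro _ ⟨γ, hγ, rfl⟩
    obtain ⟨z, -, hz⟩ := γ.2
    refine ⟨z, ?_, hz.symm⟩
    rw [Set.mem_pi]
    intro i _
    apply coord_le (z := z)
    intro i j
    have := hγ i j
    rw [hz] at this
    exact this

theorem properlyDiscontinuous (K L : Set E3) (hK : IsCompact K) (hL : IsCompact L) :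
    {γ : Gam | (((fun x : E3 => γ • x) '' K) ∩ L).Nonempty}.Finite := by
  have hc1 : Continuous fun x : E3 => (io x).1 := contDiff_io.continuous.fst
  have hc2 : Continuous fun x : E3 => (io x).2.2 := contDiff_io.continuous.snd.snd
  obtain ⟨a, ha⟩ := (hK.bddAbove_image hc1.continuousOn)
  obtain ⟨b, hb⟩ := (hK.bddAbove_image hc2.continuousOn)
  obtain ⟨c, hc⟩ := (hL.bddAbove_image hc1.continuousOn)
  obtain ⟨d, hd⟩ := (hL.bddAbove_image hc2.continuousOn)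
  have ha' : ∀ x ∈ K, (io x).1 ≤ a := fun x hx => ha ⟨x, hx, rfl⟩
  have hb' : ∀ x ∈ K, (io x).2.2 ≤ b := fun x hx => hb ⟨x, hx, rfl⟩
  have hc' : ∀ x ∈ L, (io x).1 ≤ c := fun x hx => hc ⟨x, hx, rfl⟩
  have hd' : ∀ x ∈ L, (io x).2.2 ≤ d := fun x hx => hd ⟨x, hx, rfl⟩
  set T : ℝ := max (max a b) (max c d) with hT
  have haT : a ≤ T := (le_max_left _ _).trans (le_max_left _ _)
  have hbT : b ≤ T := (le_max_right _ _).trans (le_max_left _ _)
  have hcT : c ≤ T := (le_max_left _ _).trans (le_max_right _ _)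
  have hdT : d ≤ T := (le_max_right _ _).trans (le_max_right _ _)
  apply (finite_gam T).subset
  rintro γ ⟨y, ⟨x, hx, rfl⟩, hy⟩ i j
  have hh := hyp_io x
  have hh' := hyp_io (γ • x)
  obtain ⟨e1, e2, e3, e4⟩ := normSq_entries (γ : SL2C) x
  rw [← gam_smul_def] at e1 e2 e3 e4
  have p1 : (io x).1 ≤ T := (ha' x hx).trans haT
  have s1 : (io x).2.2 ≤ T := (hb' x hx).trans hbT
  have p2 : (io (γ • x)).1 ≤ T := (hc' _ hy).trans hcT
  have s2 : (io (γ • x)).2.2 ≤ T := (hd' _ hy).trans hdT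
  have hT0 : 0 ≤ T := hh.p_pos.le.trans p1
  have key : ∀ w : ℂ, normSq w ≤ T * T → ‖w‖ ≤ T := by
    intro w hw
    rw [normSq_eq_norm_sq, ← sq] at hw
    exact (pow_le_pow_iff_left₀ (norm_nonneg _) hT0 two_ne_zero).1 hw
  apply key
  fin_cases i <;> fin_cases j
  · exact e1.trans (mul_le_mul p2 s1 hh.s_pos.le hT0)
  · exact e2.trans (mul_le_mul p2 p1 hh.p_pos.le hT0)
  · exact e3.trans (mul_le_mul s2 s1 hh.s_pos.le hT0)
  · exact e4.trans (mul_le_mul s2 p1 hh.p_pos.le hT0)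

/-! ### Diagonal elements -/

theorem diag_smul (M : SL2C) (h01 : (M : M2) 0 1 = 0) (h10 : (M : M2) 1 0 = 0)
    (h : (M : M2) 0 0 * conj ((M : M2) 1 1) = 1) (y : E3) :
    M • y = (y.1, y.2 + (1 / 2) * Real.log (normSq ((M : M2) 0 0) / normSq ((M : M2) 1 1))) := by
  have hh := hyp_io y
  have hne : (M : M2) 0 0 ≠ 0 := by
    intro h0
    rw [h0, zero_mul] at h
    exact zero_ne_one h
  have hne' : (M : M2) 1 1 ≠ 0 := by
    intro h0
    rw [h0, map_zero, mul_zero] at h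
    exact zero_ne_one h
  have n0 : 0 < normSq ((M : M2) 0 0) := normSq_pos.2 hne
  have n1 : 0 < normSq ((M : M2) 1 1) := normSq_pos.2 hne'
  rw [smul_def', pj, lin_fst, lin_snd_fst, lin_snd_snd, h01, h10]
  apply Prod.ext
  · simp only [map_zero, mul_zero, zero_mul, zero_add, add_zero]
    rw [h, one_mul]
    rfl
  · simp only [map_zero, mul_zero, zero_mul, zero_add, add_zero, zero_re]
    have h2 : normSq ((M : M2) 0 0) * (io y).1 / (normSq ((M : M2) 1 1) * (io y).2.2)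
        = ((io y).1 / (io y).2.2) * (normSq ((M : M2) 0 0) / normSq ((M : M2) 1 1)) := by
      have := hh.s_pos.ne'
      field_simp
    rw [h2, Real.log_mul (div_pos hh.p_pos hh.s_pos).ne' (div_pos n0 n1).ne', mul_add]
    congr 1
    exact congrArg Prod.snd (pj_io y)

theorem translation : ∃ (γ : Gam) (ℓ : ℝ), 0 < ℓ ∧ ∀ y : E3, γ • y = (y.1, y.2 + ℓ) := by
  set z : Q4 := ![577, 408, 0, 0] with hz
  have t577 : ((577 : GI) : ℂ) = 577 := map_ofNat GaussianInt.toComplex 577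
  have t408 : ((408 : GI) : ℂ) = 408 := map_ofNat GaussianInt.toComplex 408
  have hA : pA z = ((577 + 408 * √2 : ℝ) : ℂ) := by
    simp [pA, hz, r2, t577, t408]
  have hA' : pA' z = ((577 - 408 * √2 : ℝ) : ℂ) := by
    simp [pA', hz, r2, t577, t408]
  have hB : pB z = 0 := by simp [pB, hz]
  have hB' : pB' z = 0 := by simp [pB', hz]
  have hprod : (577 + 408 * √2) * (577 - 408 * √2) = 1 := by
    have h2 : √2 * √2 = 2 := Real.mul_self_sqrt (by norm_num)
    linear_combination -(408 * 408) * h2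
  have hdet : (mat z).det = 1 := by
    rw [mat, Matrix.det_fin_two_of, hA, hA', hB, hB', ← ofReal_mul, hprod]
    simp
  have hcong : Cong z := by
    refine ⟨⟨192, ?_⟩, ⟨136, ?_⟩, ⟨0, ?_⟩, ⟨0, ?_⟩⟩
    · simp [hz]; norm_num
    · simp [hz]; norm_num
    · simp [hz]
    · simp [hz]
  set M : SL2C := ⟨mat z, hdet⟩ with hM
  have hcoe : (M : M2) = mat z := rfl
  have e00 : (M : M2) 0 0 = ((577 + 408 * √2 : ℝ) : ℂ) := by rw [hcoe, mat]; simpa using hA
  have e01 : (M : M2) 0 1 = 0 := by rw [hcoe, mat]; simpa using hB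
  have e10 : (M : M2) 1 0 = 0 := by rw [hcoe, mat]; simpa using hB'
  have e11 : (M : M2) 1 1 = ((577 - 408 * √2 : ℝ) : ℂ) := by rw [hcoe, mat]; simpa using hA'
  have hpos : 0 < 577 + 408 * √2 := by positivity
  have hpos' : 0 < 577 - 408 * √2 := by
    by_contra hcon
    push Not at hcon
    have := mul_nonpos_of_nonneg_of_nonpos hpos.le hcon
    linarith
  have hs : 0 < √2 := Real.sqrt_pos.2 (by norm_num)
  refine ⟨⟨M, z, hcong, rfl⟩, (1 / 2) * Real.log (normSq ((M : M2) 0 0) / normSq ((M : M2) 1 1)), ?_,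
    fun y => ?_⟩
  · apply mul_pos (by norm_num)
    apply Real.log_pos
    rw [e00, e11, normSq_ofReal, normSq_ofReal, one_lt_div (by positivity)]
    nlinarith
  · rw [gam_smul_def]
    apply diag_smul M e01 e10
    rw [e00, e11, conj_ofReal, ← ofReal_mul, hprod, ofReal_one]

/-! ### The tube -/

theorem tube_ineq {C w m : ℝ} (hC : C ^ 2 = 1 + w ^ 2) (hw0 : 0 ≤ w) (hw : w < 1) (hm : 0 ≤ m)
    {X : ℝ} (hX : C ^ 2 * (m ^ 2 - 1) ≤ X ^ 2) (hX0 : 0 ≤ X) (hX1 : X < 1 + w * m) : m < 3 := by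
  have h1 : X ^ 2 < (1 + w * m) ^ 2 := by
    apply pow_lt_pow_left₀ hX1 hX0 (by norm_num)
  rw [hC] at hX
  by_contra hcon
  push Not at hcon
  have h2 : (1 + w ^ 2) * (m ^ 2 - 1) < (1 + w * m) ^ 2 := by linarith
  nlinarith [mul_nonneg hw0 hm, mul_nonneg (sub_nonneg.2 hw.le) hm]

theorem tube (γ : Gam) (x : E3) (hx : ‖x.1‖ < 1) (hx' : ‖(γ • x).1‖ < 1) :
    ∃ ℓ : ℝ, ∀ y : E3, γ • y = (y.1, y.2 + ℓ) := by
  obtain ⟨M, z, hz, hM⟩ := γ
  have hh := hyp_io x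
  have e00 : (M : M2) 0 0 = pA z := by rw [hM, mat]; simp
  have e01 : (M : M2) 0 1 = pB z := by rw [hM, mat]; simp
  have e10 : (M : M2) 1 0 = 5 * pB' z := by rw [hM, mat]; simp
  have e11 : (M : M2) 1 1 = pA' z := by rw [hM, mat]; simp
  have hdet : (M : M2) 0 0 * (M : M2) 1 1 - (M : M2) 0 1 * (M : M2) 1 0 = 1 := by
    rw [← Matrix.det_fin_two]; exact M.det_coe
  set a := (M : M2) 0 0 with ha
  set b := (M : M2) 0 1 with hb
  set c := (M : M2) 1 0 with hc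
  set d := (M : M2) 1 1 with hd
  set n : ℂ := a * d with hn
  have hbc : b * c = n - 1 := by rw [hn]; linear_combination -hdet
  set w := x.1 with hw
  have hww : (io x).2.1 = w := rfl
  set C := cc x with hC
  have hCsq : C ^ 2 = 1 + ‖w‖ ^ 2 := by
    rw [hC, cc_sq, normSq_eq_norm_sq]
  set p := (io x).1 with hp
  set s := (io x).2.2 with hs
  have hps : p * s = C ^ 2 := by rw [hh.eq, hC, cc_sq]; rfl
  -- the new coordinate
  have hnew : (M • x).1 = a * conj c * p + b * conj d * s + (b * conj c * conj w + a * conj d * w) := by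
    have h1 : (M • x).1 = (lin (M : M2) (io x)).2.1 := rfl
    rw [h1, lin_snd_fst, ← ha, ← hb, ← hc, ← hd, ← hp, ← hs, hww]
    ring
  set X1 : ℂ := a * conj c * p with hX1
  set X2 : ℂ := b * conj d * s with hX2
  set m : ℝ := ‖n‖ + ‖n - 1‖ with hm
  have hn1 : ‖X1‖ * ‖X2‖ = C ^ 2 * (‖n‖ * ‖n - 1‖) := by
    rw [← hbc, hn, hX1, hX2, ← hps]
    simp only [norm_mul, RCLike.norm_conj, norm_real, Real.norm_of_nonneg (show 0 ≤ p from hh.p_pos.le),
      Real.norm_of_nonneg (show 0 ≤ s from hh.s_pos.le)]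
    ring
  have hn2 : X1 * conj X2 = n * conj (n - 1) * ((C ^ 2 : ℝ) : ℂ) := by
    rw [← hbc, hn, hX1, hX2, ← hps]
    simp only [map_mul, conj_conj, conj_ofReal]
    push_cast
    ring
  have hn3 : (X1 * conj X2).re = C ^ 2 * ((‖n‖ ^ 2 + ‖n - 1‖ ^ 2 - 1) / 2) := by
    rw [hn2, Complex.re_mul_ofReal, ← normSq_eq_norm_sq, ← normSq_eq_norm_sq, normSq_apply,
      normSq_apply]
    simp
    ring
  have hlow : C ^ 2 * (m ^ 2 - 1) ≤ ‖X1 + X2‖ ^ 2 := by
    have h1 : ‖X1 + X2‖ ^ 2 = ‖X1‖ ^ 2 + ‖X2‖ ^ 2 + 2 * (X1 * conj X2).re := by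
      rw [← normSq_eq_norm_sq, ← normSq_eq_norm_sq, ← normSq_eq_norm_sq, normSq_add]
    rw [h1, hn3]
    have h2 : 2 * (‖X1‖ * ‖X2‖) ≤ ‖X1‖ ^ 2 + ‖X2‖ ^ 2 := by nlinarith [sq_nonneg (‖X1‖ - ‖X2‖)]
    rw [hn1] at h2
    rw [hm]
    nlinarith
  have hupp : ‖X1 + X2‖ < 1 + ‖w‖ * m := by
    have h1 : ‖b * conj c * conj w + a * conj d * w‖ ≤ ‖w‖ * m := by
      refine (norm_add_le _ _).trans (le_of_eq ?_)
      rw [hm, ← hbc, hn]
      simp only [norm_mul, RCLike.norm_conj]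
      ring
    have h2 : X1 + X2 = (M • x).1 - (b * conj c * conj w + a * conj d * w) := by
      rw [hnew]; ring
    have h3 : ‖(M • x).1‖ < 1 := hx'
    calc ‖X1 + X2‖ ≤ ‖(M • x).1‖ + ‖b * conj c * conj w + a * conj d * w‖ := by
          rw [h2]; exact norm_sub_le _ _
      _ < 1 + ‖w‖ * m := by linarith
  have hm3 : m < 3 := tube_ineq hCsq (norm_nonneg _) hx (by positivity) hlow (norm_nonneg _) hupp
  have hn1' : ‖n - 1‖ < 3 := by
    have := norm_nonneg n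
    linarith
  -- arithmetic
  obtain ⟨⟨a0, h0⟩, ⟨a1, h1⟩, ⟨a2, h2⟩, ⟨a3, h3⟩⟩ := hz
  have hg : n - 1 = 45 * (((a2 ^ 2 - 2 * a3 ^ 2 : GI)) : ℂ) := by
    rw [← hbc, e01, e10, pB, pB', h2, h3]
    have t3 : ((3 : GI) : ℂ) = 3 := map_ofNat GaussianInt.toComplex 3
    simp only [GaussianInt.toComplex_mul, GaussianInt.toComplex_sub, t3, tc2, map_pow]
    linear_combination (-45 * (a3 : ℂ) ^ 2) * r2_sq'
  have hgz : (a2 ^ 2 - 2 * a3 ^ 2 : GI) = 0 := by
    by_contra hne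
    have h5 : 1 ≤ (a2 ^ 2 - 2 * a3 ^ 2 : GI).norm := GaussianInt.norm_pos.2 hne
    have h6 : (1 : ℝ) ≤ ‖((a2 ^ 2 - 2 * a3 ^ 2 : GI) : ℂ)‖ ^ 2 := by
      rw [← normSq_eq_norm_sq, ← GaussianInt.intCast_real_norm]
      exact_mod_cast h5
    rw [hg, norm_mul] at hn1'
    have h7 : ‖(45 : ℂ)‖ = 45 := by norm_num
    rw [h7] at hn1'
    nlinarith [norm_nonneg ((a2 ^ 2 - 2 * a3 ^ 2 : GI) : ℂ)]
  obtain ⟨-, -, ha2, ha3⟩ := aniso (x0 := 0) (x1 := 0) (x2 := a2) (x3 := a3) (by rw [hgz]; ring)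
  have hz2 : z 2 = 0 := by rw [h2, ha2, mul_zero]
  have hz3 : z 3 = 0 := by rw [h3, ha3, mul_zero]
  have hb0 : b = 0 := by rw [e01, pB, hz2, hz3]; simp
  have hc0 : c = 0 := by rw [e10, pB', hz2, hz3]; simp
  have had : a * d = 1 := by
    rw [hb0, zero_mul, sub_zero] at hdet
    exact hdet
  -- the argument of `a`
  set α : ℤ := (z 0).re ^ 2 + (z 0).im ^ 2 - 2 * ((z 1).re ^ 2 + (z 1).im ^ 2) with hα
  set β : ℤ := (z 1).im * (z 0).re - (z 1).re * (z 0).im with hβ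
  have hr2 : √2 * √2 = 2 := Real.mul_self_sqrt (by norm_num)
  have ere : (a * conj d).re = α := by
    rw [e00, e11, pA, pA', r2, hα]
    simp only [GaussianInt.toComplex_def, map_sub, map_add, map_mul, conj_ofReal, conj_I]
    simp
    linear_combination (-((z 1 : ℂ)).re ^ 2 - ((z 1 : ℂ)).im ^ 2) * hr2
  have eim : (a * conj d).im = 2 * √2 * β := by
    rw [e00, e11, pA, pA', r2, hβ]
    simp only [GaussianInt.toComplex_def, map_sub, map_add, map_mul, conj_ofReal, conj_I]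
    simp
    ring
  have hnorm : normSq (a * conj d) = 1 := by
    rw [normSq_mul, normSq_conj, ← normSq_mul, had, normSq_one]
  have hαβ : α ^ 2 + 8 * β ^ 2 = 1 := by
    rw [normSq_apply, ere, eim] at hnorm
    have h5 : (α : ℝ) ^ 2 + 8 * (β : ℝ) ^ 2 = 1 := by
      linear_combination hnorm - 4 * (β : ℝ) ^ 2 * hr2
    exact_mod_cast h5
  have hβ0 : β = 0 := by
    by_contra hne
    have h5 : 1 ≤ β ^ 2 := by
      have := sq_pos_of_ne_zero hne
      omega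
    nlinarith [sq_nonneg α]
  have hα1 : α = 1 := by
    rw [hβ0] at hαβ
    have h5 : α ^ 2 = 1 := by linarith
    have h6 : (3 : ℤ) ∣ α - 1 := by
      have g1 := congrArg Zsqrtd.re h0
      have g2 := congrArg Zsqrtd.im h0
      have g3 := congrArg Zsqrtd.re h1
      have g4 := congrArg Zsqrtd.im h1
      simp only [Zsqrtd.re_sub, Zsqrtd.im_sub, Zsqrtd.re_one, Zsqrtd.im_one, Zsqrtd.re_mul,
        Zsqrtd.im_mul, Zsqrtd.re_ofNat, Zsqrtd.im_ofNat] at g1 g2 g3 g4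
      refine ⟨((z 0).re + 1) * a0.re + (z 0).im * a0.im - 2 * ((z 1).re * a1.re + (z 1).im * a1.im), ?_⟩
      rw [hα]
      push_cast at g1 g2 g3 g4
      linear_combination ((z 0).re + 1) * g1 + (z 0).im * g2 - 2 * (z 1).re * g3 - 2 * (z 1).im * g4
    have h7 : (α - 1) * (α + 1) = 0 := by linear_combination h5
    rcases mul_eq_zero.1 h7 with h8 | h8
    · linarith
    · omega
  have hfin : a * conj d = 1 := by
    apply Complex.ext
    · rw [ere, hα1]; simp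
    · rw [eim, hβ0]; simp
  exact ⟨(1 / 2) * Real.log (normSq a / normSq d), fun y => diag_smul M hb0 hc0 hfin y⟩

end Pool.Agent.Helper30.NCL
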