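import Mathlib
import Pool.Agent.Helper30.NCLat3

/-! Cocompactness and the existence of the tube lattice. -/

set_option autoImplicit false
set_option linter.unusedSimpArgs false

namespace Pool.Agent.Helper30.NCL

open Matrix Complex ComplexConjugate MeasureTheory
open scoped ContDiff
open Pool.Agent.Helper79.NC

noncomputable def PMg (r ri w : ℂ) : Matrix (Fin 4) (Fin 4) ℂ :=
  !![r, r * r2, -5 * w * ri, 5 * w * ri * r2;
     -w * ri, w * ri * r2, r, r * r2;
     0, 0, 5 * ri, -5 * ri * r2;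
     ri, -ri * r2, 0, 0]

theorem det_PMg (r ri w : ℂ) : (PMg r ri w).det = 20 * r2 ^ 2 * (r * ri) ^ 2 := by
  rw [PMg, Matrix.det_succ_row_zero]
  simp [Fin.sum_univ_succ, Matrix.det_fin_three, Fin.succAbove, Matrix.submatrix]
  ring

/-- the linear map `x ↦ h⁻¹ X` in coordinates -/
noncomputable def PM (h : V4) : Matrix (Fin 4) (Fin 4) ℂ :=
  PMg ((√h.2.2 : ℝ) : ℂ) (((√h.2.2)⁻¹ : ℝ) : ℂ) h.2.1

theorem det_PM {h : V4} (hh : Hyp h) : (PM h).det = 40 := by
  rw [PM, det_PMg, sqrt_inv hh.s_pos, r2_sq']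
  norm_num

/-- complex coordinates -/
noncomputable def toC (x : Q4) : Fin 4 → ℂ := fun j => (x j : ℂ)

theorem PM_mulVec (h : V4) (x : Q4) : (PM h).mulVec (toC x)
    = ![(chi h * mat x) 0 0, (chi h * mat x) 0 1, (chi h * mat x) 1 0, (chi h * mat x) 1 1] := by
  funext i
  fin_cases i
  · simp [PM, PMg, Matrix.mulVec, dotProduct, Fin.sum_univ_succ, toC, chi, mat, pA, pA', pB, pB',
      Matrix.mul_apply]
    ring
  · simp [PM, PMg, Matrix.mulVec, dotProduct, Fin.sum_univ_succ, toC, chi, mat, pA, pA', pB, pB',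
      Matrix.mul_apply]
    ring
  · simp [PM, PMg, Matrix.mulVec, dotProduct, Fin.sum_univ_succ, toC, chi, mat, pA, pA', pB, pB',
      Matrix.mul_apply]
    ring
  · simp [PM, PMg, Matrix.mulVec, dotProduct, Fin.sum_univ_succ, toC, chi, mat, pA, pA', pB, pB',
      Matrix.mul_apply]
    ring

/-- the real linear map -/
noncomputable def PR (h : V4) : (Fin 4 → ℂ) →ₗ[ℝ] (Fin 4 → ℂ) :=
  (Matrix.toLin' (PM h)).restrictScalars ℝ

theorem det_PR {h : V4} (hh : Hyp h) : LinearMap.det (PR h) = 1600 := by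
  rw [PR, LinearMap.det_restrictScalars, LinearMap.det_toLin', det_PM hh, Algebra.norm_complex_apply]
  norm_num

/-- basis of `ℂ⁴` over `ℝ` spanning the Gaussian integers -/
noncomputable def bas : Module.Basis (Σ _ : Fin 4, Fin 2) ℝ (Fin 4 → ℂ) :=
  Pi.basis fun _ => Complex.basisOneI

/-- additive map from Gaussian quadruples -/
noncomputable def toCHom : Q4 →+ (Fin 4 → ℂ) where
  toFun := toC
  map_zero' := by funext j; simp [toC]
  map_add' x y := by funext j; simp [toC]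

theorem bas_mem (i : Σ _ : Fin 4, Fin 2) : bas i ∈ LinearMap.range toCHom.toIntLinearMap := by
  obtain ⟨j, k⟩ := i
  rw [bas, Pi.basis_apply]
  fin_cases k
  · refine ⟨Pi.single j 1, ?_⟩
    funext l
    show ((Pi.single j 1 : Q4) l : ℂ) = _
    by_cases hl : l = j
    · subst hl; simp
    · simp [Pi.single_eq_of_ne hl]
  · refine ⟨Pi.single j ⟨0, 1⟩, ?_⟩
    funext l
    show ((Pi.single j ⟨0, 1⟩ : Q4) l : ℂ) = _
    by_cases hl : l = j
    · subst hl; simp [GaussianInt.toComplex_def]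
    · simp [Pi.single_eq_of_ne hl]

theorem mem_span {v : Fin 4 → ℂ} (hv : v ∈ Submodule.span ℤ (Set.range bas)) : ∃ x : Q4, toC x = v := by
  have h1 : Submodule.span ℤ (Set.range bas) ≤ LinearMap.range toCHom.toIntLinearMap := by
    rw [Submodule.span_le]
    rintro _ ⟨i, rfl⟩
    exact bas_mem i
  exact h1 hv

/-- **Minkowski** -/
theorem minkowski : ∃ κ : ℝ, 0 ≤ κ ∧ ∀ h : V4, Hyp h → ∃ x : Q4, x ≠ 0 ∧
    ∀ i j, ‖(chi h * mat x) i j‖ ≤ κ := by
  set μ : Measure (Fin 4 → ℂ) := volume with hμ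
  set F := ZSpan.fundamentalDomain bas with hF
  have hFfin : μ F ≠ ⊤ := by
    exact (ZSpan.fundamentalDomain_isBounded bas).measure_lt_top.ne
  set X : ENNReal := μ F * 2 ^ Module.finrank ℝ (Fin 4 → ℂ) with hX
  have hXfin : X ≠ ⊤ := ENNReal.mul_ne_top hFfin (by simp)
  set c : ENNReal := ENNReal.ofReal |(1600 : ℝ)⁻¹| * μ (Metric.ball 0 1) with hc
  have hc0 : c ≠ 0 := by
    apply mul_ne_zero
    · rw [Ne, ENNReal.ofReal_eq_zero, not_le]
      norm_num
    · exact (Metric.measure_ball_pos μ 0 one_pos).ne'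
  obtain ⟨n, hn⟩ := ENNReal.exists_nat_mul_gt hc0 hXfin
  refine ⟨n + 1, by positivity, fun h hh => ?_⟩
  set s : Set (Fin 4 → ℂ) := PR h ⁻¹' Metric.closedBall 0 (n + 1) with hs
  have hdet : LinearMap.det (PR h) ≠ 0 := by rw [det_PR hh]; norm_num
  have hvol : X < μ s := by
    rw [hs, Measure.addHaar_preimage_linearMap μ hdet, det_PR hh,
      Measure.addHaar_closedBall μ _ (by positivity)]
    refine hn.trans_le ?_
    rw [hc, mul_left_comm]
    apply mul_le_mul_right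
    apply mul_le_mul_left
    have hfr : Module.finrank ℝ (Fin 4 → ℂ) = 8 := by
      rw [Module.finrank_pi_fintype]
      simp [Complex.finrank_real_complex]
    rw [hfr, ← ENNReal.ofReal_natCast]
    apply ENNReal.ofReal_le_ofReal
    have h1 : (1 : ℝ) ≤ n + 1 := by
      have : (0 : ℝ) ≤ n := Nat.cast_nonneg n
      linarith
    calc (n : ℝ) ≤ n + 1 := by linarith
      _ = (n + 1) ^ 1 := by ring
      _ ≤ (n + 1) ^ 8 := pow_le_pow_right₀ h1 (by norm_num)
  have hsymm : ∀ x ∈ s, -x ∈ s := by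
    intro x hx
    rw [hs, Set.mem_preimage, mem_closedBall_zero_iff] at hx ⊢
    rw [map_neg, norm_neg]
    exact hx
  have hconv : Convex ℝ s := (convex_closedBall _ _).linear_preimage (PR h)
  have hcount : Countable (Submodule.span ℤ (Set.range bas)).toAddSubgroup := by
    change Countable (Submodule.span ℤ (Set.range bas))
    infer_instance
  obtain ⟨v, hv0, hv⟩ := exists_ne_zero_mem_lattice_of_measure_mul_two_pow_lt_measure
    (μ := μ) (L := (Submodule.span ℤ (Set.range bas)).toAddSubgroup)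
    (ZSpan.isAddFundamentalDomain bas μ) hsymm hconv hvol
  obtain ⟨x, hx⟩ := mem_span v.2
  refine ⟨x, ?_, ?_⟩
  · rintro rfl
    apply hv0
    apply Subtype.ext
    rw [← hx]
    funext j
    simp [toC]
  · rw [← hx, hs, Set.mem_preimage, mem_closedBall_zero_iff] at hv
    have h1 : PR h (toC x) = (PM h).mulVec (toC x) := rfl
    rw [h1, PM_mulVec, pi_norm_le_iff_of_nonneg (by positivity)] at hv
    intro i j
    fin_cases i <;> fin_cases j
    · exact hv 0
    · exact hv 1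
    · exact hv 2
    · exact hv 3

/-! ### Finitely many classes -/

theorem norm_det_le {M : M2} {κ : ℝ} (hκ : 0 ≤ κ) (h : ∀ i j, ‖M i j‖ ≤ κ) : ‖M.det‖ ≤ 2 * κ ^ 2 := by
  rw [Matrix.det_fin_two]
  refine (norm_sub_le _ _).trans ?_
  rw [norm_mul, norm_mul]
  have h1 := mul_le_mul (h 0 0) (h 1 1) (norm_nonneg _) hκ
  have h2 := mul_le_mul (h 0 1) (h 1 0) (norm_nonneg _) hκ
  nlinarith

theorem norm_mul_le' {M N : M2} {κ D : ℝ} (hκ : 0 ≤ κ) (h : ∀ i j, ‖M i j‖ ≤ κ)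
    (h' : ∀ i j, ‖N i j‖ ≤ D) (i j : Fin 2) : ‖(M * N) i j‖ ≤ 2 * κ * D := by
  rw [Matrix.mul_apply, Fin.sum_univ_two]
  refine (norm_add_le _ _).trans ?_
  rw [norm_mul, norm_mul]
  have h1 := mul_le_mul (h i 0) (h' 0 j) (norm_nonneg _) hκ
  have h2 := mul_le_mul (h i 1) (h' 1 j) (norm_nonneg _) hκ
  nlinarith

theorem mat_add (x y : Q4) : mat (x + y) = mat x + mat y := by
  ext i j
  fin_cases i <;> fin_cases j <;> simp [mat, pA, pA', pB, pB'] <;> ring

theorem mat_smul (n : GI) (x : Q4) : mat (fun j => n * x j) = (n : ℂ) • mat x := by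
  ext i j
  fin_cases i <;> fin_cases j <;> simp [mat, pA, pA', pB, pB'] <;> ring

/-- two elements of the order with the same reduced norm `n ≠ 0` which are congruent modulo `3 n`
differ by an element of the group -/
theorem exists_gam {x y : Q4} (hn : nrd x = nrd y) (hy : nrd y ≠ 0)
    (hc : ∀ j, (3 * nrd y) ∣ x j - y j) : ∃ γ : Gam, mat x = ((γ : SL2C) : M2) * mat y := by
  choose t ht using hc
  set n := nrd y with hndef
  set u : Q4 := ![1, 0, 0, 0] + fun j => 3 * (qmul t (qadj y)) j with hu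
  have t3 : ((3 : GI) : ℂ) = 3 := map_ofNat GaussianInt.toComplex 3
  have hmu : mat u = 1 + (3 : ℂ) • (mat t * (mat y).adjugate) := by
    rw [hu, mat_add, mat_smul, mat_mul, mat_adj, t3]
    congr 1
    ext i j
    fin_cases i <;> fin_cases j <;> simp [mat, pA, pA', pB, pB']
  have hx : x = y + fun j => (3 * n) * t j := by
    funext j
    rw [Pi.add_apply, ← ht j]
    ring
  have hmx : mat x = mat u * mat y := by
    rw [hmu, hx, mat_add, mat_smul, Matrix.add_mul, one_mul, Matrix.smul_mul, Matrix.mul_assoc,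
      Matrix.adjugate_mul, det_mat, ← hndef, Matrix.mul_smul, mul_one, smul_smul]
    simp only [GaussianInt.toComplex_mul, t3]
  have hdet : (mat u).det = 1 := by
    have h1 := congrArg Matrix.det hmx
    rw [Matrix.det_mul, det_mat x, det_mat y, hn] at h1
    have h2 : ((nrd y : GI) : ℂ) ≠ 0 := by
      rw [Ne, GaussianInt.toComplex_eq_zero]
      exact hy
    exact (mul_right_cancel₀ h2 (by rw [one_mul]; exact h1)).symm
  have hcong : Cong u := by
    refine ⟨⟨(qmul t (qadj y)) 0, ?_⟩, ⟨(qmul t (qadj y)) 1, ?_⟩, ⟨(qmul t (qadj y)) 2, ?_⟩,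
      ⟨(qmul t (qadj y)) 3, ?_⟩⟩
    · show ((1 : GI) + 3 * (qmul t (qadj y)) 0) - 1 = 3 * (qmul t (qadj y)) 0
      ring
    · show (0 : GI) + 3 * (qmul t (qadj y)) 1 = 3 * (qmul t (qadj y)) 1
      ring
    · show (0 : GI) + 3 * (qmul t (qadj y)) 2 = 3 * (qmul t (qadj y)) 2
      ring
    · show (0 : GI) + 3 * (qmul t (qadj y)) 3 = 3 * (qmul t (qadj y)) 3
      ring
  exact ⟨⟨⟨mat u, hdet⟩, u, hcong, rfl⟩, hmx⟩

theorem dvd_of_zmod {m : ℕ} {a b : GI} (h1 : ((a.re : ℤ) : ZMod m) = b.re)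
    (h2 : ((a.im : ℤ) : ZMod m) = b.im) : ((m : ℤ) : GI) ∣ a - b := by
  rw [← sub_eq_zero, ← Int.cast_sub, ZMod.intCast_zmod_eq_zero_iff_dvd] at h1 h2
  rw [Zsqrtd.intCast_dvd]
  constructor
  · simpa using h1
  · simpa using h2

/-- finitely many representatives -/
theorem exists_reps (T : ℝ) : ∃ S : Set Q4, S.Finite ∧ (∀ y ∈ S, nrd y ≠ 0) ∧
    ∀ x : Q4, x ≠ 0 → ‖(nrd x : ℂ)‖ ≤ T → ∃ y ∈ S, ∃ γ : Gam, mat x = ((γ : SL2C) : M2) * mat y := by
  set A : Set Q4 := {x | x ≠ 0 ∧ ‖(nrd x : ℂ)‖ ≤ T} with hA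
  set Bd : ℕ := ⌈T ^ 2⌉₊ with hBd
  set m : ℕ := 3 * Bd.factorial with hm
  have hm0 : m ≠ 0 := by
    rw [hm]
    exact mul_ne_zero (by norm_num) (Nat.factorial_ne_zero _)
  have : NeZero m := ⟨hm0⟩
  set f : Q4 → GI × (Fin 4 → ZMod m × ZMod m) := fun x =>
    (nrd x, fun j => (((x j).re : ZMod m), ((x j).im : ZMod m))) with hf
  have hfin : (f '' A).Finite := by
    apply ((finite_gi T).prod (Set.toFinite (Set.univ : Set (Fin 4 → ZMod m × ZMod m)))).subset
    rintro _ ⟨x, hx, rfl⟩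
    exact ⟨hx.2, Set.mem_univ _⟩
  obtain ⟨S, hSA, hS⟩ := (Set.surjOn_image f A).exists_bijOn_subset
  refine ⟨S, hS.finite_iff_finite.2 hfin, fun y hy => nrd_ne_zero (hSA hy).1, fun x hx hxT => ?_⟩
  obtain ⟨y, hyS, hyx⟩ := hS.surjOn ⟨x, ⟨hx, hxT⟩, rfl⟩
  have hn : nrd x = nrd y := (congrArg Prod.fst hyx).symm
  have hny := nrd_ne_zero (hSA hyS).1
  refine ⟨y, hyS, exists_gam hn hny fun j => ?_⟩
  have h1 : ((m : ℤ) : GI) ∣ x j - y j := by
    have h2 := congrFun (congrArg Prod.snd hyx) j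
    exact dvd_of_zmod (congrArg Prod.fst h2).symm (congrArg Prod.snd h2).symm
  refine dvd_trans ?_ h1
  have h3 : (nrd y).norm.natAbs ∣ Bd.factorial := by
    apply Nat.dvd_factorial
    · rw [Int.natAbs_pos]
      exact (GaussianInt.norm_pos.2 hny).ne'
    · rw [hBd, ← Nat.cast_le (α := ℝ)]
      refine le_trans ?_ (Nat.le_ceil _)
      have h4 : (((nrd y).norm.natAbs : ℕ) : ℝ) = ‖((nrd y : GI) : ℂ)‖ ^ 2 := by
        rw [← normSq_eq_norm_sq, ← GaussianInt.intCast_real_norm, Nat.cast_natAbs,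
          abs_of_nonneg (GaussianInt.norm_nonneg _)]
      rw [h4]
      exact pow_le_pow_left₀ (norm_nonneg _) (hSA hyS).2 2
  have h6 : ((nrd y : GI)) ∣ (((nrd y).norm : ℤ) : GI) := ⟨star (nrd y), by
    rw [Zsqrtd.norm_eq_mul_conj]⟩
  have h7 : ((((nrd y).norm : ℤ)) : GI) ∣ (((Bd.factorial : ℕ) : ℤ) : GI) := by
    obtain ⟨k, hk⟩ := h3
    refine ⟨((k : ℤ) : GI), ?_⟩
    rw [hk]
    push_cast
    rw [abs_of_nonneg (GaussianInt.norm_nonneg _)]
  rw [hm]
  push_cast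
  exact mul_dvd_mul_left _ (h6.trans (by exact_mod_cast h7))

/-! ### Cocompactness -/

theorem cocompact : ∃ K : Set E3, IsCompact K ∧ ∀ x : E3, ∃ γ : Gam, γ • x ∈ K := by
  obtain ⟨κ, hκ, hmin⟩ := minkowski
  obtain ⟨S, hSfin, hS0, hS⟩ := exists_reps (2 * κ ^ 2)
  -- the bound for the representatives
  obtain ⟨D, hD0, hD⟩ : ∃ D : ℝ, 0 ≤ D ∧ ∀ y ∈ S, ∀ i j, ‖(mat y)⁻¹ i j‖ ≤ D := by
    obtain ⟨D, hD⟩ := (hSfin.image fun y => ∑ i, ∑ j, ‖(mat y)⁻¹ i j‖).bddAbove
    refine ⟨max D 0, le_max_right _ _, fun y hy i j => ?_⟩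
    have h1 : ∑ i, ∑ j, ‖(mat y)⁻¹ i j‖ ≤ D := hD ⟨y, hy, rfl⟩
    have h2 : ‖(mat y)⁻¹ i j‖ ≤ ∑ i, ∑ j, ‖(mat y)⁻¹ i j‖ := by
      refine le_trans ?_ (Finset.single_le_sum (f := fun i => ∑ j, ‖(mat y)⁻¹ i j‖)
        (fun i _ => Finset.sum_nonneg fun j _ => norm_nonneg _) (Finset.mem_univ i))
      exact Finset.single_le_sum (f := fun j => ‖(mat y)⁻¹ i j‖) (fun j _ => norm_nonneg _)
        (Finset.mem_univ j)
    exact (h2.trans h1).trans (le_max_left _ _)
  set κ' : ℝ := 2 * κ * D with hκ'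
  have hκ'0 : 0 ≤ κ' := by positivity
  set R : ℝ := 2 * κ' ^ 2 with hR
  have hR0 : 0 ≤ R := by positivity
  refine ⟨Metric.closedBall 0 R ×ˢ Set.Icc (-R) R, (isCompact_closedBall _ _).prod isCompact_Icc,
    fun x => ?_⟩
  have hh := hyp_io x
  obtain ⟨z, hz0, hz⟩ := hmin (io x) hh
  have hnz : ‖(nrd z : ℂ)‖ ≤ 2 * κ ^ 2 := by
    have h1 := norm_det_le hκ hz
    rw [Matrix.det_mul, det_chi hh, one_mul, det_mat] at h1
    exact h1
  obtain ⟨y, hyS, γ, hγ⟩ := hS z hz0 hnz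
  have hy0 : (mat y).det ≠ 0 := by
    rw [det_mat, Ne, GaussianInt.toComplex_eq_zero]
    exact hS0 y hyS
  have hyu : IsUnit (mat y).det := isUnit_iff_ne_zero.2 hy0
  set G : M2 := chi (io x) * ((γ : SL2C) : M2) with hG
  have hGeq : G = chi (io x) * mat z * (mat y)⁻¹ := by
    rw [hγ, hG]
    calc chi (io x) * ((γ : SL2C) : M2)
        = chi (io x) * ((γ : SL2C) : M2) * (mat y * (mat y)⁻¹) := by
          rw [Matrix.mul_nonsing_inv _ hyu, mul_one]
      _ = _ := by simp only [Matrix.mul_assoc]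
  have hGb : ∀ i j, ‖G i j‖ ≤ κ' := by
    rw [hGeq]
    exact norm_mul_le' hκ hz (hD y hyS)
  have hGd : G.det = 1 := by
    rw [hG, Matrix.det_mul, det_chi hh, (γ : SL2C).det_coe, one_mul]
  -- the inverse
  have hadj : ((γ⁻¹ : Gam) : SL2C) = (γ : SL2C)⁻¹ := rfl
  set γi : M2 := (((γ⁻¹ : Gam) : SL2C) : M2) with hγi
  have hγγ : γi * ((γ : SL2C) : M2) = 1 := by
    have h1 : ((γ⁻¹ : Gam) : SL2C) * (γ : SL2C) = 1 := by rw [hadj]; exact inv_mul_cancel _
    exact congrArg (fun M : SL2C => (M : M2)) h1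
  set g : M2 := γi * ch (io x) with hg
  have hgG : g * G = 1 := by
    rw [hg, hG]
    calc γi * ch (io x) * (chi (io x) * ((γ : SL2C) : M2))
        = γi * (ch (io x) * chi (io x)) * ((γ : SL2C) : M2) := by simp only [Matrix.mul_assoc]
      _ = 1 := by rw [ch_mul_chi hh, mul_one, hγγ]
  have hgadj : g = G.adjugate := by
    calc g = g * (G * G.adjugate) := by rw [Matrix.mul_adjugate, hGd, one_smul, mul_one]
      _ = (g * G) * G.adjugate := (Matrix.mul_assoc g G G.adjugate).symm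
      _ = G.adjugate := by rw [hgG, one_mul]
  have hgb : ∀ i j, ‖g i j‖ ≤ κ' := by
    rw [hgadj, Matrix.adjugate_fin_two]
    intro i j
    fin_cases i <;> fin_cases j
    · simpa using hGb 1 1
    · simpa using hGb 0 1
    · simpa using hGb 1 0
    · simpa using hGb 0 0
  have hmat : toMat (io (γ⁻¹ • x)) = g * gᴴ := by
    rw [gam_smul_def, io_smul, toMat_lin, ← ch_mul_conjTranspose hh, hg, conjTranspose_mul]
    simp only [Matrix.mul_assoc]
    rfl
  have hsq : ∀ i, ‖g i 0‖ ^ 2 + ‖g i 1‖ ^ 2 ≤ R := by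
    intro i
    have h1 := pow_le_pow_left₀ (norm_nonneg _) (hgb i 0) 2
    have h2 := pow_le_pow_left₀ (norm_nonneg _) (hgb i 1) 2
    rw [hR]
    linarith
  have hdiag : ∀ i, (g * gᴴ) i i = ((‖g i 0‖ ^ 2 + ‖g i 1‖ ^ 2 : ℝ) : ℂ) := by
    intro i
    rw [Matrix.mul_apply, Fin.sum_univ_two, Matrix.conjTranspose_apply, Matrix.conjTranspose_apply,
      RCLike.star_def, Complex.mul_conj, Complex.mul_conj, normSq_eq_norm_sq, normSq_eq_norm_sq]
    push_cast
    rfl
  have hp : (io (γ⁻¹ • x)).1 ≤ R := by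
    have h1 := congrFun (congrFun hmat 0) 0
    rw [hdiag] at h1
    have h2 : ((io (γ⁻¹ • x)).1 : ℂ) = ((‖g 0 0‖ ^ 2 + ‖g 0 1‖ ^ 2 : ℝ) : ℂ) := by
      simpa [toMat] using h1
    rw [Complex.ofReal_inj.1 h2]
    exact hsq 0
  have hs : (io (γ⁻¹ • x)).2.2 ≤ R := by
    have h1 := congrFun (congrFun hmat 1) 1
    rw [hdiag] at h1
    have h2 : ((io (γ⁻¹ • x)).2.2 : ℂ) = ((‖g 1 0‖ ^ 2 + ‖g 1 1‖ ^ 2 : ℝ) : ℂ) := by
      simpa [toMat] using h1
    rw [Complex.ofReal_inj.1 h2]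
    exact hsq 1
  refine ⟨γ⁻¹, ?_⟩
  set y' : E3 := γ⁻¹ • x with hy'
  have hh' := hyp_io y'
  have hcc := one_le_cc y'
  have e1 : cc y' * Real.exp y'.2 ≤ R := hp
  have e2 : cc y' * Real.exp (-y'.2) ≤ R := hs
  refine ⟨?_, ?_, ?_⟩
  · rw [mem_closedBall_zero_iff]
    have h1 : 1 + ‖y'.1‖ ^ 2 ≤ R ^ 2 := by
      have h2 := hh'.eq
      rw [normSq_eq_norm_sq] at h2
      have h3 : (io y').2.1 = y'.1 := rfl
      rw [h3] at h2
      rw [← h2, sq]
      exact mul_le_mul hp hs hh'.s_pos.le hR0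
    exact (pow_le_pow_iff_left₀ (norm_nonneg _) hR0 two_ne_zero).1 (by linarith)
  · have h1 := Real.add_one_le_exp (-y'.2)
    have h2 := Real.exp_pos (-y'.2)
    nlinarith
  · have h1 := Real.add_one_le_exp y'.2
    have h2 := Real.exp_pos y'.2
    nlinarith

end Pool.Agent.Helper30.NCL

namespace Pool.Agent.Helper79.NC

/-- There is a tube lattice. -/
theorem existsTubeLattice : ExistsTubeLattice := by
  refine ⟨Pool.Agent.Helper30.NCL.Gam, inferInstance, inferInstance, ?_⟩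
  exact
    { smooth := fun γ => Pool.Agent.Helper30.NCL.contDiff_smul (γ : Pool.Agent.Helper30.NCL.SL2C)
      isometry := fun γ => Pool.Agent.Helper30.NCL.isometry (γ : Pool.Agent.Helper30.NCL.SL2C)
      free := Pool.Agent.Helper30.NCL.free
      properlyDiscontinuous := Pool.Agent.Helper30.NCL.properlyDiscontinuous
      cocompact := Pool.Agent.Helper30.NCL.cocompact
      tube := Pool.Agent.Helper30.NCL.tube
      translation := Pool.Agent.Helper30.NCL.translation }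

end Pool.Agent.Helper79.NC
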